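import Pool.Agent.MP_48b1c3_nt.H54.BV

/-! Definitions for the Siegel-Walfisz theorem and the three primes theorem. -/

namespace Pool.Agent.MP_a96b63_al.H5

open Finset

/-- `exp (2 π i t)` -/
noncomputable def ee (t : ℝ) : ℂ := Complex.exp (2 * Real.pi * Complex.I * t)

/-- the distance to the nearest integer -/
noncomputable def nn (t : ℝ) : ℝ := |t - round t|

/-- the logarithm on the primes -/
noncomputable def lam (n : ℕ) : ℝ := if n.Prime then Real.log n else 0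

/-- the von Mangoldt function -/
noncomputable abbrev vm (n : ℕ) : ℝ := ArithmeticFunction.vonMangoldt n

/-- `(s - 1) ζ(s)` as an entire function -/
noncomputable def gz : ℂ → ℂ := DirichletCharacter.LFunctionTrivChar₁ 1

/-- `ζ(s) - 1 / (s - 1)` as an entire function -/
noncomputable def zH : ℂ → ℂ := dslope gz 1

/-- Riesz means -/
noncomputable def Rz (b : ℕ → ℂ) (x : ℕ) : ℂ := ∑ n ∈ Icc 1 x, b n * ((x : ℂ) - n)

/-- the window -/
def Wd (S : ℕ) : Finset ℕ := Ioc (3 * S) (5 * S)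

/-- exponential sums over the window -/
noncomputable def Ft (S : ℕ) (g : ℕ → ℂ) (θ : ℝ) : ℂ := ∑ t ∈ Wd S, g t * ee (t * θ)

/-- the model sum -/
noncomputable def VV (S : ℕ) (θ : ℝ) : ℂ := Ft S (fun _ => 1) θ

/-- the normalised indicator of the primes `r + W t` -/
noncomputable def ff (W r t : ℕ) : ℝ := (W.totient : ℝ) / W * lam (r + W * t)

/-- the sum over primes -/
noncomputable def FF (W r S : ℕ) (θ : ℝ) : ℂ := Ft S (fun t => (ff W r t : ℂ)) θ

/-- the local factor -/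
noncomputable def GG (W r q : ℕ) (a : ℤ) : ℂ :=
  ∑ c ∈ (range q).filter (fun c => Nat.Coprime (r + W * c) q), ee (a * c / q)

/-- reduced fractions `z.2 / z.1` with denominator in `(w, P]` -/
def Fr (w P : ℕ) : Finset (ℕ × ℕ) :=
  (Ioc w P ×ˢ range P).filter fun z => z.2 < z.1 ∧ Nat.Coprime z.2 z.1

/-- `F` is the model up to an error `E` and one major arc term -/
def Ap (w S : ℕ) (E : ℝ) (F : ℝ → ℂ) : Prop :=
  ∀ θ : ℝ, ∃ D : ℂ, ‖F θ - VV S θ - D‖ ≤ E ∧
    (D = 0 ∨ ∃ z ∈ Fr w S, ‖D‖ ≤ ‖VV S (θ - (z.2 : ℝ) / z.1)‖ / (z.1.totient : ℝ))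

/-- the solutions of the linear equation in the window -/
def Sol (S L : ℕ) : Finset (ℕ × ℕ × ℕ) :=
  (Wd S ×ˢ Wd S ×ˢ Wd S).filter fun t => 45 * t.1 + 36 * t.2.1 + 4 * t.2.2 = L

/-- the primes in a residue class -/
noncomputable def apl (q c n : ℕ) : ℝ := if n ≡ c [MOD q] then lam n else 0

/-- `θ` has a good rational approximation with denominator `q` -/
def Dio (θ : ℝ) (q : ℕ) : Prop :=
  0 < q ∧ ∃ a : ℤ, IsCoprime a (q : ℤ) ∧ |θ - a / q| ≤ 1 / (q : ℝ) ^ 2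

/-- major arcs -/
def Maj (B S : ℕ) (θ : ℝ) : Prop :=
  ∃ (q : ℕ) (a : ℤ), 0 < q ∧ (q : ℝ) ≤ Real.log S ^ B ∧ IsCoprime a (q : ℤ) ∧
    |θ - a / q| ≤ Real.log S ^ B / S

theorem ee_add (x y : ℝ) : ee (x + y) = ee x * ee y := by
  simp only [ee]
  rw [← Complex.exp_add]
  congr 1
  push_cast
  ring

theorem ee_zero : ee 0 = 1 := by simp [ee]

theorem ee_eq (x : ℝ) : ee x = Complex.exp (Complex.I * (2 * Real.pi * x : ℝ)) := by
  simp only [ee]
  congr 1
  push_cast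
  ring

theorem norm_ee (x : ℝ) : ‖ee x‖ = 1 := by
  rw [ee_eq, Complex.norm_exp_I_mul_ofReal]

theorem ee_int (j : ℤ) : ee j = 1 := by
  simp only [ee]
  rw [← Complex.exp_int_mul_two_pi_mul_I j]
  congr 1
  push_cast
  ring

theorem ee_add_int (x : ℝ) (j : ℤ) : ee (x + j) = ee x := by rw [ee_add, ee_int, mul_one]

theorem ee_nat_mul (n : ℕ) (x : ℝ) : ee (n * x) = ee x ^ n := by
  simp only [ee]
  rw [← Complex.exp_nat_mul]
  congr 1
  push_cast
  ring

theorem ee_neg (x : ℝ) : ee (-x) = (starRingEnd ℂ) (ee x) := by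
  rw [ee, ee, ← Complex.exp_conj]
  congr 1
  simp only [map_mul, Complex.conj_ofReal, Complex.conj_I, map_ofNat]
  push_cast
  ring

theorem ee_lip (x : ℝ) : ‖ee x - 1‖ ≤ 7 * |x| := by
  rw [ee_eq]
  refine Real.norm_exp_I_mul_ofReal_sub_one_le.trans ?_
  rw [Real.norm_eq_abs, abs_mul, abs_of_pos Real.two_pi_pos]
  exact mul_le_mul_of_nonneg_right (by linarith [Real.pi_lt_d2]) (abs_nonneg x)

theorem nn_nonneg (x : ℝ) : 0 ≤ nn x := abs_nonneg _

theorem nn_le (x : ℝ) (j : ℤ) : nn x ≤ |x - j| := round_le x j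

theorem nn_le_half (x : ℝ) : nn x ≤ 1 / 2 := abs_sub_round x

theorem nn_le_ee (x : ℝ) : 4 * nn x ≤ ‖ee x - 1‖ := by
  have h1 : ee x = ee (x - round x) := by
    rw [← ee_add_int (x - round x) (round x), sub_add_cancel]
  have h2 := nn_le_half x
  rw [h1, ee_eq, Complex.norm_exp_I_mul_ofReal_sub_one, nn] at *
  set y := x - round x
  have h3 : 2 * Real.pi * y / 2 = Real.pi * y := by ring
  have h4 : |Real.pi * y| = Real.pi * |y| := by rw [abs_mul, abs_of_pos Real.pi_pos]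
  have h5 := Real.mul_abs_le_abs_sin (x := Real.pi * y)
    (by rw [h4]; nlinarith [Real.pi_pos])
  have h6 : 2 / Real.pi * (Real.pi * |y|) = 2 * |y| := by field_simp
  rw [h4, h6] at h5
  rw [h3, Real.norm_eq_abs, abs_mul, abs_two]
  linarith

theorem ee_ne_one {a : ℤ} {q : ℕ} (hq : 0 < q) (h : ¬ (q : ℤ) ∣ a) : ee ((a : ℝ) / q) ≠ 1 := by
  intro e
  have h1 := nn_le_ee ((a : ℝ) / q)
  rw [e, sub_self, norm_zero] at h1
  have h2 : |(a : ℝ) / q - round ((a : ℝ) / q)| = 0 :=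
    le_antisymm (by rw [nn] at h1; linarith) (abs_nonneg _)
  have q0 : (q : ℝ) ≠ 0 := by exact_mod_cast hq.ne'
  rw [abs_eq_zero, sub_eq_zero, div_eq_iff q0] at h2
  exact h ⟨round ((a : ℝ) / q), by rw [mul_comm]; exact_mod_cast h2⟩

theorem lam_nonneg (n : ℕ) : 0 ≤ lam n := by
  unfold lam
  split_ifs
  · exact Real.log_natCast_nonneg n
  · exact le_rfl

theorem lam_le_log (n : ℕ) : lam n ≤ Real.log n := by
  unfold lam
  split_ifs
  · exact le_rfl
  · exact Real.log_natCast_nonneg n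

theorem lam_le_vm (n : ℕ) : lam n ≤ vm n := by
  unfold lam
  split_ifs with h
  · exact (ArithmeticFunction.vonMangoldt_apply_prime h).ge
  · exact ArithmeticFunction.vonMangoldt_nonneg

theorem sum_vm_sub_lam {x : ℕ} (hx : 1 ≤ x) :
    ∑ n ∈ Ioc 0 x, (vm n - lam n) ≤ 2 * √(x : ℝ) * Real.log x := by
  have h := Chebyshev.psi_sub_theta_le (x := x) (by exact_mod_cast hx)
  rw [Chebyshev.psi_sub_theta_eq_sum_not_prime, Nat.floor_natCast, sum_filter] at h
  refine le_trans (le_of_eq (sum_congr rfl fun n _ => ?_)) h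
  unfold lam
  by_cases hp : n.Prime
  · simp [hp, ArithmeticFunction.vonMangoldt_apply_prime hp]
  · simp [hp]

theorem card_Wd (S : ℕ) : #(Wd S) = 2 * S := by
  rw [Wd, Nat.card_Ioc]
  omega

theorem Ft_add_int (S : ℕ) (g : ℕ → ℂ) (θ : ℝ) (j : ℤ) : Ft S g (θ + j) = Ft S g θ := by
  refine sum_congr rfl fun t _ => ?_
  rw [mul_add, show (t : ℝ) * j = ((t * j : ℤ) : ℝ) by push_cast; ring, ee_add_int]

theorem norm_VV_le (S : ℕ) (θ : ℝ) : ‖VV S θ‖ ≤ 2 * S := by
  rw [VV, Ft]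
  refine (norm_sum_le _ _).trans (le_of_eq ?_)
  simp [norm_ee, card_Wd]

theorem geom_ee (θ : ℝ) (y z : ℕ) : 2 * nn θ * ‖∑ t ∈ Ioc y z, ee (t * θ)‖ ≤ 1 := by
  rcases le_or_gt y z with h | h
  · have e : (ee θ - 1) * ∑ t ∈ Ioc y z, ee (t * θ) = ee θ ^ (z + 1) - ee θ ^ (y + 1) := by
      induction z, h using Nat.le_induction with
      | base => simp
      | succ z hz ih =>
        rw [sum_Ioc_succ_top hz, mul_add, ih, ee_nat_mul]
        ring
    have h1 : ‖ee θ ^ (z + 1) - ee θ ^ (y + 1)‖ ≤ 2 := by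
      refine (norm_sub_le _ _).trans ?_
      simp only [norm_pow, norm_ee, one_pow]
      norm_num
    rw [← e, norm_mul] at h1
    have := mul_le_mul_of_nonneg_right (nn_le_ee θ) (norm_nonneg (∑ t ∈ Ioc y z, ee (t * θ)))
    linarith
  · rw [Ioc_eq_empty (by omega)]
    simp

theorem nn_mul_VV (S : ℕ) (θ : ℝ) : 2 * nn θ * ‖VV S θ‖ ≤ 1 := by
  simpa [VV, Ft, Wd] using geom_ee θ (3 * S) (5 * S)

theorem orth {Q : ℕ} (hQ : 0 < Q) (m : ℤ) :
    ∑ j ∈ range Q, ee (j * ((m : ℝ) / Q)) = if (Q : ℤ) ∣ m then (Q : ℂ) else 0 := by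
  have q0 : (Q : ℝ) ≠ 0 := by exact_mod_cast hQ.ne'
  simp only [ee_nat_mul]
  split_ifs with h
  · obtain ⟨c, rfl⟩ := h
    rw [show (((Q * c : ℤ) : ℝ) / Q) = c by push_cast; field_simp, ee_int]
    simp
  · rw [geom_sum_eq (ee_ne_one hQ h), ← ee_nat_mul, mul_div_cancel₀ _ q0, ee_int, sub_self,
      zero_div]

theorem abel (u g : ℕ → ℂ) {y z : ℕ} (hyz : y ≤ z) {B : ℝ}
    (h : ∀ j, y ≤ j → j ≤ z → ‖∑ n ∈ Ioc y j, u n‖ ≤ B) :
    ‖∑ n ∈ Ioc y z, u n * g n‖ ≤ B * (‖g z‖ + ∑ n ∈ Ico y z, ‖g (n + 1) - g n‖) := by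
  have key : ∀ j, y ≤ j → j ≤ z → ‖∑ n ∈ Ioc y j, u n * g n - (∑ n ∈ Ioc y j, u n) * g j‖ ≤
      B * ∑ n ∈ Ico y j, ‖g (n + 1) - g n‖ := by
    intro j hj
    induction j, hj using Nat.le_induction with
    | base => simp
    | succ j hj ih =>
      intro hz
      have e : ∑ n ∈ Ioc y (j + 1), u n * g n - (∑ n ∈ Ioc y (j + 1), u n) * g (j + 1) =
          (∑ n ∈ Ioc y j, u n * g n - (∑ n ∈ Ioc y j, u n) * g j) -
            (∑ n ∈ Ioc y j, u n) * (g (j + 1) - g j) := by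
        rw [sum_Ioc_succ_top hj, sum_Ioc_succ_top hj]
        ring
      rw [e, sum_Ico_succ_top hj, mul_add]
      refine (norm_sub_le _ _).trans (add_le_add (ih (by omega)) ?_)
      rw [norm_mul]
      exact mul_le_mul_of_nonneg_right (h j hj (by omega)) (norm_nonneg _)
  have h1 := norm_add_le (∑ n ∈ Ioc y z, u n * g n - (∑ n ∈ Ioc y z, u n) * g z)
    ((∑ n ∈ Ioc y z, u n) * g z)
  have h2 := mul_le_mul_of_nonneg_right (h z hyz le_rfl) (norm_nonneg (g z))
  rw [sub_add_cancel, norm_mul] at h1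
  linarith [key z hyz le_rfl]

/-- powers of the logarithm are eventually small -/
theorem ev_log (k : ℕ) {c r : ℝ} (hr : 0 < r) :
    ∀ᶠ x : ℕ in Filter.atTop, c * Real.log x ^ k ≤ (x : ℝ) ^ r := by
  have h := (isLittleO_log_rpow_rpow_atTop (k : ℝ) hr).bound
    (c := 1 / (|c| + 1)) (by positivity)
  filter_upwards [tendsto_natCast_atTop_atTop.eventually h] with x hx
  have h0 := Real.log_natCast_nonneg x
  rw [Real.rpow_natCast, Real.norm_of_nonneg (by positivity), Real.norm_of_nonneg (by positivity),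
    one_div, ← div_eq_inv_mul, le_div_iff₀ (by positivity)] at hx
  nlinarith [le_abs_self c, pow_nonneg h0 k]

theorem ev_log_ge (c : ℝ) : ∀ᶠ x : ℕ in Filter.atTop, c ≤ Real.log x :=
  (Real.tendsto_log_atTop.comp tendsto_natCast_atTop_atTop).eventually_ge_atTop c

end Pool.Agent.MP_a96b63_al.H5

namespace Pool.Agent.MP_a96b63_al.H5

theorem nabs_near {z w : ℂ} {R : ℝ} (h : ‖w - z‖ ≤ R) :
    z.re - R ≤ w.re ∧ w.re ≤ z.re + R ∧ ∀ y : ℝ, |w.im - y| ≤ |z.im - y| + R := by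
  have a1 := Complex.abs_re_le_norm (w - z)
  have a2 := Complex.abs_im_le_norm (w - z)
  rw [Complex.sub_re, abs_le] at a1
  rw [Complex.sub_im] at a2
  refine ⟨by linarith [a1.1], by linarith [a1.2], fun y => ?_⟩
  have a3 := abs_sub_le w.im z.im y
  linarith

theorem abs_lip {r D : ℝ} (hr : 0 < r) (hr1 : r ≤ 1) (hD : 0 < D) (f : ℂ → ℂ) (y U : ℝ)
    (hf : Differentiable ℂ f)
    (h : ∀ z : ℂ, 1 - r ≤ z.re → z.re ≤ 4 → |z.im - y| ≤ 2 → ‖f z‖ ≤ D * U) :
    (∀ z : ℂ, 1 - r / 2 ≤ z.re → z.re ≤ 3 → |z.im - y| ≤ 1 → ‖deriv f z‖ ≤ 2 * D / r * U) ∧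
      ∀ z w : ℂ, 1 - r / 2 ≤ z.re → z.re ≤ 3 → |z.im - y| ≤ 1 →
        1 - r / 2 ≤ w.re → w.re ≤ 3 → |w.im - y| ≤ 1 →
          ‖f w - f z‖ ≤ 2 * D / r * U * ‖w - z‖ := by
  have k1 : ∀ z : ℂ, 1 - r / 2 ≤ z.re → z.re ≤ 3 → |z.im - y| ≤ 1 →
      ‖deriv f z‖ ≤ 2 * D / r * U := by
    intro z a1 a2 a3
    have key := Complex.norm_deriv_le_of_forall_mem_sphere_norm_le (c := z) (R := r / 2)
      (C := D * U) (f := f) (by positivity) hf.diffContOnCl (fun w hw => ?_)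
    · refine key.trans_eq ?_
      field_simp
    · obtain ⟨b1, b2, b3⟩ := nabs_near (mem_sphere_iff_norm.mp hw).le
      exact h w (by linarith) (by linarith) (by linarith [b3 y])
  refine ⟨k1, fun z w a1 a2 a3 b1 b2 b3 => ?_⟩
  have hK : Convex ℝ (({c : ℂ | 1 - r / 2 ≤ c.re} ∩ {c : ℂ | c.re ≤ 3}) ∩
      ({c : ℂ | y - 1 ≤ c.im} ∩ {c : ℂ | c.im ≤ y + 1})) :=
    ((convex_halfSpace_re_ge _).inter (convex_halfSpace_re_le _)).inter
      ((convex_halfSpace_im_ge _).inter (convex_halfSpace_im_le _))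
  rw [abs_le] at a3 b3
  refine hK.norm_image_sub_le_of_norm_deriv_le (fun x _ => hf x)
    (fun x hx => k1 x hx.1.1 hx.1.2 (abs_le.mpr ⟨?_, ?_⟩))
    ⟨⟨a1, a2⟩, show y - 1 ≤ z.im by linarith, show z.im ≤ y + 1 by linarith⟩
    ⟨⟨b1, b2⟩, show y - 1 ≤ w.im by linarith, show w.im ≤ y + 1 by linarith⟩
  · linarith [show y - 1 ≤ x.im from hx.2.1]
  · linarith [show x.im ≤ y + 1 from hx.2.2]

theorem nabs_min {A : ℝ} (B : ℝ) {C : ℝ} (hA : 0 < A) (hB : 0 < B) (hC : 0 < C) :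
    ∃ b : ℝ, 0 < b ∧ b ≤ A ∧ B * b ≤ C := by
  refine ⟨min A (C / B), by positivity, min_le_left _ _, ?_⟩
  have := min_le_right A (C / B)
  rwa [le_div_iff₀' hB] at this

theorem abs_lower {D E : ℝ} (hD : 0 < D) (hE : 0 < E) : ∃ c : ℝ, 0 < c ∧
    ∀ (f : ℝ → ℂ) (U : ℝ), 1 ≤ U →
      (∀ σ τ : ℝ, 1 ≤ σ → σ ≤ 2 → 1 ≤ τ → τ ≤ 2 → ‖f σ - f τ‖ ≤ D * U * |σ - τ|) →
      (∀ x : ℝ, 0 < x → x ≤ 1 → x ^ 3 ≤ E * U ^ 2 * ‖f (1 + x)‖ ^ 4) →
      ∀ σ : ℝ, 1 < σ → σ ≤ 2 → c / U ^ 6 ≤ ‖f σ‖ := by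
  obtain ⟨b, hb0, hb1, hb2⟩ := nabs_min (16 * D ^ 4 * E) one_pos (by positivity) one_pos
  refine ⟨D * b, by positivity, fun f U hU1 HL H σ hs1 hs2 => ?_⟩
  have hU0 : 0 < U := by linarith
  obtain ⟨x, hx⟩ : ∃ x : ℝ, x = b / U ^ 6 := ⟨_, rfl⟩
  have hx0 : 0 < x := by rw [hx]; positivity
  have hx1 : x ≤ 1 := by
    rw [hx]
    exact (div_le_self hb0.le (one_le_pow₀ hU1)).trans hb1
  have key : ∀ t : ℝ, x ≤ t → t ≤ 1 → 2 * D * U * x ≤ ‖f (1 + t)‖ := by
    intro t h1 h2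
    by_contra hc
    have e1 : E * U ^ 2 * ‖f (1 + t)‖ ^ 4 < E * U ^ 2 * (2 * D * U * x) ^ 4 :=
      mul_lt_mul_of_pos_left (pow_lt_pow_left₀ (not_le.mp hc) (norm_nonneg _) (by norm_num))
        (by positivity)
    have e2 : E * U ^ 2 * (2 * D * U * x) ^ 4 = 16 * D ^ 4 * E * (x * U ^ 6) * x ^ 3 := by ring
    have e3 : x * U ^ 6 = b := by rw [hx]; field_simp
    have e4 : x ^ 3 ≤ t ^ 3 := by gcongr
    have e5 : 16 * D ^ 4 * E * b * x ^ 3 ≤ 1 * x ^ 3 := by gcongr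
    rw [e2, e3] at e1
    linarith [H t (by linarith) h2]
  have k9 : D * 1 * x ≤ D * U * x := by gcongr
  have k0 : 0 < D * 1 * x := by positivity
  have e : D * b / U ^ 6 = D * 1 * x := by rw [hx]; ring
  rw [e]
  rcases le_total x (σ - 1) with hσ | hσ
  · have := key _ hσ (by linarith)
    rw [add_sub_cancel] at this
    linarith
  · have k4 := key x le_rfl hx1
    have k5 := HL (1 + x) σ (by linarith) (by linarith) hs1.le hs2
    have k6 : |1 + x - σ| ≤ x := abs_le.2 ⟨by linarith, by linarith⟩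
    have k7 : D * U * |1 + x - σ| ≤ D * U * x := by gcongr
    have k8 := norm_add_le (f (1 + x) - f σ) (f σ)
    rw [sub_add_cancel] at k8
    linarith

theorem abs_log (k : ℕ) {r D E : ℝ} (hr : 0 < r) (hr1 : r ≤ 1) (hD : 0 < D) (hE : 0 < E) :
    ∃ C : ℝ, 0 < C ∧ ∀ (f : ℂ → ℂ) (s : ℂ) (U : ℝ), Differentiable ℂ f → 1 ≤ U →
      1 < s.re → s.re ≤ 2 →
      (∀ z : ℂ, 1 - r ≤ z.re → z.re ≤ 4 → |z.im - s.im| ≤ 2 → ‖f z‖ ≤ D * U) →
      (∀ x : ℝ, 0 < x → x ≤ 1 → x ^ 3 ≤ E * U ^ 2 * ‖f (1 + x + Complex.I * s.im)‖ ^ 4) →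
      ‖iteratedDeriv k (fun z => -deriv f z / f z) s‖ ≤ C * U ^ (7 * (k + 1)) := by
  obtain ⟨D', hD'⟩ : ∃ D' : ℝ, D' = 2 * D / r := ⟨_, rfl⟩
  have hD0 : 0 < D' := by rw [hD']; positivity
  obtain ⟨c, hc, Hc⟩ := abs_lower hD0 hE
  obtain ⟨ρ, hr0, hρ1, hρ2⟩ := nabs_min (2 * D') (half_pos hr) (by positivity) hc
  refine ⟨k.factorial * (2 * D' / c) / ρ ^ k, by positivity, fun f s U hf hU1 hs1 hs2 h H => ?_⟩
  obtain ⟨HL', HL⟩ := abs_lip hr hr1 hD f s.im U hf h
  rw [← hD'] at HL HL'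
  have hU0 : 0 < U := by linarith
  have Hs := Hc (fun σ => f (σ + Complex.I * s.im)) U hU1 (fun σ τ a1 a2 a3 a4 => by
    have := HL (τ + Complex.I * s.im) (σ + Complex.I * s.im) (by simp; linarith)
      (by simp; linarith) (by simp) (by simp; linarith) (by simp; linarith) (by simp)
    rwa [add_sub_add_right_eq_sub, ← Complex.ofReal_sub, Complex.norm_real,
      Real.norm_eq_abs] at this) (fun x a1 a2 => by simpa using H x a1 a2) s.re hs1 hs2
  rw [mul_comm Complex.I, Complex.re_add_im] at Hs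
  have hρ : ρ / U ^ 7 ≤ r / 2 := (div_le_self hr0.le (one_le_pow₀ hU1)).trans hρ1
  have hball : ∀ z ∈ Metric.closedBall s (ρ / U ^ 7),
      1 - r / 2 ≤ z.re ∧ z.re ≤ 3 ∧ |z.im - s.im| ≤ 1 := by
    intro z hz
    obtain ⟨b1, b2, b3⟩ := nabs_near (mem_closedBall_iff_norm.mp hz)
    have := b3 s.im
    rw [sub_self, abs_zero] at this
    exact ⟨by linarith, by linarith, by linarith⟩
  have hlow : ∀ z ∈ Metric.closedBall s (ρ / U ^ 7), c / 2 / U ^ 6 ≤ ‖f z‖ := by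
    intro z hz
    have hz' : ‖z - s‖ ≤ ρ / U ^ 7 := mem_closedBall_iff_norm.mp hz
    obtain ⟨a1, a2, a3⟩ := hball z hz
    have k1 := HL s z (by linarith) (by linarith) (by simp) a1 a2 a3
    have k2 : D' * U * ‖z - s‖ ≤ c / 2 / U ^ 6 := by
      calc D' * U * ‖z - s‖ ≤ D' * U * (ρ / U ^ 7) := by gcongr
        _ = (2 * D' * ρ) / 2 / U ^ 6 := by field_simp
        _ ≤ _ := by gcongr
    have k3 : ‖f s‖ ≤ ‖f z‖ + ‖f z - f s‖ := by simpa using norm_sub_le (f z) (f z - f s)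
    have k4 : c / U ^ 6 = c / 2 / U ^ 6 + c / 2 / U ^ 6 := by ring
    linarith
  have hpos : 0 < c / 2 / U ^ 6 := by positivity
  have hdiff : DifferentiableOn ℂ (fun z => -deriv f z / f z)
      (Metric.closedBall s (ρ / U ^ 7)) := by
    intro z hz
    have hne : f z ≠ 0 := norm_pos_iff.mp (hpos.trans_le (hlow z hz))
    exact (((hf.deriv z).fun_neg).fun_div (hf z) hne).differentiableWithinAt
  have key := Complex.norm_iteratedDeriv_le_of_forall_mem_sphere_norm_le (c := s)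
    (R := ρ / U ^ 7) (C := 2 * D' / c * U ^ 7) k (by positivity)
    (hdiff.mono Metric.closure_ball_subset_closedBall).diffContOnCl (fun z hz => ?_)
  · refine key.trans_eq ?_
    rw [div_pow, ← pow_mul]
    field_simp
    ring
  · have hz' := Metric.sphere_subset_closedBall hz
    obtain ⟨a1, a2, a3⟩ := hball z hz'
    rw [norm_div, norm_neg]
    calc _ ≤ D' * U / (c / 2 / U ^ 6) := by
          gcongr
          · exact HL' z a1 a2 a3
          · exact hlow z hz'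
      _ = _ := by field_simp

theorem abs_iter (k : ℕ) {r M : ℝ} (hr : 0 < r) (hr1 : r ≤ 1) {f : ℂ → ℂ} {s : ℂ}
    (hf : Differentiable ℂ f) (h1 : 1 < s.re) (h2 : s.re ≤ 2)
    (h : ∀ z : ℂ, 1 - r ≤ z.re → z.re ≤ 4 → |z.im - s.im| ≤ 2 → ‖f z‖ ≤ M) :
    ‖iteratedDeriv k f s‖ ≤ k.factorial * M / r ^ k := by
  refine Complex.norm_iteratedDeriv_le_of_forall_mem_sphere_norm_le k hr hf.diffContOnCl
    fun z hz => ?_
  obtain ⟨b1, b2, b3⟩ := nabs_near (mem_sphere_iff_norm.mp hz).le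
  have := b3 s.im
  rw [sub_self, abs_zero] at this
  exact h z (by linarith) (by linarith) (by linarith)

end Pool.Agent.MP_a96b63_al.H5

/-! Growth of L-functions near the line `re s = 1`. -/

namespace Pool.Agent.MP_a96b63_al.H5

open Finset DirichletCharacter MP_48b1c3_nt.H54

theorem ngrow_norm {s : ℂ} (h0 : 0 ≤ s.re) (h4 : s.re ≤ 4) : ‖s‖ ≤ |s.im| + 4 := by
  have := Complex.norm_le_abs_re_add_abs_im s
  rw [abs_of_nonneg h0] at this
  linarith

theorem lg_le {η : ℝ} (h0 : 0 < η) (h1 : η ≤ 1) : ∃ C : ℝ, 0 < C ∧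
    ∀ (a : ℕ → ℂ) (Q : ℝ) (s : ℂ), 1 ≤ Q → (∀ N, ‖∑ m ∈ range N, a (m + 1)‖ ≤ Q) →
      (∀ n, ‖a n‖ ≤ 1) → 1 - η / 2 ≤ s.re → s.re ≤ 4 →
        ‖lbound_G a s‖ ≤ C * (Q * (|s.im| + 2)) ^ η := by
  have hK := lbound_summable (half_pos h0)
  have K0 := lbound_K_pos (half_pos h0)
  set K := ∑' n : ℕ, (n + 1 : ℝ) ^ (-(η / 2) - 1) with hKd
  refine ⟨(2 * K + 1) * 4, by positivity, fun a Q s hQ1 hQ ha hs hs4 => ?_⟩
  have t0 := abs_nonneg s.im
  obtain ⟨M, M1, M2, M3⟩ : ∃ M : ℕ, (1 : ℝ) ≤ M ∧ Q * ‖s‖ ≤ M ∧ M ≤ 4 * (Q * (|s.im| + 2)) := by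
    have a1 := Nat.le_ceil (Q * ‖s‖)
    have a2 := Nat.ceil_lt_add_one (show 0 ≤ Q * ‖s‖ by positivity)
    have a3 := mul_le_mul_of_nonneg_left (ngrow_norm (s := s) (by linarith) hs4)
      (show 0 ≤ Q by linarith)
    have a4 : (0 : ℝ) ≤ ⌈Q * ‖s‖⌉₊ := Nat.cast_nonneg _
    refine ⟨⌈Q * ‖s‖⌉₊ + 1, ?_, ?_, ?_⟩ <;> push_cast <;> nlinarith
  have hz : Summable fun n => (∑ m ∈ range (n + 1), a (m + 1)) * lbound_d n s :=
    ((lbound_summable (δ := s.re) (by linarith)).mul_left (Q * ‖s‖)).of_norm_bounded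
      fun n => lbound_term_le hQ (by linarith) le_rfl n
  have e : ∀ N : ℕ, ∑ n ∈ range N, (∑ m ∈ range (n + 1), a (m + 1)) * lbound_d n s =
      ∑ m ∈ range N, a (m + 1) * Complex.exp (-s * Real.log (m + 1 : ℝ)) -
        (∑ m ∈ range N, a (m + 1)) * Complex.exp (-s * Real.log (N + 1 : ℝ)) := fun N => by
    induction N with
    | zero => simp
    | succ N ih =>
      rw [sum_range_succ _ N, ih, lbound_d, sum_range_succ (fun m => a (m + 1)) N,
        sum_range_succ (fun m => a (m + 1) * Complex.exp (-s * Real.log (m + 1 : ℝ))) N]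
      push_cast
      ring
  have Mη : 0 < (M : ℝ) ^ η := by positivity
  have b1 : ‖∑ m ∈ range M, a (m + 1) * Complex.exp (-s * Real.log (m + 1 : ℝ))‖ ≤
      (M : ℝ) ^ η * K := by
    refine (norm_sum_le _ _).trans ((sum_le_sum fun m hm => ?_).trans
      ((mul_sum _ _ _).symm.le.trans (mul_le_mul_of_nonneg_left
        (hK.sum_le_tsum (range M) fun n _ => by positivity) Mη.le)))
    have m1 : (1 : ℝ) ≤ m + 1 := by linarith [(m.cast_nonneg : (0 : ℝ) ≤ m)]
    have m2 : (m + 1 : ℝ) ≤ M := by exact_mod_cast mem_range.1 hm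
    rw [norm_mul, MP_f0209c_nt.norm_pw _ (by linarith), Complex.neg_re]
    calc _ ≤ (m + 1 : ℝ) ^ (-s.re) := mul_le_of_le_one_left (by positivity) (ha _)
      _ ≤ (m + 1 : ℝ) ^ (η + (-(η / 2) - 1)) := Real.rpow_le_rpow_of_exponent_le m1 (by linarith)
      _ ≤ _ := by
        rw [Real.rpow_add (by linarith)]
        exact mul_le_mul_of_nonneg_right (Real.rpow_le_rpow (by linarith) m2 h0.le)
          (by positivity)
  have b2 : ‖(∑ m ∈ range M, a (m + 1)) * Complex.exp (-s * Real.log (M + 1 : ℝ))‖ ≤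
      (M : ℝ) ^ η := by
    have c1 : ‖∑ m ∈ range M, a (m + 1)‖ ≤ M := by
      refine (norm_sum_le _ _).trans ((sum_le_sum fun m _ => ha (m + 1)).trans ?_)
      simp
    rw [norm_mul, MP_f0209c_nt.norm_pw _ (by linarith), Complex.neg_re]
    calc _ ≤ (M : ℝ) * (M : ℝ) ^ (-s.re) := mul_le_mul c1
          (Real.rpow_le_rpow_of_nonpos (by linarith) (by linarith) (by linarith)) (by positivity)
          (by linarith)
      _ = (M : ℝ) ^ (1 + -s.re) := by rw [Real.rpow_add (by linarith), Real.rpow_one]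
      _ ≤ _ := Real.rpow_le_rpow_of_exponent_le M1 (by linarith)
  have b3 : ‖∑' n, (∑ m ∈ range (n + M + 1), a (m + 1)) * lbound_d (n + M) s‖ ≤
      (M : ℝ) ^ η * K := by
    refine tsum_of_norm_bounded (hK.hasSum.mul_left _) fun n => ?_
    have n0 : (0 : ℝ) ≤ n := n.cast_nonneg
    refine (lbound_term_le hQ (δ := 1 - η / 2) (by linarith) hs (n + M)).trans ?_
    push_cast
    have c1 : (n + M + 1 : ℝ) ^ (-(1 - η / 2) - 1) ≤
        (M : ℝ) ^ (η - 1) * (n + 1 : ℝ) ^ (-(η / 2) - 1) := by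
      rw [show -(1 - η / 2) - 1 = (η - 1) + (-(η / 2) - 1) by ring, Real.rpow_add (by linarith)]
      exact mul_le_mul (Real.rpow_le_rpow_of_nonpos (by linarith) (by linarith) (by linarith))
        (Real.rpow_le_rpow_of_nonpos (by linarith) (by linarith) (by linarith)) (by positivity)
        (by positivity)
    refine (mul_le_mul M2 c1 (by positivity) (by linarith)).trans (le_of_eq ?_)
    rw [← mul_assoc, Real.rpow_sub (by linarith), Real.rpow_one, mul_div_cancel₀ _ (by linarith)]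
  have b4 : (M : ℝ) ^ η ≤ 4 * (Q * (|s.im| + 2)) ^ η := by
    refine (Real.rpow_le_rpow (by linarith) M3 h0.le).trans ?_
    rw [Real.mul_rpow (by norm_num) (by positivity)]
    refine mul_le_mul_of_nonneg_right ?_ (by positivity)
    exact (Real.rpow_le_rpow_of_exponent_le (by norm_num) h1).trans (Real.rpow_one 4).le
  rw [lbound_G, ← hz.sum_add_tsum_nat_add M, e]
  refine (norm_add_le _ _).trans ((add_le_add (norm_sub_le _ _) b3).trans ?_)
  have b5 := mul_le_mul_of_nonneg_left b4 (show 0 ≤ 2 * K + 1 by positivity)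
  linarith

theorem lf_le {η : ℝ} (h0 : 0 < η) (h1 : η ≤ 1) : ∃ C : ℝ, 0 < C ∧
    ∀ (q : ℕ) [NeZero q] (χ : DirichletCharacter ℂ q), χ ≠ 1 → ∀ s : ℂ,
      1 - η / 2 ≤ s.re → s.re ≤ 4 → ‖LFunction χ s‖ ≤ C * (q * (|s.im| + 2)) ^ η := by
  obtain ⟨C, C0, H⟩ := lg_le h0 h1
  refine ⟨C, C0, fun q _ χ hχ s hs h4 => ?_⟩
  rw [lbound_LFunction_eq χ hχ (by linarith)]
  exact H _ q s (by exact_mod_cast NeZero.pos q) (lbound_char_shift χ hχ)
    (fun n => χ.norm_le_one _) hs h4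

theorem gz_diff : Differentiable ℂ gz := differentiable_LFunctionTrivChar₁ 1

theorem gz_one : gz 1 = 1 := by
  simp [gz, LFunctionTrivChar₁]

theorem gz_eq {s : ℂ} (hs : s ≠ 1) : gz s = (s - 1) * riemannZeta s := by
  rw [gz, LFunctionTrivChar₁, Function.update_of_ne hs, LFunctionTrivChar, LFunction_modOne_eq]

theorem zH_diff : Differentiable ℂ zH := by
  rw [← differentiableOn_univ, zH, Complex.differentiableOn_dslope Filter.univ_mem]
  exact gz_diff.differentiableOn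

theorem gz_eq_zH (s : ℂ) : gz s = 1 + (s - 1) * zH s := by
  have := sub_smul_dslope gz 1 s
  rw [smul_eq_mul, gz_one] at this
  rw [zH, this]
  ring

theorem zeta_eq_zH {s : ℂ} (hs : s ≠ 1) : riemannZeta s = 1 / (s - 1) + zH s := by
  have h := gz_eq_zH s
  rw [gz_eq hs] at h
  have : s - 1 ≠ 0 := sub_ne_zero.2 hs
  field_simp
  linear_combination h

open Complex MP_f0209c_nt in
theorem ngrow_zt (n : ℕ) {s : ℂ} (h0 : 0 ≤ s.re) (h1 : s ≠ 1) :
    ‖zt n s‖ ≤ 2 * (n + 1 : ℝ) ^ (-s.re) := by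
  set a : ℝ := n + 1 with ha
  have a1 : 1 ≤ a := by rw [ha]; linarith [(n.cast_nonneg : (0 : ℝ) ≤ n)]
  have hs : 1 - s ≠ 0 := sub_ne_zero.2 h1.symm
  have p2 := norm_image_sub_le_of_norm_deriv_le_segment' (C := 2 * a ^ (-s.re))
      (f := fun y : ℝ => y * exp (-s * Real.log a) - exp ((1 - s) * Real.log y) / (1 - s))
      (f' := fun x => exp (-s * Real.log a) - exp (-s * Real.log x)) (a := a) (b := a + 1)
      (fun x hx => by
        have d1 := (hasDerivAt_pw (1 - s) (x := x) (by linarith [hx.1])).div_const (1 - s)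
        have d2 : HasDerivAt (fun y : ℝ => (y : ℂ) * exp (-s * Real.log a))
            (1 * exp (-s * Real.log a)) x := (ofRealCLM.hasDerivAt).mul_const _
        refine ((d2.sub d1).congr_deriv ?_).hasDerivWithinAt
        rw [mul_div_cancel_left₀ _ hs, one_mul, show 1 - s - 1 = -s by ring])
      (fun x hx => by
        refine (norm_sub_le _ _).trans ?_
        rw [norm_pw _ (by linarith), norm_pw _ (by linarith [hx.1]), neg_re]
        linarith [Real.rpow_le_rpow_of_nonpos (z := -s.re) (by linarith) hx.1 (by linarith)])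
      (a + 1) (Set.right_mem_Icc.2 (by linarith))
  refine le_trans (le_of_eq ?_) (p2.trans (le_of_eq (by ring)))
  unfold zt
  rw [← ha]
  push_cast
  congr 1
  ring

theorem zH_le {η : ℝ} (h0 : 0 < η) (h1 : η ≤ 1) : ∃ C : ℝ, 0 < C ∧
    ∀ s : ℂ, 1 - η / 20 ≤ s.re → s.re ≤ 4 → ‖zH s‖ ≤ C * (|s.im| + 2) ^ η := by
  have δ0 : 0 < η / 20 := by positivity
  have K0 := lbound_K_pos δ0
  set K := ∑' n : ℕ, (n + 1 : ℝ) ^ (-(η / 20) - 1) with hKd
  obtain ⟨B, hB⟩ := (isCompact_closedBall (0 : ℂ) 4).exists_bound_of_continuousOn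
    zH_diff.continuous.continuousOn
  have B0 : 0 ≤ B := (norm_nonneg _).trans (hB 0 (by simp))
  have pos : ∀ s : ℂ, 1 - η / 20 ≤ s.re → s.re ≤ 4 → 0 < s.im →
      ‖zH s‖ ≤ 2 * (|s.im| + 2) ^ η * K := by
    intro s hs h4 ht
    have ne1 : s ≠ 1 := fun h => by simp [h] at ht
    have e := (zeta_eq_zH ne1).symm.trans (MP_f0209c_nt.zeta_eq (by linarith) ht)
    rw [add_left_cancel e]
    refine tsum_of_norm_bounded ((lbound_summable δ0).hasSum.mul_left _) fun n => ?_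
    have a1 : (1 : ℝ) ≤ n + 1 := by linarith [(n.cast_nonneg : (0 : ℝ) ≤ n)]
    have t0 := abs_nonneg s.im
    have c1 : ‖MP_f0209c_nt.zt n s‖ ≤ 2 * (|s.im| + 2) * (n + 1 : ℝ) ^ (-(11 / 10) : ℝ) :=
      (MP_f0209c_nt.norm_zt n (by linarith) ne1).trans (mul_le_mul_of_nonneg_right
        (by linarith [ngrow_norm (s := s) (by linarith) h4]) (by positivity))
    refine (lbound_min h0 h1 (norm_nonneg _) c1 (ngrow_zt n (by linarith) ne1)).trans ?_
    have c2 : ((n + 1 : ℝ) ^ (-(11 / 10) : ℝ)) ^ η * ((n + 1 : ℝ) ^ (-s.re)) ^ (1 - η) ≤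
        (n + 1 : ℝ) ^ (-(η / 20) - 1) := by
      rw [← Real.rpow_mul (by linarith), ← Real.rpow_mul (by linarith),
        ← Real.rpow_add (by linarith)]
      exact Real.rpow_le_rpow_of_exponent_le a1 (by nlinarith)
    have c3 : (2 : ℝ) ^ η * 2 ^ (1 - η) = 2 := by
      rw [← Real.rpow_add two_pos]; simp
    rw [Real.mul_rpow (by positivity) (by positivity), Real.mul_rpow (by positivity) (by positivity),
      Real.mul_rpow (by positivity) (by positivity)]
    calc _ = (2 : ℝ) ^ η * 2 ^ (1 - η) * (|s.im| + 2) ^ η *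
          (((n + 1 : ℝ) ^ (-(11 / 10) : ℝ)) ^ η * ((n + 1 : ℝ) ^ (-s.re)) ^ (1 - η)) := by ring
      _ ≤ _ := by rw [c3]; exact mul_le_mul_of_nonneg_left c2 (by positivity)
  refine ⟨B + 2 * K, by positivity, fun s hs h4 => ?_⟩
  have u1 : 1 ≤ (|s.im| + 2) ^ η := Real.one_le_rpow (by linarith [abs_nonneg s.im]) h0.le
  have u2 := mul_le_mul_of_nonneg_left u1 B0
  have u3 := mul_le_mul_of_nonneg_left u1 K0.le
  rcases lt_trichotomy s.im 0 with ht | ht | ht
  · have ne1 : s ≠ 1 := fun h => by simp [h] at ht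
    have ne2 : (starRingEnd ℂ) s ≠ 1 := fun h => ne1 (by simpa using congrArg (starRingEnd ℂ) h)
    have e : zH ((starRingEnd ℂ) s) = (starRingEnd ℂ) (zH s) := by
      have e1 := zeta_eq_zH ne2
      rw [riemannZeta_conj, zeta_eq_zH ne1, map_add, map_div₀, map_sub, map_one] at e1
      exact (add_left_cancel e1).symm
    have := pos ((starRingEnd ℂ) s) (by simpa using hs) (by simpa using h4) (by simpa using ht)
    rw [e, Complex.norm_conj, Complex.conj_im, abs_neg] at this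
    linarith
  · have := hB s (mem_closedBall_zero_iff.2
      (by simpa [ht] using ngrow_norm (s := s) (by linarith) h4))
    linarith
  · linarith [pos s hs h4 ht]

theorem lf_one_le {η : ℝ} (h0 : 0 < η) (h1 : η ≤ 1) : ∃ C : ℝ, 0 < C ∧
    ∀ (q : ℕ) [NeZero q] (s : ℂ), 1 < s.re → s.re ≤ 4 →
      ‖LFunction (1 : DirichletCharacter ℂ q) s‖ ≤
        1 / ‖s - 1‖ + C * (q * (|s.im| + 2)) ^ η := by
  obtain ⟨C₁, C10, H1⟩ := lg_le h0 h1
  obtain ⟨C₂, C20, H2⟩ := zH_le h0 h1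
  refine ⟨C₁ + C₂, by positivity, fun q _ s hs h4 => ?_⟩
  have q0 : (0 : ℝ) < q := by exact_mod_cast NeZero.pos q
  have q1 : (1 : ℝ) ≤ q := by exact_mod_cast NeZero.pos q
  set c : ℝ := (q.totient : ℝ) / q with hc
  have c0 : 0 ≤ c := by positivity
  have c1 : c ≤ 1 := (div_le_one q0).2 (by exact_mod_cast q.totient_le)
  set a : ℕ → ℂ := fun n => (1 : DirichletCharacter ℂ q) n - c with ha
  have a1 : ∀ n, ‖a n‖ ≤ 1 := fun n => by
    by_cases hn : IsUnit (n : ZMod q)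
    · have : a n = ((1 - c : ℝ) : ℂ) := by simp [ha, MulChar.one_apply hn]
      rw [this, Complex.norm_real, Real.norm_eq_abs, abs_le]
      constructor <;> linarith
    · have : a n = ((-c : ℝ) : ℂ) := by simp [ha, MulChar.map_nonunit _ hn]
      rw [this, Complex.norm_real, Real.norm_eq_abs, abs_le]
      constructor <;> linarith
  have ap : ∀ n, a (n + q) = a n := fun n => by simp [ha]
  have a0 : ∑ n ∈ range q, a n = 0 := by
    simp only [ha]
    rw [sum_sub_distrib, lbound_sum_zmod (1 : DirichletCharacter ℂ q),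
      MulChar.sum_one_eq_card_units, ZMod.card_units_eq_totient, sum_const, card_range,
      nsmul_eq_mul, hc]
    have : (q : ℂ) ≠ 0 := by exact_mod_cast NeZero.ne q
    push_cast
    field_simp
    ring
  have hQ := lbound_periodic (f := fun m => a (m + 1)) (NeZero.pos q)
    (fun n => by rw [add_right_comm]; exact ap _) (lbound_shift ap a0) fun n => a1 _
  have ne1 : s ≠ 1 := fun h => by simp [h] at hs
  have e : LFunction (1 : DirichletCharacter ℂ q) s = c * riemannZeta s + lbound_G a s := by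
    rw [← lbound_eq hQ a1 hs, LFunction_eq_LSeries _ hs, ← LSeries_one_eq_riemannZeta hs,
      ← LSeries_smul, ← LSeries_add ((LSeriesSummable_one_iff.2 hs).smul _)
        (LSeriesSummable_of_bounded_of_one_lt_re (fun n _ => a1 n) hs)]
    congr 1
    funext n
    simp [ha]
  have t0 := abs_nonneg s.im
  have e1 : ‖zH s‖ ≤ C₂ * (q * (|s.im| + 2)) ^ η :=
    (H2 s (by linarith) h4).trans (mul_le_mul_of_nonneg_left
      (Real.rpow_le_rpow (by positivity) (by nlinarith) h0.le) C20.le)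
  have e2 : ‖riemannZeta s‖ ≤ 1 / ‖s - 1‖ + ‖zH s‖ := by
    rw [zeta_eq_zH ne1]
    refine (norm_add_le _ _).trans (le_of_eq ?_)
    rw [norm_div, norm_one]
  have e3 := H1 a q s q1 hQ a1 (by linarith) h4
  have e4 : ‖(c : ℂ) * riemannZeta s‖ ≤ ‖riemannZeta s‖ := by
    rw [norm_mul, Complex.norm_real, Real.norm_eq_abs, abs_of_nonneg c0]
    exact mul_le_of_le_one_left (norm_nonneg _) c1
  rw [e]
  refine (norm_add_le _ _).trans ?_
  linarith

end Pool.Agent.MP_a96b63_al.H5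

namespace Pool.Agent.MP_a96b63_al.H5

open DirichletCharacter MP_48b1c3_nt.H54

theorem nchi_scale {η : ℝ} (h0 : 0 < η) (h1 : η ≤ 1) (q : ℕ) {y t : ℝ} (h : |t| ≤ 2 * |y| + 2) :
    ((q : ℝ) * (|t| + 2)) ^ η ≤ 2 * (q * (|y| + 2)) ^ η := by
  have a1 : (q : ℝ) * (|t| + 2) ≤ 2 * (q * (|y| + 2)) := by
    have : (q : ℝ) * (|t| + 2) ≤ q * (2 * (|y| + 2)) := by gcongr; linarith
    linarith
  refine (Real.rpow_le_rpow (by positivity) a1 h0.le).trans ?_
  rw [Real.mul_rpow (by norm_num) (by positivity)]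
  gcongr
  simpa using Real.rpow_le_rpow_of_exponent_le (x := 2) (by norm_num) h1

theorem nchi_ge {η : ℝ} (h0 : 0 < η) (q : ℕ) (y : ℝ) :
    (q : ℝ) ^ η ≤ (q * (|y| + 2)) ^ η := by
  refine Real.rpow_le_rpow (by positivity) ?_ h0.le
  have : (q : ℝ) * 1 ≤ q * (|y| + 2) := by gcongr; linarith [abs_nonneg y]
  linarith

theorem nchi_up {η : ℝ} (h0 : 0 < η) (h1 : η ≤ 1) : ∃ D : ℝ, 0 < D ∧
    ∀ (q : ℕ) [NeZero q] (χ : DirichletCharacter ℂ q), χ ≠ 1 → ∀ (y : ℝ) (z : ℂ),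
      1 - η / 2 ≤ z.re → z.re ≤ 4 → |z.im| ≤ 2 * |y| + 2 →
        ‖LFunction χ z‖ ≤ D * (q * (|y| + 2)) ^ η := by
  obtain ⟨C, hC, H⟩ := lf_le h0 h1
  refine ⟨2 * C, by positivity, fun q _ χ hχ y z a1 a2 a3 => (H q χ hχ z a1 a2).trans ?_⟩
  have := mul_le_mul_of_nonneg_left (nchi_scale h0 h1 q a3) hC.le
  linarith

theorem nchi_im {t y : ℝ} (h : |t - y| ≤ 2) : |t| ≤ 2 * |y| + 2 := by
  have := abs_add_le (t - y) y
  rw [sub_add_cancel] at this
  linarith [abs_nonneg y]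

theorem chi_low {η : ℝ} (h0 : 0 < η) (h1 : η ≤ 1) : ∃ E : ℝ, 0 < E ∧
    ∀ (q : ℕ) [NeZero q] (χ : DirichletCharacter ℂ q), χ.IsPrimitive → χ ≠ 1 → ∀ x y : ℝ,
      0 < x → x ≤ 1 → x ^ 3 ≤
        E * ((q * (|y| + 2)) ^ η) ^ 2 * ‖LFunction χ (1 + x + Complex.I * y)‖ ^ 4 := by
  obtain ⟨C₁, hC₁, H1⟩ := nchi_up h0 h1
  obtain ⟨C₂, hC₂, H2⟩ := lf_one_le h0 h1
  obtain ⟨c₃, hc₃, HS⟩ := siegel h0
  obtain ⟨D, hD'⟩ : ∃ D : ℝ, D = 2 * C₁ / (η / 2) := ⟨_, rfl⟩
  have hD : 0 < D := by rw [hD']; positivity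
  obtain ⟨a, ha0, ha1, ha2⟩ := nabs_min (4 * D) one_pos (by positivity) hc₃
  obtain ⟨F, hF⟩ : ∃ F : ℝ, F = C₁ + 2 * C₂ + 1 / a := ⟨_, rfl⟩
  have hF0 : 0 < F := by rw [hF]; positivity
  refine ⟨16 * a / c₃ ^ 4 + 16 / a + 8 * F, by positivity, fun q _ χ hp hχ x y hx0 hx1 => ?_⟩
  obtain ⟨-, HL⟩ := abs_lip (half_pos h0) (by linarith) hC₁ (LFunction χ) y _
    (differentiable_LFunction hχ) fun z a1 a2 a3 => H1 q χ hχ y z a1 a2 (nchi_im a3)
  have hqU := nchi_ge h0 q y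
  have hq := logder_one_le_rpow h0 q
  have H3 := fun χ' hχ' => H1 q χ' hχ' y
  have H4 := fun t => nchi_scale h0 h1 q (y := y) (t := t)
  obtain ⟨U, hU⟩ : ∃ U : ℝ, U = ((q : ℝ) * (|y| + 2)) ^ η := ⟨_, rfl⟩
  rw [← hU] at HL hqU H3 H4 ⊢
  rw [← hD'] at HL
  have hy := abs_nonneg y
  have hU1 : 1 ≤ U := hq.trans hqU
  have hU0 : 0 < U := by linarith
  have hU2 : U ≤ U ^ 2 := by nlinarith
  have haU : a / U ^ 2 ≤ 1 := by
    rw [div_le_one (by positivity)]; linarith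
  obtain ⟨L, hL⟩ : ∃ L : ℝ, L = ‖LFunction χ (1 + x + Complex.I * y)‖ := ⟨_, rfl⟩
  have hL0 : 0 ≤ L := hL ▸ norm_nonneg _
  rw [← hL]
  have t1 : 0 ≤ 16 * a / c₃ ^ 4 * U ^ 2 * L ^ 4 := by positivity
  have t2 : 0 ≤ 16 / a * U ^ 2 * L ^ 4 := by positivity
  have t3 : 0 ≤ 8 * F * U ^ 2 * L ^ 4 := by positivity
  rw [add_mul, add_mul, add_mul, add_mul]
  rcases le_total (a / U ^ 2) x with hxa | hxa
  · have k1 := le_norm_LFunction χ (s := 1 + x + Complex.I * y) (by simpa) (by simp; linarith)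
    rw [← hL] at k1
    have k2 : x / 2 ≤ L := by simpa using k1
    have k3 : 16 / a * U ^ 2 * (x / 2) ^ 4 ≤ 16 / a * U ^ 2 * L ^ 4 := by gcongr
    have k4 : 16 / a * U ^ 2 * (x / 2) ^ 4 = x / (a / U ^ 2) * x ^ 3 := by field_simp; ring
    have k5 : 1 * x ^ 3 ≤ x / (a / U ^ 2) * x ^ 3 := by
      gcongr
      exact (one_le_div (by positivity)).2 hxa
    linarith
  by_cases hcase : χ ^ 2 = 1 ∧ |y| ≤ a / U ^ 2
  · have k1 := HS q χ hp hχ hcase.1
    have k2 := HL 1 (1 + x + Complex.I * y) (by simp; linarith) (by simp)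
      (by simpa using hcase.2.trans haU) (by simp; linarith) (by simp; linarith) (by simp)
    have k3 : ‖(1 : ℂ) + x + Complex.I * y - 1‖ ≤ 2 * (a / U ^ 2) := by
      have := Complex.norm_le_abs_re_add_abs_im ((1 : ℂ) + x + Complex.I * y - 1)
      have e1 : ((1 : ℂ) + x + Complex.I * y - 1).re = x := by simp
      have e2 : ((1 : ℂ) + x + Complex.I * y - 1).im = y := by simp
      rw [e1, e2, abs_of_pos hx0] at this
      linarith [hcase.2]
    have k4 : D * U * ‖(1 : ℂ) + x + Complex.I * y - 1‖ ≤ c₃ / 2 / U := by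
      calc _ ≤ D * U * (2 * (a / U ^ 2)) := by gcongr
        _ = (4 * D * a) / 2 / U := by field_simp; ring
        _ ≤ _ := by gcongr
    have k5 : c₃ / U ≤ c₃ / (q : ℝ) ^ η := by gcongr
    have k6 := norm_sub_le (LFunction χ (1 + x + Complex.I * y))
      (LFunction χ (1 + x + Complex.I * y) - LFunction χ 1)
    rw [sub_sub_cancel, ← hL] at k6
    have k7 : c₃ / U = c₃ / 2 / U + c₃ / 2 / U := by ring
    have k8 : c₃ / 2 / U ≤ L := by linarith
    have k9 : 16 * a / c₃ ^ 4 * U ^ 2 * (c₃ / 2 / U) ^ 4 ≤ 16 * a / c₃ ^ 4 * U ^ 2 * L ^ 4 := by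
      gcongr
    have e : 16 * a / c₃ ^ 4 * U ^ 2 * (c₃ / 2 / U) ^ 4 = a / U ^ 2 := by field_simp; ring
    have e' : x ^ 3 ≤ x := pow_le_of_le_one hx0.le hx1 (by norm_num)
    linarith
  · have hre : ((1 : ℂ) + x + 2 * Complex.I * y).re = 1 + x := by simp
    have him : ((1 : ℂ) + x + 2 * Complex.I * y).im = 2 * y := by simp
    have hab : |2 * y| ≤ 2 * |y| + 2 := by rw [abs_mul, abs_two]; linarith
    have k1 : ‖LFunction (χ ^ 2) (1 + x + 2 * Complex.I * y)‖ ≤ F * U ^ 2 := by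
      have e4 : C₁ * U ≤ C₁ * U ^ 2 := by gcongr
      have e5 : C₂ * U ≤ C₂ * U ^ 2 := by gcongr
      have e6 : 0 ≤ 1 / a * U ^ 2 := by positivity
      have e7 : 0 ≤ C₁ * U := by positivity
      have e8 : 0 ≤ C₂ * U := by positivity
      rw [hF, add_mul, add_mul]
      by_cases h2 : χ ^ 2 = 1
      · have hy2 : a / U ^ 2 < |y| := not_le.1 fun hc => hcase ⟨h2, hc⟩
        rw [h2]
        refine (H2 q _ (by rw [hre]; linarith) (by rw [hre]; linarith)).trans ?_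
        have e1 : |y| ≤ ‖(1 : ℂ) + x + 2 * Complex.I * y - 1‖ := by
          have := Complex.abs_im_le_norm ((1 : ℂ) + x + 2 * Complex.I * y - 1)
          rw [Complex.sub_im, him, Complex.one_im, sub_zero, abs_mul, abs_two] at this
          linarith
        have e2 : 1 / ‖(1 : ℂ) + x + 2 * Complex.I * y - 1‖ ≤ 1 / a * U ^ 2 := by
          calc _ ≤ 1 / (a / U ^ 2) :=
                one_div_le_one_div_of_le (by positivity) (hy2.le.trans e1)
            _ = _ := by field_simp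
        have e3 := mul_le_mul_of_nonneg_left (H4 _ hab) hC₂.le
        rw [him]
        linarith
      · have := H3 _ h2 _ (by rw [hre]; linarith) (by rw [hre]; linarith) (by rwa [him])
        linarith
    have k2 : ‖LFunctionTrivChar q (1 + x)‖ ≤ 2 / x := by
      have := norm_LFunction_le_inv (1 : DirichletCharacter ℂ q) (s := 1 + x)
        (by simp; linarith) (by simp; linarith)
      simpa [LFunctionTrivChar] using this
    have k3 := norm_LFunction_product_ge_one χ hx0 y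
    rw [norm_mul, norm_mul, norm_pow, norm_pow, ← hL] at k3
    have e1 : ‖LFunctionTrivChar q (1 + x)‖ ^ 3 * L ^ 4 *
        ‖LFunction (χ ^ 2) (1 + x + 2 * Complex.I * y)‖ ≤
        (2 / x) ^ 3 * L ^ 4 * (F * U ^ 2) := by gcongr
    have e2 : (2 / x) ^ 3 * L ^ 4 * (F * U ^ 2) = 8 * F * U ^ 2 * L ^ 4 / x ^ 3 := by
      field_simp
      ring
    have e3 := (one_le_div (by positivity)).1 (e2 ▸ le_trans k3 e1)
    linarith

theorem chi_bound (k : ℕ) : ∃ C : ℝ, 0 < C ∧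
    ∀ (q : ℕ) [NeZero q] (χ : DirichletCharacter ℂ q), χ.IsPrimitive → χ ≠ 1 →
      ∀ s : ℂ, 1 < s.re → s.re ≤ 2 →
        ‖LSeries (fun n => (Real.log n : ℂ) ^ k * (vm n : ℂ) * χ n) s‖ ≤
          C * √q * √(|s.im| + 2) := by
  obtain ⟨η, h0, h1, hη⟩ : ∃ η : ℝ, 0 < η ∧ η ≤ 1 ∧ η * ((7 * (k + 1) : ℕ) : ℝ) = 1 / 2 := by
    refine ⟨1 / (14 * (k + 1)), by positivity, ?_, by push_cast; field_simp; ring⟩
    rw [div_le_one (by positivity)]
    linarith [(k.cast_nonneg : (0 : ℝ) ≤ k)]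
  obtain ⟨D, hD, HD⟩ := nchi_up h0 h1
  obtain ⟨E, hE, HE⟩ := chi_low h0 h1
  obtain ⟨C, hC, H⟩ := abs_log k (half_pos h0) (by linarith) hD hE
  refine ⟨C, hC, fun q _ χ hp hχ s hs1 hs2 => ?_⟩
  have key := H (LFunction χ) s _ (differentiable_LFunction hχ)
    ((logder_one_le_rpow h0 q).trans (nchi_ge h0 q s.im)) hs1 hs2
    (fun z a1 a2 a3 => HD q χ hχ s.im z a1 a2 (nchi_im a3)) fun x => HE q χ hp hχ x s.im
  have hev : (fun z => -deriv (LFunction χ) z / LFunction χ z) =ᶠ[nhds s]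
      LSeries ((fun n : ℕ => χ n) * fun n : ℕ => (ArithmeticFunction.vonMangoldt n : ℂ)) := by
    filter_upwards [(isOpen_lt continuous_const Complex.continuous_re).mem_nhds hs1] with z hz
    rw [LSeries_twist_vonMangoldt_eq χ hz, deriv_LFunction_eq_deriv_LSeries χ hz,
      LFunction_eq_LSeries χ hz]
  have habs : LSeries.abscissaOfAbsConv
      ((fun n : ℕ => χ n) * fun n : ℕ => (ArithmeticFunction.vonMangoldt n : ℂ)) < s.re := by
    refine lt_of_le_of_lt (b := ((1 : ℝ) : EReal)) ?_ (by exact_mod_cast hs1)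
    exact LSeries.abscissaOfAbsConv_le_of_forall_lt_LSeriesSummable fun y hy =>
      LSeriesSummable_twist_vonMangoldt χ (by simpa using hy)
  rw [hev.iteratedDeriv_eq k, LSeries_iteratedDeriv k habs, norm_mul, norm_pow, norm_neg, norm_one,
    one_pow, one_mul] at key
  have e : (LSeries.logMul^[k]
      ((fun n : ℕ => χ n) * fun n : ℕ => (ArithmeticFunction.vonMangoldt n : ℂ))) =
      fun n : ℕ => (Real.log n : ℂ) ^ k * (ArithmeticFunction.vonMangoldt n : ℂ) * χ n := by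
    funext n
    rw [logder_iter, Complex.natCast_log]
    simp only [Pi.mul_apply]
    ring
  rw [e, ← Real.rpow_natCast, ← Real.rpow_mul (by positivity), hη, ← Real.sqrt_eq_rpow,
    Real.sqrt_mul (by positivity), ← mul_assoc] at key
  exact key

end Pool.Agent.MP_a96b63_al.H5

namespace Pool.Agent.MP_a96b63_al.H5

open DirichletCharacter MP_48b1c3_nt.H54

theorem nzeta_ne {s : ℂ} (hs : 1 ≤ s.re) : gz s ≠ 0 := by
  rcases eq_or_ne s 1 with rfl | h
  · rw [gz_one]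
    exact one_ne_zero
  · rw [gz_eq h]
    exact mul_ne_zero (sub_ne_zero.2 h) (riemannZeta_ne_zero_of_one_le_re hs)

theorem nzeta_two {η : ℝ} (h0 : 0 < η) (h1 : η ≤ 1) {t Y : ℝ} (ht : 0 ≤ t) (h : t ≤ 2 * Y) :
    t ^ η ≤ 2 * Y ^ η := by
  have hY : 0 ≤ Y := by linarith
  refine (Real.rpow_le_rpow ht h h0.le).trans ?_
  rw [Real.mul_rpow zero_le_two hY]
  refine mul_le_mul_of_nonneg_right ?_ (Real.rpow_nonneg hY η)
  simpa using Real.rpow_le_rpow_of_exponent_le one_le_two h1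

theorem zeta_low {η : ℝ} (h0 : 0 < η) (h1 : η ≤ 1) : ∃ E : ℝ, 0 < E ∧ ∀ x y : ℝ,
    0 < x → x ≤ 1 → x ^ 3 ≤
      E * ((|y| + 2) ^ η) ^ 2 * ‖gz (1 + x + Complex.I * y) / ((|y| + 2 : ℝ) : ℂ)‖ ^ 4 := by
  obtain ⟨C, hC, H⟩ := zH_le h0 h1
  obtain ⟨z, hz, hm⟩ := ((isCompact_Icc (a := (1 : ℝ)) (b := 2)).reProdIm
    (isCompact_Icc (a := (-1 : ℝ)) (b := 1))).exists_isMinOn
    ⟨1, by simp [Complex.mem_reProdIm]⟩ gz_diff.continuous.norm.continuousOn
  have m0 : 0 < ‖gz z‖ := norm_pos_iff.2 (nzeta_ne (Complex.mem_reProdIm.1 hz).1.1)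
  refine ⟨(3 / ‖gz z‖) ^ 4 + 648 * (1 + 2 * C), by positivity, fun x y x0 x1 => ?_⟩
  have hy := abs_nonneg y
  obtain ⟨U, hU⟩ : ∃ U : ℝ, U = (|y| + 2) ^ η := ⟨_, rfl⟩
  have U1 : 1 ≤ U := hU ▸ Real.one_le_rpow (by linarith) h0.le
  have U2 : 1 ≤ U ^ 2 := one_le_pow₀ U1
  rw [← hU, norm_div, Complex.norm_real, Real.norm_of_nonneg (by linarith)]
  obtain ⟨A, hA⟩ : ∃ A : ℝ, A = ‖gz (1 + x + Complex.I * y)‖ / (|y| + 2) := ⟨_, rfl⟩
  have A0 : 0 ≤ A := by rw [hA]; positivity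
  rw [← hA, add_mul, add_mul]
  rcases le_total |y| 1 with h | h
  · have k1 : ‖gz z‖ ≤ ‖gz (1 + x + Complex.I * y)‖ := hm (by
      rw [Complex.mem_reProdIm]
      simp only [Complex.add_re, Complex.add_im, Set.mem_Icc]
      simp
      exact ⟨⟨x0.le, by linarith⟩, abs_le.1 h⟩)
    have k2 : 1 ≤ 3 / ‖gz z‖ * A := by
      rw [hA, div_mul_div_comm, one_le_div (by positivity)]
      nlinarith
    have k3 : 1 ≤ (3 / ‖gz z‖) ^ 4 * A ^ 4 := by
      rw [← mul_pow]
      exact one_le_pow₀ k2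
    have k4 : x ^ 3 ≤ 1 := pow_le_one₀ x0.le x1
    have k5 : 0 ≤ 648 * (1 + 2 * C) * U ^ 2 * A ^ 4 := by positivity
    nlinarith
  · have n1 : ∀ c : ℝ, |c| ≤ ‖(1 : ℂ) + x + Complex.I * c - 1‖ := fun c => by
      simpa using Complex.abs_im_le_norm ((1 : ℂ) + x + Complex.I * c - 1)
    have n2 : ∀ c : ℝ, (1 : ℂ) + x + Complex.I * c ≠ 1 := fun c e => by
      have := congrArg Complex.re e
      simp at this
      exact x0.ne' this
    have k1 : ‖riemannZeta (1 + x + Complex.I * y)‖ ≤ 3 * A := by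
      rw [hA, gz_eq (n2 y), norm_mul, ← mul_div_assoc, le_div_iff₀ (by linarith)]
      have := mul_le_mul_of_nonneg_right (n1 y)
        (norm_nonneg (riemannZeta (1 + x + Complex.I * y)))
      nlinarith [norm_nonneg (riemannZeta (1 + x + Complex.I * y))]
    have k2 : ‖riemannZeta (1 + x)‖ ≤ 2 / x := by
      simpa using norm_LFunction_le_inv (1 : DirichletCharacter ℂ 1) (s := 1 + x)
        (by simp; linarith) (by simp; linarith)
    have k3 : ‖riemannZeta (1 + x + 2 * Complex.I * y)‖ ≤ (1 + 2 * C) * U ^ 2 := by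
      have e : (1 : ℂ) + x + 2 * Complex.I * y = 1 + x + Complex.I * (2 * y : ℝ) := by
        push_cast
        ring
      have a1 : |2 * y| = 2 * |y| := by rw [abs_mul, abs_two]
      have a2 := H (1 + x + Complex.I * (2 * y : ℝ)) (by simp; linarith) (by simp; linarith)
      have a3 : ((1 : ℂ) + x + Complex.I * (2 * y : ℝ)).im = 2 * y := by simp
      have a4 := nzeta_two h0 h1 (t := |2 * y| + 2) (Y := |y| + 2) (by positivity) (by linarith)
      have a5 : ‖1 / ((1 : ℂ) + x + Complex.I * (2 * y : ℝ) - 1)‖ ≤ 1 := by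
        rw [norm_div, norm_one]
        exact div_le_one_of_le₀ (by linarith [n1 (2 * y)]) (norm_nonneg _)
      rw [a3] at a2
      rw [← hU] at a4
      rw [e, zeta_eq_zH (n2 _)]
      refine (norm_add_le _ _).trans ?_
      nlinarith [mul_le_mul_of_nonneg_left a4 hC.le, mul_nonneg hC.le (sub_nonneg.2 U1)]
    have k4 := norm_LFunction_product_ge_one (1 : DirichletCharacter ℂ 1) x0 y
    rw [LFunctionTrivChar, LFunction_modOne_eq, LFunction_modOne_eq, norm_mul, norm_mul, norm_pow,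
      norm_pow] at k4
    have k5 : 1 ≤ (2 / x) ^ 3 * (3 * A) ^ 4 * ((1 + 2 * C) * U ^ 2) := k4.le.trans (by gcongr)
    rw [div_pow, div_mul_eq_mul_div, div_mul_eq_mul_div, one_le_div (by positivity)] at k5
    have k6 : 0 ≤ (3 / ‖gz z‖) ^ 4 * U ^ 2 * A ^ 4 := by positivity
    linarith

theorem zeta_summable (k : ℕ) (s : ℂ) (hs : 1 < s.re) :
    LSeriesSummable (fun n => (Real.log n : ℂ) ^ k * ((vm n : ℂ) - 1)) s := by
  induction k generalizing s with
  | zero =>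
    have := (ArithmeticFunction.LSeriesSummable_vonMangoldt hs).sub (LSeriesSummable_one_iff.2 hs)
    convert this using 2 with n
    simp
  | succ k ih =>
    have h1 := LSeries.abscissaOfAbsConv_le_of_forall_lt_LSeriesSummable (x := 1)
      (f := fun n => (Real.log n : ℂ) ^ k * ((vm n : ℂ) - 1))
      fun y hy => ih y (by simpa using hy)
    have := LSeriesSummable_logMul_of_lt_re (s := s) (h1.trans_lt (by exact_mod_cast hs))
    convert this using 2 with n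
    rw [LSeries.logMul, Complex.natCast_log]
    ring

theorem zeta_bound (k : ℕ) : ∃ C : ℝ, 0 < C ∧ ∀ s : ℂ, 1 < s.re → s.re ≤ 2 →
    ‖LSeries (fun n => (Real.log n : ℂ) ^ k * ((vm n : ℂ) - 1)) s‖ ≤ C * √(|s.im| + 2) := by
  obtain ⟨η, h0, h1, hη⟩ : ∃ η : ℝ, 0 < η ∧ η ≤ 1 ∧ η * ((7 * (k + 1) : ℕ) : ℝ) = 1 / 2 := by
    refine ⟨1 / (14 * (k + 1)), by positivity, ?_, ?_⟩
    · rw [div_le_one (by positivity)]
      linarith [(Nat.cast_nonneg k : (0 : ℝ) ≤ k)]
    · push_cast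
      field_simp
      ring
  obtain ⟨C, hC, H⟩ := zH_le h0 h1
  obtain ⟨E, hE, HE⟩ := zeta_low h0 h1
  have r0 : 0 < η / 20 := by positivity
  have r1 : η / 20 ≤ 1 := by linarith
  obtain ⟨C', hC', H'⟩ := abs_log k r0 r1 (D := 1 + 6 * C) (by positivity) hE
  refine ⟨C' + k.factorial * (2 * C) / (η / 20) ^ k, by positivity, fun s hs1 hs2 => ?_⟩
  have hy := abs_nonneg s.im
  obtain ⟨U, hU⟩ : ∃ U : ℝ, U = (|s.im| + 2) ^ η := ⟨_, rfl⟩
  have U1 : 1 ≤ U := hU ▸ Real.one_le_rpow (by linarith) h0.le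
  have U2 : U ^ (7 * (k + 1)) = √(|s.im| + 2) := by
    rw [hU, ← Real.rpow_natCast, ← Real.rpow_mul (by linarith), hη, Real.sqrt_eq_rpow]
  have U3 : U ≤ √(|s.im| + 2) := U2 ▸ le_self_pow₀ U1 (by omega)
  have Y0 : ((|s.im| + 2 : ℝ) : ℂ) ≠ 0 := Complex.ofReal_ne_zero.2 (by linarith)
  set f : ℂ → ℂ := fun z => gz z / ((|s.im| + 2 : ℝ) : ℂ) with hf
  have fd : Differentiable ℂ f := gz_diff.div_const _
  have im1 : ∀ z : ℂ, |z.im - s.im| ≤ 2 → |z.im| ≤ |s.im| + 2 := fun z hz => by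
    linarith [abs_sub_abs_le_abs_sub z.im s.im]
  have b1 : ∀ z : ℂ, 1 - η / 20 ≤ z.re → z.re ≤ 4 → |z.im - s.im| ≤ 2 → ‖zH z‖ ≤ 2 * C * U := by
    intro z a1 a2 a3
    have a4 := nzeta_two h0 h1 (t := |z.im| + 2) (Y := |s.im| + 2) (by positivity)
      (by linarith [im1 z a3])
    rw [← hU] at a4
    linarith [H z a1 a2, mul_le_mul_of_nonneg_left a4 hC.le]
  have k1 := H' f s U fd U1 hs1 hs2 (fun z a1 a2 a3 => by
    have a4 : ‖z - 1‖ ≤ 3 * (|s.im| + 2) := by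
      have := Complex.norm_le_abs_re_add_abs_im (z - 1)
      simp only [Complex.sub_re, Complex.one_re, Complex.sub_im, Complex.one_im, sub_zero] at this
      linarith [im1 z a3, (abs_le.2 ⟨by linarith, by linarith⟩ : |z.re - 1| ≤ 3)]
    have a5 := mul_le_mul a4 (b1 z a1 a2 a3) (norm_nonneg _) (by positivity)
    simp only [hf]
    rw [norm_div, Complex.norm_real, Real.norm_of_nonneg (by linarith), div_le_iff₀ (by linarith),
      gz_eq_zH]
    refine (norm_add_le _ _).trans ?_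
    rw [norm_one, norm_mul]
    nlinarith) (fun x x0 x1 => hU ▸ HE x s.im x0 x1)
  have k2 := abs_iter k r0 r1 zH_diff hs1 hs2 b1
  have hev : (fun z => -deriv f z / f z - zH z) =ᶠ[nhds s]
      LSeries ((fun n : ℕ => (ArithmeticFunction.vonMangoldt n : ℂ)) - 1) := by
    filter_upwards [(isOpen_lt continuous_const Complex.continuous_re).mem_nhds hs1] with z hz
    have z1 : z ≠ 1 := fun e => by simp [e] at hz
    have z2 := riemannZeta_ne_zero_of_one_le_re (le_of_lt hz)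
    have z3 := sub_ne_zero.2 z1
    have d1 : deriv gz z = 1 * riemannZeta z + (z - 1) * deriv riemannZeta z :=
      ((((hasDerivAt_id z).sub_const 1).mul
        (differentiableAt_riemannZeta z1).hasDerivAt).congr_of_eventuallyEq
        (by filter_upwards [isOpen_ne.mem_nhds z1] with w hw using gz_eq hw)).deriv
    rw [LSeries_sub (ArithmeticFunction.LSeriesSummable_vonMangoldt hz)
      (LSeriesSummable_one_iff.2 hz),
      ArithmeticFunction.LSeries_vonMangoldt_eq_deriv_riemannZeta_div hz,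
      LSeries_one_eq_riemannZeta hz, hf, deriv_div_const, d1,
      show zH z = riemannZeta z - 1 / (z - 1) by rw [zeta_eq_zH z1]; ring]
    simp only
    rw [gz_eq z1]
    field_simp
    ring
  have habs : LSeries.abscissaOfAbsConv
      ((fun n : ℕ => (ArithmeticFunction.vonMangoldt n : ℂ)) - 1) < s.re := by
    refine lt_of_le_of_lt (b := ((1 : ℝ) : EReal)) ?_ (by exact_mod_cast hs1)
    exact LSeries.abscissaOfAbsConv_le_of_forall_lt_LSeriesSummable fun y hy =>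
      (ArithmeticFunction.LSeriesSummable_vonMangoldt (by simpa using hy)).sub
        (LSeriesSummable_one_iff.2 (by simpa using hy))
  have an : AnalyticAt ℂ (fun z => -deriv f z / f z) s :=
    (fd.analyticAt s).deriv.fun_neg.fun_div (fd.analyticAt s) (div_ne_zero (nzeta_ne hs1.le) Y0)
  have k3 := congrArg norm (hev.iteratedDeriv_eq k)
  rw [LSeries_iteratedDeriv k habs, norm_mul, norm_pow, norm_neg, norm_one, one_pow, one_mul,
    iteratedDeriv_fun_sub an.contDiffAt (zH_diff.analyticAt s).contDiffAt] at k3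
  have e : (LSeries.logMul^[k] ((fun n : ℕ => (ArithmeticFunction.vonMangoldt n : ℂ)) - 1)) =
      fun n : ℕ => (Real.log n : ℂ) ^ k * ((vm n : ℂ) - 1) := by
    funext n
    rw [logder_iter, Complex.natCast_log]
    rfl
  rw [← e, ← k3, add_mul]
  refine (norm_sub_le _ _).trans (add_le_add (U2 ▸ k1) (k2.trans ?_))
  rw [div_mul_eq_mul_div, mul_assoc (k.factorial : ℝ)]
  gcongr

end Pool.Agent.MP_a96b63_al.H5

namespace Pool.Agent.MP_a96b63_al.H5

open MeasureTheory MP_48b1c3_nt.H54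

theorem nriesz_sq (c t : ℝ) : ‖(c : ℂ) - Complex.I * t‖ ^ 2 = c ^ 2 + t ^ 2 := by
  rw [Complex.sq_norm, Complex.normSq_apply]
  simp
  ring

theorem nriesz_ne {c : ℝ} (hc : 0 < c) (t : ℝ) : (c : ℂ) - Complex.I * t ≠ 0 := fun h => by
  have := congrArg Complex.re h
  simp at this
  exact hc.ne' this

theorem nriesz_norm (ξ : ℝ) : ‖1 / ((((1 : ℝ) : ℂ) - Complex.I * (2 * Real.pi * ξ : ℝ)) *
    (((2 : ℝ) : ℂ) - Complex.I * (2 * Real.pi * ξ : ℝ)))‖ ≤ (1 + ξ ^ 2)⁻¹ := by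
  have h1 := nriesz_sq 1 (2 * Real.pi * ξ)
  have h2 := nriesz_sq 2 (2 * Real.pi * ξ)
  rw [norm_div, norm_one, norm_mul, one_div]
  refine inv_anti₀ (by positivity) ?_
  have h3 := pow_le_pow_left₀ zero_le_one (by linarith [Real.pi_gt_three] : 1 ≤ 2 * Real.pi) 2
  have h4 := (sq_le_sq₀ (norm_nonneg _) (norm_nonneg _)).1 (by rw [h1, h2]; linarith :
    ‖((1 : ℝ) : ℂ) - Complex.I * (2 * Real.pi * ξ : ℝ)‖ ^ 2 ≤
      ‖((2 : ℝ) : ℂ) - Complex.I * (2 * Real.pi * ξ : ℝ)‖ ^ 2)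
  have h5 := mul_le_mul_of_nonneg_left h4
    (norm_nonneg (((1 : ℝ) : ℂ) - Complex.I * (2 * Real.pi * ξ : ℝ)))
  nlinarith [sq_nonneg ξ]

open scoped FourierTransform in
theorem kernel : ∃ φ : ℝ → ℂ, Continuous φ ∧ Integrable φ ∧
    Integrable (fun ξ : ℝ => √(|2 * Real.pi * ξ| + 2) * ‖φ ξ‖) ∧
      ∀ u : ℝ, ∫ ξ : ℝ, φ ξ * Complex.exp (Complex.I * (2 * Real.pi * ξ : ℝ) * u) =
        if u ≤ 0 then Complex.exp u - Complex.exp (2 * u) else 0 := by
  set φ : ℝ → ℂ := fun ξ => 1 / ((((1 : ℝ) : ℂ) - Complex.I * (2 * Real.pi * ξ : ℝ)) *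
    (((2 : ℝ) : ℂ) - Complex.I * (2 * Real.pi * ξ : ℝ))) with hφ
  set V : ℝ → ℂ := fun u => if u ≤ 0 then Complex.exp u - Complex.exp (2 * u) else 0 with hV
  have φc : Continuous φ := Continuous.div continuous_const (by fun_prop) fun ξ =>
    mul_ne_zero (nriesz_ne one_pos _) (nriesz_ne two_pos _)
  have φi : Integrable φ := integrable_inv_one_add_sq.mono' φc.aestronglyMeasurable
    (Filter.Eventually.of_forall nriesz_norm)
  have Vc : Continuous V := Continuous.if_le (by fun_prop) continuous_const continuous_id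
    continuous_const fun x hx => by simp [show x = 0 from hx]
  have Vi : Integrable V := by
    have e : V = Set.indicator (Set.Iic 0) fun u : ℝ =>
        Complex.exp (1 * u) - Complex.exp (2 * u) := by
      ext u
      simp [hV, Set.indicator_apply]
    rw [e, integrable_indicator_iff measurableSet_Iic]
    exact (integrableOn_exp_mul_complex_Iic (by simp) 0).sub
      (integrableOn_exp_mul_complex_Iic (by simp) 0)
  have hF : 𝓕 V = φ := by
    ext ξ
    have e : ∀ v : ℝ, Complex.exp (↑(-2 * Real.pi * v * ξ) * Complex.I) • V v =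
        Set.indicator (Set.Iic 0) (fun v : ℝ =>
          Complex.exp ((((1 : ℝ) : ℂ) - Complex.I * (2 * Real.pi * ξ : ℝ)) * v) -
            Complex.exp ((((2 : ℝ) : ℂ) - Complex.I * (2 * Real.pi * ξ : ℝ)) * v)) v := by
      intro v
      simp only [hV, Set.indicator_apply, Set.mem_Iic]
      split_ifs
      · rw [smul_eq_mul, mul_sub, ← Complex.exp_add, ← Complex.exp_add]
        congr 2 <;> push_cast <;> ring
      · simp
    have r1 : 0 < (((1 : ℝ) : ℂ) - Complex.I * (2 * Real.pi * ξ : ℝ)).re := by simp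
    have r2 : 0 < (((2 : ℝ) : ℂ) - Complex.I * (2 * Real.pi * ξ : ℝ)).re := by simp
    rw [Real.fourier_real_eq_integral_exp_smul]
    simp only [e]
    rw [integral_indicator measurableSet_Iic, integral_sub (integrableOn_exp_mul_complex_Iic r1 0)
      (integrableOn_exp_mul_complex_Iic r2 0), integral_exp_mul_complex_Iic r1,
      integral_exp_mul_complex_Iic r2, Complex.ofReal_zero, mul_zero, mul_zero, Complex.exp_zero,
      div_sub_div _ _ (nriesz_ne one_pos _) (nriesz_ne two_pos _)]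
    simp only [hφ]
    congr 1
    push_cast
    ring
  refine ⟨φ, φc, φi, ?_, fun u => ?_⟩
  · refine ((integrable_one_add_norm (E := ℝ) (μ := volume) (r := 3 / 2)
      (by simp; norm_num)).const_mul 6).mono' (Continuous.aestronglyMeasurable (by fun_prop))
      (Filter.Eventually.of_forall fun ξ => ?_)
    have a0 := abs_nonneg ξ
    have h1 : √(|2 * Real.pi * ξ| + 2) ≤ 3 * √(1 + |ξ|) := by
      rw [Real.sqrt_le_left (by positivity), mul_pow, Real.sq_sqrt (by positivity), abs_mul,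
        abs_of_pos Real.two_pi_pos]
      nlinarith [Real.pi_lt_four]
    have h2 : ‖φ ξ‖ ≤ 2 / (1 + |ξ|) ^ 2 := (nriesz_norm ξ).trans (by
      rw [inv_eq_one_div, div_le_div_iff₀ (by positivity) (by positivity), ← sq_abs ξ]
      nlinarith [sq_nonneg (|ξ| - 1)])
    have h3 : (1 + |ξ|) ^ (-(3 / 2) : ℝ) = √(1 + |ξ|) / (1 + |ξ|) ^ 2 := by
      rw [Real.sqrt_eq_rpow, ← Real.rpow_natCast, ← Real.rpow_sub (by positivity)]
      norm_num
    rw [Real.norm_of_nonneg (by positivity), Real.norm_eq_abs, h3]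
    refine (mul_le_mul h1 h2 (norm_nonneg _) (by positivity)).trans (le_of_eq ?_)
    ring
  · have inv := congrFun (Vc.fourierInv_fourier_eq Vi (hF ▸ φi)) u
    rw [hF, Real.fourierInv_eq'] at inv
    refine Eq.trans (integral_congr_ae (Filter.Eventually.of_forall fun ξ => ?_)) inv
    simp only [smul_eq_mul, RCLike.inner_apply, conj_trivial]
    rw [mul_comm]
    congr 2
    push_cast
    ring

theorem riesz : ∃ C : ℝ, 0 < C ∧ ∀ (b : ℕ → ℂ) (K : ℝ),
    (∀ s : ℂ, 1 < s.re → LSeriesSummable b s) →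
    (∀ s : ℂ, 1 < s.re → s.re ≤ 2 → ‖LSeries b s‖ ≤ K * √(|s.im| + 2)) →
      ∀ x : ℕ, ‖Rz b x‖ ≤ C * K * (x : ℝ) ^ 2 := by
  obtain ⟨φ, φc, φ0, φi, hφ⟩ := kernel
  set J := ∫ ξ : ℝ, √(|2 * Real.pi * ξ| + 2) * ‖φ ξ‖ with hJ
  have J0 : 0 ≤ J := integral_nonneg fun t => by positivity
  refine ⟨J + 1, by positivity, fun b' K hs' hK' x => ?_⟩
  have K0 : 0 ≤ K := by
    have := (norm_nonneg _).trans (hK' 2 (by simp) (by simp))
    exact nonneg_of_mul_nonneg_left this (Real.sqrt_pos.2 (by positivity))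
  rcases Nat.eq_zero_or_pos x with rfl | hx'
  · simp [Rz]
  have hx : (0 : ℝ) < x := by exact_mod_cast hx'
  set b : ℕ → ℂ := fun n => if n = 0 then 0 else b' n with hb
  have b0 : b 0 = 0 := by simp [hb]
  have bb : ∀ {n : ℕ}, n ≠ 0 → b n = b' n := fun hn => by simp [hb, hn]
  have hsum : ∀ s : ℂ, 1 < s.re → LSeriesSummable b s := fun s hs =>
    (LSeriesSummable_congr s bb).2 (hs' s hs)
  have hK : ∀ s : ℂ, 1 < s.re → s.re ≤ 2 → ‖LSeries b s‖ ≤ K * √(|s.im| + 2) := fun s h1 h2 => by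
    rw [LSeries_congr bb s]
    exact hK' s h1 h2
  set V : ℝ → ℂ := fun u => if u ≤ 0 then Complex.exp u - Complex.exp (2 * u) else 0 with hV
  set T : ℝ → ℂ := fun δ => ∑ n ∈ Finset.Icc 1 x, b n * Complex.exp (-(1 + δ) * Real.log n) *
    V (Real.log (n / x)) with hT
  have key : ∀ δ : ℝ, 0 < δ → δ ≤ 1 → ‖T δ‖ ≤ K * J := by
    intro δ d0 d1
    set F : ℕ → ℝ → ℂ := fun n ξ =>
      φ ξ * Complex.exp (-(Complex.I * (2 * Real.pi * ξ : ℝ) * Real.log x)) *
        LSeries.term b (1 + δ - Complex.I * (2 * Real.pi * ξ : ℝ)) n with hF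
    have nE : ∀ t y : ℝ, ‖Complex.exp (Complex.I * t * y)‖ = 1 := fun t y => by
      rw [Complex.norm_exp]; simp
    have nE' : ∀ t y : ℝ, ‖Complex.exp (-(Complex.I * t * y))‖ = 1 := fun t y => by
      rw [Complex.norm_exp]; simp
    have nF : ∀ n t, ‖F n t‖ = ‖LSeries.term b (1 + δ - Complex.I * (0 : ℝ)) n‖ * ‖φ t‖ :=
      fun n t => by
        simp only [hF, sw_term b b0, norm_mul, nE, nE']
        ring
    have cF : ∀ n, Continuous (F n) := fun n => by
      simp only [hF, sw_term b b0]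
      fun_prop
    have iF : ∀ n, Integrable (F n) := fun n =>
      (φ0.norm.const_mul _).mono' (cF n).aestronglyMeasurable
        (Filter.Eventually.of_forall fun t => (nF n t).le)
    have sF : Summable fun n => ∫ t, ‖F n t‖ := by
      simp only [nF, integral_const_mul]
      exact (hsum _ (by simpa using d0)).norm.mul_right _
    have hs := hasSum_integral_of_summable_integral_norm iF sF
    have eF : ∀ n, ∫ t, F n t = b n * Complex.exp (-(1 + δ) * Real.log n) *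
        V (Real.log (n / x)) := fun n => by
      rcases eq_or_ne n 0 with rfl | hn
      · simp [hF, b0]
      · simp only [hV]
        rw [← hφ, ← integral_const_mul]
        refine integral_congr_ae (Filter.Eventually.of_forall fun t => ?_)
        simp only [hF, sw_term b b0]
        rw [Real.log_div (Nat.cast_ne_zero.2 hn) hx.ne', Complex.ofReal_sub, mul_sub,
          sub_eq_add_neg, Complex.exp_add]
        ring
    simp only [eF] at hs
    have hs2 : HasSum (fun n : ℕ => b n * Complex.exp (-(1 + δ) * Real.log n) *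
        V (Real.log (n / x))) (T δ) := by
      refine hasSum_sum_of_ne_finset_zero fun n hn => ?_
      rcases eq_or_ne n 0 with rfl | hn0
      · simp [b0]
      · rw [Finset.mem_Icc, not_and, not_le] at hn
        have h2 : (x : ℝ) < n := by exact_mod_cast hn (Nat.one_le_iff_ne_zero.2 hn0)
        have h3 : 0 < Real.log (n / x) := Real.log_pos ((one_lt_div hx).2 h2)
        simp only [hV]
        rw [if_neg (not_le.2 h3), mul_zero]
    rw [hs2.unique hs]
    refine (norm_integral_le_of_norm_le (φi.const_mul K)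
      (Filter.Eventually.of_forall fun t => ?_)).trans (le_of_eq ?_)
    · simp only [hF]
      rw [tsum_mul_left, norm_mul, norm_mul, nE', mul_one]
      have := hK (1 + δ - Complex.I * (2 * Real.pi * t : ℝ)) (by simpa using d0)
        (by simp; linarith)
      have e : ∀ y : ℝ, |(1 + δ - Complex.I * y : ℂ).im| = |y| := fun y => by simp
      rw [e] at this
      refine (mul_le_mul_of_nonneg_left this (norm_nonneg _)).trans (le_of_eq ?_)
      ring
    · rw [integral_const_mul]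
  have cT : Continuous T := by
    simp only [hT]
    fun_prop
  have lim : ‖T 0‖ ≤ K * J := by
    refine le_of_tendsto (x := nhdsWithin 0 (Set.Ioi 0))
      ((cT.norm.tendsto 0).mono_left nhdsWithin_le_nhds) ?_
    filter_upwards [Ioc_mem_nhdsGT (zero_lt_one' ℝ)] with δ hδ using key δ hδ.1 hδ.2
  have e : Rz b' x = (x : ℂ) ^ 2 * T 0 := by
    simp only [Rz, hT, Finset.mul_sum]
    refine Finset.sum_congr rfl fun n hn => ?_
    obtain ⟨hn1, hn2⟩ := Finset.mem_Icc.1 hn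
    have hn0 : (0 : ℝ) < n := by exact_mod_cast hn1
    have e1 : Complex.exp (Real.log (n / x) : ℝ) = n / x := by
      rw [← Complex.ofReal_exp, Real.exp_log (by positivity)]; push_cast; rfl
    have e2 : Complex.exp (-(1 + (0 : ℝ)) * Real.log n) = (n : ℂ)⁻¹ := by
      rw [Complex.ofReal_zero, add_zero, neg_one_mul, Complex.exp_neg, ← Complex.ofReal_exp,
        Real.exp_log hn0, Complex.ofReal_natCast]
    have n0 : (n : ℂ) ≠ 0 := by exact_mod_cast hn0.ne'
    have x0 : (x : ℂ) ≠ 0 := by exact_mod_cast hx.ne'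
    have h3 : Real.log (n / x) ≤ 0 :=
      Real.log_nonpos (by positivity) ((div_le_one hx).2 (by exact_mod_cast hn2))
    simp only [hV]
    rw [if_pos h3, two_mul, Complex.exp_add, e1, e2, bb (by omega)]
    field_simp
  rw [e, norm_mul, norm_pow, Complex.norm_natCast]
  nlinarith [mul_le_mul_of_nonneg_left lim (sq_nonneg (x : ℝ)), mul_nonneg K0 (sq_nonneg (x : ℝ))]

end Pool.Agent.MP_a96b63_al.H5

namespace Pool.Agent.MP_a96b63_al.H5

open Finset DirichletCharacter MP_48b1c3_nt.H54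

theorem nswa_log (k : ℕ) : ∃ C : ℝ, 0 < C ∧ ∀ x : ℝ, 1 ≤ x → Real.log x ^ (k + 1) ≤ C * √x := by
  refine ⟨(2 * (k + 1)) ^ (k + 1), by positivity, fun x hx => ?_⟩
  have h := Real.log_le_rpow_div (x := x) (ε := 1 / (2 * (k + 1))) (by linarith) (by positivity)
  calc _ ≤ (x ^ (1 / (2 * (k + 1)) : ℝ) / (1 / (2 * (k + 1)))) ^ (k + 1) :=
        pow_le_pow_left₀ (Real.log_nonneg hx) h _
    _ = _ := by
        rw [div_div_eq_mul_div, div_one, mul_pow, mul_comm, ← Real.rpow_natCast (x ^ _),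
          ← Real.rpow_mul (by linarith), Real.sqrt_eq_rpow]
        congr 2
        push_cast
        field_simp

theorem nswa_term {q n : ℕ} {L : ℝ} (hq : 0 < q) (hn : Real.log n ≤ L) {f g : ℂ} (hf : ‖f‖ ≤ 1)
    (hg : ‖g‖ ≤ 1) (h : n.Coprime q → f = g) :
    ‖(lam n : ℂ) * f - (vm n : ℂ) * g‖ ≤
      (vm n - lam n) + if n ∈ q.primeFactors then 2 * L else 0 := by
  have h0 := Real.log_natCast_nonneg n
  by_cases hp : n.Prime
  · have e1 : lam n = Real.log n := if_pos hp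
    have e2 : vm n = Real.log n := ArithmeticFunction.vonMangoldt_apply_prime hp
    rw [e1, e2, sub_self, zero_add, ← mul_sub]
    split_ifs with hm
    · rw [norm_mul, Complex.norm_real, Real.norm_of_nonneg h0]
      nlinarith [norm_sub_le f g, norm_nonneg (f - g)]
    · rw [h ((Nat.Prime.coprime_iff_not_dvd hp).2 fun hd =>
        hm (Nat.mem_primeFactors.2 ⟨hp, hd, hq.ne'⟩))]
      simp
  · have e1 : lam n = 0 := if_neg hp
    have h1 : 0 ≤ vm n := ArithmeticFunction.vonMangoldt_nonneg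
    rw [e1, if_neg fun hm => hp (Nat.prime_of_mem_primeFactors hm), Complex.ofReal_zero, zero_mul,
      zero_sub, norm_neg, norm_mul, Complex.norm_real, Real.norm_of_nonneg h1]
    nlinarith

theorem rz_cmp (k : ℕ) : ∃ C : ℝ, 0 < C ∧ ∀ (x q : ℕ) (f g : ℕ → ℂ), 0 < q → q ^ 2 ≤ x →
    (∀ n, ‖f n‖ ≤ 1) → (∀ n, ‖g n‖ ≤ 1) → (∀ n, n.Coprime q → f n = g n) →
      ‖Rz (fun n => (Real.log n : ℂ) ^ k * (lam n : ℂ) * f n) x -
        Rz (fun n => (Real.log n : ℂ) ^ k * (vm n : ℂ) * g n) x‖ ≤ C * (x : ℝ) ^ 2 := by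
  obtain ⟨C, hC, hL⟩ := nswa_log k
  refine ⟨4 * C, by positivity, fun x q f g hq hx hf hg hfg => ?_⟩
  have x1 : 1 ≤ x := le_trans (Nat.one_le_pow _ _ hq) hx
  have x1' : (1 : ℝ) ≤ x := by exact_mod_cast x1
  have L0 := Real.log_natCast_nonneg x
  have hqx : (q : ℝ) ≤ √x := Real.le_sqrt_of_sq_le (by exact_mod_cast hx)
  have h1 : ∑ n ∈ Icc 1 x, (if n ∈ q.primeFactors then 2 * Real.log x else 0) ≤
      2 * √x * Real.log x := by
    rw [← sum_filter, sum_const, nsmul_eq_mul]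
    have : #((Icc 1 x).filter (· ∈ q.primeFactors)) ≤ q := by
      refine (card_le_card (t := Icc 1 q) fun p hp => ?_).trans (by simp)
      have := (mem_filter.1 hp).2
      exact mem_Icc.2 ⟨Nat.pos_of_mem_primeFactors this, Nat.le_of_mem_primeFactors this⟩
    have h2 : (#((Icc 1 x).filter (· ∈ q.primeFactors)) : ℝ) ≤ √x :=
      le_trans (by exact_mod_cast this) hqx
    nlinarith
  have h2 : ∑ n ∈ Icc 1 x, (vm n - lam n) ≤ 2 * √x * Real.log x := sum_vm_sub_lam x1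
  rw [Rz, Rz, ← sum_sub_distrib]
  calc _ ≤ ∑ n ∈ Icc 1 x, Real.log x ^ k * x *
          ((vm n - lam n) + if n ∈ q.primeFactors then 2 * Real.log x else 0) := by
        refine (norm_sum_le _ _).trans (sum_le_sum fun n hn => ?_)
        obtain ⟨n1, nx⟩ := mem_Icc.1 hn
        have nx' : (n : ℝ) ≤ x := by exact_mod_cast nx
        have hl : Real.log n ≤ Real.log x := Real.log_le_log (by exact_mod_cast n1) nx'
        have e : (Real.log n : ℂ) ^ k * (lam n : ℂ) * f n * ((x : ℂ) - n) -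
            (Real.log n : ℂ) ^ k * (vm n : ℂ) * g n * ((x : ℂ) - n) =
            ((Real.log n ^ k * (x - n) : ℝ) : ℂ) * ((lam n : ℂ) * f n - (vm n : ℂ) * g n) := by
          push_cast
          ring
        have l0 := Real.log_natCast_nonneg n
        rw [e, norm_mul, Complex.norm_real,
          Real.norm_of_nonneg (mul_nonneg (by positivity) (by linarith))]
        refine mul_le_mul ?_ (nswa_term hq hl (hf n) (hg n) (hfg n)) (norm_nonneg _)
          (by positivity)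
        gcongr
        simp
    _ ≤ Real.log x ^ k * x * (4 * √x * Real.log x) := by
        rw [← mul_sum, sum_add_distrib]
        gcongr
        linarith
    _ = 4 * x * √x * Real.log x ^ (k + 1) := by ring
    _ ≤ 4 * x * √x * (C * √x) := by
        gcongr
        exact hL x x1'
    _ = 4 * C * x * (√x * √x) := by ring
    _ = _ := by
        rw [Real.mul_self_sqrt (by positivity)]
        ring

theorem nswa_chi (k : ℕ) : ∃ C : ℝ, 0 < C ∧ ∀ (x q : ℕ) [NeZero q] (χ : DirichletCharacter ℂ q),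
    q ^ 2 ≤ x → χ ≠ 1 →
      ‖Rz (fun n => (Real.log n : ℂ) ^ k * (lam n : ℂ) * χ n) x‖ ≤ C * √q * (x : ℝ) ^ 2 := by
  obtain ⟨C₁, h₁, H₁⟩ := rz_cmp k
  obtain ⟨C₂, h₂, H₂⟩ := riesz
  obtain ⟨C₃, h₃, H₃⟩ := chi_bound k
  refine ⟨C₁ + C₂ * C₃, by positivity, fun x q _ χ hx hχ => ?_⟩
  have hq := NeZero.pos q
  have : NeZero χ.conductor := ⟨χ.conductor_ne_zero⟩
  have a1 := H₁ x q (fun n => χ n) (fun n => χ.primitiveCharacter n) hq hx
    (fun n => χ.norm_le_one _) (fun n => χ.primitiveCharacter.norm_le_one _) fun n hn => by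
      simpa using (χ.primitiveCharacter_apply_of_isCoprime (Nat.isCoprime_iff_coprime.2 hn)).symm
  have hne : χ.primitiveCharacter ≠ 1 := fun h1 => hχ (by
    rw [← χ.changeLevel_primitiveCharacter, h1, map_one])
  have a2 := H₂ _ (C₃ * √χ.conductor) (sw_summable k χ.primitiveCharacter)
    (H₃ _ _ χ.primitiveCharacter_isPrimitive hne) x
  have a3 : √(χ.conductor : ℝ) ≤ √q :=
    Real.sqrt_le_sqrt (by exact_mod_cast Nat.le_of_dvd hq χ.conductor_dvd_level)
  have a4 : (1 : ℝ) ≤ √q := Real.one_le_sqrt.2 (by exact_mod_cast hq)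
  refine (norm_le_insert' _ _).trans ((add_le_add a2 a1).trans ?_)
  have a5 : C₂ * (C₃ * √χ.conductor) + C₁ ≤ (C₁ + C₂ * C₃) * √q := by
    nlinarith [mul_le_mul_of_nonneg_left a3 (mul_pos h₂ h₃).le]
  rw [← add_mul]
  gcongr

theorem nswa_one (k : ℕ) : ∃ C : ℝ, 0 < C ∧ ∀ (x q : ℕ), 0 < q → q ^ 2 ≤ x →
    ‖Rz (fun n => (Real.log n : ℂ) ^ k * (lam n : ℂ) * (1 : DirichletCharacter ℂ q) n) x -
      Rz (fun n => (Real.log n : ℂ) ^ k) x‖ ≤ C * (x : ℝ) ^ 2 := by
  obtain ⟨C₁, h₁, H₁⟩ := rz_cmp k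
  obtain ⟨C₂, h₂, H₂⟩ := riesz
  obtain ⟨C₃, h₃, H₃⟩ := zeta_bound k
  refine ⟨C₁ + C₂ * C₃, by positivity, fun x q hq hx => ?_⟩
  have a1 := H₁ x q (fun n => (1 : DirichletCharacter ℂ q) n) (fun _ => 1) hq hx
    (fun n => (1 : DirichletCharacter ℂ q).norm_le_one _) (fun n => by simp) fun n hn =>
      MulChar.one_apply ((ZMod.isUnit_iff_coprime n q).2 hn)
  have a2 := H₂ _ C₃ (zeta_summable k) H₃ x
  have e : Rz (fun n => (Real.log n : ℂ) ^ k * ((vm n : ℂ) - 1)) x =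
      Rz (fun n => (Real.log n : ℂ) ^ k * (vm n : ℂ) * 1) x -
        Rz (fun n => (Real.log n : ℂ) ^ k) x := by
    rw [Rz, Rz, Rz, ← sum_sub_distrib]
    exact sum_congr rfl fun n _ => by ring
  rw [e] at a2
  refine (norm_sub_le_norm_sub_add_norm_sub _ _ _).trans ((add_le_add a1 a2).trans ?_)
  rw [add_mul]

theorem riesz_ap (k : ℕ) : ∃ C : ℝ, 0 < C ∧ ∀ x q c : ℕ, 0 < q → q ^ 2 ≤ x → c.Coprime q →
    |∑ n ∈ Icc 1 x, Real.log n ^ k * (apl q c n - 1 / q.totient) * ((x : ℝ) - n)| ≤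
      C * √q * (x : ℝ) ^ 2 := by
  classical
  obtain ⟨C₁, h₁, H₁⟩ := nswa_chi k
  obtain ⟨C₂, h₂, H₂⟩ := nswa_one k
  refine ⟨C₁ + C₂, by positivity, fun x q c hq hx hc => ?_⟩
  have : NeZero q := ⟨hq.ne'⟩
  have hφ : (0 : ℝ) < q.totient := by exact_mod_cast Nat.totient_pos.2 hq
  have hφ1 : (1 : ℝ) ≤ q.totient := by exact_mod_cast Nat.totient_pos.2 hq
  have hu : IsUnit (c : ZMod q) := (ZMod.isUnit_iff_coprime c q).2 hc
  have hu' : IsUnit (c : ZMod q)⁻¹ := IsUnit.of_mul_eq_one _ (ZMod.inv_mul_of_unit _ hu)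
  have a4 : (1 : ℝ) ≤ √q := Real.one_le_sqrt.2 (by exact_mod_cast hq)
  set R : DirichletCharacter ℂ q → ℂ :=
    fun χ => Rz (fun n => (Real.log n : ℂ) ^ k * (lam n : ℂ) * χ n) x with hR
  have h1 : (((∑ n ∈ Icc 1 x, Real.log n ^ k * (apl q c n - 1 / q.totient) * ((x : ℝ) - n)) *
      q.totient : ℝ) : ℂ) =
        ∑ χ : DirichletCharacter ℂ q, χ (c : ZMod q)⁻¹ * R χ -
          Rz (fun n => (Real.log n : ℂ) ^ k) x := by
    simp only [hR, Rz, mul_sum]
    rw [sum_comm, ← sum_sub_distrib, sum_mul, Complex.ofReal_sum]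
    refine sum_congr rfl fun n _ => ?_
    have e : ∀ χ : DirichletCharacter ℂ q, χ (c : ZMod q)⁻¹ *
        ((Real.log n : ℂ) ^ k * (lam n : ℂ) * χ n * ((x : ℂ) - n)) =
        (Real.log n : ℂ) ^ k * (lam n : ℂ) * ((x : ℂ) - n) * (χ (c : ZMod q)⁻¹ * χ n) :=
      fun χ => by ring
    have hφ' : (q.totient : ℂ) ≠ 0 := by exact_mod_cast hφ.ne'
    simp only [e]
    rw [← mul_sum, DirichletCharacter.sum_char_inv_mul_char_eq ℂ hu, apl]
    by_cases hn : n ≡ c [MOD q]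
    · rw [if_pos hn, if_pos ((ZMod.natCast_eq_natCast_iff _ _ _).2 hn.symm)]
      push_cast
      field_simp
    · rw [if_neg hn, if_neg fun h' => hn ((ZMod.natCast_eq_natCast_iff _ _ _).1 h').symm]
      push_cast
      field_simp
      ring
  rw [← add_sum_erase _ _ (mem_univ (1 : DirichletCharacter ℂ q)), MulChar.one_apply hu', one_mul,
    add_sub_right_comm] at h1
  have h2 : ‖∑ χ ∈ (univ : Finset (DirichletCharacter ℂ q)).erase 1, χ (c : ZMod q)⁻¹ * R χ‖ ≤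
      q.totient * (C₁ * √q * (x : ℝ) ^ 2) := by
    refine (norm_sum_le _ _).trans ((sum_le_card_nsmul _ _ (C₁ * √q * (x : ℝ) ^ 2)
      fun χ hχ => ?_).trans ?_)
    · rw [norm_mul]
      exact (mul_le_of_le_one_left (norm_nonneg _) (χ.norm_le_one _)).trans
        (H₁ x q χ hx (mem_erase.1 hχ).1)
    · rw [nsmul_eq_mul]
      gcongr
      refine (card_le_univ _).trans_eq ?_
      rw [← Nat.card_eq_fintype_card, DirichletCharacter.card_eq_totient_of_hasEnoughRootsOfUnity]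
  have h3 := (norm_add_le _ _).trans (add_le_add (H₂ x q hq hx) h2)
  rw [← h1, Complex.norm_real, Real.norm_eq_abs, abs_mul, abs_of_pos hφ] at h3
  refine le_of_mul_le_mul_right (h3.trans ?_) hφ
  have h4 : (1 : ℝ) ≤ √q * q.totient := one_le_mul_of_one_le_of_one_le a4 hφ1
  nlinarith [mul_le_mul_of_nonneg_left h4 (mul_nonneg h₂.le (sq_nonneg (x : ℝ)))]

end Pool.Agent.MP_a96b63_al.H5

namespace Pool.Agent.MP_a96b63_al.H5

open Finset Filter

theorem nswb_low {u w : ℕ → ℝ} {a m : ℕ} {H : ℝ} (hH : 0 ≤ H) (hu : ∀ n, n ≤ a + m → -H ≤ u n)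
    (hw : ∀ n, a < n → n ≤ a + m → 0 ≤ w n ∧ w n ≤ m) :
    -(m * (m * H)) ≤ ∑ n ∈ Ioc a (a + m), u n * w n := by
  have h := card_nsmul_le_sum (Ioc a (a + m)) (fun n => u n * w n) (-(m * H)) fun n hn => by
    obtain ⟨h1, h2⟩ := mem_Ioc.1 hn
    obtain ⟨h3, h4⟩ := hw n h1 h2
    nlinarith [hu n h2]
  simpa using h

theorem differ (u : ℕ → ℝ) {y m : ℕ} (hm : 0 < m) (hmy : m ≤ y) {H ρ : ℝ}
    (hu : ∀ n, n ≤ y + m → -H ≤ u n) (hH : 0 ≤ H)
    (h : ∀ j, y - m ≤ j → j ≤ y + m → |∑ n ∈ Icc 1 j, u n * ((j : ℝ) - n)| ≤ ρ) :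
    |∑ n ∈ Icc 1 y, u n| ≤ m * H + 2 * ρ / m := by
  obtain ⟨w, rfl⟩ : ∃ w, y = w + m := ⟨y - m, by omega⟩
  have m0 : (0 : ℝ) < m := by exact_mod_cast hm
  have h1 := abs_le.1 (h w (by omega) (by omega))
  have h2 := abs_le.1 (h (w + m) (by omega) (by omega))
  have h3 := abs_le.1 (h (w + m + m) (by omega) (by omega))
  have e : ∀ j, Icc 1 j = Ioc 0 j := fun j => rfl
  simp only [e] at h1 h2 h3 ⊢
  have a1 := nswb_low (w := fun n => ((w + m + m : ℕ) : ℝ) - n) hH hu fun n h1 h2 => by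
    have h1' : ((w + m : ℕ) : ℝ) ≤ n := by exact_mod_cast h1.le
    have h2' : (n : ℝ) ≤ (w + m + m : ℕ) := by exact_mod_cast h2
    push_cast at *
    constructor <;> linarith
  have a2 := nswb_low (a := w) (m := m) (w := fun n => (n : ℝ) - w) hH
    (fun n hn => hu n (by omega)) fun n h1 h2 => by
      have h1' : (w : ℝ) ≤ n := by exact_mod_cast h1.le
      have h2' : (n : ℝ) ≤ (w + m : ℕ) := by exact_mod_cast h2
      push_cast at *
      constructor <;> linarith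
  have e1 : ∑ n ∈ Ioc 0 (w + m), u n * (((w + m + m : ℕ) : ℝ) - n) =
      ∑ n ∈ Ioc 0 (w + m), u n * (((w + m : ℕ) : ℝ) - n) + m * ∑ n ∈ Ioc 0 (w + m), u n := by
    rw [mul_sum, ← sum_add_distrib]
    refine sum_congr rfl fun n _ => ?_
    push_cast
    ring
  have e2 : ∑ n ∈ Ioc 0 (w + m), u n * (((w + m : ℕ) : ℝ) - n) =
      ∑ n ∈ Ioc 0 (w + m), u n * ((w : ℝ) - n) + m * ∑ n ∈ Ioc 0 (w + m), u n := by
    rw [mul_sum, ← sum_add_distrib]
    refine sum_congr rfl fun n _ => ?_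
    push_cast
    ring
  have e3 : ∑ n ∈ Ioc w (w + m), u n * ((w : ℝ) - n) =
      -∑ n ∈ Ioc w (w + m), u n * ((n : ℝ) - w) := by
    rw [← sum_neg_distrib]
    exact sum_congr rfl fun n _ => by ring
  rw [← sum_Ioc_consecutive _ (Nat.zero_le (w + m)) (Nat.le_add_right _ m), e1] at h3
  rw [← sum_Ioc_consecutive (fun n => u n * ((w : ℝ) - n)) (Nat.zero_le w)
    (Nat.le_add_right w m), e3] at e2
  have e4 : m * H + 2 * ρ / m = (m * (m * H) + 2 * ρ) / m := by field_simp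
  rw [e4, le_div_iff₀ m0, ← abs_of_pos m0, ← abs_mul, abs_of_pos m0, abs_le]
  constructor <;> linarith

theorem nswb_abel (u g : ℕ → ℝ) {y z : ℕ} (hyz : y ≤ z) {B : ℝ}
    (h : ∀ j, y ≤ j → j ≤ z → |∑ n ∈ Ioc y j, u n| ≤ B) (hg : ∀ n, y ≤ n → g (n + 1) ≤ g n)
    (h0 : 0 ≤ g z) : |∑ n ∈ Ioc y z, u n * g n| ≤ B * g y := by
  have a := abel (fun n => (u n : ℂ)) (fun n => (g n : ℂ)) hyz (B := B) fun j h1 h2 => by
    rw [← Complex.ofReal_sum, Complex.norm_real]
    exact h j h1 h2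
  have e : ∑ n ∈ Ico y z, ‖(g (n + 1) : ℂ) - g n‖ = g y - g z := by
    rw [← neg_sub, ← sum_Ico_sub g hyz, ← sum_neg_distrib]
    refine sum_congr rfl fun n hn => ?_
    rw [← Complex.ofReal_sub, Complex.norm_real,
      Real.norm_of_nonpos (sub_nonpos.2 (hg n (mem_Ico.1 hn).1))]
  simp only [← Complex.ofReal_mul] at a
  rw [e, ← Complex.ofReal_sum, Complex.norm_real, Complex.norm_real, Real.norm_of_nonneg h0,
    add_sub_cancel] at a
  exact a

theorem nswb_apl (q c n : ℕ) : 0 ≤ apl q c n := by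
  unfold apl
  split_ifs
  · exact lam_nonneg n
  · exact le_rfl

theorem nswb_part (A B : ℕ) : ∃ C : ℝ, 0 < C ∧ ∀ᶠ x : ℕ in atTop, ∀ q c j : ℕ, 0 < q →
    (q : ℝ) ≤ Real.log x ^ B → c.Coprime q → x ≤ j → j ≤ 2 * x →
      |∑ n ∈ Icc 1 j, Real.log n ^ (2 * A + B + 2) * (apl q c n - 1 / q.totient)| ≤
        C * x * Real.log x ^ (A + B + 1) := by
  obtain ⟨C, hC, H⟩ := riesz_ap (2 * A + B + 2)
  refine ⟨2 ^ (2 * A + B + 2) + 36 * C, by positivity, ?_⟩
  filter_upwards [ev_log (2 * B) (c := 2) one_pos, ev_log (A + 1) (c := 2) one_pos, ev_log_ge 2,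
    eventually_ge_atTop 3] with x h1 h2 h3 h4 q c j hq hqL hc hj1 hj2
  rw [Real.rpow_one] at h1 h2
  have x3 : (3 : ℝ) ≤ x := by exact_mod_cast h4
  set L := Real.log x with hL
  have L0 : 0 < L := by linarith
  have LA : 2 ≤ L ^ (A + 1) := by
    have : 1 ≤ L ^ A := one_le_pow₀ (by linarith)
    rw [pow_succ]
    nlinarith
  have LA0 : 0 < L ^ (A + 1) := by positivity
  set m := ⌊x / L ^ (A + 1)⌋₊ with hm
  have m1 : (m : ℝ) * L ^ (A + 1) ≤ x :=
    (le_div_iff₀ LA0).1 (Nat.floor_le (by positivity))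
  have m2 : x < (m + 1 : ℝ) * L ^ (A + 1) := (div_lt_iff₀ LA0).1 (Nat.lt_floor_add_one _)
  have m3 : (x : ℝ) ≤ 2 * m * L ^ (A + 1) := by linarith
  have m0 : (0 : ℝ) < m := by
    by_contra hh
    nlinarith
  have m4 : 2 * m ≤ x := by
    have : 2 * (m : ℝ) ≤ x := by nlinarith
    exact_mod_cast this
  have q1 : (1 : ℝ) ≤ q := by exact_mod_cast hq
  have hφ1 : (1 : ℝ) ≤ q.totient := by exact_mod_cast Nat.totient_pos.2 hq
  have hq2 : 2 * q ^ 2 ≤ x := by
    have : (q : ℝ) ^ 2 ≤ (L ^ B) ^ 2 := by gcongr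
    rw [← pow_mul, mul_comm] at this
    have : 2 * (q : ℝ) ^ 2 ≤ x := by linarith
    exact_mod_cast this
  have hsq : √(q : ℝ) ≤ L ^ B := le_trans (Real.sqrt_le_iff.2 ⟨by positivity, by nlinarith⟩) hqL
  have a := differ (fun n => Real.log n ^ (2 * A + B + 2) * (apl q c n - 1 / q.totient))
    (y := j) (m := m) (by exact_mod_cast m0) (by omega) (H := (2 * L) ^ (2 * A + B + 2))
    (ρ := C * L ^ B * (3 * x) ^ 2) (fun n hn => ?_) (by positivity) fun i i1 i2 => ?_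
  · refine a.trans ?_
    have b1 : m * (2 * L) ^ (2 * A + B + 2) ≤ 2 ^ (2 * A + B + 2) * x * L ^ (A + B + 1) := by
      calc _ = 2 ^ (2 * A + B + 2) * (m * L ^ (A + 1)) * L ^ (A + B + 1) := by ring
        _ ≤ _ := by gcongr
    have b2 : 2 * (C * L ^ B * (3 * x) ^ 2) / m ≤ 36 * C * x * L ^ (A + B + 1) := by
      rw [div_le_iff₀ m0]
      calc _ = 18 * C * L ^ B * x * x := by ring
        _ ≤ 18 * C * L ^ B * x * (2 * m * L ^ (A + 1)) := by gcongr
        _ = _ := by ring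
    linarith
  · have l0 := Real.log_natCast_nonneg n
    have l1 : Real.log n ≤ 2 * L := by
      rcases Nat.eq_zero_or_pos n with rfl | n0
      · simp [L0.le]
      · have : (n : ℝ) ≤ x ^ 2 := by
          have : (n : ℝ) ≤ 3 * x := by exact_mod_cast (by omega : n ≤ 3 * x)
          nlinarith
        have := Real.log_le_log (by exact_mod_cast n0) this
        rw [Real.log_pow] at this
        exact_mod_cast this
    have l2 : Real.log n ^ (2 * A + B + 2) ≤ (2 * L) ^ (2 * A + B + 2) := by gcongr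
    have l3 : 1 / (q.totient : ℝ) ≤ 1 := (div_le_one (by linarith)).2 hφ1
    have l4 := nswb_apl q c n
    nlinarith [pow_nonneg l0 (2 * A + B + 2)]
  · refine (H i q c hq (by omega) hc).trans ?_
    have : (i : ℝ) ≤ 3 * x := by exact_mod_cast (by omega : i ≤ 3 * x)
    gcongr

/-- the Siegel-Walfisz theorem -/
theorem sw (A B : ℕ) : ∀ᶠ x : ℕ in atTop, ∀ q c y z : ℕ, 0 < q → (q : ℝ) ≤ Real.log x ^ B →
    c.Coprime q → x ≤ y → y ≤ z → z ≤ 2 * x →
      |∑ n ∈ Ioc y z, apl q c n - ((z : ℝ) - y) / q.totient| ≤ x / Real.log x ^ A := by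
  obtain ⟨C, hC, H⟩ := nswb_part A B
  filter_upwards [H, ev_log_ge (2 * C), ev_log_ge 1, eventually_gt_atTop 0] with x h1 h2 h3 x0
    q c y z hq hqL hc hxy hyz hz
  have hl : ∀ a b : ℕ, x ≤ a → a ≤ b → Real.log a ≤ Real.log b := fun a b ha hb =>
    Real.log_le_log (by exact_mod_cast x0.trans_le ha) (by exact_mod_cast hb)
  have hp : ∀ n : ℕ, x ≤ n → 0 < Real.log n := fun n hn => by linarith [hl x n le_rfl hn]
  have a := nswb_abel (fun n => Real.log n ^ (2 * A + B + 2) * (apl q c n - 1 / q.totient))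
    (fun n => (Real.log n ^ (2 * A + B + 2))⁻¹) hyz
    (B := 2 * (C * x * Real.log x ^ (A + B + 1))) (fun j j1 j2 => ?_) (fun n hn => ?_)
    (by have := hp z (by omega); positivity)
  · have e : ∑ n ∈ Ioc y z, Real.log n ^ (2 * A + B + 2) * (apl q c n - 1 / q.totient) *
        (Real.log n ^ (2 * A + B + 2))⁻¹ =
        ∑ n ∈ Ioc y z, apl q c n - ((z : ℝ) - y) / q.totient := by
      rw [sum_congr rfl (g := fun n => apl q c n - 1 / q.totient) fun n hn => by
        have := hp n (hxy.trans (mem_Ioc.1 hn).1.le)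
        field_simp]
      rw [sum_sub_distrib, sum_const, Nat.card_Ioc, nsmul_eq_mul, Nat.cast_sub hyz, mul_one_div]
    rw [e] at a
    refine a.trans ?_
    have L0 := hp x le_rfl
    have b1 := hl x y le_rfl hxy
    calc _ ≤ 2 * (C * x * Real.log x ^ (A + B + 1)) * (Real.log x ^ (2 * A + B + 2))⁻¹ := by
          gcongr
      _ = 2 * C / Real.log x * (x / Real.log x ^ A) := by
          field_simp
          ring
      _ ≤ _ := mul_le_of_le_one_left (by positivity) ((div_le_one L0).2 h2)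
  · have b1 := abs_le.1 (h1 q c y hq hqL hc hxy (by omega))
    have b2 := abs_le.1 (h1 q c j hq hqL hc (by omega) (by omega))
    have e : ∀ j, Icc 1 j = Ioc 0 j := fun j => rfl
    rw [e] at b1 b2
    rw [← sum_Ioc_consecutive _ (Nat.zero_le y) j1] at b2
    rw [abs_le]
    constructor <;> linarith
  · have b1 := hp n (by omega)
    have b2 := hl n (n + 1) (by omega) (by omega)
    gcongr

end Pool.Agent.MP_a96b63_al.H5
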