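import Pool.Agent.MP_a96b63_al.Count

/-! Definitions for the count of the groups of order `a ^ 2 * b ^ 3 * q1 * q2 * q3 * 11`. -/

namespace Pool.Agent.MP_a96b63_al.H5

open Multiplicative

/-- a group with an automorphism -/
structure Act where
  /-- the carrier -/
  G : Type
  /-- the group structure -/
  [grp : Group G]
  /-- the automorphism -/
  x : MulAut G

instance (P : Act) : Group P.G := P.grp

/-- `P.x` is conjugate to the `u`-th power of `Q.x` -/
def Act.R (u : ℕ) (P Q : Act) : Prop :=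
  ∃ ψ : P.G ≃* Q.G, ∀ g, ψ (P.x g) = (Q.x ^ u) (ψ g)

/-- the same up to an inner automorphism -/
def Act.RI (u : ℕ) (P Q : Act) : Prop :=
  ∃ (ψ : P.G ≃* Q.G) (h : Q.G), ∀ g, ψ (P.x g) = h * (Q.x ^ u) (ψ g) * h⁻¹

/-- the direct product -/
def Act.prod (P Q : Act) : Act := ⟨P.G × Q.G, MulEquiv.prodCongr P.x Q.x⟩

/-- powers with exponent in `ZMod q` -/
def pv {Γ : Type} [Monoid Γ] {q : ℕ} (ω : Γ) (k : ZMod q) : Γ := ω ^ k.val

section pv

variable {Γ : Type} {q : ℕ}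

theorem pv_zero [Monoid Γ] (ω : Γ) : pv ω (0 : ZMod q) = 1 := by
  rw [pv, ZMod.val_zero, pow_zero]

theorem pv_natCast [Monoid Γ] {ω : Γ} (h : ω ^ q = 1) (n : ℕ) : pv ω (n : ZMod q) = ω ^ n := by
  rw [pv, ZMod.val_natCast]
  conv_rhs => rw [← Nat.mod_add_div n q, pow_add, pow_mul, h, one_pow, mul_one]

theorem pv_add [Monoid Γ] {ω : Γ} (hq : q ≠ 0) (h : ω ^ q = 1) (k l : ZMod q) :
    pv ω (k + l) = pv ω k * pv ω l := by
  have : NeZero q := ⟨hq⟩
  conv_lhs => rw [← ZMod.natCast_zmod_val k, ← ZMod.natCast_zmod_val l, ← Nat.cast_add]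
  rw [pv_natCast h, pow_add, pv, pv]

theorem pv_pow [Monoid Γ] {ω : Γ} (hq : q ≠ 0) (h : ω ^ q = 1) (k : ZMod q) (u : ℕ) :
    pv ω k ^ u = pv ω ((u : ZMod q) * k) := by
  have : NeZero q := ⟨hq⟩
  conv_rhs => rw [← ZMod.natCast_zmod_val k, ← Nat.cast_mul]
  rw [pv_natCast h, pv, ← pow_mul, mul_comm]

theorem pv_pow_self [Monoid Γ] {ω : Γ} (h : ω ^ q = 1) (k : ZMod q) : pv ω k ^ q = 1 := by
  rw [pv, ← pow_mul, mul_comm, pow_mul, h, one_pow]

theorem pv_neg [Group Γ] {ω : Γ} (hq : q ≠ 0) (h : ω ^ q = 1) (k : ZMod q) :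
    pv ω (-k) = (pv ω k)⁻¹ := by
  rw [eq_inv_iff_mul_eq_one, ← pv_add hq h, neg_add_cancel, pv_zero]

theorem pv_inj [Group Γ] {ω : Γ} (hq : q ≠ 0) (h : orderOf ω = q) {k l : ZMod q}
    (e : pv ω k = pv ω l) : k = l := by
  have : NeZero q := ⟨hq⟩
  rw [pv, pv, pow_eq_pow_iff_modEq, h] at e
  rw [← ZMod.natCast_zmod_val k, ← ZMod.natCast_zmod_val l]
  exact (ZMod.natCast_eq_natCast_iff _ _ _).2 e

theorem pv_eq_one [Group Γ] {ω : Γ} (hq : q ≠ 0) (h : orderOf ω = q) {k : ZMod q} :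
    pv ω k = 1 ↔ k = 0 :=
  ⟨fun e => pv_inj hq h (e.trans (pv_zero ω).symm), fun e => e ▸ pv_zero ω⟩

theorem map_pv [Monoid Γ] {Δ : Type} [Monoid Δ] (f : Γ →* Δ) (ω : Γ) (k : ZMod q) :
    f (pv ω k) = pv (f ω) k := map_pow f ω _

theorem exists_pv [Group Γ] {ω y : Γ} (hq : q ≠ 0) (h : ω ^ q = 1)
    (hy : y ∈ Subgroup.zpowers ω) : ∃ k : ZMod q, y = pv ω k := by
  have h1 : IsOfFinOrder ω := isOfFinOrder_iff_pow_eq_one.2 ⟨q, Nat.pos_of_ne_zero hq, h⟩
  obtain ⟨n, rfl⟩ := h1.mem_powers_iff_mem_zpowers.2 hy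
  exact ⟨n, (pv_natCast h n).symm⟩

end pv

open Classical in
/-- the homomorphism from the cyclic group of order `m` sending the generator to `x` -/
noncomputable def pw {Γ : Type} [Group Γ] (m : ℕ) (x : Γ) : Multiplicative (ZMod m) →* Γ :=
  if h : m ≠ 0 ∧ x ^ m = 1 then
    { toFun := fun k => pv x k.toAdd
      map_one' := pv_zero x
      map_mul' := fun k l => pv_add h.1 h.2 k.toAdd l.toAdd }
  else 1

theorem pw_apply {Γ : Type} [Group Γ] {m : ℕ} {x : Γ} (hm : m ≠ 0) (h : x ^ m = 1)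
    (k : Multiplicative (ZMod m)) : pw m x k = pv x k.toAdd := by
  rw [pw, dif_pos ⟨hm, h⟩]
  rfl

/-- the model groups -/
abbrev Md (m : ℕ) (E : Type) (P : Act) : Type :=
  (P.G ⋊[pw m P.x] Multiplicative (ZMod m)) × E

/-- all elements commute -/
def Com (G : Type) [Group G] : Prop := ∀ g h : G, g * h = h * g

/-- the exponent divides `p` -/
def Ex (p : ℕ) (G : Type) [Group G] : Prop := ∀ g : G, g ^ p = 1

/-- the fixed points of an automorphism -/
def fix {G : Type} [Group G] (x : MulAut G) : Subgroup G where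
  carrier := {g | x g = g}
  one_mem' := map_one x
  mul_mem' := fun {g h} hg hh => by
    have hg' : x g = g := hg
    have hh' : x h = h := hh
    show x (g * h) = g * h
    rw [map_mul, hg', hh']
  inv_mem' := fun {g} hg => by
    have hg' : x g = g := hg
    show x g⁻¹ = g⁻¹
    rw [map_inv, hg']

theorem mem_fix {G : Type} [Group G] {x : MulAut G} {g : G} : g ∈ fix x ↔ x g = g := Iff.rfl

/-- multiplication by a unit -/
def mu (F : Type) [CommRing F] : Fˣ →* MulAut (Multiplicative F) where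
  toFun u :=
    { toFun := fun x => ofAdd ((u : F) * x.toAdd)
      invFun := fun x => ofAdd (((u⁻¹ : Fˣ) : F) * x.toAdd)
      left_inv := fun x => by simp
      right_inv := fun x => by simp
      map_mul' := fun x y => by simp [mul_add] }
  map_one' := by ext x; simp
  map_mul' u v := by ext x; simp [mul_assoc]

theorem mu_apply {F : Type} [CommRing F] (u : Fˣ) (x : Multiplicative F) :
    mu F u x = ofAdd ((u : F) * x.toAdd) := rfl

theorem mu_injective (F : Type) [CommRing F] : Function.Injective (mu F) := by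
  intro u v h
  have := congrArg (fun σ : MulAut (Multiplicative F) => (σ (ofAdd 1)).toAdd) h
  exact Units.ext (by simpa [mu_apply] using this)

/-- diagonal matrices -/
def dg (F : Type) [CommRing F] : Fˣ × Fˣ →* MulAut (Multiplicative (F × F)) where
  toFun u :=
    { toFun := fun x => ofAdd ((u.1 : F) * x.toAdd.1, (u.2 : F) * x.toAdd.2)
      invFun := fun x => ofAdd (((u.1⁻¹ : Fˣ) : F) * x.toAdd.1, ((u.2⁻¹ : Fˣ) : F) * x.toAdd.2)
      left_inv := fun x => by simp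
      right_inv := fun x => by simp
      map_mul' := fun x y => by simp [mul_add, ← ofAdd_add] }
  map_one' := by ext x <;> simp
  map_mul' u v := by ext x <;> simp [mul_assoc]

theorem dg_apply {F : Type} [CommRing F] (u : Fˣ × Fˣ) (x : Multiplicative (F × F)) :
    dg F u x = ofAdd ((u.1 : F) * x.toAdd.1, (u.2 : F) * x.toAdd.2) := rfl

theorem dg_injective (F : Type) [CommRing F] : Function.Injective (dg F) := by
  intro u v h
  have := congrArg (fun σ : MulAut (Multiplicative (F × F)) => (σ (ofAdd (1, 1))).toAdd) h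
  simp only [dg_apply, toAdd_ofAdd, mul_one, Prod.mk.injEq] at this
  exact Prod.ext (Units.ext this.1) (Units.ext this.2)

section Hs

variable {p : ℕ} [Fact p.Prime]

/-- the biadditive form of the Heisenberg group -/
noncomputable def bt (δ u v : GaloisField p 2) : ZMod p :=
  Algebra.trace (ZMod p) (GaloisField p 2) (δ * u * v ^ p)

theorem bt_add_left (δ u u' v : GaloisField p 2) : bt δ (u + u') v = bt δ u v + bt δ u' v := by
  simp only [bt, ← map_add]
  congr 1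
  ring

theorem bt_add_right (δ u v v' : GaloisField p 2) : bt δ u (v + v') = bt δ u v + bt δ u v' := by
  simp only [bt, ← map_add]
  congr 1
  rw [add_pow_char]
  ring

theorem bt_zero_left (δ v : GaloisField p 2) : bt δ 0 v = 0 := by simp [bt]

theorem bt_zero_right (δ u : GaloisField p 2) : bt δ u 0 = 0 := by
  simp [bt, (Fact.out : p.Prime).ne_zero]

theorem bt_neg_left (δ u v : GaloisField p 2) : bt δ (-u) v = -bt δ u v := by
  rw [eq_neg_iff_add_eq_zero, ← bt_add_left, neg_add_cancel, bt_zero_left]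

theorem bt_mul (δ u v : GaloisField p 2) {ζ : GaloisField p 2} (h : ζ ^ (p + 1) = 1) :
    bt δ (ζ * u) (ζ * v) = bt δ u v := by
  simp only [bt]
  congr 1
  rw [mul_pow]
  linear_combination δ * u * v ^ p * h

/-- groups of order `p ^ 3` and exponent `p` -/
structure Hs (δ : GaloisField p 2) where
  /-- the image in the field -/
  u : GaloisField p 2
  /-- the central coordinate -/
  s : ZMod p

theorem Hs.ext' {δ : GaloisField p 2} {g h : Hs δ} (h1 : g.u = h.u) (h2 : g.s = h.s) : g = h := by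
  cases g
  cases h
  simp only at h1 h2
  rw [h1, h2]

noncomputable instance (δ : GaloisField p 2) : Group (Hs δ) where
  mul g h := ⟨g.u + h.u, g.s + h.s + bt δ g.u h.u⟩
  one := ⟨0, 0⟩
  inv g := ⟨-g.u, -g.s + bt δ g.u g.u⟩
  mul_assoc g h k := Hs.ext' (add_assoc _ _ _) (by
    show g.s + h.s + bt δ g.u h.u + k.s + bt δ (g.u + h.u) k.u =
      g.s + (h.s + k.s + bt δ h.u k.u) + bt δ g.u (h.u + k.u)
    rw [bt_add_left, bt_add_right]
    ring)
  one_mul g := Hs.ext' (zero_add _) (by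
    show 0 + g.s + bt δ 0 g.u = g.s
    rw [bt_zero_left]
    ring)
  mul_one g := Hs.ext' (add_zero _) (by
    show g.s + 0 + bt δ g.u 0 = g.s
    rw [bt_zero_right]
    ring)
  inv_mul_cancel g := Hs.ext' (neg_add_cancel _) (by
    show -g.s + bt δ g.u g.u + g.s + bt δ (-g.u) g.u = 0
    rw [bt_neg_left]
    ring)

theorem Hs.mul_u {δ : GaloisField p 2} (g h : Hs δ) : (g * h).u = g.u + h.u := rfl

theorem Hs.mul_s {δ : GaloisField p 2} (g h : Hs δ) :
    (g * h).s = g.s + h.s + bt δ g.u h.u := rfl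

theorem Hs.one_u {δ : GaloisField p 2} : (1 : Hs δ).u = 0 := rfl

theorem Hs.one_s {δ : GaloisField p 2} : (1 : Hs δ).s = 0 := rfl

theorem Hs.inv_u {δ : GaloisField p 2} (g : Hs δ) : g⁻¹.u = -g.u := rfl

theorem Hs.inv_s {δ : GaloisField p 2} (g : Hs δ) : g⁻¹.s = -g.s + bt δ g.u g.u := rfl

open Classical in
/-- elements of norm one act on `Hs δ` -/
noncomputable def hmu (δ : GaloisField p 2) (ζ : (GaloisField p 2)ˣ) : MulAut (Hs δ) :=
  if h : ζ ^ (p + 1) = 1 then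
    { toFun := fun g => ⟨ζ * g.u, g.s⟩
      invFun := fun g => ⟨(ζ⁻¹ : (GaloisField p 2)ˣ) * g.u, g.s⟩
      left_inv := fun g => Hs.ext' (by simp) rfl
      right_inv := fun g => Hs.ext' (by simp) rfl
      map_mul' := fun g k => Hs.ext' (mul_add _ _ _) (by
        show g.s + k.s + bt δ g.u k.u = g.s + k.s + bt δ (ζ * g.u) (ζ * k.u)
        rw [bt_mul δ g.u k.u (by rw [← Units.val_pow_eq_pow_val, h, Units.val_one])]) }
  else 1

theorem hmu_apply (δ : GaloisField p 2) {ζ : (GaloisField p 2)ˣ} (h : ζ ^ (p + 1) = 1)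
    (g : Hs δ) : hmu δ ζ g = ⟨ζ * g.u, g.s⟩ := by
  rw [hmu, dif_pos h]
  rfl

end Hs

/-- data for the Sylow subgroup of order `a ^ 2` -/
inductive DA (q1 q2 q3 : ℕ) : Type
  | cyc (e : ZMod q1)
  | dia (i j : ZMod q1)
  | tor (k1 : ZMod q1) (k2 : ZMod q2) (k3 : ZMod q3)

/-- data for the Sylow subgroup of order `b ^ 3` -/
inductive DB (q2 q3 : ℕ) : Type
  | triv (i : Fin 3)
  | hei (l : ZMod q2)
  | el2 (l : ZMod q2)
  | el3 (l : ZMod q3)

section data

variable {q1 q2 q3 : ℕ}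

/-- admissible data -/
def DA.ok : DA q1 q2 q3 → Prop
  | .tor _ k2 k3 => k2 ≠ 0 ∨ k3 ≠ 0
  | _ => True

/-- admissible data -/
def DB.ok : DB q2 q3 → Prop
  | .el3 l => l ≠ 0
  | _ => True

/-- the prime `q3` acts trivially -/
def DA.no3 : DA q1 q2 q3 → Prop
  | .tor _ _ k3 => k3 = 0
  | _ => True

/-- the prime `q3` acts trivially -/
def DB.no3 : DB q2 q3 → Prop
  | .el3 _ => False
  | _ => True

/-- conjugacy to the `u`-th power -/
def DA.rel (u : ℕ) : DA q1 q2 q3 → DA q1 q2 q3 → Prop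
  | .cyc e, .cyc e' => e = u * e'
  | .dia i j, .dia i' j' => (i = u * i' ∧ j = u * j') ∨ (i = u * j' ∧ j = u * i')
  | .tor k1 k2 k3, .tor k1' k2' k3' =>
      k1 = u * k1' ∧ ((k2 = u * k2' ∧ k3 = u * k3') ∨ (k2 = -(u * k2') ∧ k3 = -(u * k3')))
  | _, _ => False

/-- conjugacy to the `u`-th power -/
def DB.rel (u : ℕ) : DB q2 q3 → DB q2 q3 → Prop
  | .triv i, .triv i' => i = i'
  | .hei l, .hei l' => l ^ 2 = (u * l') ^ 2
  | .el2 l, .el2 l' => l ^ 2 = (u * l') ^ 2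
  | .el3 l, .el3 l' => l ^ 3 = (u * l') ^ 3
  | _, _ => False

/-- admissible pairs -/
def okD (d : DA q1 q2 q3 × DB q2 q3) : Prop := d.1.ok ∧ d.2.ok

/-- the prime `q3` acts trivially -/
def no3D (d : DA q1 q2 q3 × DB q2 q3) : Prop := d.1.no3 ∧ d.2.no3

/-- equivalence of pairs -/
def relD (d d' : DA q1 q2 q3 × DB q2 q3) : Prop :=
  ∃ u : ℕ, u.Coprime (q1 * q2 * q3) ∧ DA.rel u d.1 d'.1 ∧ DB.rel u d.2 d'.2

end data

/-- the conditions on the three labelled primes -/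
structure PQ (q1 q2 q3 : ℕ) : Prop where
  p1 : q1.Prime
  p2 : q2.Prime
  p3 : q3.Prime
  l1 : 11 < q1
  l2 : 11 < q2
  l3 : 11 < q3
  n12 : q1 ≠ q2
  n13 : q1 ≠ q3
  n23 : q2 ≠ q3
  m1 : q1 % 11 ≠ 1
  m2 : q2 % 11 ≠ 1
  m3 : q3 % 66 = 1
  d12 : ¬ q1 ∣ q2 - 1
  d13 : ¬ q1 ∣ q3 - 1
  d21 : ¬ q2 ∣ q1 - 1
  d23 : ¬ q2 ∣ q3 - 1
  d31 : ¬ q3 ∣ q1 - 1
  d32 : ¬ q3 ∣ q2 - 1

/-- the conditions on `a` -/
structure HA (a q1 q2 q3 : ℕ) : Prop where
  pq : PQ q1 q2 q3
  pa : a.Prime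
  l1 : q1 < a
  l2 : q2 < a
  l3 : q3 < a
  d1 : q1 ∣ a - 1
  e1 : ¬ q1 ^ 2 ∣ a - 1
  d2 : q2 ∣ a + 1
  e2 : ¬ q2 ^ 2 ∣ a + 1
  d3 : q3 ∣ a + 1
  e3 : ¬ q3 ^ 2 ∣ a + 1

/-- the conditions on `b` -/
structure HB (b q1 q2 q3 : ℕ) : Prop where
  pq : PQ q1 q2 q3
  pb : b.Prime
  l1 : q1 < b
  l2 : q2 < b
  l3 : q3 < b
  d1 : b % q1 = 2
  d2 : q2 ∣ b + 1
  e2 : ¬ q2 ^ 2 ∣ b + 1
  d3 : q3 ∣ b ^ 2 + b + 1
  e3 : ¬ q3 ^ 2 ∣ b ^ 2 + b + 1

/-- all conditions -/
structure Par (a b q1 q2 q3 : ℕ) : Prop where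
  ha : HA a q1 q2 q3
  hb : HB b q1 q2 q3
  lt : a ^ 2 < b
  ba : b % a = 2
  a11 : a % 11 = 2
  b11 : b % 11 = 2

/-- `M` classifies the groups of order `n` with an automorphism of order dividing `m` -/
structure Side {D : Type} (n m m1 : ℕ) (ok no3 : D → Prop) (rel : ℕ → D → D → Prop)
    (M : D → Act) : Prop where
  card : ∀ d, Nat.card (M d).G = n
  pow : ∀ d, (M d).x ^ m = 1
  sub : ∀ d, ok d → ((M d).x ^ m1 = 1 ↔ no3 d)
  exh : ∀ P : Act, Nat.card P.G = n → P.x ^ m = 1 → ∃ d, ok d ∧ P.R 1 (M d)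
  inv : ∀ u d d', u.Coprime m → ok d → ok d' → (M d).RI u (M d') → rel u d d'
  cnv : ∀ u d d', rel u d d' → (M d).R u (M d')

/-- roots of unity for the models of order `a ^ 2` -/
structure RA (a q1 q2 q3 : ℕ) [Fact a.Prime] where
  w0 : (ZMod (a ^ 2))ˣ
  w : (ZMod a)ˣ
  w1 : (GaloisField a 2)ˣ
  w2 : (GaloisField a 2)ˣ
  w3 : (GaloisField a 2)ˣ
  h0 : orderOf w0 = q1
  h : orderOf w = q1
  h1 : orderOf w1 = q1
  h2 : orderOf w2 = q2
  h3 : orderOf w3 = q3

/-- the models of order `a ^ 2` -/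
noncomputable def RA.M {a q1 q2 q3 : ℕ} [Fact a.Prime] (ρ : RA a q1 q2 q3) : DA q1 q2 q3 → Act
  | .cyc e => ⟨Multiplicative (ZMod (a ^ 2)), mu _ (pv ρ.w0 e)⟩
  | .dia i j => ⟨Multiplicative (ZMod a × ZMod a), dg _ (pv ρ.w i, pv ρ.w j)⟩
  | .tor k1 k2 k3 =>
      ⟨Multiplicative (GaloisField a 2), mu _ (pv ρ.w1 k1 * pv ρ.w2 k2 * pv ρ.w3 k3)⟩

/-- the three groups of order `p ^ 3` and exponent larger than `p` -/
structure Cube (p : ℕ) where
  C : Fin 3 → Type
  [grp : ∀ i, Group (C i)]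
  card : ∀ i, Nat.card (C i) = p ^ 3
  inj : ∀ i j, Nonempty (C i ≃* C j) → i = j
  nex : ∀ i, ¬ Ex p (C i)
  exh : ∀ (G : Type) [Group G], Nat.card G = p ^ 3 → ¬ Ex p G → ∃ i, Nonempty (G ≃* C i)

instance {p : ℕ} (c : Cube p) (i : Fin 3) : Group (c.C i) := c.grp i

/-- roots of unity for the models of order `b ^ 3` -/
structure RB (b q2 q3 : ℕ) [Fact b.Prime] where
  c : Cube b
  z : (GaloisField b 2)ˣ
  y : (GaloisField b 3)ˣ
  hz : orderOf z = q2
  hy : orderOf y = q3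

/-- the parameter of the Heisenberg group -/
noncomputable def RB.δ {b q2 q3 : ℕ} [Fact b.Prime] (ρ : RB b q2 q3) : GaloisField b 2 :=
  (ρ.z : GaloisField b 2) - (ρ.z⁻¹ : (GaloisField b 2)ˣ)

/-- the models of order `b ^ 3` -/
noncomputable def RB.M {b q2 q3 : ℕ} [Fact b.Prime] (ρ : RB b q2 q3) : DB q2 q3 → Act
  | .triv i => ⟨ρ.c.C i, 1⟩
  | .hei l => ⟨Hs ρ.δ, hmu _ (pv ρ.z l)⟩
  | .el2 l => ⟨Hs (0 : GaloisField b 2), hmu _ (pv ρ.z l)⟩
  | .el3 l => ⟨Multiplicative (GaloisField b 3), mu _ (pv ρ.y l)⟩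

end Pool.Agent.MP_a96b63_al.H5

namespace Pool.Agent.MP_a96b63_al.H5

theorem fix_card {G : Type} [Group G] [Finite G] {x : MulAut G} {q : ℕ} (hq : q.Prime)
    (hx : x ^ q = 1) (M : Subgroup G) (hM : ∀ g ∈ M, x g ∈ M) :
    Nat.card M ≡ Nat.card (M ⊓ fix x : Subgroup G) [MOD q] := by
  classical
  have : Fact q.Prime := ⟨hq⟩
  have : Fintype M := Fintype.ofFinite _
  let f : Function.End M := fun g => ⟨x g, hM g g.2⟩
  have hf : ∀ (n : ℕ) (g : M), ((f ^ n) g : G) = (x ^ n) g := by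
    intro n
    induction n with
    | zero => intro g; rfl
    | succ n ih =>
      intro g
      rw [pow_succ, pow_succ, MulAut.mul_apply]
      exact ih (f g)
  have h1 : f ^ q ^ 1 = 1 := by
    funext g
    apply Subtype.ext
    rw [pow_one, hf, hx]
    rfl
  have h2 := Equiv.Perm.card_fixedPoints_modEq h1
  have e : f.fixedPoints ≃ (M ⊓ fix x : Subgroup G) :=
    { toFun := fun g => ⟨g.1.1, g.1.2, congrArg Subtype.val g.2⟩
      invFun := fun g => ⟨⟨g.1, g.2.1⟩, Subtype.ext g.2.2⟩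
      left_inv := fun _ => rfl
      right_inv := fun _ => rfl }
  rwa [← Nat.card_eq_fintype_card, ← Nat.card_eq_fintype_card, Nat.card_congr e] at h2

theorem gfix_dvd {p q i j : ℕ} (hp : p.Prime) (hq : q.Prime) (hpq : q ≠ p)
    (h : p ^ (i + j) ≡ p ^ i [MOD q]) : q ∣ p ^ j - 1 := by
  have h1 : q ∣ p ^ (i + j) - p ^ i :=
    (Nat.modEq_iff_dvd' (Nat.pow_le_pow_right hp.pos (Nat.le_add_right i j))).1 h.symm
  rw [pow_add, ← Nat.mul_sub_one] at h1
  refine (hq.dvd_mul.1 h1).resolve_left fun h2 => hpq ?_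
  exact (Nat.prime_dvd_prime_iff_eq hq hp).1 (hq.dvd_of_dvd_pow h2)

theorem fix_of_card {G : Type} [Group G] [Finite G] {x : MulAut G} {p q k : ℕ} (hp : p.Prime)
    (hq : q.Prime) (hpq : q ≠ p) (hx : x ^ q = 1) (M : Subgroup G) (hM : ∀ g ∈ M, x g ∈ M)
    (hc : Nat.card M = p ^ k) (hd : ∀ i, 1 ≤ i → i ≤ k → ¬ q ∣ p ^ i - 1) : M ≤ fix x := by
  have h1 := fix_card hq hx M hM
  have h2 : Nat.card (M ⊓ fix x : Subgroup G) ∣ p ^ k :=
    hc ▸ Subgroup.card_dvd_of_le inf_le_left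
  obtain ⟨i, hi, h3⟩ := (Nat.dvd_prime_pow hp).1 h2
  obtain ⟨j, rfl⟩ := Nat.exists_eq_add_of_le hi
  rw [hc, h3] at h1
  have h4 := gfix_dvd hp hq hpq h1
  have h5 : j = 0 := by
    by_contra h
    exact hd j (by omega) (by omega) h4
  subst h5
  have h6 : M ⊓ fix x = M :=
    Subgroup.eq_of_le_of_card_ge inf_le_left (by rw [hc, h3, add_zero])
  exact inf_eq_left.1 h6

theorem aut_triv {G : Type} [Group G] {x : MulAut G} {p q k : ℕ} (hp : p.Prime)
    (hq : q.Prime) (hpq : q ≠ p) (hx : x ^ q = 1) (hc : Nat.card G = p ^ k)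
    (hd : ∀ i, 1 ≤ i → i ≤ k → ¬ q ∣ p ^ i - 1) : x = 1 := by
  have : Finite G := Nat.finite_of_card_ne_zero (hc ▸ (pow_pos hp.pos k).ne')
  have := fix_of_card hp hq hpq hx ⊤ (fun _ _ => trivial) (by rw [Subgroup.card_top, hc]) hd
  ext g
  exact this (Subgroup.mem_top g)

theorem aut_step {G : Type} [Group G] [Finite G] {x : MulAut G} {p q k : ℕ} (hp : p.Prime)
    (hq : q.Prime) (hpq : q ≠ p) (hd : ¬ q ∣ p - 1) (hx : x ^ q = 1) (N M : Subgroup G)
    (hNM : N ≤ M) (hM : ∀ g ∈ M, x g ∈ M) (hN : N ≤ fix x) (cN : Nat.card N = p ^ k)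
    (cM : Nat.card M = p ^ (k + 1)) : M ≤ fix x := by
  have h1 := fix_card hq hx M hM
  have h2 : Nat.card (M ⊓ fix x : Subgroup G) ∣ p ^ (k + 1) :=
    cM ▸ Subgroup.card_dvd_of_le inf_le_left
  obtain ⟨i, hi, h3⟩ := (Nat.dvd_prime_pow hp).1 h2
  have h4 : p ^ k ∣ p ^ i := cN ▸ h3 ▸ Subgroup.card_dvd_of_le (le_inf hNM hN)
  have h5 : k ≤ i := (Nat.pow_dvd_pow_iff_le_right hp.one_lt).1 h4
  have h6 : i = k + 1 := by
    by_contra h
    have h7 : i = k := by omega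
    rw [cM, h3, h7] at h1
    exact hd (by simpa using gfix_dvd hp hq hpq h1)
  have h7 : M ⊓ fix x = M :=
    Subgroup.eq_of_le_of_card_ge inf_le_left (by rw [cM, h3, h6])
  exact inf_eq_left.1 h7

theorem sylow_conj {Γ : Type} [Group Γ] [Finite Γ] {q k : ℕ} (hq : q.Prime) (D : Subgroup Γ)
    (hD : Nat.card D = q ^ k) (hΓ : ¬ q ^ (k + 1) ∣ Nat.card Γ) {x : Γ} (hx : x ^ q = 1) :
    ∃ g : Γ, g * x * g⁻¹ ∈ D := by
  have : Fact q.Prime := ⟨hq⟩
  have h1 : IsPGroup q (Subgroup.zpowers x) := by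
    rintro ⟨_, n, rfl⟩
    refine ⟨1, Subtype.ext ?_⟩
    show (x ^ n) ^ q ^ 1 = 1
    rw [pow_one, ← zpow_natCast, ← zpow_mul, mul_comm, zpow_mul, zpow_natCast, hx, one_zpow]
  obtain ⟨P, hP⟩ := h1.exists_le_sylow
  obtain ⟨P', hP'⟩ := (IsPGroup.of_card hD).exists_le_sylow
  obtain ⟨j, hj⟩ := IsPGroup.iff_card.1 P'.isPGroup'
  have h2 : j ≤ k := by
    by_contra h
    exact hΓ ((pow_dvd_pow q (by omega)).trans (hj ▸ Subgroup.card_subgroup_dvd_card _))
  have h3 : D = P' :=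
    Subgroup.eq_of_le_of_card_ge hP' (by rw [hj, hD]; exact Nat.pow_le_pow_right hq.pos h2)
  obtain ⟨g, hg⟩ := MulAction.exists_smul_eq Γ P P'
  refine ⟨g, ?_⟩
  rw [h3, ← hg, Sylow.coe_subgroup_smul]
  exact Subgroup.smul_mem_pointwise_smul x (MulAut.conj g) _ (hP (Subgroup.mem_zpowers x))

theorem transport {G G' : Type} [Group G] [Group G'] [Finite G'] (e : G ≃* G') {q k : ℕ}
    (hq : q.Prime) (D : Subgroup (MulAut G')) (hD : Nat.card D = q ^ k)
    (hΓ : ¬ q ^ (k + 1) ∣ Nat.card (MulAut G')) {x : MulAut G} (hx : x ^ q = 1) :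
    ∃ (ψ : G ≃* G') (y : MulAut G'), y ∈ D ∧ ∀ g, ψ (x g) = y (ψ g) := by
  have h1 : MulAut.congr e x ^ q = 1 := by rw [← map_pow, hx, map_one]
  obtain ⟨g, hg⟩ := sylow_conj hq D hD hΓ h1
  refine ⟨e.trans g, _, hg, fun a => ?_⟩
  simp [MulAut.congr]

theorem gfix_iter {G G' : Type} [Group G] [Group G'] {x : MulAut G} {y : MulAut G'} {ψ : G → G'}
    (h : ∀ g, ψ (x g) = y (ψ g)) (k : ℕ) (g : G) : ψ ((x ^ k) g) = (y ^ k) (ψ g) := by
  induction k generalizing g with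
  | zero => rfl
  | succ k ih => rw [pow_succ, pow_succ, MulAut.mul_apply, MulAut.mul_apply, ih, h]

theorem R_trans {u v : ℕ} {P Q S : Act} (h1 : P.R u Q) (h2 : Q.R v S) : P.R (u * v) S := by
  obtain ⟨ψ, h1⟩ := h1
  obtain ⟨φ, h2⟩ := h2
  refine ⟨ψ.trans φ, fun g => ?_⟩
  rw [MulEquiv.trans_apply, MulEquiv.trans_apply, h1, gfix_iter h2, ← pow_mul, mul_comm]

theorem R_pow {u : ℕ} {P Q : Act} (h : P.R u Q) (k : ℕ) :
    P.x ^ k = 1 ↔ Q.x ^ (u * k) = 1 := by
  obtain ⟨ψ, h⟩ := h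
  have h1 := gfix_iter h k
  rw [← pow_mul] at h1
  constructor
  · intro h2
    ext g
    obtain ⟨g, rfl⟩ := ψ.surjective g
    rw [← h1, h2]
    rfl
  · intro h2
    ext g
    apply ψ.injective
    rw [h1, h2]
    rfl

theorem RI_com {u : ℕ} {P Q : Act} (h : P.RI u Q) (hQ : Com Q.G) : P.R u Q := by
  obtain ⟨ψ, c, h⟩ := h
  exact ⟨ψ, fun g => by rw [h, hQ c, mul_inv_cancel_right]⟩

theorem gfix_prod (P Q : Act) (k : ℕ) (g : P.G × Q.G) :
    ((P.prod Q).x ^ k) g = ((P.x ^ k) g.1, (Q.x ^ k) g.2) := by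
  induction k generalizing g with
  | zero => rfl
  | succ k ih =>
    rw [pow_succ, pow_succ, pow_succ, MulAut.mul_apply, MulAut.mul_apply, MulAut.mul_apply]
    exact ih _

theorem prod_pow (P Q : Act) (k : ℕ) : (P.prod Q).x ^ k = 1 ↔ P.x ^ k = 1 ∧ Q.x ^ k = 1 := by
  constructor
  · intro h
    constructor
    · ext g
      have := gfix_prod P Q k (g, 1)
      rw [h] at this
      exact (congrArg Prod.fst this).symm
    · ext g
      have := gfix_prod P Q k (1, g)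
      rw [h] at this
      exact (congrArg Prod.snd this).symm
  · rintro ⟨h1, h2⟩
    refine MulEquiv.ext fun g => ?_
    refine (gfix_prod P Q k g).trans ?_
    rw [h1, h2]
    rfl

theorem prod_R {u : ℕ} {A A' B B' : Act} (h1 : A.R u A') (h2 : B.R u B') :
    (A.prod B).R u (A'.prod B') := by
  obtain ⟨ψ, h1⟩ := h1
  obtain ⟨φ, h2⟩ := h2
  refine ⟨MulEquiv.prodCongr ψ φ, fun g => ?_⟩
  refine Eq.trans ?_ (gfix_prod A' B' u _).symm
  exact Prod.ext (h1 _) (h2 _)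

theorem gfix_one {G H : Type} [Group G] [Group H] (f : G →* H)
    (h : (Nat.card G).Coprime (Nat.card H)) (g : G) : f g = 1 := by
  rw [← orderOf_eq_one_iff]
  exact Nat.eq_one_of_dvd_coprimes h ((orderOf_map_dvd f g).trans (orderOf_dvd_natCard g))
    (orderOf_dvd_natCard _)

theorem prod_RI {u s t : ℕ} {A A' B B' : Act} (hs : s ≠ 0) (ht : t ≠ 0) (hst : s.Coprime t)
    (cA : Nat.card A.G = s) (cA' : Nat.card A'.G = s) (cB : Nat.card B.G = t)
    (cB' : Nat.card B'.G = t) (h : (A.prod B).RI u (A'.prod B')) : A.RI u A' ∧ B.RI u B' := by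
  obtain ⟨ψ0, c0, h⟩ := h
  let ψ : A.G × B.G ≃* A'.G × B'.G := ψ0
  let c : A'.G × B'.G := c0
  have h' : ∀ g : A.G × B.G, ψ (A.x g.1, B.x g.2) =
      c * ((A'.x ^ u) (ψ g).1, (B'.x ^ u) (ψ g).2) * c⁻¹ := fun g => by
    rw [← gfix_prod A' B' u]
    exact h g
  have : Finite A.G := Nat.finite_of_card_ne_zero (cA ▸ hs)
  have : Finite B.G := Nat.finite_of_card_ne_zero (cB ▸ ht)
  have : Finite A'.G := Nat.finite_of_card_ne_zero (cA' ▸ hs)
  have : Finite B'.G := Nat.finite_of_card_ne_zero (cB' ▸ ht)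
  have a2 : ∀ g, (ψ (g, 1)).2 = 1 :=
    gfix_one ((MonoidHom.snd _ _).comp (ψ.toMonoidHom.comp (MonoidHom.inl _ _)))
      (by rw [cA, cB']; exact hst)
  have b1 : ∀ g, (ψ (1, g)).1 = 1 :=
    gfix_one ((MonoidHom.fst _ _).comp (ψ.toMonoidHom.comp (MonoidHom.inr _ _)))
      (by rw [cB, cA']; exact hst.symm)
  let fA : A.G →* A'.G := (MonoidHom.fst _ _).comp (ψ.toMonoidHom.comp (MonoidHom.inl _ _))
  let fB : B.G →* B'.G := (MonoidHom.snd _ _).comp (ψ.toMonoidHom.comp (MonoidHom.inr _ _))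
  have iA : Function.Bijective fA := by
    refine (Nat.bijective_iff_injective_and_card _).2 ⟨fun g g' e => ?_, cA.trans cA'.symm⟩
    have : ψ (g, 1) = ψ (g', 1) := Prod.ext e ((a2 g).trans (a2 g').symm)
    exact congrArg Prod.fst (ψ.injective this)
  have iB : Function.Bijective fB := by
    refine (Nat.bijective_iff_injective_and_card _).2 ⟨fun g g' e => ?_, cB.trans cB'.symm⟩
    have : ψ (1, g) = ψ (1, g') := Prod.ext ((b1 g).trans (b1 g').symm) e
    exact congrArg Prod.snd (ψ.injective this)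
  refine ⟨⟨MulEquiv.ofBijective fA iA, c.1, fun g => ?_⟩,
    ⟨MulEquiv.ofBijective fB iB, c.2, fun g => ?_⟩⟩
  · have := congrArg Prod.fst (h' (g, 1))
    rw [map_one] at this
    exact this
  · have := congrArg Prod.snd (h' (1, g))
    rw [map_one] at this
    exact this

end Pool.Agent.MP_a96b63_al.H5

namespace Pool.Agent.MP_a96b63_al.H5

theorem gfield_mod {p : ℕ} [Fact p.Prime] (A : Type) [AddCommGroup A] [Finite A]
    [Module (ZMod p) A] : ∃ d, Nat.card A = p ^ d ∧ Nonempty (A ≃+ (Fin d → ZMod p)) := by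
  have h1 := Module.natCard_eq_pow_finrank (K := ZMod p) (V := A)
  rw [Nat.card_zmod] at h1
  exact ⟨Module.finrank (ZMod p) A, h1, ⟨(Module.finBasis (ZMod p) A).equivFun.toAddEquiv⟩⟩

theorem gfield_add {p : ℕ} (hp : p.Prime) (A : Type) [AddCommGroup A] [Finite A]
    (h : ∀ x : A, p • x = 0) : ∃ d, Nat.card A = p ^ d ∧ Nonempty (A ≃+ (Fin d → ZMod p)) :=
  @gfield_mod p ⟨hp⟩ A _ _ (AddCommGroup.zmodModule h)

theorem gfield_std {p : ℕ} (hp : p.Prime) {G : Type} [i : Group G] [Finite G] (h1 : Com G)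
    (h2 : Ex p G) : ∃ d, Nat.card G = p ^ d ∧ Nonempty (G ≃* Multiplicative (Fin d → ZMod p)) := by
  let _ : CommGroup G := { i with mul_comm := fun a b => h1 a b }
  obtain ⟨d, c, ⟨e⟩⟩ := gfield_add hp (Additive G) fun x => congrArg Additive.ofMul (h2 x.toMul)
  exact ⟨d, c, ⟨AddEquiv.toMultiplicativeRight e⟩⟩

theorem elem_iso {p : ℕ} (hp : p.Prime) {G G' : Type} [Group G] [Group G'] [Finite G]
    (h1 : Com G) (h2 : Ex p G) (h1' : Com G') (h2' : Ex p G') (hc : Nat.card G = Nat.card G') :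
    Nonempty (G ≃* G') := by
  have : Finite G' := Nat.finite_of_card_ne_zero (hc ▸ Nat.card_pos.ne')
  obtain ⟨d, c, ⟨e⟩⟩ := gfield_std hp h1 h2
  obtain ⟨d', c', ⟨e'⟩⟩ := gfield_std hp h1' h2'
  obtain rfl : d = d' := Nat.pow_right_injective hp.two_le (c.symm.trans (hc.trans c'))
  exact ⟨e.trans e'.symm⟩

theorem card_aut_elem {p d : ℕ} (hp : p.Prime) {G : Type} [Group G] (h1 : Com G) (h2 : Ex p G)
    (hc : Nat.card G = p ^ d) : Nat.card (MulAut G) = ∏ i ∈ Finset.range d, (p ^ d - p ^ i) := by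
  have : Fact p.Prime := ⟨hp⟩
  have : Finite G := Nat.finite_of_card_ne_zero (hc ▸ (pow_pos hp.pos d).ne')
  obtain ⟨d', c', ⟨e⟩⟩ := gfield_std hp h1 h2
  obtain rfl : d = d' := Nat.pow_right_injective hp.two_le (hc.symm.trans c')
  have e2 : MulAut (Multiplicative (Fin d → ZMod p)) ≃
      ((Fin d → ZMod p) ≃ₗ[ZMod p] (Fin d → ZMod p)) :=
    { toFun := fun σ =>
        { AddEquiv.toMultiplicative.symm σ with
          map_smul' := ZMod.map_smul (AddEquiv.toMultiplicative.symm σ) }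
      invFun := fun f => AddEquiv.toMultiplicative f.toAddEquiv
      left_inv := fun _ => rfl
      right_inv := fun _ => rfl }
  rw [Nat.card_congr (MulAut.congr e).toEquiv, Nat.card_congr e2,
    ← Nat.card_congr (LinearMap.GeneralLinearGroup.generalLinearEquiv _ _).toEquiv,
    ← Nat.card_congr Matrix.GeneralLinearGroup.toLin.toEquiv, Matrix.card_GL_field,
    ZMod.card, Fin.prod_univ_eq_prod_range (fun i => p ^ d - p ^ i)]

theorem conj_root {p d : ℕ} [Fact p.Prime] (hd : d ≠ 0) (ψ : GaloisField p d →+ GaloisField p d)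
    (h0 : ∃ v, ψ v ≠ 0) {η η' : GaloisField p d} (h : ∀ v, ψ (η * v) = η' * ψ v) :
    ∃ i < d, η' = η ^ p ^ i := by
  obtain ⟨v, hv⟩ := h0
  have h1 : ∀ (n : ℕ) v, ψ (η ^ n * v) = η' ^ n * ψ v := by
    intro n
    induction n with
    | zero => intro v; simp
    | succ n ih => intro v; rw [pow_succ, mul_assoc, ih, h, pow_succ, mul_assoc]
  have h2 : ∀ f : Polynomial (ZMod p),
      ψ (Polynomial.aeval η f * v) = Polynomial.aeval η' f * ψ v := by
    intro f
    induction f using Polynomial.induction_on' with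
    | add f g hf hg => rw [map_add, map_add, add_mul, add_mul, map_add, hf, hg]
    | monomial n a =>
      rw [Polynomial.aeval_monomial, Polynomial.aeval_monomial, mul_assoc, mul_assoc,
        ← Algebra.smul_def, ← Algebra.smul_def, ZMod.map_smul, h1]
  have h3 := h2 (minpoly (ZMod p) η)
  rw [minpoly.aeval, zero_mul, map_zero] at h3
  have h4 := (mul_eq_zero.1 h3.symm).resolve_right hv
  obtain ⟨σ, hσ⟩ := minpoly.exists_algEquiv_of_root' (Algebra.IsAlgebraic.isAlgebraic η) h4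
  obtain ⟨⟨i, hi⟩, rfl⟩ :=
    (FiniteField.bijective_frobeniusAlgEquivOfAlgebraic_pow (ZMod p) (GaloisField p d)).2 σ
  rw [GaloisField.finrank p hd] at hi
  refine ⟨i, hi, ?_⟩
  rw [← hσ, AlgEquiv.coe_pow, FiniteField.coe_frobeniusAlgEquivOfAlgebraic_iterate, ZMod.card]

theorem central {p d : ℕ} [Fact p.Prime] (hd : d.Prime) (x : GaloisField p d →+ GaloisField p d)
    {ζ : GaloisField p d} (hζ : ζ ^ p ≠ ζ) (h : ∀ v, x (ζ * v) = ζ * x v) :
    ∃ c, ∀ v, x v = c * v := by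
  let S : Subalgebra (ZMod p) (GaloisField p d) :=
    { carrier := {c | ∀ v, x (c * v) = c * x v}
      mul_mem' := fun {a b} ha hb v => by rw [mul_assoc, ha, hb, mul_assoc]
      add_mem' := fun {a b} ha hb v => by rw [add_mul, map_add, ha, hb, add_mul]
      algebraMap_mem' := fun a v => by
        rw [← Algebra.smul_def, ← Algebra.smul_def, ZMod.map_smul] }
  have h1 := Subalgebra.isSimpleOrder_of_finrank_prime (ZMod p) (GaloisField p d)
    (by rw [GaloisField.finrank p hd.ne_zero]; exact hd)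
  rcases h1.eq_bot_or_eq_top S with h2 | h2
  · have h3 : ζ ∈ S := h
    rw [h2, Algebra.mem_bot] at h3
    obtain ⟨a, rfl⟩ := h3
    exact absurd (by rw [← map_pow, ZMod.pow_card]) hζ
  · refine ⟨x 1, fun v => ?_⟩
    have h3 : v ∈ S := h2 ▸ Algebra.mem_top
    have := h3 1
    rwa [mul_one, mul_comm] at this

theorem frob (p d : ℕ) [Fact p.Prime] : ∃ σ : MulAut (Multiplicative (GaloisField p d)),
    ∀ v, σ (Multiplicative.ofAdd v) = Multiplicative.ofAdd (v ^ p) :=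
  ⟨AddEquiv.toMultiplicative (frobeniusEquiv (GaloisField p d) p).toAddEquiv, fun _ => rfl⟩

theorem gf_facts (p : ℕ) [Fact p.Prime] {d : ℕ} (hd : d ≠ 0) :
    Nat.card (Multiplicative (GaloisField p d)) = p ^ d ∧ Com (Multiplicative (GaloisField p d)) ∧
      Ex p (Multiplicative (GaloisField p d)) ∧
      ∀ c : (GaloisField p d)ˣ, c ^ (p ^ d - 1) = 1 := by
  refine ⟨GaloisField.card p d hd, fun g h => mul_comm g h, fun g => ?_, fun c => ?_⟩
  · apply Multiplicative.toAdd.injective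
    rw [toAdd_pow, nsmul_eq_mul, CharP.cast_eq_zero, zero_mul, toAdd_one]
  · rw [← GaloisField.card p d hd, ← Nat.card_units, pow_card_eq_one']

theorem exists_order {p d q : ℕ} [Fact p.Prime] (hd : d ≠ 0) (hq : q.Prime)
    (h : q ∣ p ^ d - 1) : ∃ w : (GaloisField p d)ˣ, orderOf w = q := by
  have : Fact q.Prime := ⟨hq⟩
  exact exists_prime_orderOf_dvd_card' q (by rw [Nat.card_units, GaloisField.card p d hd]; exact h)

theorem root_pv {F : Type} [Field F] {n : ℕ} (hn : n ≠ 0) {w y : Fˣ} (hw : orderOf w = n)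
    (hy : y ^ n = 1) : ∃ k : ZMod n, y = pv w k := by
  have : NeZero n := ⟨hn⟩
  have h1 : IsPrimitiveRoot w n := hw ▸ IsPrimitiveRoot.orderOf w
  obtain ⟨i, -, hi⟩ := h1.eq_pow_of_mem_rootsOfUnity ((mem_rootsOfUnity n y).2 hy)
  exact ⟨i, by rw [pv_natCast h1.pow_eq_one, hi]⟩

end Pool.Agent.MP_a96b63_al.H5

/-! Groups of order `p ^ 3`: centre, power map, generators, automorphisms. -/

namespace Pool.Agent.MP_a96b63_al.H5

theorem gcubea_fin {p k : ℕ} (hp : p.Prime) {G : Type} [Group G] (hc : Nat.card G = p ^ k) :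
    Finite G := Nat.finite_of_card_ne_zero (by rw [hc]; exact pow_ne_zero _ hp.ne_zero)

theorem center_card {p : ℕ} (hp : p.Prime) {G : Type} [Group G] (hc : Nat.card G = p ^ 3)
    (h : ¬ Com G) : Nat.card (Subgroup.center G) = p := by
  have : Fact p.Prime := ⟨hp⟩
  have := gcubea_fin hp hc
  obtain ⟨k, hk0, hk⟩ := IsPGroup.card_center_eq_prime_pow hc (by norm_num)
  have hm := Subgroup.card_eq_card_quotient_mul_card_subgroup (Subgroup.center G)
  rw [hc, hk] at hm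
  by_contra hne
  have hk1 : k ≠ 1 := fun e => hne (by rw [hk, e, pow_one])
  have hd : Nat.card (G ⧸ Subgroup.center G) ∣ p := by
    obtain ⟨j, rfl⟩ : ∃ j, k = j + 2 := ⟨k - 2, by omega⟩
    refine ⟨p ^ j, Nat.eq_of_mul_eq_mul_right (pow_pos hp.pos 2) ?_⟩
    rw [mul_assoc, ← pow_add, ← hm]
    ring
  have : IsCyclic (G ⧸ Subgroup.center G) := isCyclic_of_card_dvd_prime hd
  exact h fun a b =>
    ((QuotientGroup.mk' (Subgroup.center G)).isMulCommutative_of_isCyclic_of_ker_le_center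
      (by simp)).is_comm.comm a b

theorem gcubea_quot {p : ℕ} (hp : p.Prime) {G : Type} [Group G] (hc : Nat.card G = p ^ 3)
    (N : Subgroup G) (hN : Nat.card N = p) : Nat.card (G ⧸ N) = p ^ 2 := by
  have hm := Subgroup.card_eq_card_quotient_mul_card_subgroup N
  rw [hc, hN, pow_succ] at hm
  exact (Nat.eq_of_mul_eq_mul_right hp.pos hm).symm

theorem comm_central {p : ℕ} (hp : p.Prime) {G : Type} [Group G] (hc : Nat.card G = p ^ 3)
    (g h : G) : (g * h)⁻¹ * (h * g) ∈ Subgroup.center G ∧ ((g * h)⁻¹ * (h * g)) ^ p = 1 := by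
  have : Fact p.Prime := ⟨hp⟩
  by_cases hG : Com G
  · rw [hG h g, inv_mul_cancel]
    exact ⟨Subgroup.one_mem _, one_pow _⟩
  · have h1 := center_card hp hc hG
    have h2 := IsPGroup.isMulCommutative_of_card_eq_prime_sq (gcubea_quot hp hc _ h1)
    have h3 : (g * h)⁻¹ * (h * g) ∈ Subgroup.center G := by
      rw [← QuotientGroup.eq, QuotientGroup.mk_mul, QuotientGroup.mk_mul]
      exact h2.is_comm.comm _ _
    refine ⟨h3, ?_⟩
    have h4 : (⟨_, h3⟩ : Subgroup.center G) ^ Nat.card (Subgroup.center G) = 1 :=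
      pow_card_eq_one'
    rw [h1] at h4
    exact congrArg Subtype.val h4

theorem gcubea_move {G : Type} [Group G] (g h z : G) (hz : z ∈ Subgroup.center G)
    (e : h * g = g * h * z) (n : ℕ) : h ^ n * g = g * h ^ n * z ^ n := by
  induction n with
  | zero => simp
  | succ n ih =>
    have c : h * z ^ n = z ^ n * h :=
      Subgroup.mem_center_iff.1 (Subgroup.pow_mem _ hz n) h
    calc h ^ (n + 1) * g = h ^ n * (h * g) := by rw [pow_succ, mul_assoc]
      _ = (h ^ n * g) * h * z := by rw [e]; simp only [mul_assoc]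
      _ = g * h ^ n * (z ^ n * h) * z := by rw [ih]; simp only [mul_assoc]
      _ = g * h ^ (n + 1) * z ^ (n + 1) := by
          rw [← c, pow_succ, pow_succ]; simp only [mul_assoc]

theorem pow_mul_formula {G : Type} [Group G] (g h z : G) (hz : z ∈ Subgroup.center G)
    (e : h * g = g * h * z) (n : ℕ) : (g * h) ^ n = g ^ n * h ^ n * z ^ n.choose 2 := by
  induction n with
  | zero => simp
  | succ n ih =>
    have c : ∀ (k : ℕ) (y : G), z ^ k * y = y * z ^ k := fun k y =>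
      (Subgroup.mem_center_iff.1 (Subgroup.pow_mem _ hz k) y).symm
    have hn : (n + 1).choose 2 = n + n.choose 2 := by
      rw [Nat.choose_succ_succ, Nat.choose_one_right]
    calc (g * h) ^ (n + 1) = g ^ n * h ^ n * (z ^ n.choose 2 * (g * h)) := by
          rw [pow_succ, ih]; simp only [mul_assoc]
      _ = g ^ n * (h ^ n * g) * h * z ^ n.choose 2 := by rw [c]; simp only [mul_assoc]
      _ = g ^ n * g * h ^ n * (z ^ n * h) * z ^ n.choose 2 := by
          rw [gcubea_move g h z hz e]; simp only [mul_assoc]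
      _ = g ^ (n + 1) * h ^ (n + 1) * z ^ (n + 1).choose 2 := by
          rw [c, hn, pow_add z, pow_succ, pow_succ]; simp only [mul_assoc]

theorem pow_hom {p : ℕ} (hp : p.Prime) (h2 : p ≠ 2) {G : Type} [Group G]
    (hc : Nat.card G = p ^ 3) (g h : G) : (g * h) ^ p = g ^ p * h ^ p := by
  obtain ⟨h1, h3⟩ := comm_central hp hc g h
  have hlt : 2 < p := lt_of_le_of_ne hp.two_le (Ne.symm h2)
  obtain ⟨c, hcc⟩ := hp.dvd_choose_self (k := 2) (by norm_num) hlt
  rw [pow_mul_formula g h _ h1 (by group) p, hcc, pow_mul, h3, one_pow, mul_one]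

theorem gcubea_root {p : ℕ} (hp : p.Prime) {G : Type} [Group G] [Finite G] {g w : G}
    (hg : orderOf g = p ^ 2) (hw : w ∈ Subgroup.zpowers g) (h1 : w ^ p = 1) :
    ∃ c : ℕ, w = g ^ (p * c) := by
  obtain ⟨s, rfl⟩ := mem_powers_iff_mem_zpowers.2 hw
  have h : p ^ 2 ∣ s * p := by
    rw [← hg, orderOf_dvd_iff_pow_eq_one, pow_mul]
    exact h1
  rw [pow_two] at h
  obtain ⟨c, rfl⟩ := Nat.dvd_of_mul_dvd_mul_right hp.pos h
  exact ⟨c, rfl⟩

theorem cube_gen {p : ℕ} (hp : p.Prime) (h2 : p ≠ 2) {G : Type} [Group G]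
    (hc : Nat.card G = p ^ 3) (h : ¬ Ex p G) (h' : ¬ IsCyclic G) :
    ∃ g h : G, orderOf g = p ^ 2 ∧ h ^ p = 1 ∧ h ∉ Subgroup.zpowers g ∧
      (h * g * h⁻¹ = g ∨ h * g * h⁻¹ = g ^ (1 + p)) := by
  have := gcubea_fin hp hc
  have hord : ∀ y : G, orderOf y ∣ p ^ 2 := by
    intro y
    obtain ⟨i, hi, e⟩ := (Nat.dvd_prime_pow hp).1 (hc ▸ orderOf_dvd_natCard y)
    have : i ≠ 3 := fun e3 => h' (isCyclic_of_orderOf_eq_card y (by rw [e, e3, hc]))
    rw [e]
    exact pow_dvd_pow _ (by omega)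
  obtain ⟨g, hg⟩ : ∃ g : G, g ^ p ≠ 1 := not_forall.1 h
  have og : orderOf g = p ^ 2 := by
    obtain ⟨i, hi, e⟩ := (Nat.dvd_prime_pow hp).1 (hord g)
    have : ¬ i ≤ 1 := fun hi1 => hg (orderOf_dvd_iff_pow_eq_one.1
      (e ▸ (pow_dvd_pow p hi1).trans (by rw [pow_one])))
    rw [e, show i = 2 by omega]
  have g2 : g ^ (p * p) = 1 := by rw [← pow_two, ← og, pow_orderOf_eq_one]
  have cN : Nat.card (Subgroup.zpowers g) = p ^ 2 := by rw [Nat.card_zpowers, og]
  have iN : (Subgroup.zpowers g).index = p := by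
    have := (Subgroup.zpowers g).card_mul_index
    rw [cN, hc, pow_succ p 2] at this
    exact Nat.eq_of_mul_eq_mul_left (pow_pos hp.pos 2) this
  have nN : (Subgroup.zpowers g).Normal :=
    Subgroup.normal_of_index_eq_minFac_card (by rw [iN, hc, hp.pow_minFac (by norm_num)])
  obtain ⟨y, hy⟩ : ∃ y, y ∉ Subgroup.zpowers g := by
    by_contra hall
    push Not at hall
    exact h' ⟨g, hall⟩
  have yp : y ^ p ∈ Subgroup.zpowers g := iN ▸ Subgroup.pow_index_mem _ y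
  obtain ⟨s, hs⟩ := gcubea_root hp og yp (by
    rw [← pow_mul, ← pow_two]; exact orderOf_dvd_iff_pow_eq_one.1 (hord y))
  have gm : ∀ n : ℕ, g ^ n ∈ Subgroup.zpowers g := fun n => Subgroup.npow_mem_zpowers g n
  obtain ⟨k, k1, k2⟩ : ∃ k : G, k ^ p = 1 ∧ k ∉ Subgroup.zpowers g := by
    refine ⟨y * (g ^ s)⁻¹, ?_, fun hk => hy ?_⟩
    · rw [pow_hom hp h2 hc, hs, inv_pow, ← pow_mul, mul_comm s p, mul_inv_cancel]
    · simpa using Subgroup.mul_mem _ hk (gm s)
  obtain ⟨w1, w2⟩ := comm_central hp hc g k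
  set w := (g * k)⁻¹ * (k * g) with hw
  have e : k * g = g * k * w := by rw [hw]; group
  have conj : ∀ j : ℕ, k ^ j * g * (k ^ j)⁻¹ = g * w ^ j := by
    intro j
    rw [gcubea_move g k w w1 e, mul_assoc g,
      Subgroup.mem_center_iff.1 (Subgroup.pow_mem _ w1 j) (k ^ j)]
    group
  have wN : w ∈ Subgroup.zpowers g := by
    have h1 := nN.conj_mem g (Subgroup.mem_zpowers g) (k ^ 1)
    rw [conj 1, pow_one] at h1
    simpa using Subgroup.mul_mem _ (Subgroup.inv_mem _ (Subgroup.mem_zpowers g)) h1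
  obtain ⟨c, hcc⟩ := gcubea_root hp og wN w2
  by_cases hpc : p ∣ c
  · obtain ⟨m, rfl⟩ := hpc
    refine ⟨g, k, og, k1, k2, Or.inl ?_⟩
    have h1 := conj 1
    rw [pow_one, pow_one, hcc, ← mul_assoc p, pow_mul, g2, one_pow, mul_one] at h1
    exact h1
  · obtain ⟨j, -, hj⟩ := Nat.exists_mul_mod_eq_one_of_coprime
      ((hp.coprime_iff_not_dvd).2 hpc).symm hp.one_lt
    obtain ⟨m, hm⟩ : ∃ m, c * j = 1 + p * m := ⟨c * j / p, by
      rw [← hj]; exact (Nat.mod_add_div _ _).symm⟩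
    refine ⟨g, k ^ j, og, by rw [← pow_mul, mul_comm, pow_mul, k1, one_pow], fun hk => k2 ?_,
      Or.inr ?_⟩
    · have h1 := Subgroup.pow_mem _ hk c
      rwa [← pow_mul, mul_comm, hm, pow_add, pow_mul, k1, one_pow, mul_one, pow_one] at h1
    · rw [conj j, hcc, ← pow_mul, mul_assoc, hm, mul_add, pow_add, ← mul_assoc p, pow_mul g (p * p),
        g2, one_pow, mul_one, mul_one, pow_add, pow_one]

theorem gcubea_le {p : ℕ} (hp : p.Prime) {G : Type} [Group G] [Finite G] {K R : Subgroup G}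
    (cK : Nat.card K = p) {z : G} (hz : z ≠ 1) (zK : z ∈ K) (zR : z ∈ R) : K ≤ R := by
  have h1 : K ⊓ R ≤ K := inf_le_left
  have h2 := Subgroup.card_dvd_of_le h1
  rw [cK] at h2
  rcases (Nat.dvd_prime hp).1 h2 with h | h
  · exact absurd (Subgroup.mem_bot.1
      (Subgroup.card_eq_one.1 h ▸ (Subgroup.mem_inf.2 ⟨zK, zR⟩ : z ∈ K ⊓ R))) hz
  · exact (Subgroup.eq_of_le_of_card_ge h1 (by rw [h, cK])) ▸ inf_le_right

theorem gcubea_flag {p q : ℕ} (hp : p.Prime) {G : Type} [Group G]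
    (hc : Nat.card G = p ^ 3) (hq : q.Prime) (hpq : q ≠ p) (hd : ¬ q ∣ p - 1)
    {x : MulAut G} (hx : x ^ q = 1) {K R : Subgroup G} (hKR : K ≤ R) (hK : ∀ g ∈ K, x g ∈ K)
    (hR : ∀ g ∈ R, x g ∈ R) (cK : Nat.card K = p ^ 1) (cR : Nat.card R = p ^ 2) : x = 1 := by
  have := gcubea_fin hp hc
  have h0 := aut_step (k := 0) hp hq hpq hd hx ⊥ K bot_le hK bot_le (by simp) cK
  have h1 := aut_step (k := 1) hp hq hpq hd hx K R hKR hR h0 cK cR
  have h2 := aut_step (k := 2) hp hq hpq hd hx R ⊤ le_top (fun _ _ => Subgroup.mem_top _) h1 cR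
    (by rw [Subgroup.card_top, hc])
  ext g
  exact h2 (Subgroup.mem_top g)

theorem chain {p q : ℕ} (hp : p.Prime) (h2 : p ≠ 2) {G : Type} [Group G]
    (hc : Nat.card G = p ^ 3) (h : ¬ Ex p G) (hq : q.Prime) (hpq : q ≠ p) (hd : ¬ q ∣ p - 1)
    {x : MulAut G} (hx : x ^ q = 1) : x = 1 := by
  have := gcubea_fin hp hc
  let π : G →* G := MonoidHom.mk' (fun g => g ^ p) (pow_hom hp h2 hc)
  have hK : ∀ g ∈ π.ker, x g ∈ π.ker := by
    intro g hg
    have hg' : g ^ p = 1 := hg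
    show (x g) ^ p = 1
    rw [← map_pow, hg', map_one]
  have hR : ∀ g ∈ π.range, x g ∈ π.range := by
    rintro g ⟨y, rfl⟩
    exact ⟨x y, (map_pow x y p).symm⟩
  have hm : Nat.card π.ker * Nat.card π.range = p ^ 3 := by
    rw [← Subgroup.index_ker, Subgroup.card_mul_index, hc]
  obtain ⟨z, z1, zK, zR⟩ : ∃ z : G, z ≠ 1 ∧ z ∈ π.ker ∧ z ∈ π.range := by
    obtain ⟨g, hg⟩ : ∃ g : G, g ^ p ≠ 1 := not_forall.1 h
    by_cases hg2 : (g ^ p) ^ p = 1
    · exact ⟨g ^ p, hg, hg2, g, rfl⟩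
    · refine ⟨(g ^ p) ^ p, hg2, ?_, g ^ p, rfl⟩
      show ((g ^ p) ^ p) ^ p = 1
      rw [← pow_mul, ← pow_mul, show p * (p * p) = p ^ 3 by ring, ← hc, pow_card_eq_one']
  obtain ⟨i, hi, ei⟩ := (Nat.dvd_prime_pow hp).1 (Dvd.intro _ hm)
  obtain ⟨j, hj, ej⟩ := (Nat.dvd_prime_pow hp).1 (Dvd.intro_left _ hm)
  have hij : i + j = 3 := by
    rw [ei, ej, ← pow_add] at hm
    exact Nat.pow_right_injective hp.two_le hm
  have i0 : i ≠ 0 := fun e =>
    z1 (Subgroup.mem_bot.1 (Subgroup.card_eq_one.1 (by rw [ei, e, pow_zero]) ▸ zK))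
  have j0 : j ≠ 0 := fun e =>
    z1 (Subgroup.mem_bot.1 (Subgroup.card_eq_one.1 (by rw [ej, e, pow_zero]) ▸ zR))
  by_cases h1 : i = 1
  · have hj2 : j = 2 := by omega
    subst h1 hj2
    exact gcubea_flag hp hc hq hpq hd hx (gcubea_le hp (by rw [ei, pow_one]) z1 zK zR) hK hR ei ej
  · have hi2 : i = 2 := by omega
    have hj1 : j = 1 := by omega
    subst hi2 hj1
    exact gcubea_flag hp hc hq hpq hd hx (gcubea_le hp (by rw [ej, pow_one]) z1 zR zK) hR hK ej ei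

end Pool.Agent.MP_a96b63_al.H5

/-! The three groups of order `p ^ 3` and exponent larger than `p`. -/

namespace Pool.Agent.MP_a96b63_al.H5

open Multiplicative

/-- the noncyclic models -/
abbrev gcubeb_Sd (p : ℕ) (u : (ZMod (p ^ 2))ˣ) : Type :=
  Multiplicative (ZMod (p ^ 2)) ⋊[pw p (mu _ u)] Multiplicative (ZMod p)

theorem gcubeb_card_cyc (n : ℕ) : Nat.card (Multiplicative (ZMod n)) = n := by
  rw [Nat.card_congr Multiplicative.toAdd, Nat.card_zmod]

theorem gcubeb_card (p : ℕ) (u : (ZMod (p ^ 2))ˣ) : Nat.card (gcubeb_Sd p u) = p ^ 3 := by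
  rw [SemidirectProduct.card, gcubeb_card_cyc, gcubeb_card_cyc, ← pow_succ]

theorem gcubeb_act {p : ℕ} (hp : p.Prime) (u : (ZMod (p ^ 2))ˣ) (hu : u ^ p = 1)
    (k : Multiplicative (ZMod p)) (a : Multiplicative (ZMod (p ^ 2))) :
    pw p (mu _ u) k a = ofAdd ((u : ZMod (p ^ 2)) ^ k.toAdd.val * a.toAdd) := by
  rw [pw_apply hp.ne_zero (by rw [← map_pow, hu, map_one]), pv, ← map_pow, mu_apply,
    Units.val_pow_eq_pow_val]

theorem gcubeb_pw_one {G : Type} [Group G] {m : ℕ} (hm : m ≠ 0) {g : G} (hg : g ^ m = 1) :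
    pw m g (ofAdd 1) = g := by
  rw [pw_apply hm hg, toAdd_ofAdd, ← Nat.cast_one, pv_natCast hg, pow_one]

theorem sd_iso {p t : ℕ} (hp : p.Prime) {G : Type} [Group G] (hc : Nat.card G = p ^ 3)
    (u : (ZMod (p ^ 2))ˣ) (hu : u ^ p = 1) (ht : (u : ZMod (p ^ 2)) = t) {g h : G}
    (hg : orderOf g = p ^ 2) (hh : h ^ p = 1) (hn : h ∉ Subgroup.zpowers g)
    (e : h * g * h⁻¹ = g ^ t) :
    Nonempty (G ≃* Multiplicative (ZMod (p ^ 2)) ⋊[pw p (mu _ u)] Multiplicative (ZMod p)) := by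
  have := gcubea_fin hp hc
  have := gcubea_fin hp (gcubeb_card p u)
  have p2 : p ^ 2 ≠ 0 := pow_ne_zero _ hp.ne_zero
  have g2 : g ^ p ^ 2 = 1 := by rw [← hg, pow_orderOf_eq_one]
  have cj : ∀ j : ℕ, h ^ j * g * (h ^ j)⁻¹ = g ^ t ^ j := by
    intro j
    induction j with
    | zero => simp
    | succ j ih =>
      calc h ^ (j + 1) * g * (h ^ (j + 1))⁻¹ = h * (h ^ j * g * (h ^ j)⁻¹) * h⁻¹ := by
            rw [pow_succ']; group
        _ = g ^ t ^ (j + 1) := by rw [ih, ← conj_pow, e, ← pow_mul, pow_succ']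
  let φ : gcubeb_Sd p u →* G := SemidirectProduct.lift (pw (p ^ 2) g) (pw p h) (by
    intro k
    refine MonoidHom.ext fun a => ?_
    show pw (p ^ 2) g (pw p (mu _ u) k a) = pw p h k * pw (p ^ 2) g a * (pw p h k)⁻¹
    rw [gcubeb_act hp u hu, pw_apply p2 g2, pw_apply p2 g2, pw_apply hp.ne_zero hh, toAdd_ofAdd,
      ht, ← Nat.cast_pow, ← pv_pow p2 g2, pv, pv, ← conj_pow, cj, ← pow_mul, ← pow_mul, mul_comm])
  have m1 : Subgroup.zpowers g ≤ φ.range := by
    rw [Subgroup.zpowers_le]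
    exact ⟨SemidirectProduct.inl (ofAdd 1),
      (SemidirectProduct.lift_inl _ _ _ _).trans (gcubeb_pw_one p2 g2)⟩
  have m2 : h ∈ φ.range := ⟨SemidirectProduct.inr (ofAdd 1),
    (SemidirectProduct.lift_inr _ _ _ _).trans (gcubeb_pw_one hp.ne_zero hh)⟩
  obtain ⟨i, hi, ei⟩ := (Nat.dvd_prime_pow hp).1 (hc ▸ Subgroup.card_subgroup_dvd_card φ.range)
  have i3 : i = 3 := by
    by_contra h3
    refine hn (Subgroup.eq_of_le_of_card_ge m1 ?_ ▸ m2)
    rw [Nat.card_zpowers, hg, ei]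
    exact Nat.pow_le_pow_right hp.pos (by omega)
  have top : φ.range = ⊤ := Subgroup.eq_top_of_card_eq _ (by rw [ei, i3, hc])
  exact ⟨(MulEquiv.ofBijective φ ((Nat.bijective_iff_surjective_and_card φ).2
    ⟨MonoidHom.range_eq_top.1 top, by rw [gcubeb_card, hc]⟩)).symm⟩

theorem gcubeb_gen {p i k : ℕ} (hp : p.Prime) (hi : i < k) :
    (ofAdd 1 : Multiplicative (ZMod (p ^ k))) ^ p ^ i ≠ 1 := by
  intro h
  have h1 : ((p ^ i : ℕ) : ZMod (p ^ k)) = 0 := by
    have := congrArg toAdd h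
    rwa [toAdd_pow, toAdd_ofAdd, toAdd_one, nsmul_one] at this
  rw [ZMod.natCast_eq_zero_iff, Nat.pow_dvd_pow_iff_le_right hp.one_lt] at h1
  omega

theorem gcubeb_nex {p : ℕ} (hp : p.Prime) (u : (ZMod (p ^ 2))ˣ) : ¬ Ex p (gcubeb_Sd p u) := by
  intro h
  have h1 := h (SemidirectProduct.inl (ofAdd 1))
  rw [← map_pow, ← map_one (SemidirectProduct.inl (φ := pw p (mu _ u)))] at h1
  exact gcubeb_gen (i := 1) (k := 2) hp (by norm_num)
    (by rw [pow_one]; exact SemidirectProduct.inl_injective h1)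

theorem gcubeb_exp {p : ℕ} (hp : p.Prime) (h2 : p ≠ 2) (u : (ZMod (p ^ 2))ˣ)
    (g : gcubeb_Sd p u) : g ^ p ^ 2 = 1 := by
  have h1 : g.right ^ p = 1 := by
    have := pow_card_eq_one' (x := g.right)
    rwa [gcubeb_card_cyc] at this
  have h3 : g.left ^ p ^ 2 = 1 := by
    have := pow_card_eq_one' (x := g.left)
    rwa [gcubeb_card_cyc] at this
  have h4 : ∀ {H : Type} [Group H] (y : H), y ^ p ^ 2 = (y ^ p) ^ p := fun y => by
    rw [← pow_mul, ← pow_two]
  rw [h4] at h3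
  rw [h4, ← SemidirectProduct.inl_left_mul_inr_right g, pow_hom hp h2 (gcubeb_card p u),
    ← map_pow, ← map_pow, h1, map_one, mul_one, ← map_pow, h3, map_one]

theorem gcubeb_ncyc {p : ℕ} (hp : p.Prime) (h2 : p ≠ 2) (u : (ZMod (p ^ 2))ˣ) :
    ¬ Nonempty (Multiplicative (ZMod (p ^ 3)) ≃* gcubeb_Sd p u) := by
  rintro ⟨e⟩
  refine gcubeb_gen (i := 2) (k := 3) hp (by norm_num) (e.injective ?_)
  rw [map_pow, gcubeb_exp hp h2, map_one]

theorem gcubeb_com {p : ℕ} (hp : p.Prime) : Com (gcubeb_Sd p 1) := by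
  intro g h
  refine SemidirectProduct.ext ?_ (mul_comm _ _)
  rw [SemidirectProduct.mul_left, SemidirectProduct.mul_left, gcubeb_act hp 1 (one_pow _),
    gcubeb_act hp 1 (one_pow _)]
  simp [mul_comm]

theorem gcubeb_ncom {p : ℕ} (hp : p.Prime) (u : (ZMod (p ^ 2))ˣ) (hu : u ^ p = 1) (h1 : u ≠ 1) :
    ¬ Com (gcubeb_Sd p u) := by
  intro h
  have : Fact (1 < p) := ⟨hp.one_lt⟩
  have h2 := congrArg SemidirectProduct.left
    (h (SemidirectProduct.inr (ofAdd 1)) (SemidirectProduct.inl (ofAdd 1)))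
  rw [SemidirectProduct.mul_left, SemidirectProduct.mul_left, gcubeb_act hp u hu,
    gcubeb_act hp u hu] at h2
  refine h1 (Units.ext ?_)
  simpa [ZMod.val_one] using h2

theorem gcubeb_unit {p : ℕ} (hp : p.Prime) : ∃ u : (ZMod (p ^ 2))ˣ, u ^ p = 1 ∧ u ≠ 1 ∧
    (u : ZMod (p ^ 2)) = ((1 + p : ℕ) : ZMod (p ^ 2)) := by
  have h0 : (p : ZMod (p ^ 2)) * p = 0 := by
    rw [← Nat.cast_mul, ← pow_two, ZMod.natCast_self]
  have h1 : ∀ n : ℕ, (1 + (p : ZMod (p ^ 2))) ^ n = 1 + n * p := by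
    intro n
    induction n with
    | zero => simp
    | succ n ih =>
      rw [pow_succ _ n, ih]
      push_cast
      linear_combination (n : ZMod (p ^ 2)) * h0
  refine ⟨Units.mkOfMulEqOne (1 + p) (1 - p) (by linear_combination -h0), Units.ext ?_,
    fun h => ?_, by simp⟩
  · rw [Units.val_pow_eq_pow_val, Units.val_mkOfMulEqOne, h1, h0, add_zero, Units.val_one]
  · have h2 : (1 + (p : ZMod (p ^ 2))) = 1 := congrArg Units.val h
    have h3 : ((p ^ 1 : ℕ) : ZMod (p ^ 2)) = 0 := by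
      rw [pow_one]
      linear_combination h2
    rw [ZMod.natCast_eq_zero_iff, Nat.pow_dvd_pow_iff_le_right hp.one_lt] at h3
    omega

theorem gcubeb_mk {p : ℕ} (A B C : Type) [a : Group A] [b : Group B] [c : Group C]
    (cA : Nat.card A = p ^ 3) (cB : Nat.card B = p ^ 3) (cC : Nat.card C = p ^ 3)
    (nAB : ¬ Nonempty (A ≃* B)) (nAC : ¬ Nonempty (A ≃* C)) (nBC : ¬ Nonempty (B ≃* C))
    (eA : ¬ Ex p A) (eB : ¬ Ex p B) (eC : ¬ Ex p C)
    (exh : ∀ (G : Type) [Group G], Nat.card G = p ^ 3 → ¬ Ex p G →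
      Nonempty (G ≃* A) ∨ Nonempty (G ≃* B) ∨ Nonempty (G ≃* C)) : Nonempty (Cube p) := by
  let T : Fin 3 → Type := fun i => match i with | 0 => A | 1 => B | 2 => C
  let grp : ∀ i, Group (T i) := fun i => match i with | 0 => a | 1 => b | 2 => c
  refine ⟨@Cube.mk p T grp (fun i => ?_) (fun i j h => ?_) (fun i => ?_) (fun G _ h1 h2 => ?_)⟩
  · exact match i with | 0 => cA | 1 => cB | 2 => cC
  · exact match i, j, h with
      | 0, 0, _ => rfl
      | 1, 1, _ => rfl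
      | 2, 2, _ => rfl
      | 0, 1, h => absurd h nAB
      | 0, 2, h => absurd h nAC
      | 1, 2, h => absurd h nBC
      | 1, 0, h => absurd (h.map MulEquiv.symm) nAB
      | 2, 0, h => absurd (h.map MulEquiv.symm) nAC
      | 2, 1, h => absurd (h.map MulEquiv.symm) nBC
  · exact match i with | 0 => eA | 1 => eB | 2 => eC
  · rcases exh G h1 h2 with h | h | h
    exacts [⟨0, h⟩, ⟨1, h⟩, ⟨2, h⟩]

theorem cube {p : ℕ} (hp : p.Prime) (h2 : p ≠ 2) : Nonempty (Cube p) := by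
  obtain ⟨u, u1, u2, u3⟩ := gcubeb_unit hp
  refine gcubeb_mk (Multiplicative (ZMod (p ^ 3))) (gcubeb_Sd p 1) (gcubeb_Sd p u)
    (gcubeb_card_cyc _) (gcubeb_card p 1) (gcubeb_card p u) (gcubeb_ncyc hp h2 1)
    (gcubeb_ncyc hp h2 u) ?_ ?_ (gcubeb_nex hp 1) (gcubeb_nex hp u) ?_
  · rintro ⟨e⟩
    refine gcubeb_ncom hp u u1 u2 fun g h => e.symm.injective ?_
    rw [map_mul, map_mul, gcubeb_com hp]
  · intro h
    exact gcubeb_gen (i := 1) (k := 3) hp (by norm_num) (by rw [pow_one]; exact h _)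
  · intro G _ hc he
    by_cases hG : IsCyclic G
    · exact Or.inl ⟨mulEquivOfCyclicCardEq (by rw [hc, gcubeb_card_cyc])⟩
    · obtain ⟨g, h, hg, hh, hn, e | e⟩ := cube_gen hp h2 hc he hG
      · exact Or.inr (Or.inl (sd_iso (t := 1) hp hc 1 (one_pow _) (by simp) hg hh hn
          (by rw [e, pow_one])))
      · exact Or.inr (Or.inr (sd_iso hp hc u u1 u3 hg hh hn e))

end Pool.Agent.MP_a96b63_al.H5

/-! The noncommutative group of order `p ^ 3` and exponent `p`. -/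

namespace Pool.Agent.MP_a96b63_al.H5

theorem gcubec_move {G : Type} [Group G] (g h z : G) (hz : z ∈ Subgroup.center G)
    (e : h * g = g * h * z) (j i : ℕ) : h ^ j * g ^ i = g ^ i * h ^ j * z ^ (j * i) := by
  induction i with
  | zero => simp
  | succ i ih =>
    have c : g * z ^ (j * i) = z ^ (j * i) * g :=
      Subgroup.mem_center_iff.1 (Subgroup.pow_mem _ hz _) g
    calc h ^ j * g ^ (i + 1) = g ^ i * h ^ j * (z ^ (j * i) * g) := by
          rw [pow_succ, ← mul_assoc, ih]; simp only [mul_assoc]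
      _ = g ^ i * (h ^ j * g) * z ^ (j * i) := by rw [← c]; simp only [mul_assoc]
      _ = g ^ (i + 1) * h ^ j * z ^ (j * (i + 1)) := by
          rw [gcubea_move g h z hz e, mul_add, mul_one, add_comm (j * i), pow_add z, pow_succ]
          simp only [mul_assoc]

theorem gcubec_param {p : ℕ} (hp : p.Prime) {G : Type} [Group G] (hc : Nat.card G = p ^ 3)
    (h1 : ¬ Com G) (h2 : Ex p G) : ∃ f : ZMod p × ZMod p × ZMod p → G, Function.Bijective f ∧
      ∀ a b, f a * f b = f (a.1 + b.1, a.2.1 + b.2.1, a.2.2 + b.2.2 + a.2.1 * b.1) := by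
  have : Fact p.Prime := ⟨hp⟩
  have := gcubea_fin hp hc
  have p0 := hp.ne_zero
  obtain ⟨g, h, hgh⟩ : ∃ g h : G, g * h ≠ h * g := by
    by_contra hall
    push Not at hall
    exact h1 hall
  obtain ⟨z, zc, e, z1⟩ : ∃ z : G, z ∈ Subgroup.center G ∧ h * g = g * h * z ∧ z ≠ 1 :=
    ⟨_, (comm_central hp hc g h).1, by group, fun e => hgh (inv_mul_eq_one.1 e)⟩
  have oz : orderOf z = p := orderOf_eq_prime (h2 z) z1
  have mv : ∀ j i : ZMod p, pv h j * pv g i = pv g i * pv h j * pv z (j * i) := by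
    intro j i
    have : j * i = ((j.val * i.val : ℕ) : ZMod p) := by simp
    rw [this, pv_natCast (h2 z), pv, pv, gcubec_move g h z zc e]
  have cz : ∀ (k : ZMod p) (y : G), pv z k * y = y * pv z k := fun k y =>
    (Subgroup.mem_center_iff.1 (Subgroup.pow_mem _ zc _) y).symm
  let f : ZMod p × ZMod p × ZMod p → G := fun a => pv g a.1 * pv h a.2.1 * pv z a.2.2
  have fm : ∀ a b, f a * f b = f (a.1 + b.1, a.2.1 + b.2.1, a.2.2 + b.2.2 + a.2.1 * b.1) := by
    rintro ⟨i, j, k⟩ ⟨i', j', k'⟩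
    show pv g i * pv h j * pv z k * (pv g i' * pv h j' * pv z k') =
      pv g (i + i') * pv h (j + j') * pv z (k + k' + j * i')
    calc pv g i * pv h j * pv z k * (pv g i' * pv h j' * pv z k')
        = pv g i * pv h j * (pv z k * (pv g i' * pv h j')) * pv z k' := by simp only [mul_assoc]
      _ = pv g i * (pv h j * pv g i') * pv h j' * pv z k * pv z k' := by
          rw [cz]; simp only [mul_assoc]
      _ = pv g i * pv g i' * pv h j * (pv z (j * i') * (pv h j' * pv z k * pv z k')) := by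
          rw [mv]; simp only [mul_assoc]
      _ = _ := by
          rw [cz, pv_add p0 (h2 g), pv_add p0 (h2 h), pv_add p0 (h2 z), pv_add p0 (h2 z)]
          simp only [mul_assoc]
  have ker : ∀ a, f a = 1 → a = 0 := by
    rintro ⟨i, j, k⟩ ha
    have c : ∀ b, f (i, j, k) * f b = f b * f (i, j, k) := fun b => by rw [ha, one_mul, mul_one]
    have c1 := c (0, 1, 0)
    have c2 := c (1, 0, 0)
    rw [fm, fm] at c1 c2
    simp only [f, add_zero, zero_add, mul_zero, zero_mul, mul_one, one_mul,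
      add_comm (1 : ZMod p), mul_right_inj] at c1 c2
    have i0 : i = 0 := by simpa using pv_inj p0 oz c1
    have j0 : j = 0 := by simpa using pv_inj p0 oz c2
    subst i0 j0
    simp only [f, pv_zero, one_mul] at ha
    rw [(pv_eq_one p0 oz).1 ha]
    rfl
  refine ⟨f, (Nat.bijective_iff_injective_and_card f).2 ⟨?_, ?_⟩, fm⟩
  · rintro ⟨i, j, k⟩ ⟨i', j', k'⟩ hab
    have h3 := congrArg (· * f (-i', -j', -k' + j' * i')) hab
    simp only [fm] at h3
    have h4 : f (i' + -i', j' + -j', k' + (-k' + j' * i') + j' * -i') = 1 := by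
      have : k' + (-k' + j' * i') + j' * -i' = 0 := by ring
      rw [this, add_neg_cancel, add_neg_cancel]
      simp only [f, pv_zero, mul_one]
    have h5 := ker _ (h3.trans h4)
    simp only [Prod.ext_iff, Prod.fst_zero, Prod.snd_zero] at h5 ⊢
    obtain ⟨a1, a2, a3⟩ := h5
    exact ⟨by linear_combination a1, by linear_combination a2, by linear_combination a3 + i' * a2⟩
  · rw [Nat.card_prod, Nat.card_prod, Nat.card_zmod, hc]
    ring

theorem heis_iso {p : ℕ} (hp : p.Prime) {G G' : Type} [Group G] [Group G']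
    (hc : Nat.card G = p ^ 3) (h1 : ¬ Com G) (h2 : Ex p G)
    (hc' : Nat.card G' = p ^ 3) (h1' : ¬ Com G') (h2' : Ex p G') : Nonempty (G ≃* G') := by
  obtain ⟨f, b, m⟩ := gcubec_param hp hc h1 h2
  obtain ⟨f', b', m'⟩ := gcubec_param hp hc' h1' h2'
  have key : ∀ a, ((Equiv.ofBijective f b).symm.trans (Equiv.ofBijective f' b')) (f a) = f' a :=
    fun a => by rw [Equiv.trans_apply, Equiv.ofBijective_symm_apply_apply, Equiv.ofBijective_apply]
  refine ⟨MulEquiv.mk' ((Equiv.ofBijective f b).symm.trans (Equiv.ofBijective f' b')) ?_⟩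
  intro x y
  obtain ⟨a, rfl⟩ := b.2 x
  obtain ⟨c, rfl⟩ := b.2 y
  rw [m, key, key, key, m']

theorem card_aut_heis {p q : ℕ} (hp : p.Prime) {G : Type} [Group G] (hc : Nat.card G = p ^ 3)
    (h1 : ¬ Com G) (h2 : Ex p G) (hq : q.Prime) (hpq : q ≠ p) (hd : ¬ q ∣ p - 1)
    (he : ¬ q ^ 2 ∣ p + 1) : ¬ q ^ 2 ∣ Nat.card (MulAut G) := by
  have : Fact p.Prime := ⟨hp⟩
  have : Fact q.Prime := ⟨hq⟩
  have := gcubea_fin hp hc
  have : Finite (MulAut G) := Finite.of_injective _ DFunLike.coe_injective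
  have cZ := center_card hp hc h1
  have cV := gcubea_quot hp hc _ cZ
  have hZ : ∀ e : MulAut G, (Subgroup.center G).map (e : G →* G) = Subgroup.center G :=
    Subgroup.characteristic_iff_map_eq.1 inferInstance
  let Φ : MulAut G →* MulAut (G ⧸ Subgroup.center G) :=
    MonoidHom.mk' (fun e => QuotientGroup.congr _ _ e (hZ e)) (by
      intro a b
      refine MulEquiv.ext fun x => ?_
      induction x using QuotientGroup.induction_on with
      | H x => rfl)
  have cA := card_aut_elem hp (G := G ⧸ Subgroup.center G)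
    (IsPGroup.isMulCommutative_of_card_eq_prime_sq cV).is_comm.comm (by
      intro x
      induction x using QuotientGroup.induction_on with
      | H x => rw [← QuotientGroup.mk_pow, h2, QuotientGroup.mk_one]) cV
  have cop : q.Coprime p := (Nat.coprime_primes hq hp).2 hpq
  have hk : ¬ q ∣ Nat.card Φ.ker := by
    intro hk
    obtain ⟨⟨x, xk⟩, hx⟩ := exists_prime_orderOf_dvd_card' q hk
    rw [← Subgroup.orderOf_coe] at hx
    have xq : x ^ q = 1 := by
      have := pow_orderOf_eq_one x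
      rwa [show orderOf x = q from hx] at this
    have fz := fix_of_card (k := 1) hp hq hpq xq (Subgroup.center G)
      (fun g hg => hZ x ▸ Subgroup.mem_map_of_mem (x : G →* G) hg) (by rw [cZ, pow_one])
      (fun i i1 i2 => by rw [le_antisymm i2 i1, pow_one]; exact hd)
    have x1 : x = 1 := by
      ext g
      have m : g⁻¹ * x g ∈ Subgroup.center G := by
        rw [← QuotientGroup.eq]
        exact (DFunLike.congr_fun (MonoidHom.mem_ker.1 xk) (g : G ⧸ Subgroup.center G)).symm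
      obtain ⟨w, w1, w2⟩ : ∃ w, x g = g * w ∧ x w = w := ⟨_, by group, fz m⟩
      have it : ∀ n : ℕ, (x ^ n) g = g * w ^ n := by
        intro n
        induction n with
        | zero => simp
        | succ n ih =>
          rw [pow_succ', MulAut.mul_apply, ih, map_mul, map_pow, w1, w2, pow_succ', mul_assoc]
      have wq : w ^ q = 1 := by simpa [xq] using (it q).symm
      have w0 : w = 1 := orderOf_eq_one_iff.1 (Nat.eq_one_of_dvd_coprimes cop
        (orderOf_dvd_of_pow_eq_one wq) (orderOf_dvd_of_pow_eq_one (h2 w)))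
      rw [w1, w0, mul_one, MulAut.one_apply]
    subst x1
    exact hq.one_lt.ne (orderOf_one.symm.trans hx)
  intro hdiv
  rw [← Φ.ker.card_mul_index, Subgroup.index_ker] at hdiv
  have d1 := ((((Nat.Prime.coprime_iff_not_dvd hq).2 hk).pow_left 2).dvd_of_dvd_mul_left hdiv).trans
    (Subgroup.card_subgroup_dvd_card Φ.range)
  obtain ⟨n, rfl⟩ : ∃ n, p = n + 1 := ⟨p - 1, (Nat.sub_add_cancel hp.pos).symm⟩
  have e1 : (n + 1) ^ 2 - (n + 1) ^ 0 = n * (n + 1 + 1) := Nat.sub_eq_of_eq_add (by ring)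
  have e2 : (n + 1) ^ 2 - (n + 1) ^ 1 = n * (n + 1) := Nat.sub_eq_of_eq_add (by ring)
  rw [cA, Finset.prod_range_succ, Finset.prod_range_one, e1, e2] at d1
  have cn : (q ^ 2).Coprime n := ((Nat.Prime.coprime_iff_not_dvd hq).2 hd).pow_left 2
  exact he (cn.dvd_of_dvd_mul_left
    ((cn.mul_right (cop.pow_left 2)).dvd_of_dvd_mul_right d1))

theorem aut3 {p q : ℕ} (hp : p.Prime) {G : Type} [Group G] (hc : Nat.card G = p ^ 3)
    (hq : q.Prime) (hpq : q ≠ p) (hd : ¬ q ∣ p ^ 2 - 1) {x : MulAut G} (hx : x ^ q = 1)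
    (N : Subgroup G) (hN : ∀ g ∈ N, x g ∈ N) (cN : Nat.card N = p) : x = 1 := by
  have := gcubea_fin hp hc
  have hd1 : ¬ q ∣ p - 1 := fun h => hd (h.trans (Nat.sub_one_dvd_pow_sub_one p 2))
  have h0 := fix_of_card (k := 1) hp hq hpq hx N hN (by rw [cN, pow_one])
    (fun i i1 i2 => by rw [le_antisymm i2 i1, pow_one]; exact hd1)
  obtain ⟨i, hi, ei⟩ := (Nat.dvd_prime_pow hp).1 (hc ▸ Subgroup.card_subgroup_dvd_card (fix x))
  have i1 : 1 ≤ i := by
    have h1 := Subgroup.card_dvd_of_le h0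
    rw [cN, ei] at h1
    by_contra h
    rw [show i = 0 by omega, pow_zero, Nat.dvd_one] at h1
    exact hp.one_lt.ne' h1
  have h1 := fix_card hq hx ⊤ (fun _ _ => Subgroup.mem_top _)
  rw [top_inf_eq, Subgroup.card_top, hc, ei] at h1
  have h2 := (Nat.modEq_iff_dvd' (Nat.pow_le_pow_right hp.pos hi)).1 h1.symm
  obtain ⟨j, hj⟩ := Nat.exists_eq_add_of_le hi
  rw [hj, pow_add, ← Nat.mul_sub_one] at h2
  have h3 := (((Nat.coprime_primes hq hp).2 hpq).pow_right i).dvd_of_dvd_mul_left h2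
  have i3 : i = 3 := by
    by_contra h
    have : j = 1 ∨ j = 2 := by omega
    rcases this with rfl | rfl
    · exact hd1 (by rwa [pow_one] at h3)
    · exact hd h3
  have top : fix x = ⊤ := Subgroup.eq_top_of_card_eq _ (by rw [ei, i3, hc])
  ext g
  exact mem_fix.1 (top ▸ Subgroup.mem_top g)

end Pool.Agent.MP_a96b63_al.H5

namespace Pool.Agent.MP_a96b63_al.H5

variable {p : ℕ} [Fact p.Prime]

theorem ghs_pp (v : GaloisField p 2) : (v ^ p) ^ p = v := by
  have := Fintype.ofFinite (GaloisField p 2)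
  have h := FiniteField.pow_card v
  rwa [← Nat.card_eq_fintype_card, GaloisField.card p 2 two_ne_zero, sq, pow_mul] at h

theorem ghs_tr (y : GaloisField p 2) :
    Algebra.trace (ZMod p) (GaloisField p 2) (y ^ p) =
      Algebra.trace (ZMod p) (GaloisField p 2) y := by
  have h := Algebra.trace_eq_of_algEquiv
    (FiniteField.frobeniusAlgEquivOfAlgebraic (ZMod p) (GaloisField p 2)) y
  rw [FiniteField.coe_frobeniusAlgEquivOfAlgebraic, ZMod.card] at h
  exact h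

theorem ghs_two (h2 : p ≠ 2) : (2 : ZMod p) ≠ 0 := by
  intro h
  have h1 := (ZMod.natCast_eq_zero_iff 2 p).1 (by exact_mod_cast h)
  exact h2 ((Nat.prime_dvd_prime_iff_eq Fact.out Nat.prime_two).1 h1)

theorem ghs_inv {ζ : (GaloisField p 2)ˣ} (h : ζ ^ (p + 1) = 1) : ζ ^ p = ζ⁻¹ :=
  eq_inv_of_mul_eq_one_left (by rw [← pow_succ, h])

theorem bt_swap {δ : GaloisField p 2} (hδ : δ ^ p = -δ) (u v : GaloisField p 2) :
    bt δ v u = -bt δ u v := by
  rw [bt, bt, ← ghs_tr (δ * v * u ^ p), ← map_neg]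
  congr 1
  rw [mul_pow, mul_pow, ghs_pp, hδ]
  ring

theorem bt_frob {δ : GaloisField p 2} (hδ : δ ^ p = -δ) (u v : GaloisField p 2) :
    bt δ (u ^ p) (v ^ p) = -bt δ u v := by
  rw [← bt_swap hδ, bt, bt, ghs_pp]
  congr 1
  ring

theorem hs_card (δ : GaloisField p 2) : Nat.card (Hs δ) = p ^ 3 := by
  let e : Hs δ ≃ GaloisField p 2 × ZMod p :=
    ⟨fun g => (g.u, g.s), fun x => ⟨x.1, x.2⟩, fun _ => rfl, fun _ => rfl⟩
  rw [Nat.card_congr e, Nat.card_prod, GaloisField.card p 2 two_ne_zero, Nat.card_zmod]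
  ring

theorem hs_ex (h2 : p ≠ 2) {δ : GaloisField p 2} (hδ : δ ^ p = -δ) : Ex p (Hs δ) := by
  intro g
  have h0 : bt δ g.u g.u = 0 := by
    have h1 := bt_swap hδ g.u g.u
    exact (mul_eq_zero.1 (by linear_combination h1 : 2 * bt δ g.u g.u = 0)).resolve_left
      (ghs_two h2)
  have key : ∀ n : ℕ, (g ^ n).u = n * g.u ∧ (g ^ n).s = n * g.s ∧ bt δ (g ^ n).u g.u = 0 := by
    intro n
    induction n with
    | zero => simp [Hs.one_u, Hs.one_s, bt_zero_left]
    | succ n ih =>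
      obtain ⟨i1, i2, i3⟩ := ih
      rw [pow_succ, Hs.mul_u, Hs.mul_s, bt_add_left, i3, h0, i1, i2]
      push_cast
      exact ⟨by ring, by ring, by ring⟩
  refine Hs.ext' ?_ ?_
  · rw [(key p).1, CharP.cast_eq_zero, zero_mul, Hs.one_u]
  · rw [(key p).2.1, CharP.cast_eq_zero, zero_mul, Hs.one_s]

theorem hs_com : Com (Hs (0 : GaloisField p 2)) := by
  intro g h
  refine Hs.ext' (add_comm _ _) ?_
  simp only [Hs.mul_s, bt, zero_mul, map_zero]
  ring

theorem hs_not_com (h2 : p ≠ 2) {δ : GaloisField p 2} (hδ : δ ^ p = -δ) (h0 : δ ≠ 0) :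
    ¬ Com (Hs δ) := by
  intro hc
  obtain ⟨w, hw⟩ := Algebra.trace_surjective (ZMod p) (GaloisField p 2) 1
  have h1 : bt δ (w / δ) 1 = 1 := by
    rw [bt, one_pow, mul_one, mul_div_cancel₀ _ h0, hw]
  have h3 := congrArg Hs.s (hc ⟨w / δ, 0⟩ ⟨1, 0⟩)
  rw [Hs.mul_s, Hs.mul_s] at h3
  simp only at h3
  rw [bt_swap hδ (w / δ) 1, h1] at h3
  exact ghs_two h2 (by linear_combination h3)

theorem hmu_pow (δ : GaloisField p 2) {ζ : (GaloisField p 2)ˣ} (h : ζ ^ (p + 1) = 1) (n : ℕ) :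
    hmu δ ζ ^ n = hmu δ (ζ ^ n) := by
  have hn : ∀ k : ℕ, (ζ ^ k) ^ (p + 1) = 1 := fun k => by
    rw [← pow_mul, mul_comm, pow_mul, h, one_pow]
  induction n with
  | zero =>
    refine MulEquiv.ext fun g => ?_
    rw [hmu_apply δ (hn 0)]
    exact Hs.ext' (by simp) rfl
  | succ n ih =>
    refine MulEquiv.ext fun g => ?_
    rw [pow_succ, MulAut.mul_apply, ih, hmu_apply δ (hn n), hmu_apply δ h, hmu_apply δ (hn (n + 1))]
    exact Hs.ext' (by simp [pow_succ, mul_assoc]) rfl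

theorem hmu_eq_one (δ : GaloisField p 2) {ζ : (GaloisField p 2)ˣ} (h : ζ ^ (p + 1) = 1) :
    hmu δ ζ = 1 ↔ ζ = 1 := by
  constructor
  · intro e
    have h1 := hmu_apply δ h ⟨1, 0⟩
    rw [e] at h1
    have h3 := congrArg Hs.u h1
    exact Units.ext (by simpa using h3.symm)
  · rintro rfl
    have := hmu_pow δ h 0
    rw [pow_zero, pow_zero] at this
    exact this.symm

theorem hs_flip {δ : GaloisField p 2} (hδ : δ ^ p = -δ) : ∃ σ : MulAut (Hs δ),
    ∀ ζ : (GaloisField p 2)ˣ, ζ ^ (p + 1) = 1 → ∀ g, σ (hmu δ ζ g) = hmu δ ζ⁻¹ (σ g) := by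
  let σ : MulAut (Hs δ) :=
    { toFun := fun g => ⟨g.u ^ p, -g.s⟩
      invFun := fun g => ⟨g.u ^ p, -g.s⟩
      left_inv := fun g => Hs.ext' (ghs_pp _) (neg_neg _)
      right_inv := fun g => Hs.ext' (ghs_pp _) (neg_neg _)
      map_mul' := fun g k => Hs.ext' (add_pow_char _ _ _) (by
        show -(g.s + k.s + bt δ g.u k.u) = -g.s + -k.s + bt δ (g.u ^ p) (k.u ^ p)
        rw [bt_frob hδ]
        ring) }
  refine ⟨σ, fun ζ h g => ?_⟩
  rw [hmu_apply δ h, hmu_apply δ (by rw [inv_pow, h, inv_one])]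
  refine Hs.ext' ?_ rfl
  show ((ζ : GaloisField p 2) * g.u) ^ p = _ * g.u ^ p
  rw [mul_pow, ← Units.val_pow_eq_pow_val, ghs_inv h]

theorem hs_root (h2 : p ≠ 2) {δ : GaloisField p 2} (hδ : δ ^ p = -δ) (ψ : Hs δ ≃* Hs δ)
    (h : Hs δ) {ζ ζ' : (GaloisField p 2)ˣ} (h1 : ζ ^ (p + 1) = 1) (h1' : ζ' ^ (p + 1) = 1)
    (e : ∀ g, ψ (hmu δ ζ g) = h * hmu δ ζ' (ψ g) * h⁻¹) : ζ' = ζ ∨ ζ' = ζ⁻¹ := by
  have hπ : ∀ g k, (ψ (g * k)).u = (ψ g).u + (ψ k).u := fun g k => by rw [map_mul, Hs.mul_u]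
  have t2 : (2 : GaloisField p 2) ≠ 0 := by
    have := (map_ne_zero (algebraMap (ZMod p) (GaloisField p 2))).2 (ghs_two h2)
    rwa [map_ofNat] at this
  have hA : ∀ u v, (ψ ⟨0, bt δ u v⟩).u = 0 := by
    intro u v
    obtain ⟨w, rfl⟩ : ∃ w, u = w + w := ⟨u / 2, by field_simp; ring⟩
    have e1 : (⟨w, 0⟩ * ⟨v, 0⟩ : Hs δ) = ⟨0, bt δ (w + w) v⟩ * (⟨v, 0⟩ * ⟨w, 0⟩) := by
      refine Hs.ext' ?_ ?_
      · simp only [Hs.mul_u]
        ring
      · simp only [Hs.mul_s, bt_zero_left, bt_add_left, bt_swap hδ w v]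
        ring
    have e2 := congrArg (fun g => (ψ g).u) e1
    simp only [hπ] at e2
    linear_combination -e2
  let φ : GaloisField p 2 →+ GaloisField p 2 := AddMonoidHom.mk' (fun u => (ψ ⟨u, 0⟩).u) (by
    intro u v
    have e1 : (⟨u, 0⟩ * ⟨v, 0⟩ : Hs δ) = ⟨0, bt δ u v⟩ * ⟨u + v, 0⟩ := by
      refine Hs.ext' ?_ ?_
      · simp only [Hs.mul_u]
        ring
      · simp only [Hs.mul_s, bt_zero_left]
        ring
    have e2 := congrArg (fun g => (ψ g).u) e1
    simp only [hπ, hA] at e2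
    linear_combination -e2)
  have hφ : ∀ u, φ u = (ψ ⟨u, 0⟩).u := fun _ => rfl
  have h0 : ∃ v, φ v ≠ 0 := by
    by_contra hc
    simp only [not_exists, not_not, hφ] at hc
    have hi : Function.Injective fun u : GaloisField p 2 => (ψ ⟨u, 0⟩).s := fun u v huv =>
      congrArg Hs.u (ψ.injective (Hs.ext' ((hc u).trans (hc v).symm) huv))
    have hle := Nat.card_le_card_of_injective _ hi
    rw [GaloisField.card p 2 two_ne_zero, Nat.card_zmod] at hle
    have := (Fact.out : p.Prime).one_lt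
    nlinarith
  obtain ⟨i, hi, hη⟩ := conj_root two_ne_zero φ h0 (η := ζ) (η' := ζ') (fun v => by
    have e1 := congrArg Hs.u (e ⟨v, 0⟩)
    rw [hmu_apply δ h1, hmu_apply δ h1', Hs.mul_u, Hs.mul_u, Hs.inv_u] at e1
    rw [hφ, hφ]
    simp only at e1
    linear_combination e1)
  interval_cases i
  · exact Or.inl (Units.ext (by simpa using hη))
  · refine Or.inr (Units.ext ?_)
    rw [hη, pow_one, ← Units.val_pow_eq_pow_val, ghs_inv h1]

theorem delta_facts {q2 q3 : ℕ} (ρ : RB p q2 q3) (h3 : 3 ≤ q2) (hd : q2 ∣ p + 1) :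
    ρ.z ^ (p + 1) = 1 ∧ ρ.δ ^ p = -ρ.δ ∧ ρ.δ ≠ 0 := by
  have h1 : ρ.z ^ (p + 1) = 1 := orderOf_dvd_iff_pow_eq_one.1 (by rwa [ρ.hz])
  refine ⟨h1, ?_, fun h0 => ?_⟩
  · rw [RB.δ, sub_pow_char, ← Units.val_pow_eq_pow_val, ← Units.val_pow_eq_pow_val, inv_pow,
      ghs_inv h1, inv_inv, neg_sub]
  · have h4 : ρ.z = ρ.z⁻¹ := Units.ext (sub_eq_zero.1 h0)
    have h5 : ρ.z ^ 2 = 1 := by
      rw [sq]
      exact mul_eq_one_iff_eq_inv.2 h4
    have h6 := Nat.le_of_dvd two_pos (orderOf_dvd_iff_pow_eq_one.2 h5)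
    rw [ρ.hz] at h6
    omega

end Pool.Agent.MP_a96b63_al.H5
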