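import Pool.Agent.MP_a96b63_al.V.GA

namespace Pool.Agent.MP_a96b63_al.H5

open Multiplicative

theorem gsidea1_unit {p q : ℕ} (hp : p.Prime) (hq : q.Prime) (h : p ≠ q) : IsUnit (p : ZMod q) :=
  (ZMod.isUnit_iff_coprime p q).2 ((Nat.coprime_primes hp hq).2 h)

theorem gsidea1_add {A B : Type} [AddCommGroup A] [AddCommGroup B]
    (ψ : Multiplicative A ≃* Multiplicative B) :
    ∃ f : A →+ B, Function.Injective f ∧ ∀ v, ψ (ofAdd v) = ofAdd (f v) :=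
  ⟨AddMonoidHom.mk' (fun v => (ψ (ofAdd v)).toAdd) fun v w => by rw [ofAdd_add, map_mul, toAdd_mul],
    fun _ _ e => ofAdd.injective (ψ.injective (toAdd.injective e)), fun _ => rfl⟩

theorem gsidea1_ex {G G' : Type} [Group G] [Group G'] {p : ℕ} (ψ : G ≃* G') (h : Ex p G) :
    Ex p G' := fun g => by
  rw [← ψ.apply_symm_apply g, ← map_pow, h, map_one]

theorem gsidea1_R {G G' Γ : Type} [Group G] [Group G'] [Monoid Γ] (x : MulAut G)
    (f : Γ →* MulAut G') (c : Γ) (u : ℕ) : Act.R u ⟨G, x⟩ ⟨G', f c⟩ ↔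
      ∃ ψ : G ≃* G', ∀ g, ψ (x g) = f (c ^ u) (ψ g) := by
  rw [map_pow]
  rfl

variable {a q1 q2 q3 : ℕ} [Fact a.Prime]

theorem gsidea1_dia (f : ZMod a × ZMod a →+ ZMod a × ZMod a) (hf : Function.Injective f)
    {l m l' m' : ZMod a} (h : ∀ v, f (l * v.1, m * v.2) = (l' * (f v).1, m' * (f v).2)) :
    (l = l' ∧ m = m') ∨ (l = m' ∧ m = l') := by
  have lin : ∀ x y, f (x, y) = (x * (f (1, 0)).1 + y * (f (0, 1)).1,
      x * (f (1, 0)).2 + y * (f (0, 1)).2) := fun x y => by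
    rw [show (x, y) = x • ((1 : ZMod a), (0 : ZMod a)) + y • (0, 1) by simp, map_add, ZMod.map_smul,
      ZMod.map_smul]
    rfl
  have h1 := h (1, 0)
  have h2 := h (0, 1)
  rw [lin] at h1 h2
  have k : ∀ x y, f (x, y) = 0 → x = 0 ∧ y = 0 := fun x y e =>
    Prod.ext_iff.1 (hf (e.trans (map_zero f).symm))
  have k1 := k (f (0, 1)).2 (-(f (1, 0)).2)
  have k2 := k (f (0, 1)).1 (-(f (1, 0)).1)
  have k3 := k 1 0
  rw [lin] at k1 k2 k3
  generalize f (1, 0) = s at *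
  generalize f (0, 1) = t at *
  simp only [Prod.ext_iff, mul_one, mul_zero, zero_mul, add_zero, zero_add, Prod.fst_zero,
    Prod.snd_zero, neg_eq_zero, one_mul] at h1 h2 k1 k2 k3
  by_cases e : s.1 * t.2 = 0
  · have e' : s.2 * t.1 ≠ 0 := fun e' => one_ne_zero (k3 ⟨(k2 ⟨by ring, by
      linear_combination e' - e⟩).2, (k1 ⟨by linear_combination e - e', by ring⟩).2⟩).1
    exact Or.inr ⟨mul_right_cancel₀ (left_ne_zero_of_mul e') h1.2,
      mul_right_cancel₀ (right_ne_zero_of_mul e') h2.1⟩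
  · exact Or.inl ⟨mul_right_cancel₀ (left_ne_zero_of_mul e) h1.1,
      mul_right_cancel₀ (right_ne_zero_of_mul e) h2.2⟩

theorem gsidea1_nex : ¬ Ex a (Multiplicative (ZMod (a ^ 2))) := fun h => by
  have h1 := congrArg toAdd (h (ofAdd 1))
  rw [toAdd_pow, toAdd_ofAdd, toAdd_one, nsmul_one, ZMod.natCast_eq_zero_iff] at h1
  have h2 := (Fact.out : a.Prime).one_lt
  have := Nat.le_of_dvd (by omega) h1
  nlinarith

theorem gsidea1_exd : Ex a (Multiplicative (ZMod a × ZMod a)) := fun g =>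
  toAdd.injective (by rw [toAdd_pow, toAdd_one]; ext <;> simp)

/-- the torus element -/
noncomputable def gsidea1_T (ρ : RA a q1 q2 q3) (k1 : ZMod q1) (k2 : ZMod q2) (k3 : ZMod q3) :
    (GaloisField a 2)ˣ := pv ρ.w1 k1 * pv ρ.w2 k2 * pv ρ.w3 k3

theorem gsidea1_o {Γ : Type} [Monoid Γ] {w : Γ} {q : ℕ} (h : orderOf w = q) : w ^ q = 1 :=
  h ▸ pow_orderOf_eq_one w

theorem gsidea1_pow (h : PQ q1 q2 q3) (ρ : RA a q1 q2 q3) (k1 : ZMod q1) (k2 : ZMod q2)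
    (k3 : ZMod q3) (n : ℕ) : gsidea1_T ρ k1 k2 k3 ^ n = gsidea1_T ρ (n * k1) (n * k2) (n * k3) := by
  rw [gsidea1_T, mul_pow, mul_pow, pv_pow h.p1.ne_zero (gsidea1_o ρ.h1),
    pv_pow h.p2.ne_zero (gsidea1_o ρ.h2), pv_pow h.p3.ne_zero (gsidea1_o ρ.h3), gsidea1_T]

theorem gsidea1_zero (ρ : RA a q1 q2 q3) : gsidea1_T ρ 0 0 0 = 1 := by
  simp [gsidea1_T, pv_zero]

theorem gsidea1_inj (h : PQ q1 q2 q3) (ρ : RA a q1 q2 q3) {k1 l1 : ZMod q1} {k2 l2 : ZMod q2}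
    {k3 l3 : ZMod q3} (e : gsidea1_T ρ k1 k2 k3 = gsidea1_T ρ l1 l2 l3) :
    k1 = l1 ∧ k2 = l2 ∧ k3 = l3 := by
  have e1 := congrArg (· ^ (q2 * q3)) e
  have e2 := congrArg (· ^ (q1 * q3)) e
  have e3 := congrArg (· ^ (q1 * q2)) e
  simp only [gsidea1_pow h] at e1 e2 e3
  simp only [gsidea1_T, Nat.cast_mul, ZMod.natCast_self, mul_zero, zero_mul, pv_zero, mul_one,
    one_mul] at e1 e2 e3
  exact ⟨((gsidea1_unit h.p2 h.p1 h.n12.symm).mul (gsidea1_unit h.p3 h.p1 h.n13.symm)).mul_left_cancel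
    (pv_inj h.p1.ne_zero ρ.h1 e1),
    ((gsidea1_unit h.p1 h.p2 h.n12).mul (gsidea1_unit h.p3 h.p2 h.n23.symm)).mul_left_cancel
    (pv_inj h.p2.ne_zero ρ.h2 e2),
    ((gsidea1_unit h.p1 h.p3 h.n13).mul (gsidea1_unit h.p2 h.p3 h.n23)).mul_left_cancel
    (pv_inj h.p3.ne_zero ρ.h3 e3)⟩

theorem gsidea1_frob (h : HA a q1 q2 q3) (ρ : RA a q1 q2 q3) (k1 : ZMod q1) (k2 : ZMod q2)
    (k3 : ZMod q3) : gsidea1_T ρ k1 k2 k3 ^ a = gsidea1_T ρ k1 (-k2) (-k3) := by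
  have e : ∀ {q : ℕ}, q ∣ a + 1 → (a : ZMod q) = -1 := fun e => by
    rw [eq_neg_iff_add_eq_zero, ← Nat.cast_succ, ZMod.natCast_eq_zero_iff]; exact e
  have e1 : (a : ZMod q1) = 1 := by
    rw [← sub_eq_zero, ← Nat.cast_pred h.pa.pos, ZMod.natCast_eq_zero_iff]; exact h.d1
  rw [gsidea1_pow h.pq, e1, e h.d2, e h.d3, one_mul, neg_one_mul, neg_one_mul]

theorem gsidea1_tor (h : PQ q1 q2 q3) (ρ : RA a q1 q2 q3) (k1 : ZMod q1) (k2 : ZMod q2)
    (k3 : ZMod q3) (n : ℕ) :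
    (ρ.M (.tor k1 k2 k3)).x ^ n = 1 ↔ n * k1 = 0 ∧ n * k2 = 0 ∧ n * k3 = 0 := by
  show mu _ (gsidea1_T ρ k1 k2 k3) ^ n = 1 ↔ _
  rw [← map_pow, map_eq_one_iff _ (mu_injective _), gsidea1_pow h]
  exact ⟨fun e => gsidea1_inj h ρ (e.trans (gsidea1_zero ρ).symm), fun e => by
    rw [e.1, e.2.1, e.2.2, gsidea1_zero]⟩

theorem gsidea1_cyc (ρ : RA a q1 q2 q3) (e : ZMod q1) {n : ℕ} (hn : q1 ∣ n) :
    (ρ.M (.cyc e)).x ^ n = 1 := by
  obtain ⟨c, rfl⟩ := hn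
  show mu _ (pv ρ.w0 e) ^ (q1 * c) = 1
  rw [← map_pow, pow_mul, pv_pow_self (gsidea1_o ρ.h0), one_pow, map_one]

theorem gsidea1_dg (ρ : RA a q1 q2 q3) (i j : ZMod q1) {n : ℕ} (hn : q1 ∣ n) :
    (ρ.M (.dia i j)).x ^ n = 1 := by
  obtain ⟨c, rfl⟩ := hn
  show dg _ (pv ρ.w i, pv ρ.w j) ^ (q1 * c) = 1
  rw [← map_pow, pow_mul, Prod.pow_mk (pv ρ.w i), pv_pow_self (gsidea1_o ρ.h),
    pv_pow_self (gsidea1_o ρ.h), Prod.mk_one_one, one_pow, map_one]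

theorem gsidea1_ok (h : PQ q1 q2 q3) (ρ : RA a q1 q2 q3) {k1 : ZMod q1} {k2 : ZMod q2}
    {k3 : ZMod q3} {u : ℕ} (hu : u.Coprime (q1 * q2 * q3)) (hk : k2 ≠ 0 ∨ k3 ≠ 0) :
    (ρ.M (.tor k1 k2 k3)).x ^ (u * q1) ≠ 1 := fun e => by
  rw [gsidea1_tor h, Nat.cast_mul, Nat.cast_mul, Nat.cast_mul] at e
  exact hk.elim (fun n => n ((((ZMod.isUnit_iff_coprime u q2).2 (hu.coprime_dvd_right
    ⟨q1 * q3, by ring⟩)).mul (gsidea1_unit h.p1 h.p2 h.n12)).mul_right_eq_zero.1 e.2.1))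
    fun n => n ((((ZMod.isUnit_iff_coprime u q3).2 (hu.coprime_dvd_right
    ⟨q1 * q2, by ring⟩)).mul (gsidea1_unit h.p1 h.p3 h.n13)).mul_right_eq_zero.1 e.2.2)

theorem exists_RA (h : HA a q1 q2 q3) : Nonempty (RA a q1 q2 q3) := by
  have : Fact q1.Prime := ⟨h.pq.p1⟩
  have e : a ^ 2 - 1 = (a + 1) * (a - 1) := by simpa using Nat.sq_sub_sq a 1
  obtain ⟨w0, h0⟩ := exists_prime_orderOf_dvd_card' (G := (ZMod (a ^ 2))ˣ) q1 (by
    rw [Nat.card_eq_fintype_card, ZMod.card_units_eq_totient, Nat.totient_prime_pow h.pa two_pos]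
    exact h.d1.mul_left _)
  obtain ⟨w, hw⟩ := exists_prime_orderOf_dvd_card' (G := (ZMod a)ˣ) q1 (by
    rw [Nat.card_eq_fintype_card, ZMod.card_units]; exact h.d1)
  obtain ⟨w1, h1⟩ := exists_order (p := a) two_ne_zero h.pq.p1 (e ▸ h.d1.mul_left _)
  obtain ⟨w2, h2⟩ := exists_order (p := a) two_ne_zero h.pq.p2 (e ▸ h.d2.mul_right _)
  obtain ⟨w3, h3⟩ := exists_order (p := a) two_ne_zero h.pq.p3 (e ▸ h.d3.mul_right _)
  exact ⟨⟨w0, w, w1, w2, w3, h0, hw, h1, h2, h3⟩⟩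

theorem A_card (ρ : RA a q1 q2 q3) (d : DA q1 q2 q3) : Nat.card (ρ.M d).G = a ^ 2 := by
  cases d with
  | cyc e => exact (Nat.card_congr (toAdd (α := ZMod (a ^ 2)))).trans (Nat.card_zmod _)
  | dia i j => exact (Nat.card_congr (toAdd (α := ZMod a × ZMod a))).trans (by simp [pow_two])
  | tor k1 k2 k3 => exact (gf_facts a two_ne_zero).1

theorem A_pow (ρ : RA a q1 q2 q3) (d : DA q1 q2 q3) : (ρ.M d).x ^ (q1 * q2 * q3) = 1 := by
  cases d with
  | cyc e => exact gsidea1_cyc ρ e ⟨q2 * q3, by ring⟩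
  | dia i j => exact gsidea1_dg ρ i j ⟨q2 * q3, by ring⟩
  | tor k1 k2 k3 =>
    have k : ∀ {w : (GaloisField a 2)ˣ} {q : ℕ} (k : ZMod q), orderOf w = q → q ∣ q1 * q2 * q3 →
        pv w k ^ (q1 * q2 * q3) = 1 := fun k e ⟨c, hc⟩ => by
      rw [hc, pow_mul, pv_pow_self (gsidea1_o e), one_pow]
    show mu _ (pv ρ.w1 k1 * pv ρ.w2 k2 * pv ρ.w3 k3) ^ (q1 * q2 * q3) = 1
    rw [← map_pow, mul_pow, mul_pow, k k1 ρ.h1 ⟨q2 * q3, by ring⟩, k k2 ρ.h2 ⟨q1 * q3, by ring⟩,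
      k k3 ρ.h3 ⟨q1 * q2, by ring⟩, one_mul, one_mul, map_one]

theorem A_sub (h : HA a q1 q2 q3) (ρ : RA a q1 q2 q3) (d : DA q1 q2 q3) :
    (ρ.M d).x ^ (q1 * q2) = 1 ↔ d.no3 := by
  cases d with
  | cyc e => exact iff_of_true (gsidea1_cyc ρ e ⟨q2, rfl⟩) trivial
  | dia i j => exact iff_of_true (gsidea1_dg ρ i j ⟨q2, rfl⟩) trivial
  | tor k1 k2 k3 =>
    have h := h.pq
    rw [gsidea1_tor h]
    simp only [Nat.cast_mul, ZMod.natCast_self, mul_zero, zero_mul, true_and]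
    exact ((gsidea1_unit h.p1 h.p3 h.n13).mul (gsidea1_unit h.p2 h.p3 h.n23)).mul_right_eq_zero

theorem A_inv (h : HA a q1 q2 q3) (ρ : RA a q1 q2 q3) (u : ℕ) (d d' : DA q1 q2 q3)
    (hu : u.Coprime (q1 * q2 * q3)) (hd : d.ok) (hd' : d'.ok) (e : (ρ.M d).RI u (ρ.M d')) :
    DA.rel u d d' := by
  have cm : ∀ (A : Type) [AddCommGroup A], Com (Multiplicative A) := fun _ _ => mul_comm
  have e := RI_com e (by cases d'; exacts [cm (ZMod _), cm (ZMod a × ZMod a), cm (GaloisField a 2)])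
  have ef := (gf_facts a two_ne_zero).2.2.1
  have n1 := h.pq.p1.ne_zero
  have ⟨φ, _⟩ := e
  cases d with
  | cyc c =>
    cases d' with
    | cyc c' =>
      have k := gsidea1_R (mu _ (pv ρ.w0 c)) (mu _) (pv ρ.w0 c') u
      obtain ⟨ψ, hψ⟩ := k.1 e
      obtain ⟨v, rfl⟩ := (act_bijective (a ^ 2)).2 ψ
      have h1 := hψ (ofAdd 1)
      rw [pv_pow n1 (gsidea1_o ρ.h0)] at h1
      simp only [mu_apply, act_apply, toAdd_ofAdd, mul_one, EmbeddingLike.apply_eq_iff_eq] at h1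
      exact pv_inj n1 ρ.h0 (Units.ext (v.isUnit.mul_left_cancel (h1.trans (mul_comm _ _))))
    | dia i j => exact gsidea1_nex (gsidea1_ex φ.symm gsidea1_exd)
    | tor k1 k2 k3 => exact gsidea1_nex (gsidea1_ex φ.symm ef)
  | dia i j =>
    cases d' with
    | cyc c' => exact gsidea1_nex (gsidea1_ex φ gsidea1_exd)
    | dia i' j' =>
      obtain ⟨ψ, hψ⟩ := (gsidea1_R (dg _ (pv ρ.w i, pv ρ.w j)) (dg (ZMod a))
        (pv ρ.w i', pv ρ.w j') u).1 e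
      obtain ⟨f, hf, hv⟩ := gsidea1_add ψ
      rw [Prod.pow_mk, pv_pow n1 (gsidea1_o ρ.h), pv_pow n1 (gsidea1_o ρ.h)] at hψ
      have k : ∀ {k l : ZMod q1}, (pv ρ.w k : (ZMod a)ˣ).val = (pv ρ.w l : (ZMod a)ˣ).val → k = l :=
        fun e => pv_inj n1 ρ.h (Units.ext e)
      exact (gsidea1_dia f hf fun v => ofAdd.injective ((hv _).symm.trans
        ((hψ (ofAdd v)).trans (by rw [hv]; rfl)))).imp (And.imp k k) (And.imp k k)
    | tor k1 k2 k3 => exact gsidea1_ok h.pq ρ hu hd' ((R_pow e q1).1 (gsidea1_dg ρ i j dvd_rfl))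
  | tor k1 k2 k3 =>
    cases d' with
    | cyc c' => exact gsidea1_nex (gsidea1_ex φ ef)
    | dia i j => exact gsidea1_ok h.pq ρ (Nat.coprime_one_left _) hd ((R_pow e _).2
        (gsidea1_dg ρ i j ⟨u, by ring⟩))
    | tor l1 l2 l3 =>
      obtain ⟨ψ, hψ⟩ := (gsidea1_R (mu _ (gsidea1_T ρ k1 k2 k3)) (mu (GaloisField a 2))
        (gsidea1_T ρ l1 l2 l3) u).1 e
      obtain ⟨f, hf, hv⟩ := gsidea1_add ψ
      rw [gsidea1_pow h.pq] at hψ
      obtain ⟨i, hi, e⟩ := conj_root two_ne_zero f ⟨1, (map_ne_zero_iff f hf).2 one_ne_zero⟩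
        (η := gsidea1_T ρ k1 k2 k3) (η' := gsidea1_T ρ (u * l1) (u * l2) (u * l3)) fun v =>
        ofAdd.injective ((hv _).symm.trans ((hψ (ofAdd v)).trans (by rw [hv]; rfl)))
      rw [← Units.val_pow_eq_pow_val, Units.val_inj] at e
      interval_cases i
      · rw [pow_zero, pow_one] at e
        obtain ⟨e1, e2, e3⟩ := gsidea1_inj h.pq ρ e
        exact ⟨e1.symm, Or.inl ⟨e2.symm, e3.symm⟩⟩
      · rw [pow_one, gsidea1_frob h] at e
        obtain ⟨e1, e2, e3⟩ := gsidea1_inj h.pq ρ e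
        exact ⟨e1.symm, Or.inr ⟨by rw [e2, neg_neg], by rw [e3, neg_neg]⟩⟩

theorem A_cnv (h : HA a q1 q2 q3) (ρ : RA a q1 q2 q3) (u : ℕ) (d d' : DA q1 q2 q3)
    (e : DA.rel u d d') : (ρ.M d).R u (ρ.M d') := by
  have n1 := h.pq.p1.ne_zero
  cases d with
  | cyc c =>
    cases d' with
    | cyc c' =>
      obtain rfl : c = u * c' := e
      refine (gsidea1_R (mu _ (pv ρ.w0 _)) (mu _) (pv ρ.w0 c') u).2 ⟨MulEquiv.refl _, fun g => ?_⟩
      rw [pv_pow n1 (gsidea1_o ρ.h0)]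
      rfl
    | _ => exact e.elim
  | dia i j =>
    cases d' with
    | dia i' j' =>
      refine (gsidea1_R (dg _ (pv ρ.w i, pv ρ.w j)) (dg _) (pv ρ.w i', pv ρ.w j') u).2 ?_
      rw [Prod.pow_mk, pv_pow n1 (gsidea1_o ρ.h), pv_pow n1 (gsidea1_o ρ.h)]
      obtain ⟨rfl, rfl⟩ | ⟨rfl, rfl⟩ := e
      · exact ⟨MulEquiv.refl _, fun g => rfl⟩
      · exact ⟨AddEquiv.toMultiplicative AddEquiv.prodComm, fun g => rfl⟩
    | _ => exact e.elim
  | tor k1 k2 k3 =>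
    cases d' with
    | tor l1 l2 l3 =>
      refine (gsidea1_R (mu _ (gsidea1_T ρ k1 k2 k3)) (mu _) (gsidea1_T ρ l1 l2 l3) u).2 ?_
      rw [gsidea1_pow h.pq]
      obtain ⟨rfl, ⟨rfl, rfl⟩ | ⟨rfl, rfl⟩⟩ := e
      · exact ⟨MulEquiv.refl _, fun g => rfl⟩
      · obtain ⟨σ, hσ⟩ := frob a 2
        refine ⟨σ, fun g => ?_⟩
        rw [mu_apply, hσ, mul_pow, ← Units.val_pow_eq_pow_val, gsidea1_frob h, neg_neg, neg_neg,
          ← ofAdd_toAdd g, hσ]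
        rfl
    | _ => exact e.elim

end Pool.Agent.MP_a96b63_al.H5

namespace Pool.Agent.MP_a96b63_al.H5

open Multiplicative

theorem gsidea2_cop {a q : ℕ} (ha : a.Prime) (hq : q.Prime) (l : 2 < q) (l' : q < a) :
    q.Coprime a ∧ (q ∣ a + 1 → q.Coprime (a - 1)) ∧ (q ∣ a - 1 → q.Coprime (a + 1)) := by
  have k : q ∣ a + 1 → ¬ q ∣ a - 1 := fun h1 h2 => by
    have := Nat.le_of_dvd (by omega) (Nat.dvd_sub h1 h2)
    omega
  exact ⟨(Nat.coprime_primes hq ha).2 l'.ne, fun h => hq.coprime_iff_not_dvd.2 (k h),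
    fun h => hq.coprime_iff_not_dvd.2 fun h' => k h' h⟩

theorem gsidea2_card {a : ℕ} (ha : a.Prime) {G : Type} [Group G] (h1 : Com G) (h2 : Ex a G)
    (hc : Nat.card G = a ^ 2) : Nat.card (MulAut G) = (a + 1) * (a * (a - 1) ^ 2) := by
  rw [card_aut_elem ha h1 h2 hc, Finset.prod_range_succ, Finset.prod_range_one]
  obtain ⟨b, rfl⟩ : ∃ b, a = b + 1 := ⟨a - 1, by have := ha.pos; omega⟩
  rw [show (b + 1) ^ 2 - (b + 1) ^ 0 = b * (b + 2) from Nat.sub_eq_of_eq_add (by ring),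
    show (b + 1) ^ 2 - (b + 1) ^ 1 = b * (b + 1) from Nat.sub_eq_of_eq_add (by ring),
    Nat.add_sub_cancel]
  ring

theorem gsidea2_zp {F : Type} [CommRing F] {w : Fˣ} {q : ℕ} (h : orderOf w = q) :
    Nat.card (Subgroup.zpowers (mu F w)) = q ^ 1 := by
  rw [Nat.card_zpowers, orderOf_injective _ (mu_injective F), h, pow_one]

theorem gsidea2_mem {F : Type} [CommRing F] {w : Fˣ} {q : ℕ} (hq : q ≠ 0) (h : orderOf w = q)
    {y : MulAut (Multiplicative F)} (hy : y ∈ Subgroup.zpowers (mu F w)) :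
    ∃ k : ZMod q, y = mu F (pv w k) := by
  obtain ⟨k, hk⟩ := exists_pv hq (by rw [← map_pow, gsidea1_o h, map_one]) hy
  exact ⟨k, hk.trans (map_pv _ _ _).symm⟩

variable {a q1 q2 q3 : ℕ} [Fact a.Prime]

theorem gsidea2_field {G : Type} [Group G] [Finite G] (h1 : Com G) (h2 : Ex a G)
    (hc : Nat.card G = a ^ 2) {q n : ℕ} (hq : q.Prime) (l : 2 < q) (l' : q < a) (d : q ∣ a + 1)
    (d' : ¬ q ^ 2 ∣ a + 1) {w : (GaloisField a 2)ˣ} (hw : orderOf w = q) {x : MulAut G}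
    (hx : (x ^ n) ^ q = 1) (hn : x ^ n ≠ 1) : ∃ (ψ : G ≃* Multiplicative (GaloisField a 2))
      (c : (GaloisField a 2)ˣ), ∀ g, ψ (x g) = mu _ c (ψ g) := by
  have ha : a.Prime := Fact.out
  obtain ⟨f1, f2, f3, -⟩ := gf_facts a two_ne_zero
  obtain ⟨e⟩ := elem_iso ha h1 h2 f2 f3 (hc.trans f1.symm)
  obtain ⟨c1, c2, -⟩ := gsidea2_cop ha hq l l'
  obtain ⟨ψ, y, hy, hψ⟩ := transport e hq _ (gsidea2_zp hw) (by
    rw [gsidea2_card ha f2 f3 f1]
    exact fun h => d' (((c1.mul_right ((c2 d).pow_right 2)).pow_left 2).dvd_of_dvd_mul_right h)) hx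
  obtain ⟨k, rfl⟩ := gsidea2_mem hq.ne_zero hw hy
  have z1 : pv w k ^ q = 1 := pv_pow_self (gsidea1_o hw) k
  generalize pv w k = ζ at hψ z1
  have z2 : (ζ : GaloisField a 2) ^ a ≠ ζ := fun h => hn (by
    rw [← Units.val_pow_eq_pow_val, Units.val_inj] at h
    obtain ⟨c, hc⟩ := d
    have z3 : ζ ^ 2 = 1 := by rw [pow_two, ← one_pow c, ← z1, ← pow_mul, ← hc, pow_succ, h]
    have z4 : ζ = 1 := (pow_eq_one_iff_of_coprime ((Nat.coprime_primes Nat.prime_two hq).2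
      l.ne)).1 ⟨z3, z1⟩
    rw [z4, map_one] at hψ
    exact MulEquiv.ext fun g => ψ.injective (hψ g))
  obtain ⟨f, hf, hv⟩ := gsidea1_add (ψ.symm.trans (x.trans ψ))
  have hv' : ∀ g, ψ (x g) = ofAdd (f (ψ g).toAdd) := fun g => by rw [← hv]; simp
  obtain ⟨c, hc⟩ := central Nat.prime_two f z2 fun v => by
    obtain ⟨g, hg⟩ := ψ.surjective (ofAdd v)
    have e1 := hv' ((x ^ n) g)
    rw [← MulAut.mul_apply, ← pow_succ', pow_succ, MulAut.mul_apply, hψ, hψ, hv', hg] at e1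
    exact ofAdd.injective e1.symm
  refine ⟨ψ, Units.mk0 c fun h => one_ne_zero (hf (a₁ := 1) (a₂ := 0) ?_), fun g => ?_⟩
  · rw [hc, hc, h, zero_mul, zero_mul]
  · rw [hv', hc]
    rfl

theorem A_exh (h : HA a q1 q2 q3) (ρ : RA a q1 q2 q3) (P : Act) (hc : Nat.card P.G = a ^ 2)
    (hx : P.x ^ (q1 * q2 * q3) = 1) : ∃ d : DA q1 q2 q3, d.ok ∧ P.R 1 (ρ.M d) := by
  have ha := h.pa
  have hq := h.pq
  have l1 := hq.l1
  have l2 := hq.l2
  have l3 := hq.l3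
  have : Finite P.G := Nat.finite_of_card_ne_zero (hc ▸ pow_ne_zero 2 ha.ne_zero)
  obtain ⟨a1, -, b1⟩ := gsidea2_cop ha hq.p1 (by omega) h.l1
  obtain ⟨a2, b2, -⟩ := gsidea2_cop ha hq.p2 (by omega) h.l2
  obtain ⟨a3, b3, -⟩ := gsidea2_cop ha hq.p3 (by omega) h.l3
  by_cases cy : IsCyclic P.G
  · have c0 := A_card ρ (.cyc 0)
    have t : (a ^ 2).totient = a * (a - 1) := by simp [Nat.totient_prime_pow ha two_pos]
    have x1 : P.x ^ q1 = 1 := by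
      have o1 := orderOf_dvd_natCard P.x
      rw [IsCyclic.card_mulAut, hc, t] at o1
      have o2 := orderOf_dvd_of_pow_eq_one hx
      rw [mul_assoc] at o2
      exact orderOf_dvd_iff_pow_eq_one.1 ((((a2.mul_right (b2 h.d2)).mul_left
        (a3.mul_right (b3 h.d3))).symm.coprime_dvd_left o1).dvd_of_dvd_mul_right o2)
    obtain ⟨ψ, y, hy, hψ⟩ := transport (G' := Multiplicative (ZMod (a ^ 2)))
      (mulEquivOfCyclicCardEq (hc.trans c0.symm)) hq.p1 _ (gsidea2_zp ρ.h0) (by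
        rw [IsCyclic.card_mulAut, show Nat.card (Multiplicative (ZMod (a ^ 2))) = a ^ 2 from c0, t]
        exact fun e => h.e1 ((a1.pow_left 2).dvd_of_dvd_mul_left e)) x1
    obtain ⟨k, rfl⟩ := gsidea2_mem hq.p1.ne_zero ρ.h0 hy
    exact ⟨.cyc k, trivial, ψ, fun g => by rw [pow_one]; exact hψ g⟩
  have h1 : Com P.G := (IsPGroup.isMulCommutative_of_card_eq_prime_sq hc).is_comm.comm
  have h2 : Ex a P.G := fun g => by
    obtain ⟨i, hi, e⟩ := (Nat.dvd_prime_pow ha).1 (hc ▸ orderOf_dvd_natCard g)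
    have : i ≠ 2 := fun e' => cy (isCyclic_of_orderOf_eq_card g (by rw [e, e', hc]))
    rw [← orderOf_dvd_iff_pow_eq_one, e]
    exact (pow_dvd_pow a (by omega : i ≤ 1)).trans (by rw [pow_one])
  by_cases x1 : P.x ^ q1 = 1
  · have c0 : Nat.card (Multiplicative (ZMod a × ZMod a)) = a ^ 2 := A_card ρ (.dia 0 0)
    have cm : Com (Multiplicative (ZMod a × ZMod a)) := mul_comm
    obtain ⟨e⟩ := elem_iso ha h1 h2 cm gsidea1_exd (hc.trans c0.symm)
    obtain ⟨ψ, y, ⟨⟨y1, y2⟩, ⟨m1, m2⟩, rfl⟩, hψ⟩ := transport e (k := 2) hq.p1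
      (((Subgroup.zpowers ρ.w).prod (Subgroup.zpowers ρ.w)).map (dg (ZMod a))) (by
        rw [Subgroup.card_map_of_injective (dg_injective _), Nat.card_congr
          (Subgroup.prodEquiv _ _).toEquiv, Nat.card_prod, Nat.card_zpowers, ρ.h, pow_two]) (by
        rw [gsidea2_card ha cm gsidea1_exd c0]
        intro e
        have e := (a1.pow_left _).dvd_of_dvd_mul_left
          (((b1 h.d1).pow_left _).dvd_of_dvd_mul_left e)
        obtain ⟨c, hc⟩ := h.d1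
        rw [hc, mul_pow, pow_succ, Nat.mul_dvd_mul_iff_left (pow_pos hq.p1.pos 2)] at e
        exact h.e1 (by rw [hc, pow_two]; exact mul_dvd_mul_left _ (hq.p1.dvd_of_dvd_pow e))) x1
    obtain ⟨i, rfl⟩ := exists_pv hq.p1.ne_zero (gsidea1_o ρ.h) m1
    obtain ⟨j, rfl⟩ := exists_pv hq.p1.ne_zero (gsidea1_o ρ.h) m2
    exact ⟨.dia i j, trivial, ψ, fun g => by rw [pow_one]; exact hψ g⟩
  obtain ⟨ψ, c, hψ⟩ : ∃ (ψ : P.G ≃* Multiplicative (GaloisField a 2)) (c : (GaloisField a 2)ˣ),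
      ∀ g, ψ (P.x g) = mu _ c (ψ g) := by
    by_cases x2 : P.x ^ (q1 * q3) = 1
    · refine gsidea2_field h1 h2 hc hq.p3 (by omega) h.l3 h.d3 h.e3 ρ.h3 (n := q1 * q2)
        (by rw [← pow_mul, hx]) fun x3 => x1 ?_
      have := pow_gcd_eq_one.2 ⟨x3, x2⟩
      rwa [Nat.gcd_mul_left, (Nat.coprime_primes hq.p2 hq.p3).2 hq.n23, mul_one] at this
    · exact gsidea2_field h1 h2 hc hq.p2 (by omega) h.l2 h.d2 h.e2 ρ.h2
        (by rw [← pow_mul, mul_right_comm, hx]) x2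
  have r : P.R 1 ⟨_, mu _ c⟩ := ⟨ψ, fun g => by rw [pow_one]; exact hψ g⟩
  have c1 : mu _ c ^ (1 * (q1 * q2 * q3)) = 1 := (R_pow r _).1 hx
  rw [one_mul, ← map_pow, map_eq_one_iff _ (mu_injective _)] at c1
  have cp : ∀ {p q : ℕ}, p.Prime → q.Prime → p ≠ q → p.Coprime q := fun a b =>
    (Nat.coprime_primes a b).2
  have o12 : orderOf (ρ.w1 * ρ.w2) = q1 * q2 := by
    rw [(Commute.all _ _).orderOf_mul_eq_mul_orderOf_of_coprime, ρ.h1, ρ.h2]
    rw [ρ.h1, ρ.h2]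
    exact cp hq.p1 hq.p2 hq.n12
  obtain ⟨k, hk⟩ := root_pv (n := q1 * q2 * q3) (w := ρ.w1 * ρ.w2 * ρ.w3)
    (mul_ne_zero (mul_ne_zero hq.p1.ne_zero hq.p2.ne_zero) hq.p3.ne_zero) (by
      rw [(Commute.all _ _).orderOf_mul_eq_mul_orderOf_of_coprime, o12, ρ.h3]
      rw [o12, ρ.h3]
      exact (cp hq.p1 hq.p3 hq.n13).mul_left (cp hq.p2 hq.p3 hq.n23)) c1
  rw [pv, mul_pow, mul_pow, ← pv_natCast (gsidea1_o ρ.h1), ← pv_natCast (gsidea1_o ρ.h2),
    ← pv_natCast (gsidea1_o ρ.h3)] at hk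
  subst hk
  refine ⟨.tor _ _ _, ?_, r⟩
  by_contra n
  obtain ⟨n2, n3⟩ := not_or.1 n
  refine x1 ((R_pow r q1).2 ((gsidea1_tor hq ρ _ _ _ _).2 ⟨?_, ?_, ?_⟩))
  · rw [one_mul, ZMod.natCast_self, zero_mul]
  · rw [not_not.1 n2, mul_zero]
  · rw [not_not.1 n3, mul_zero]

omit [Fact a.Prime] in
theorem sideA (h : HA a q1 q2 q3) : ∃ M : DA q1 q2 q3 → Act,
    Side (a ^ 2) (q1 * q2 * q3) (q1 * q2) DA.ok DA.no3 DA.rel M := by
  have : Fact a.Prime := ⟨h.pa⟩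
  obtain ⟨ρ⟩ := exists_RA h
  exact ⟨ρ.M, A_card ρ, A_pow ρ, fun d _ => A_sub h ρ d, A_exh h ρ, A_inv h ρ, A_cnv h ρ⟩

end Pool.Agent.MP_a96b63_al.H5

namespace Pool.Agent.MP_a96b63_al.H5

open Multiplicative

variable {b q1 q2 q3 : ℕ} [Fact b.Prime]

omit [Fact b.Prime] in
theorem gsideb1_ne2 (h : HB b q1 q2 q3) : b ≠ 2 := by
  have := h.l1
  have := h.pq.l1
  omega

omit [Fact b.Prime] in
theorem gsideb1_sq (hb : 1 ≤ b) : b ^ 2 - 1 = (b + 1) * (b - 1) := by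
  zify [hb, Nat.one_le_pow 2 b hb]
  ring

omit [Fact b.Prime] in
theorem gsideb1_cb (hb : 1 ≤ b) : b ^ 3 - 1 = (b ^ 2 + b + 1) * (b - 1) := by
  zify [hb, Nat.one_le_pow 3 b hb]
  ring

theorem gsideb1_zero : (0 : GaloisField b 2) ^ b = -0 := by
  rw [neg_zero, zero_pow (Fact.out : b.Prime).ne_zero]

theorem gsideb1_ex {p : ℕ} {G G' : Type} [Group G] [Group G'] (ψ : G ≃* G') (h : Ex p G') :
    Ex p G := fun g => ψ.injective (by rw [map_pow, h, map_one])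

theorem gsideb1_com {G G' : Type} [Group G] [Group G'] (ψ : G ≃* G') (h : Com G') :
    Com G := fun g k => ψ.injective (by rw [map_mul, map_mul, h])

theorem gsideb1_z (ρ : RB b q2 q3) : ρ.z ^ q2 = 1 := by
  have := pow_orderOf_eq_one ρ.z
  rwa [ρ.hz] at this

theorem gsideb1_y (ρ : RB b q2 q3) : ρ.y ^ q3 = 1 := by
  have := pow_orderOf_eq_one ρ.y
  rwa [ρ.hy] at this

theorem gsideb1_delta (h : HB b q1 q2 q3) (ρ : RB b q2 q3) :
    ρ.z ^ (b + 1) = 1 ∧ ρ.δ ^ b = -ρ.δ ∧ ρ.δ ≠ 0 :=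
  delta_facts ρ (by have := h.pq.l2; omega) h.d2

theorem gsideb1_pv (h : HB b q1 q2 q3) (ρ : RB b q2 q3) (l : ZMod q2) :
    pv ρ.z l ^ (b + 1) = 1 := by
  rw [pv, ← pow_mul, mul_comm, pow_mul, (gsideb1_delta h ρ).1, one_pow]

theorem gsideb1_hpow (h : HB b q1 q2 q3) (ρ : RB b q2 q3) (δ : GaloisField b 2) (l : ZMod q2)
    (n : ℕ) : hmu δ (pv ρ.z l) ^ n = hmu δ (pv ρ.z ((n : ZMod q2) * l)) := by
  rw [hmu_pow δ (gsideb1_pv h ρ l), pv_pow h.pq.p2.ne_zero (gsideb1_z ρ)]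

theorem gsideb1_hone (h : HB b q1 q2 q3) (ρ : RB b q2 q3) (δ : GaloisField b 2) (l : ZMod q2)
    {n : ℕ} (hn : q2 ∣ n) : hmu δ (pv ρ.z l) ^ n = 1 := by
  rw [gsideb1_hpow h, hmu_eq_one δ (gsideb1_pv h ρ _), (ZMod.natCast_eq_zero_iff n q2).2 hn,
    zero_mul, pv_zero]

theorem gsideb1_mpow (h : HB b q1 q2 q3) (ρ : RB b q2 q3) (l : ZMod q3) (n : ℕ) :
    mu _ (pv ρ.y l) ^ n = mu _ (pv ρ.y ((n : ZMod q3) * l)) := by
  rw [← map_pow, pv_pow h.pq.p3.ne_zero (gsideb1_y ρ)]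

theorem gsideb1_mone (h : HB b q1 q2 q3) (ρ : RB b q2 q3) (l : ZMod q3) (n : ℕ) :
    mu _ (pv ρ.y l) ^ n = 1 ↔ q3 ∣ n ∨ l = 0 := by
  have : Fact q3.Prime := ⟨h.pq.p3⟩
  rw [gsideb1_mpow h, map_eq_one_iff _ (mu_injective _), pv_eq_one h.pq.p3.ne_zero ρ.hy,
    mul_eq_zero, ZMod.natCast_eq_zero_iff]

omit [Fact b.Prime] in
theorem gsideb1_b3 (h : HB b q1 q2 q3) : (b : ZMod q3) ^ 2 + b + 1 = 0 := by
  exact_mod_cast (ZMod.natCast_eq_zero_iff _ q3).2 h.d3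

theorem gsideb1_root (h : HB b q1 q2 q3) (ρ : RB b q2 q3) {δ : GaloisField b 2}
    (hδ : δ ^ b = -δ) (u : ℕ) (l l' : ZMod q2)
    (e : Act.RI u ⟨Hs δ, hmu δ (pv ρ.z l)⟩ ⟨Hs δ, hmu δ (pv ρ.z l')⟩) :
    l ^ 2 = (u * l') ^ 2 := by
  obtain ⟨ψ, k, e⟩ := e
  simp only [gsideb1_hpow h] at e
  rcases hs_root (gsideb1_ne2 h) hδ ψ k (gsideb1_pv h ρ _) (gsideb1_pv h ρ _) e with e1 | e1
  · rw [pv_inj h.pq.p2.ne_zero ρ.hz e1]
  · rw [← pv_neg h.pq.p2.ne_zero (gsideb1_z ρ)] at e1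
    rw [pv_inj h.pq.p2.ne_zero ρ.hz e1, neg_sq]

theorem gsideb1_cnv (h : HB b q1 q2 q3) (ρ : RB b q2 q3) {δ : GaloisField b 2}
    (hδ : δ ^ b = -δ) (u : ℕ) (l l' : ZMod q2) (e : l ^ 2 = (u * l') ^ 2) :
    Act.R u ⟨Hs δ, hmu δ (pv ρ.z l)⟩ ⟨Hs δ, hmu δ (pv ρ.z l')⟩ := by
  have : Fact q2.Prime := ⟨h.pq.p2⟩
  rcases sq_eq_sq_iff_eq_or_eq_neg.1 e with rfl | rfl
  · exact ⟨MulEquiv.refl _, fun g => by simp only [gsideb1_hpow h]; rfl⟩
  · obtain ⟨σ, hσ⟩ := hs_flip hδ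
    refine ⟨σ, fun g => ?_⟩
    simp only [gsideb1_hpow h]
    rw [hσ _ (gsideb1_pv h ρ _), pv_neg h.pq.p2.ne_zero (gsideb1_z ρ), inv_inv]

theorem exists_RB (h : HB b q1 q2 q3) : Nonempty (RB b q2 q3) := by
  obtain ⟨c⟩ := cube h.pb (gsideb1_ne2 h)
  obtain ⟨z, hz⟩ := exists_order (p := b) (d := 2) two_ne_zero h.pq.p2
    (gsideb1_sq h.pb.one_le ▸ h.d2.mul_right _)
  obtain ⟨y, hy⟩ := exists_order (p := b) (d := 3) three_ne_zero h.pq.p3
    (gsideb1_cb h.pb.one_le ▸ h.d3.mul_right _)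
  exact ⟨⟨c, z, y, hz, hy⟩⟩

theorem B_card (ρ : RB b q2 q3) (d : DB q2 q3) : Nat.card (ρ.M d).G = b ^ 3 := by
  rcases d with i | l | l | l
  exacts [ρ.c.card i, hs_card _, hs_card _, (gf_facts b three_ne_zero).1]

theorem B_pow (h : HB b q1 q2 q3) (ρ : RB b q2 q3) (d : DB q2 q3) :
    (ρ.M d).x ^ (q1 * q2 * q3) = 1 := by
  have h2 : q2 ∣ q1 * q2 * q3 := (dvd_mul_left q2 q1).mul_right _
  rcases d with i | l | l | l
  exacts [one_pow _, gsideb1_hone h ρ _ l h2, gsideb1_hone h ρ _ l h2,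
    (gsideb1_mone h ρ l _).2 (Or.inl (dvd_mul_left _ _))]

theorem B_sub (h : HB b q1 q2 q3) (ρ : RB b q2 q3) (d : DB q2 q3) (hd : d.ok) :
    (ρ.M d).x ^ (q1 * q2) = 1 ↔ d.no3 := by
  have h2 : q2 ∣ q1 * q2 := dvd_mul_left q2 q1
  rcases d with i | l | l | l
  · exact iff_of_true (one_pow _) trivial
  · exact iff_of_true (gsideb1_hone h ρ _ l h2) trivial
  · exact iff_of_true (gsideb1_hone h ρ _ l h2) trivial
  · refine iff_of_false (fun e => ?_) id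
    rcases (gsideb1_mone h ρ l _).1 e with e | e
    · rcases (Nat.Prime.dvd_mul h.pq.p3).1 e with e | e
      · exact h.pq.n13 ((Nat.prime_dvd_prime_iff_eq h.pq.p3 h.pq.p1).1 e).symm
      · exact h.pq.n23 ((Nat.prime_dvd_prime_iff_eq h.pq.p3 h.pq.p2).1 e).symm
    · exact hd e

theorem B_inv (h : HB b q1 q2 q3) (ρ : RB b q2 q3) (u : ℕ) (d d' : DB q2 q3)
    (hu : u.Coprime (q1 * q2 * q3)) (hd : d.ok) (hd' : d'.ok) (e : (ρ.M d).RI u (ρ.M d')) :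
    DB.rel u d d' := by
  have h2 := gsideb1_ne2 h
  obtain ⟨-, hδ, hδ0⟩ := gsideb1_delta h ρ
  have x1 := hs_ex h2 hδ
  have x2 := hs_ex h2 (gsideb1_zero (b := b))
  obtain ⟨-, c3, x3, -⟩ := gf_facts b three_ne_zero
  have c1 := hs_not_com h2 hδ hδ0
  have c2 := hs_com (p := b)
  have n32 : ¬ q3 ∣ q2 := fun e =>
    h.pq.n23 ((Nat.prime_dvd_prime_iff_eq h.pq.p3 h.pq.p2).1 e).symm
  have n3u : ¬ q3 ∣ u :=
    (Nat.Prime.coprime_iff_not_dvd h.pq.p3).1 (Nat.Coprime.coprime_mul_left_right hu).symm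
  have ⟨ψ, _⟩ := e
  rcases d with i | l | l | l <;> rcases d' with i' | l' | l' | l'
  · exact ρ.c.inj i i' ⟨ψ⟩
  · exact ρ.c.nex i (gsideb1_ex ψ x1)
  · exact ρ.c.nex i (gsideb1_ex ψ x2)
  · exact ρ.c.nex i (gsideb1_ex ψ x3)
  · exact ρ.c.nex i' (gsideb1_ex ψ.symm x1)
  · exact gsideb1_root h ρ hδ u l l' e
  · exact c1 (gsideb1_com ψ c2)
  · exact c1 (gsideb1_com ψ c3)
  · exact ρ.c.nex i' (gsideb1_ex ψ.symm x2)
  · exact c1 (gsideb1_com ψ.symm c2)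
  · exact gsideb1_root h ρ gsideb1_zero u l l' e
  · have e1 := (R_pow (RI_com e c3) q2).1 (gsideb1_hone h ρ _ l dvd_rfl)
    rcases (gsideb1_mone h ρ l' _).1 e1 with e2 | e2
    · exact ((Nat.Prime.dvd_mul h.pq.p3).1 e2).elim n3u n32
    · exact hd' e2
  · exact ρ.c.nex i' (gsideb1_ex ψ.symm x3)
  · exact c1 (gsideb1_com ψ.symm c3)
  · have e1 := (R_pow (RI_com e c2) q2).2 (gsideb1_hone h ρ _ l' (dvd_mul_left _ _))
    exact ((gsideb1_mone h ρ l _).1 e1).elim n32 hd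
  · obtain ⟨χ, e1⟩ : ∃ χ : Multiplicative (GaloisField b 3) ≃* Multiplicative (GaloisField b 3),
        ∀ g, χ (mu _ (pv ρ.y l) g) = (mu _ (pv ρ.y l') ^ u) (χ g) := RI_com e c3
    rw [gsideb1_mpow h] at e1
    let φ : GaloisField b 3 →+ GaloisField b 3 := AddMonoidHom.mk' (fun v => (χ (ofAdd v)).toAdd)
      (fun v w => by rw [ofAdd_add, map_mul, toAdd_mul])
    obtain ⟨i, -, hη⟩ := conj_root three_ne_zero φ
      ⟨1, fun e2 => by
        have e3 : χ (ofAdd 1) = 1 := e2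
        simp at e3⟩
      (η := (pv ρ.y l : (GaloisField b 3)ˣ))
      (η' := (pv ρ.y ((u : ZMod q3) * l') : (GaloisField b 3)ˣ))
      (fun v => congrArg toAdd (e1 (ofAdd v)))
    rw [← Units.val_pow_eq_pow_val, Units.val_inj, pv_pow h.pq.p3.ne_zero (gsideb1_y ρ)] at hη
    have e4 : (b : ZMod q3) ^ 3 = 1 := by linear_combination (b - 1 : ZMod q3) * gsideb1_b3 h
    show l ^ 3 = (u * l') ^ 3
    rw [pv_inj h.pq.p3.ne_zero ρ.hy hη, mul_pow, Nat.cast_pow, ← pow_mul, mul_comm i, pow_mul, e4,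
      one_pow, one_mul]

theorem B_cnv (h : HB b q1 q2 q3) (ρ : RB b q2 q3) (u : ℕ) (d d' : DB q2 q3)
    (e : DB.rel u d d') : (ρ.M d).R u (ρ.M d') := by
  rcases d with i | l | l | l <;> rcases d' with i' | l' | l' | l' <;> try exact False.elim e
  · obtain rfl : i = i' := e
    exact ⟨MulEquiv.refl _, fun g => by
      show g = ((1 : MulAut (ρ.c.C i)) ^ u) g
      rw [one_pow]
      rfl⟩
  · exact gsideb1_cnv h ρ (gsideb1_delta h ρ).2.1 u l l' e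
  · exact gsideb1_cnv h ρ gsideb1_zero u l l' e
  · have : Fact q3.Prime := ⟨h.pq.p3⟩
    have e1 : l ^ 3 = (u * l') ^ 3 := e
    obtain ⟨i, hi⟩ : ∃ i : ℕ, (u : ZMod q3) * l' = ((b ^ i : ℕ) : ZMod q3) * l := by
      have e2 : (u * l' - l) * (u * l' - b * l) * (u * l' - b ^ 2 * l) = 0 := by
        linear_combination -e1 +
          (-(u * l') ^ 2 * l + b * (u * l') * l ^ 2 - (b - 1) * l ^ 3) * gsideb1_b3 h
      rcases mul_eq_zero.1 e2 with e3 | e3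
      · rcases mul_eq_zero.1 e3 with e3 | e3
        · exact ⟨0, by push_cast; linear_combination e3⟩
        · exact ⟨1, by push_cast; linear_combination e3⟩
      · exact ⟨2, by push_cast; linear_combination e3⟩
    obtain ⟨σ, hσ⟩ := frob b 3
    have hp : ∀ (n : ℕ) v, (σ ^ n) (ofAdd v) = ofAdd (v ^ b ^ n) := by
      intro n
      induction n with
      | zero => intro v; simp
      | succ n ih => intro v; rw [pow_succ', MulAut.mul_apply, ih, hσ, ← pow_mul, pow_succ]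
    refine ⟨(σ ^ i : MulAut _), fun g : Multiplicative (GaloisField b 3) => ?_⟩
    show (σ ^ i) (mu _ (pv ρ.y l) g) = (mu _ (pv ρ.y l') ^ u) ((σ ^ i) g)
    rw [gsideb1_mpow h, hi, ← pv_pow h.pq.p3.ne_zero (gsideb1_y ρ), mu_apply, mu_apply, hp,
      ← ofAdd_toAdd g, hp, toAdd_ofAdd, toAdd_ofAdd, mul_pow, Units.val_pow_eq_pow_val]

end Pool.Agent.MP_a96b63_al.H5

namespace Pool.Agent.MP_a96b63_al.H5

variable {b q1 q2 q3 : ℕ} [Fact b.Prime]

omit [Fact b.Prime] in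
theorem gsideb2_q1 (h : HB b q1 q2 q3) (i : ℕ) (h1 : 1 ≤ i) (h3 : i ≤ 3) : ¬ q1 ∣ b ^ i - 1 := by
  intro hd
  have l1 := h.pq.l1
  have e1 : b ≡ 2 [MOD q1] := by
    rw [Nat.ModEq, h.d1, Nat.mod_eq_of_lt (by omega)]
  have e2 := ((Nat.modEq_iff_dvd' (Nat.one_le_pow i b h.pb.pos)).2 hd).trans (e1.pow i)
  have e3 := (Nat.modEq_iff_dvd' Nat.one_le_two_pow).1 e2
  interval_cases i <;> exact absurd (Nat.le_of_dvd (by norm_num) e3) (by omega)

omit [Fact b.Prime] in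
theorem gsideb2_arith (h : HB b q1 q2 q3) : ¬ q2 ∣ b - 1 ∧ ¬ q2 ∣ b ^ 2 + b + 1 ∧ ¬ q2 ∣ b ∧
    ¬ q3 ∣ b - 1 ∧ ¬ q3 ∣ b + 1 ∧ ¬ q3 ∣ b := by
  have l2 := h.pq.l2
  have l3 := h.pq.l3
  obtain ⟨c, rfl⟩ : ∃ c, b = c + 1 := ⟨b - 1, by have := h.pb.pos; omega⟩
  have d2 : q2 ∣ c + 2 := h.d2
  have d3 := h.d3
  rw [Nat.add_sub_cancel]
  refine ⟨fun e => ?_, fun e => ?_, fun e => ?_, fun e => ?_, fun e => ?_, fun e => ?_⟩
  · exact absurd (Nat.le_of_dvd two_pos ((Nat.dvd_add_right e).1 d2)) (by omega)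
  · rw [show (c + 1) ^ 2 + (c + 1) + 1 = (c + 2) * (c + 1) + 1 by ring] at e
    exact absurd (Nat.le_of_dvd one_pos ((Nat.dvd_add_right (d2.mul_right _)).1 e)) (by omega)
  · exact absurd (Nat.le_of_dvd one_pos ((Nat.dvd_add_right e).1 h.d2)) (by omega)
  · rw [show (c + 1) ^ 2 + (c + 1) + 1 = c * (c + 3) + 3 by ring] at d3
    exact absurd (Nat.le_of_dvd three_pos ((Nat.dvd_add_right (e.mul_right _)).1 d3)) (by omega)
  · rw [show (c + 1) ^ 2 + (c + 1) + 1 = (c + 1 + 1) * (c + 1) + 1 by ring] at d3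
    exact absurd (Nat.le_of_dvd one_pos ((Nat.dvd_add_right (e.mul_right _)).1 d3)) (by omega)
  · rw [show (c + 1) ^ 2 + (c + 1) + 1 = (c + 1) * (c + 2) + 1 by ring] at d3
    exact absurd (Nat.le_of_dvd one_pos ((Nat.dvd_add_right (e.mul_right _)).1 d3)) (by omega)

omit [Fact b.Prime] in
theorem gsideb2_card (h : HB b q1 q2 q3) {G : Type} [Group G] (h1 : Com G) (h2 : Ex b G)
    (hc : Nat.card G = b ^ 3) :
    ¬ q2 ^ 2 ∣ Nat.card (MulAut G) ∧ ¬ q3 ^ 2 ∣ Nat.card (MulAut G) := by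
  obtain ⟨a1, a2, a3, a4, a5, a6⟩ := gsideb2_arith h
  have hb := h.pb.one_le
  have e : Nat.card (MulAut G) = b ^ 3 * (b - 1) ^ 3 * ((b ^ 2 + b + 1) * (b + 1)) := by
    rw [card_aut_elem h.pb h1 h2 hc]
    simp only [Finset.prod_range_succ, Finset.range_zero, Finset.prod_empty]
    zify [hb, Nat.pow_le_pow_right hb (show 0 ≤ 3 by norm_num),
      Nat.pow_le_pow_right hb (show 1 ≤ 3 by norm_num),
      Nat.pow_le_pow_right hb (show 2 ≤ 3 by norm_num)]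
    ring
  have co : ∀ {q n : ℕ}, q.Prime → ¬ q ∣ n → (q ^ 2).Coprime n := fun hq hn =>
    (hq.coprime_iff_not_dvd.2 hn).pow_left 2
  rw [e]
  exact ⟨fun hd => h.e2 ((co h.pq.p2 a2).dvd_of_dvd_mul_left
      ((((co h.pq.p2 a3).pow_right 3).mul_right ((co h.pq.p2 a1).pow_right 3)).dvd_of_dvd_mul_left
        hd)),
    fun hd => h.e3 ((co h.pq.p3 a5).dvd_of_dvd_mul_right
      ((((co h.pq.p3 a6).pow_right 3).mul_right ((co h.pq.p3 a4).pow_right 3)).dvd_of_dvd_mul_left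
        hd))⟩

theorem gsideb2_h (h : HB b q1 q2 q3) (ρ : RB b q2 q3) (P : Act) {δ : GaloisField b 2}
    (e : P.G ≃* Hs δ) (hΓ : ¬ q2 ^ 2 ∣ Nat.card (MulAut (Hs δ))) (hx : P.x ^ q2 = 1) :
    ∃ l : ZMod q2, P.R 1 ⟨Hs δ, hmu δ (pv ρ.z l)⟩ := by
  have : Fact q2.Prime := ⟨h.pq.p2⟩
  have : Finite (Hs δ) := Nat.finite_of_card_ne_zero (hs_card δ ▸ pow_ne_zero 3 h.pb.ne_zero)
  have hz := (gsideb1_delta h ρ).1
  have h1 : hmu δ ρ.z ^ q2 = 1 := by
    rw [hmu_pow δ hz, gsideb1_z, hmu_eq_one δ (one_pow _)]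
  have h2 : orderOf (hmu δ ρ.z) = q2 := orderOf_eq_prime h1 fun e1 => by
    have e2 := ρ.hz
    rw [(hmu_eq_one δ hz).1 e1, orderOf_one] at e2
    exact h.pq.p2.one_lt.ne e2
  obtain ⟨ψ, y, hy, e1⟩ := transport e (k := 1) h.pq.p2 (Subgroup.zpowers (hmu δ ρ.z))
    (by rw [Nat.card_zpowers, h2, pow_one]) hΓ hx
  obtain ⟨l, rfl⟩ := exists_pv h.pq.p2.ne_zero h1 hy
  refine ⟨l, ψ, fun g => ?_⟩
  show ψ (P.x g) = (hmu δ (ρ.z ^ l.val) ^ 1) (ψ g)
  rw [e1, pow_one, ← hmu_pow δ hz]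
  rfl

theorem B_exh (h : HB b q1 q2 q3) (ρ : RB b q2 q3) (P : Act) (hc : Nat.card P.G = b ^ 3)
    (hx : P.x ^ (q1 * q2 * q3) = 1) : ∃ d : DB q2 q3, d.ok ∧ P.R 1 (ρ.M d) := by
  have : Finite P.G := Nat.finite_of_card_ne_zero (hc ▸ pow_ne_zero 3 h.pb.ne_zero)
  obtain ⟨a1, a2, a3, a4, a5, a6⟩ := gsideb2_arith h
  have h2 := gsideb1_ne2 h
  obtain ⟨-, hδ, hδ0⟩ := gsideb1_delta h ρ
  have hw : P.x ^ (q2 * q3) = 1 := aut_triv h.pb h.pq.p1 h.l1.ne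
    (by rw [← pow_mul, ← hx]; congr 1; ring) hc (gsideb2_q1 h)
  have x2 : (P.x ^ q3) ^ q2 = 1 := by rw [← pow_mul, mul_comm, hw]
  have x3 : (P.x ^ q2) ^ q3 = 1 := by rw [← pow_mul, hw]
  have a7 : ¬ q3 ∣ b ^ 2 - 1 := by
    rw [gsideb1_sq h.pb.one_le]
    exact fun e => ((Nat.Prime.dvd_mul h.pq.p3).1 e).elim a5 a4
  by_cases hE : Ex b P.G
  swap
  · have e1 : P.x = 1 := (pow_eq_one_iff_of_coprime
      ((Nat.coprime_primes h.pq.p2 h.pq.p3).2 h.pq.n23)).1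
      ⟨chain h.pb h2 hc hE h.pq.p3 h.l3.ne a4 x3, chain h.pb h2 hc hE h.pq.p2 h.l2.ne a1 x2⟩
    obtain ⟨i, ⟨ψ⟩⟩ := ρ.c.exh P.G hc hE
    exact ⟨.triv i, trivial, ψ, fun g => by rw [e1, pow_one]; rfl⟩
  by_cases hC : Com P.G
  swap
  · have e1 := aut3 h.pb hc h.pq.p3 h.l3.ne a7 x3 (Subgroup.center P.G) (fun g hg => by
      rw [Subgroup.mem_center_iff] at hg ⊢
      intro k
      obtain ⟨k, rfl⟩ := (P.x ^ q2).surjective k
      rw [← map_mul, hg, map_mul]) (center_card h.pb hc hC)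
    obtain ⟨e⟩ := heis_iso h.pb hc hC hE (hs_card ρ.δ) (hs_not_com h2 hδ hδ0) (hs_ex h2 hδ)
    obtain ⟨l, hl⟩ := gsideb2_h h ρ P e (card_aut_heis h.pb (hs_card ρ.δ) (hs_not_com h2 hδ hδ0)
      (hs_ex h2 hδ) h.pq.p2 h.l2.ne a1 h.e2) e1
    exact ⟨.hei l, trivial, hl⟩
  by_cases e1 : P.x ^ q2 = 1
  · obtain ⟨e⟩ := elem_iso h.pb hC hE hs_com (hs_ex h2 gsideb1_zero) (hc.trans (hs_card 0).symm)
    obtain ⟨l, hl⟩ := gsideb2_h h ρ P e
      (gsideb2_card h hs_com (hs_ex h2 gsideb1_zero) (hs_card 0)).1 e1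
    exact ⟨.el2 l, trivial, hl⟩
  have e2 : P.x ^ q3 = 1 := by
    obtain ⟨i, hi, e3⟩ := (Nat.dvd_prime_pow h.pb).1
      (hc ▸ Subgroup.card_subgroup_dvd_card (fix (P.x ^ q3)))
    have e4 := fix_card h.pq.p2 x2 ⊤ (fun _ _ => trivial)
    rw [top_inf_eq, e3, Subgroup.card_top, hc] at e4
    have e5 := (Nat.modEq_iff_dvd' (Nat.pow_le_pow_right h.pb.pos hi)).1 e4.symm
    interval_cases i
    · rw [pow_zero, gsideb1_cb h.pb.one_le] at e5
      exact (((Nat.Prime.dvd_mul h.pq.p2).1 e5).elim a2 a1).elim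
    · refine absurd (aut3 h.pb hc h.pq.p3 h.l3.ne a7 x3 (fix (P.x ^ q3)) (fun g hg => ?_)
        (e3.trans (pow_one b))) e1
      rw [mem_fix] at hg ⊢
      rw [← MulAut.mul_apply, pow_mul_comm, MulAut.mul_apply, hg]
    · rw [show b ^ 3 - b ^ 2 = b * (b * (b - 1)) by rw [Nat.mul_sub_one, Nat.mul_sub]; ring_nf]
        at e5
      rcases (Nat.Prime.dvd_mul h.pq.p2).1 e5 with e5 | e5
      · exact (a3 e5).elim
      · exact (((Nat.Prime.dvd_mul h.pq.p2).1 e5).elim a3 a1).elim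
    · have e6 := Subgroup.eq_top_of_card_eq _ (e3.trans hc.symm)
      exact MulEquiv.ext fun g => mem_fix.1 (e6 ▸ Subgroup.mem_top g)
  obtain ⟨c3, m3, y3, -⟩ := gf_facts b three_ne_zero
  obtain ⟨e⟩ := elem_iso h.pb hC hE m3 y3 (hc.trans c3.symm)
  obtain ⟨ψ, y, hy, e3⟩ := transport e (k := 1) h.pq.p3 (Subgroup.zpowers (mu _ ρ.y))
    (by rw [Nat.card_zpowers, orderOf_injective _ (mu_injective _), ρ.hy, pow_one])
    (gsideb2_card h m3 y3 c3).2 e2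
  obtain ⟨l, rfl⟩ := exists_pv h.pq.p3.ne_zero (by rw [← map_pow, gsideb1_y, map_one]) hy
  refine ⟨.el3 l, fun hl => e1 ?_, ψ, fun g => ?_⟩
  · rw [hl, pv_zero] at e3
    rw [show P.x = 1 from MulEquiv.ext fun g => ψ.injective (e3 g), one_pow]
  · have e4 : ψ (P.x g) = (mu _ (pv ρ.y l) ^ 1) (ψ g) := by rw [e3, pow_one, map_pv]
    exact e4

omit [Fact b.Prime] in
theorem sideB (h : HB b q1 q2 q3) : ∃ M : DB q2 q3 → Act,
    Side (b ^ 3) (q1 * q2 * q3) (q1 * q2) DB.ok DB.no3 DB.rel M := by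
  have : Fact b.Prime := ⟨h.pb⟩
  obtain ⟨ρ⟩ := exists_RB h
  exact ⟨ρ.M, B_card ρ, B_pow h ρ, B_sub h ρ, B_exh h ρ, B_inv h ρ, B_cnv h ρ⟩

end Pool.Agent.MP_a96b63_al.H5

namespace Pool.Agent.MP_a96b63_al.H5

open Multiplicative

theorem gsemi_one {H : Type} [Group H] {y : H} {n m : ℕ} (h : n.Coprime m) (h1 : y ^ n = 1)
    (h2 : y ^ m = 1) : y = 1 := by
  have := pow_gcd_eq_one.2 ⟨h1, h2⟩
  rwa [h.gcd_eq_one, pow_one] at this

theorem gsemi_kill {G H : Type} [Group G] [Group H] (φ : G →* H)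
    (h : (Nat.card G).Coprime (Nat.card H)) (g : G) : φ g = 1 :=
  gsemi_one h (by rw [← map_pow, pow_card_eq_one', map_one]) pow_card_eq_one'

theorem gsemi_card (m : ℕ) : Nat.card (Multiplicative (ZMod m)) = m := by
  rw [Nat.card_congr (toAdd (α := ZMod m)), Nat.card_zmod]

/-- the inclusion of the normal factor -/
noncomputable def gsemi_i (m : ℕ) (E : Type) [Group E] (P : Act) : P.G →* Md m E P :=
  (MonoidHom.inl _ E).comp SemidirectProduct.inl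

/-- the projection to the cyclic factor -/
noncomputable def gsemi_p (m : ℕ) (E : Type) [Group E] (P : Act) : Md m E P →* Multiplicative (ZMod m) :=
  SemidirectProduct.rightHom.comp (MonoidHom.fst _ E)

theorem gsemi_inj (m : ℕ) (E : Type) [Group E] (P : Act) : Function.Injective (gsemi_i m E P) :=
  fun _ _ h => SemidirectProduct.inl_injective (congrArg Prod.fst h)

theorem gsemi_eq {m : ℕ} {E : Type} [Group E] {P : Act} {z : Md m E P} (h1 : z.1.right = 1)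
    (h2 : z.2 = 1) : z = gsemi_i m E P z.1.left :=
  Prod.ext (SemidirectProduct.ext rfl h1) h2

theorem gsemi_conj {m : ℕ} {E : Type} [Group E] {P : Act} (z : Md m E P) (g : P.G) :
    z * gsemi_i m E P g * z⁻¹ =
      gsemi_i m E P (z.1.left * pw m P.x z.1.right g * z.1.left⁻¹) := by
  refine Prod.ext (SemidirectProduct.ext ?_ ?_) ?_ <;> simp [gsemi_i]

theorem gsemi_pow {G H : Type} [Group G] [Group H] (i : H →* G) (x : MulAut H) (c : G)
    (h : ∀ g, i (x g) = c * i g * c⁻¹) (j : ℕ) (g : H) :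
    i ((x ^ j) g) = c ^ j * i g * (c ^ j)⁻¹ := by
  induction j with
  | zero => simp
  | succ j ih => rw [pow_succ', MulAut.mul_apply, h, ih, pow_succ']; group

theorem md_card {m : ℕ} (E : Type) (P : Act) :
    Nat.card (Md m E P) = Nat.card P.G * m * Nat.card E := by
  rw [Nat.card_prod, SemidirectProduct.card, gsemi_card]

theorem md_iso {m u : ℕ} (hm : m ≠ 0) {E E' : Type} [Group E] [Group E'] {P Q : Act}
    (hP : P.x ^ m = 1) (hQ : Q.x ^ m = 1) (hu : u.Coprime m) (h : P.R u Q) (e : E ≃* E') :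
    Nonempty (Md m E P ≃* Md m E' Q) := by
  obtain ⟨ψ, hψ⟩ := h
  have key : ∀ (j : ℕ) (g : P.G), ψ ((P.x ^ j) g) = ((Q.x ^ u) ^ j) (ψ g) := by
    intro j
    induction j with
    | zero => simp
    | succ j ih => intro g; rw [pow_succ', MulAut.mul_apply, hψ, ih, pow_succ', MulAut.mul_apply]
  refine ⟨MulEquiv.prodCongr
    (SemidirectProduct.congr ψ (mu (ZMod m) (ZMod.unitOfCoprime u hu)) fun k => ?_) e⟩
  ext g
  rw [pw_apply hm hP, pw_apply hm hQ, mu_apply, toAdd_ofAdd, ZMod.coe_unitOfCoprime,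
    ← pv_pow hm hQ, pv, pv, ← pow_mul, mul_comm, pow_mul]
  exact key _ g

theorem md_inv {m n : ℕ} (hm : m ≠ 0) (hn : n ≠ 0) {E : Type} [Group E] [Finite E] {P Q : Act}
    (hP : P.x ^ m = 1) (hQ : Q.x ^ m = 1) (cP : Nat.card P.G = n) (cQ : Nat.card Q.G = n)
    (h1 : n.Coprime m) (h2 : n.Coprime (Nat.card E)) (h3 : m.Coprime (Nat.card E))
    (f : Md m E P ≃* Md m E Q) : ∃ u : ℕ, u.Coprime m ∧ P.RI u Q := by
  have : NeZero m := ⟨hm⟩
  have : Finite Q.G := Nat.finite_of_card_ne_zero (cQ ▸ hn)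
  let π : Md m E P →* Multiplicative (ZMod m) := (gsemi_p m E Q).comp f.toMonoidHom
  have k1 : ∀ g, π (gsemi_i m E P g) = 1 :=
    gsemi_kill (π.comp (gsemi_i m E P)) (by rwa [cP, gsemi_card])
  have k2 : ∀ e, π (1, e) = 1 :=
    gsemi_kill (π.comp (MonoidHom.inr _ E)) (by rw [gsemi_card]; exact h3.symm)
  have k3 : ∀ g, f (gsemi_i m E P g) = gsemi_i m E Q (f (gsemi_i m E P g)).1.left := fun g =>
    gsemi_eq (k1 g) (gsemi_kill
      ((MonoidHom.snd _ E).comp (f.toMonoidHom.comp (gsemi_i m E P))) (by rwa [cP]) g)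
  let ψ : P.G →* Q.G := MonoidHom.mk' (fun g => (f (gsemi_i m E P g)).1.left) fun g g' =>
    gsemi_inj m E Q (by rw [map_mul (gsemi_i m E Q), ← k3, ← k3, ← k3, map_mul, map_mul])
  have k4 : ∀ g, f (gsemi_i m E P g) = gsemi_i m E Q (ψ g) := k3
  have hb : Function.Bijective ψ := (Nat.bijective_iff_injective_and_card _).2
    ⟨fun g g' h => gsemi_inj m E P (f.injective (by rw [k4, k4, h])), cP.trans cQ.symm⟩
  let γ : Md m E P := (SemidirectProduct.inr (ofAdd 1), 1)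
  refine ⟨(π γ).toAdd.val, ?_, MulEquiv.ofBijective ψ hb, (f γ).1.left, fun g => ?_⟩
  · obtain ⟨z, hz⟩ := f.surjective (SemidirectProduct.inr (ofAdd 1), 1)
    have e1 : π z = ofAdd 1 := by
      show gsemi_p m E Q (f z) = _
      rw [hz]
      rfl
    have e2 : z = gsemi_i m E P z.1.left * γ ^ z.1.right.toAdd.val * (1, z.2) := by
      refine Prod.ext ?_ (by simp [gsemi_i, γ])
      show z.1 = SemidirectProduct.inl z.1.left *
        SemidirectProduct.inr (ofAdd (1 : ZMod m)) ^ z.1.right.toAdd.val * 1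
      rw [← map_pow, ← ofAdd_nsmul, nsmul_one, ZMod.natCast_zmod_val, ofAdd_toAdd, mul_one,
        SemidirectProduct.inl_left_mul_inr_right]
    rw [e2, map_mul, map_mul, k1, k2, one_mul, mul_one, map_pow] at e1
    have e3 := congrArg toAdd e1
    rw [toAdd_pow, toAdd_ofAdd, nsmul_eq_mul] at e3
    rw [← ZMod.isUnit_iff_coprime, ZMod.natCast_zmod_val]
    exact IsUnit.of_mul_eq_one_right _ e3
  · have e1 : γ * gsemi_i m E P g * γ⁻¹ = gsemi_i m E P (P.x g) := by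
      have : pv P.x (1 : ZMod m) = P.x := by simpa using pv_natCast hP 1
      rw [gsemi_conj, pw_apply hm hP]
      simp [γ, this]
    have e2 := congrArg f e1
    rw [map_mul, map_mul, map_inv, k4, k4, gsemi_conj, pw_apply hm hQ] at e2
    exact (gsemi_inj m E Q e2).symm

theorem md_com {m m' : ℕ} {E E' : Type} [Group E] [Group E'] {P Q : Act}
    (h : (Nat.card P.G).Coprime (Nat.card E')) (hE : Com E) (f : Md m E P ≃* Md m' E' Q) :
    Com E' := by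
  intro e e'
  obtain ⟨a, ha⟩ := f.surjective (1, e)
  obtain ⟨b, hb⟩ := f.surjective (1, e')
  have h1 : a * b * a⁻¹ * b⁻¹ = gsemi_i m E P (a * b * a⁻¹ * b⁻¹).1.left :=
    gsemi_eq (by simp [mul_comm a.1.right]) (by simp [hE a.2])
  have h2 := gsemi_kill ((MonoidHom.snd _ E').comp (f.toMonoidHom.comp (gsemi_i m E P))) h
    (a * b * a⁻¹ * b⁻¹).1.left
  change (f (gsemi_i m E P _)).2 = 1 at h2
  rw [← h1, map_mul, map_mul, map_mul, map_inv, map_inv, ha, hb] at h2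
  change e * e' * e⁻¹ * e'⁻¹ = 1 at h2
  rwa [mul_inv_eq_one, mul_inv_eq_iff_eq_mul] at h2

theorem internal {G E : Type} [Group G] [Finite G] [Group E] {A B : Act} {s t m r : ℕ}
    (iA : A.G →* G) (iB : B.G →* G) (iE : E →* G) (jA : Function.Injective iA)
    (jB : Function.Injective iB) (jE : Function.Injective iE) (c : G) (hc : orderOf c = m)
    (cA : Nat.card A.G = s) (cB : Nat.card B.G = t) (cE : Nat.card E = r)
    (cG : Nat.card G = s * t * m * r) (h1 : s.Coprime t) (h2 : (s * t).Coprime m)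
    (h3 : (s * t * m).Coprime r) (hA : ∀ g, iA (A.x g) = c * iA g * c⁻¹)
    (hB : ∀ g, iB (B.x g) = c * iB g * c⁻¹) (hAB : ∀ g h, Commute (iA g) (iB h))
    (hAE : ∀ g e, Commute (iA g) (iE e)) (hBE : ∀ g e, Commute (iB g) (iE e))
    (hcE : ∀ e, Commute c (iE e)) :
    A.x ^ m = 1 ∧ B.x ^ m = 1 ∧ Nonempty (G ≃* Md m E (A.prod B)) := by
  have hm : m ≠ 0 := hc ▸ (orderOf_pos c).ne'
  have hcm : c ^ m = 1 := hc ▸ pow_orderOf_eq_one c
  have hx : ∀ {H : Type} [Group H] (i : H →* G) (x : MulAut H), Function.Injective i →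
      (∀ g, i (x g) = c * i g * c⁻¹) → x ^ m = 1 := fun i x j h => by
    ext g
    apply j
    rw [gsemi_pow i x c h, hcm, one_mul, inv_one, mul_one, MulAut.one_apply]
  refine ⟨hx iA _ jA hA, hx iB _ jB hB, ?_⟩
  let F1 : (A.prod B).G →* G := iA.noncommCoprod iB hAB
  have e1 : ∀ g, F1 ((A.prod B).x g) = c * F1 g * c⁻¹ := fun g => by
    show iA (A.x g.1) * iB (B.x g.2) = c * (iA g.1 * iB g.2) * c⁻¹
    rw [hA, hB]
    group
  have j1 : Function.Injective F1 := by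
    rw [injective_iff_map_eq_one]
    intro g hg
    have e2 : iA g.1 * iB g.2 = 1 := hg
    have e3 : iA g.1 = 1 := gsemi_one h1 (by rw [← map_pow, ← cA, pow_card_eq_one', map_one])
      (by rw [eq_inv_of_mul_eq_one_left e2, inv_pow, ← map_pow, ← cB, pow_card_eq_one', map_one,
        inv_one])
    rw [e3, one_mul] at e2
    exact Prod.ext (jA (e3.trans (map_one _).symm)) (jB (e2.trans (map_one _).symm))
  have hp := hx F1 _ j1 e1
  let F2 := SemidirectProduct.lift (φ := pw m (A.prod B).x) F1 (pw m c) fun k => by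
    refine MonoidHom.ext fun g => ?_
    show F1 (pw m (A.prod B).x k g) = pw m c k * F1 g * (pw m c k)⁻¹
    rw [pw_apply hm hp, pw_apply hm hcm]
    exact gsemi_pow F1 _ c e1 _ g
  let F : Md m E (A.prod B) →* G := F2.noncommCoprod iE fun z e => by
    show Commute (iA z.left.1 * iB z.left.2 * pw m c z.right) (iE e)
    rw [pw_apply hm hcm]
    exact ((hAE _ e).mul_left (hBE _ e)).mul_left ((hcE e).pow_left _)
  have hF : ∀ z : Md m E (A.prod B),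
      F z = iA z.1.left.1 * iB z.1.left.2 * pw m c z.1.right * iE z.2 := fun _ => rfl
  have hd : ∀ {H : Type} [Group H] (i : H →* G), Function.Injective i → (∀ g, i g ∈ F.range) →
      Nat.card H ∣ Nat.card F.range := fun i j h =>
    Subgroup.card_dvd_of_injective (i.codRestrict _ h) fun _ _ e => j (congrArg Subtype.val e)
  have d1 : s ∣ Nat.card F.range :=
    cA ▸ hd iA jA fun g => ⟨(⟨(g, 1), 1⟩, 1), by simp [hF]⟩
  have d2 : t ∣ Nat.card F.range :=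
    cB ▸ hd iB jB fun g => ⟨(⟨(1, g), 1⟩, 1), by simp [hF]⟩
  have d3 : m ∣ Nat.card F.range := by
    have : pv c (1 : ZMod m) = c := by simpa using pv_natCast hcm 1
    have h0 : c ∈ F.range := ⟨(⟨(1, 1), ofAdd 1⟩, 1), by rw [hF]; simp [pw_apply hm hcm, this]⟩
    exact hc.symm.dvd.trans (Subgroup.orderOf_dvd_natCard _ h0)
  have d4 : r ∣ Nat.card F.range :=
    cE ▸ hd iE jE fun g => ⟨(⟨(1, 1), 1⟩, g), by simp [hF]⟩
  have hs : F.range = ⊤ := Subgroup.eq_top_of_le_card _ (Nat.le_of_dvd Nat.card_pos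
    (cG ▸ h3.mul_dvd_of_dvd_of_dvd (h2.mul_dvd_of_dvd_of_dvd (h1.mul_dvd_of_dvd_of_dvd d1 d2) d3)
      d4))
  have hcard : Nat.card (Md m E (A.prod B)) = Nat.card G := by
    rw [md_card, cG, cE, ← cA, ← cB, ← Nat.card_prod]
    rfl
  have : Finite (Md m E (A.prod B)) := Nat.finite_of_card_ne_zero (hcard ▸ Nat.card_pos.ne')
  exact ⟨(MulEquiv.ofBijective F ((Nat.bijective_iff_surjective_and_card _).2
    ⟨MonoidHom.range_eq_top.1 hs, hcard⟩)).symm⟩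

theorem nonab {q : ℕ} (hq : q.Prime) (h11 : 11 < q) (h : 11 ∣ q - 1) :
    ∃ (E : Type) (_ : Group E), Nat.card E = 11 * q ∧ ¬ Com E ∧
      ∀ (E' : Type) [Group E'], Nat.card E' = 11 * q → ¬ Com E' → Nonempty (E' ≃* E) := by
  have hne : (11 : ℕ) ≠ q := h11.ne
  have hV : ∀ p ∈ ({11, q} : Finset ℕ), p.Prime := by
    intro p hp
    rcases Finset.mem_insert.1 hp with rfl | hp
    · norm_num
    · rwa [Finset.mem_singleton.1 hp]
  have hg := isGnu_hol hV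
  have hsq := squarefree_prod hV
  have h10 : ¬ q ∣ 10 := fun hd => by have := Nat.le_of_dvd (by norm_num) hd; omega
  have hH : Hol {11, q} ∅ = 2 := by
    have e1 : ({11, q} : Finset ℕ) \ {11} = {q} := by
      ext p; simp only [Finset.mem_sdiff, Finset.mem_insert, Finset.mem_singleton]; omega
    have e2 : ({11, q} : Finset ℕ) \ {q} = {11} := by
      ext p; simp only [Finset.mem_sdiff, Finset.mem_insert, Finset.mem_singleton]; omega
    have e3 : (11 : ℕ) ∉ ({q} : Finset ℕ) := by simpa using hne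
    have e4 : ({q} : Finset ℕ).powerset = {∅, {q}} := by
      ext D; simp [Finset.subset_singleton_iff]
    rw [Hol, Finset.sum_powerset_insert e3, e4, Finset.sum_pair (Finset.singleton_ne_empty q).symm,
      Finset.sum_pair (Finset.singleton_ne_empty q).symm]
    simp [e1, e2, hne, gs, cc, Finset.filter_singleton, h, h10]
  rw [Finset.prod_pair hne] at hg hsq
  rw [hH] at hg
  obtain ⟨G, inst, c1, c2, c3⟩ := hg
  have : NeZero (11 * q) := ⟨by positivity⟩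
  obtain ⟨i0, ⟨ψ⟩⟩ := c3 (Multiplicative (ZMod (11 * q))) (gsemi_card _)
  refine ⟨G (i0 + 1), inst _, c1 _, fun hc => ?_, fun E' _ hE hc => ?_⟩
  · have : Finite (G (i0 + 1)) := Nat.finite_of_card_ne_zero (by rw [c1]; positivity)
    let _ : CommGroup (G (i0 + 1)) := { inst (i0 + 1) with mul_comm := hc }
    have : IsZGroup (G (i0 + 1)) := IsZGroup.of_squarefree (by rwa [c1])
    have : IsCyclic (G (i0 + 1)) := inferInstance
    have := c2 _ _ ⟨(mulEquivOfCyclicCardEq ((c1 (i0 + 1)).trans (gsemi_card _).symm)).trans ψ⟩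
    simp at this
  · obtain ⟨j, ⟨χ⟩⟩ := c3 E' hE
    have : j = i0 + 1 := by
      by_contra h0
      have h1 : j = i0 := by revert h0; generalize j = j; generalize i0 = i0; revert j i0; decide
      subst h1
      exact hc fun g g' => (χ.trans ψ.symm).injective (by rw [map_mul, map_mul]; exact mul_comm _ _)
    subst this
    exact ⟨χ⟩

end Pool.Agent.MP_a96b63_al.H5

namespace Pool.Agent.MP_a96b63_al.H5

theorem ghall_card {G : Type} [Group G] [Finite G] {p j k : ℕ} [hp : Fact p.Prime]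
    (hc : Nat.card G = p ^ j * k) (h1 : ¬ p ∣ k) (P : Sylow p G) : Nat.card P = p ^ j := by
  have hk : k ≠ 0 := fun h => h1 (h ▸ dvd_zero p)
  rw [P.card_eq_multiplicity, hc, Nat.factorization_mul (pow_ne_zero _ hp.out.ne_zero) hk,
    Finsupp.add_apply, Nat.factorization_eq_zero_of_not_dvd h1, hp.out.factorization_pow,
    Finsupp.single_eq_same, add_zero]

theorem ncomp {G : Type} [Group G] {q k : ℕ} (hq : q.Prime) (hk : k ≠ 0)
    (hc : Nat.card G = q * k) (h1 : ¬ q ∣ k) (h2 : (q - 1).Coprime (q * k)) :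
    ∃ N : Subgroup G, N.Normal ∧ Nat.card N = k := by
  have : Finite G := Nat.finite_of_card_ne_zero (hc ▸ mul_ne_zero hq.ne_zero hk)
  have := Fact.mk hq
  obtain ⟨P⟩ : Nonempty (Sylow q G) := inferInstance
  have hP : Nat.card P = q := by
    rw [ghall_card (j := 1) (by rwa [pow_one]) h1 P, pow_one]
  have hC : IsCyclic P := isCyclic_of_prime_card hP
  have hN : Subgroup.normalizer P ≤ Subgroup.centralizer (P : Set G) := by
    have key := Subgroup.card_dvd_of_injective _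
      (QuotientGroup.kerLift_injective P.normalizerMonoidHom)
    rw [Subgroup.normalizerMonoidHom_ker, ← Subgroup.index, ← Subgroup.relIndex] at key
    refine Subgroup.relIndex_eq_one.mp (Nat.eq_one_of_dvd_coprimes h2 ?_ ?_)
    · rwa [hC.card_mulAut, hP, Nat.totient_prime hq] at key
    · exact hc ▸ (Subgroup.relIndex_dvd_card _ _).trans (Subgroup.card_subgroup_dvd_card _)
  have h3 := (MonoidHom.ker_transferSylow_isComplement' P hN).card_mul_card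
  rw [hP, hc, mul_comm q] at h3
  exact ⟨_, inferInstance, Nat.eq_of_mul_eq_mul_right hq.pos h3⟩

theorem mem_hall {G : Type} [Group G] [Finite G] (N : Subgroup G) (hN : N.Normal) {k : ℕ}
    (hc : Nat.card G = Nat.card N * k) (h : (Nat.card N).Coprime k) {g : G}
    (hg : g ^ Nat.card N = 1) : g ∈ N := by
  have hi : N.index = k := Nat.eq_of_mul_eq_mul_left Nat.card_pos (N.card_mul_index.trans hc)
  rw [← QuotientGroup.eq_one_iff, ← orderOf_eq_one_iff]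
  refine Nat.eq_one_of_dvd_coprimes h (orderOf_dvd_of_pow_eq_one ?_) (hi ▸ orderOf_dvd_natCard _)
  rw [← QuotientGroup.mk_pow, hg, QuotientGroup.mk_one]

theorem hall_trans {G : Type} [Group G] [Finite G] (M : Subgroup G) (hM : M.Normal)
    (N : Subgroup M) (hN : N.Normal) {k : ℕ} (hc : Nat.card M = Nat.card N * k)
    (h : (Nat.card N).Coprime k) :
    ∃ N' : Subgroup G, N'.Normal ∧ Nat.card N' = Nat.card N := by
  refine ⟨N.map M.subtype, ⟨?_⟩, Subgroup.card_map_of_injective M.subtype_injective⟩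
  rintro _ ⟨n, hn, rfl⟩ g
  refine ⟨⟨_, hM.conj_mem _ n.2 g⟩, mem_hall N hN hc h (Subtype.ext ?_), rfl⟩
  have h1 : n ^ Nat.card N = 1 := congrArg Subtype.val (pow_card_eq_one' (x := (⟨n, hn⟩ : N)))
  have h2 : (n : G) ^ Nat.card N = 1 := congrArg Subtype.val h1
  rw [SubmonoidClass.mk_pow]
  simp only [conj_pow, h2, mul_one, mul_inv_cancel, OneMemClass.coe_one]

theorem ghall_step {G : Type} [Group G] [Finite G] {q k : ℕ} (hq : q.Prime)
    (hM : ∃ M : Subgroup G, M.Normal ∧ Nat.card M = q * k) (h1 : k.Coprime q)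
    (h2 : (q - 1).Coprime k) : ∃ N : Subgroup G, N.Normal ∧ Nat.card N = k := by
  obtain ⟨M, hM, hc⟩ := hM
  have hk : k ≠ 0 := fun h => Nat.card_pos.ne' (by rw [hc, h, mul_zero])
  obtain ⟨N, hN, cN⟩ := ncomp hq hk hc (hq.coprime_iff_not_dvd.1 h1.symm)
    (Nat.Coprime.mul_right ((Nat.coprime_self_sub_left hq.pos).2 (Nat.coprime_one_left q)) h2)
  exact cN ▸ hall_trans M hM N hN (k := q) (by rw [hc, cN, mul_comm]) (cN ▸ h1)

theorem ghall_syl {G : Type} [Group G] [Finite G] {p j k : ℕ} (hp : p.Prime) (M : Subgroup G)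
    (hM : M.Normal) (hc : Nat.card M = p ^ j * k) (h1 : p.Coprime k)
    (h2 : ∀ d, d ∣ k → d ≡ 1 [MOD p] → d = 1) :
    ∃ N : Subgroup G, N.Normal ∧ Nat.card N = p ^ j := by
  have := Fact.mk hp
  obtain ⟨P⟩ : Nonempty (Sylow p M) := inferInstance
  have hP := ghall_card hc (hp.coprime_iff_not_dvd.1 h1) P
  have hi : P.index = k := Nat.eq_of_mul_eq_mul_left (pow_pos hp.pos j)
    (by rw [← hc, ← hP, Subgroup.card_mul_index])
  have h3 := h2 _ (hi ▸ P.card_dvd_index) (card_sylow_modEq_one p M)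
  have := (Nat.card_eq_one_iff_unique.1 h3).1
  exact hP ▸ hall_trans M hM P P.normal_of_subsingleton (k := k) (hP ▸ hc) (hP ▸ h1.pow_left j)

theorem ghall_lt {p n : ℕ} (hp : p.Prime) (h0 : 1 < n) (h : n ≤ p) : (n - 1).Coprime p :=
  (Nat.coprime_of_lt_prime (by omega) (by omega) hp).symm

theorem ghall_nd {p n : ℕ} (hp : p.Prime) (h : ¬ p ∣ n) : n.Coprime p :=
  (hp.coprime_iff_not_dvd.2 h).symm

theorem hall_exists {a b q1 q2 q3 : ℕ} (h : Par a b q1 q2 q3) {G : Type} [Group G]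
    (hc : Nat.card G = a ^ 2 * b ^ 3 * (q1 * q2 * q3) * 11) :
    ∃ A B K : Subgroup G, A.Normal ∧ B.Normal ∧ Nat.card A = a ^ 2 ∧ Nat.card B = b ^ 3 ∧
      Nat.card K = q1 * q2 * q3 * 11 := by
  obtain ⟨⟨⟨p1, p2, p3, l1, l2, l3, n12, n13, n23, -, -, -, d12, d13, d21, d23, -, -⟩, pa, a1,
    a2, a3, -⟩, ⟨-, pb, b1, b2, b3, -⟩, lt, ba, -, -⟩ := h
  have p11 : Nat.Prime 11 := by norm_num
  have cp : ∀ {p q : ℕ}, p.Prime → q.Prime → p ≠ q → p.Coprime q := fun hp hq =>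
    (Nat.coprime_primes hp hq).2
  have hab : a < b := by nlinarith [pa.one_lt]
  have hne : Nat.card G ≠ 0 := by
    have := pa.pos
    have := pb.pos
    have := p1.pos
    have := p2.pos
    have := p3.pos
    rw [hc]
    positivity
  have : Finite G := Nat.finite_of_card_ne_zero hne
  have c : ∀ {q : ℕ}, q.Prime → q < a → q < b →
      (a ^ 2 * b ^ 3).Coprime q ∧ (q - 1).Coprime (a ^ 2 * b ^ 3) := fun hq h1 h2 =>
    ⟨Nat.Coprime.mul_left ((cp pa hq h1.ne').pow_left _) ((cp pb hq h2.ne').pow_left _),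
      Nat.Coprime.mul_right ((ghall_lt pa hq.one_lt h1.le).pow_right _)
        ((ghall_lt pb hq.one_lt h2.le).pow_right _)⟩
  have c11 := c p11 (l1.trans a1) (l1.trans b1)
  have c1 := c p1 a1 b1
  have c2 := c p2 a2 b2
  have c3 := c p3 a3 b3
  have s0 := ghall_step (G := G) (k := q3 * (q2 * (q1 * (a ^ 2 * b ^ 3)))) p11
    ⟨⊤, inferInstance, by rw [Subgroup.card_top, hc]; ring⟩
    ((cp p3 p11 l3.ne').mul_left ((cp p2 p11 l2.ne').mul_left ((cp p1 p11 l1.ne').mul_left c11.1)))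
    ((ghall_lt p3 p11.one_lt l3.le).mul_right ((ghall_lt p2 p11.one_lt l2.le).mul_right
      ((ghall_lt p1 p11.one_lt l1.le).mul_right c11.2)))
  have s1 := ghall_step p3 s0 ((cp p2 p3 n23).mul_left ((cp p1 p3 n13).mul_left c3.1))
    ((ghall_nd p2 d23).mul_right ((ghall_nd p1 d13).mul_right c3.2))
  have s2 := ghall_step p2 s1 ((cp p1 p2 n12).mul_left c2.1) ((ghall_nd p1 d12).mul_right c2.2)
  obtain ⟨H, hH, cH⟩ := ghall_step p1 s2 c1.1 c1.2
  obtain ⟨A, hA, cA⟩ := ghall_syl pa H hH cH ((cp pa pb hab.ne).pow_right 3) fun d hd h1 => by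
    obtain ⟨i, hi, rfl⟩ := (Nat.dvd_prime_pow pb).1 hd
    have ha : 11 < a := l1.trans a1
    have h2 : b ^ i ≡ 2 ^ i [MOD a] :=
      Nat.ModEq.pow i (by rw [Nat.ModEq, ba, Nat.mod_eq_of_lt (by omega)])
    have h3 := Nat.ModEq.eq_of_lt_of_lt (h2.symm.trans h1)
      (lt_of_le_of_lt (Nat.pow_le_pow_right two_pos hi) (by omega)) pa.one_lt
    rw [(Nat.pow_eq_one.1 h3).resolve_left (by omega), pow_zero]
  obtain ⟨B, hB, cB⟩ := ghall_syl pb H hH (cH.trans (mul_comm _ _))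
    ((cp pb pa hab.ne').pow_right 2) fun d hd h1 => Nat.ModEq.eq_of_lt_of_lt h1
      ((Nat.le_of_dvd (pow_pos pa.pos 2) hd).trans_lt lt) pb.one_lt
  have hi : H.index = q1 * q2 * q3 * 11 := Nat.eq_of_mul_eq_mul_left Nat.card_pos
    (by rw [H.card_mul_index, hc, cH]; ring)
  obtain ⟨K, hK⟩ := Subgroup.exists_right_complement'_of_coprime (N := H) (by
    rw [hi, cH]
    exact ((c1.1.mul_right c2.1).mul_right c3.1).mul_right c11.1)
  exact ⟨A, B, K, hA, hB, cA, cB, hK.symm.index_eq_card.symm.trans hi⟩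

theorem cyc3 {q1 q2 q3 : ℕ} (h : PQ q1 q2 q3) {G : Type} [Group G]
    (hc : Nat.card G = q1 * q2 * q3) : ∃ c : G, orderOf c = q1 * q2 * q3 := by
  have c12 := (Nat.coprime_primes h.p1 h.p2).2 h.n12
  have c3 := ((Nat.coprime_primes h.p1 h.p3).2 h.n13).mul_left
    ((Nat.coprime_primes h.p2 h.p3).2 h.n23)
  have hs : Squarefree (Nat.card G) := by
    rw [hc, Nat.squarefree_mul c3, Nat.squarefree_mul c12]
    exact ⟨⟨h.p1.squarefree, h.p2.squarefree⟩, h.p3.squarefree⟩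
  obtain ⟨n, H, ⟨ψ⟩⟩ := exists_Mod G hs
  have h1 : q1 * q2 * q3 = n * Nat.card H := by
    rw [← card_Mod, ← hc]
    exact Nat.card_congr ψ.toEquiv
  have : NeZero n := ⟨left_ne_zero_of_mul (h1 ▸ hc ▸ hs.ne_zero)⟩
  have h2 : Nat.card H ∣ (q1 - 1) * (q2 - 1) * (q3 - 1) := by
    rw [← Nat.totient_prime h.p1, ← Nat.totient_prime h.p2, ← Nat.totient_prime h.p3,
      ← Nat.totient_mul c12, ← Nat.totient_mul c3]
    refine H.card_subgroup_dvd_card.trans ?_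
    rw [Nat.card_eq_fintype_card, ZMod.card_units_eq_totient]
    exact Nat.totient_dvd_of_dvd ⟨_, h1⟩
  have h3 : ((q1 - 1) * (q2 - 1) * (q3 - 1)).Coprime (q1 * q2 * q3) :=
    ((((ghall_lt h.p1 h.p1.one_lt le_rfl).mul_right (ghall_nd h.p2 h.d21)).mul_right
      (ghall_nd h.p3 h.d31)).mul_left (((ghall_nd h.p1 h.d12).mul_right
      (ghall_lt h.p2 h.p2.one_lt le_rfl)).mul_right (ghall_nd h.p3 h.d32))).mul_left
      (((ghall_nd h.p1 h.d13).mul_right (ghall_nd h.p2 h.d23)).mul_right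
      (ghall_lt h.p3 h.p3.one_lt le_rfl))
  have h4 := Nat.eq_one_of_dvd_coprimes h3 h2 (Dvd.intro_left _ h1.symm)
  refine ⟨ψ.symm (SemidirectProduct.inl (Multiplicative.ofAdd 1)), ?_⟩
  rw [ψ.symm.orderOf_eq, orderOf_injective _ SemidirectProduct.inl_injective,
    orderOf_ofAdd_eq_addOrderOf, ZMod.addOrderOf_one, h1, h4, mul_one]

end Pool.Agent.MP_a96b63_al.H5

namespace Pool.Agent.MP_a96b63_al.H5

open Subgroup

theorem gdecomp_bez {G : Type} [Group G] {y g : G} {m n : ℕ} (h : m.Coprime n)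
    (h1 : Commute y (g ^ m)) (h2 : Commute y (g ^ n)) : Commute y g := by
  have h3 := (h1.zpow_right (m.gcdA n)).mul_right (h2.zpow_right (m.gcdB n))
  rwa [← zpow_natCast, ← zpow_natCast, ← zpow_mul, ← zpow_mul, ← zpow_add, ← Nat.gcd_eq_gcd_ab, h,
    Nat.cast_one, zpow_one] at h3

theorem gdecomp_ord {G : Type} [Group G] {c : G} {m n : ℕ} (hm : m ≠ 0)
    (h : orderOf c = m * n) : orderOf (c ^ m) = n := by
  rw [orderOf_pow' _ hm, h, Nat.gcd_mul_right_left, Nat.mul_div_cancel_left _ (Nat.pos_of_ne_zero hm)]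

theorem gdecomp_conj {G : Type} [Group G] {y d : G} {t : ℕ} (h : y * d * y⁻¹ = d ^ t) :
    ∀ g ∈ zpowers d, y * g * y⁻¹ ∈ zpowers d := by
  rintro _ ⟨k, rfl⟩
  rw [← conj_zpow, h]
  exact zpow_mem (pow_mem (mem_zpowers d) t) k

theorem gdecomp_comm {G : Type} [Group G] [Finite G] {y d : G} {p t : ℕ} (hp : p.Prime)
    (h1 : 11 < p) (h2 : p % 11 ≠ 1) (hy : orderOf y = 11) (hd : orderOf d = p)
    (h : y * d * y⁻¹ = d ^ t) : Commute y d := by
  have h3 := fix_of_card (x := MulAut.conj y) (k := 1) hp (by norm_num : Nat.Prime 11) h1.ne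
    (by rw [← map_pow, ← hy, pow_orderOf_eq_one, map_one]) (zpowers d) (gdecomp_conj h)
    (by rw [Nat.card_zpowers, hd, pow_one])
    (fun i i1 i2 => by rw [le_antisymm i2 i1, pow_one]; omega) (mem_zpowers d)
  exact mul_inv_eq_iff_eq_mul.1 h3

theorem kgen {q1 q2 q3 : ℕ} (h : PQ q1 q2 q3) {K : Type} [Group K]
    (hc : Nat.card K = q1 * q2 * q3 * 11) :
    ∃ (c y : K) (t : ℕ), orderOf c = q1 * q2 * q3 ∧ orderOf y = 11 ∧ Commute y (c ^ q3) ∧
      y * c ^ (q1 * q2) * y⁻¹ = (c ^ (q1 * q2)) ^ t := by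
  have p11 : Nat.Prime 11 := by norm_num
  have := Fact.mk p11
  have n1 := h.p1.ne_zero
  have n2 := h.p2.ne_zero
  have n3 := h.p3.ne_zero
  have : Finite K := Nat.finite_of_card_ne_zero (by rw [hc]; positivity)
  have cp : ∀ {q : ℕ}, q.Prime → 11 < q → Nat.Coprime 11 q := fun hq l =>
    (Nat.coprime_primes p11 hq).2 l.ne
  obtain ⟨N, hN, cN⟩ := ncomp p11 (k := q1 * q2 * q3) (by positivity) (hc.trans (mul_comm _ _))
    (p11.coprime_iff_not_dvd.1 (((cp h.p1 h.l1).mul_right (cp h.p2 h.l2)).mul_right (cp h.p3 h.l3)))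
    ((ghall_lt p11 p11.one_lt le_rfl).mul_right (((ghall_lt h.p1 p11.one_lt h.l1.le).mul_right
      (ghall_lt h.p2 p11.one_lt h.l2.le)).mul_right (ghall_lt h.p3 p11.one_lt h.l3.le)))
  obtain ⟨⟨c, hcN⟩, oc⟩ := cyc3 h cN
  rw [orderOf_mk] at oc
  obtain ⟨y, hy⟩ := exists_prime_orderOf_dvd_card' (G := K) 11 (hc ▸ dvd_mul_left _ _)
  have hz : zpowers c = N := eq_of_le_of_card_ge (zpowers_le.2 hcN)
    (by rw [Nat.card_zpowers, oc, cN])
  obtain ⟨t, ht⟩ := mem_powers_iff_mem_zpowers.2 (hz ▸ hN.conj_mem c hcN y)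
  have key : ∀ e : ℕ, y * c ^ e * y⁻¹ = (c ^ e) ^ t := fun e => by
    rw [← conj_pow, ← ht, ← pow_mul, ← pow_mul, mul_comm]
  refine ⟨c, y, t, oc, hy, gdecomp_bez ((Nat.coprime_primes h.p1 h.p2).2 h.n12) ?_ ?_, key _⟩
  · rw [← pow_mul]
    exact gdecomp_comm h.p2 h.l2 h.m2 hy (gdecomp_ord (by positivity) (by rw [oc]; ring)) (key _)
  · rw [← pow_mul]
    exact gdecomp_comm h.p1 h.l1 h.m1 hy (gdecomp_ord (by positivity) (by rw [oc]; ring)) (key _)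

theorem gdecomp_cent {G : Type} [Group G] {y : G} {p k : ℕ} (hp : p.Prime) (h2 : p % 11 = 2)
    (hy : orderOf y = 11) (N : Subgroup G) [N.Normal] (hc : Nat.card N = p ^ k) (hk : k ≤ 3) :
    y ∈ centralizer (N : Set G) := by
  have h3 : MulAut.conjNormal (H := N) y = 1 := by
    refine aut_triv hp (by norm_num : Nat.Prime 11) (by omega)
      (by rw [← map_pow, ← hy, pow_orderOf_eq_one, map_one]) hc fun i i1 i2 hd => ?_
    have h4 : p ^ i % 11 = 2 ^ i % 11 := by rw [Nat.pow_mod, h2]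
    have h5 := pow_pos hp.pos i
    have : i ≤ 3 := i2.trans hk
    interval_cases i <;> omega
  intro g hg
  exact (mul_inv_eq_iff_eq_mul.1
    (congrArg (fun σ : MulAut N => ((σ ⟨g, hg⟩ : N) : G)) h3)).symm

theorem gdecomp_gen {G : Type} [Group G] {y d : G} {p t : ℕ} (hp : p.Prime) (hd : orderOf d = p)
    (h : y * d * y⁻¹ = d ^ t) (hn : ¬ Commute y d) (C : Subgroup G) (hC : C.Normal) (hy : y ∈ C) :
    zpowers d ⊔ zpowers y ≤ C := by
  have := Fact.mk hp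
  refine sup_le (zpowers_le.2 ?_) (zpowers_le.2 hy)
  have h1 : y * d * y⁻¹ * d⁻¹ ∈ C := by
    simpa only [mul_assoc] using C.mul_mem hy (hC.conj_mem _ (C.inv_mem hy) d)
  have h2 : y * d * y⁻¹ * d⁻¹ ∈ zpowers d :=
    mul_mem (gdecomp_conj h d (mem_zpowers d)) (inv_mem (mem_zpowers d))
  obtain ⟨k, hk⟩ := mem_zpowers_of_prime_card (G := zpowers d) ((Nat.card_zpowers d).trans hd)
    (g := ⟨_, h2⟩) (g' := ⟨d, mem_zpowers d⟩) fun e => hn
      (mul_inv_eq_iff_eq_mul.1 (mul_inv_eq_one.1 (congrArg Subtype.val e)))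
  have h3 : (y * d * y⁻¹ * d⁻¹) ^ k = d := congrArg Subtype.val hk
  exact h3 ▸ zpow_mem h1 k

theorem gdecomp_card {G : Type} [Group G] [Finite G] {y d : G} {p q t : ℕ} (hpq : p.Coprime q)
    (hy : orderOf y = p) (hd : orderOf d = q) (h : y * d * y⁻¹ = d ^ t) :
    Nat.card (zpowers d ⊔ zpowers y : Subgroup G) = p * q := by
  have h1 := coe_mul_of_right_le_normalizer_left (zpowers d) (zpowers y)
    (zpowers_le.2 (mem_normalizer_fintype (gdecomp_conj h)))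
  refine le_antisymm ?_ (Nat.le_of_dvd Nat.card_pos (hpq.mul_dvd_of_dvd_of_dvd ?_ ?_))
  · have h2 := Set.natCard_mul_le (s := (zpowers d : Set G)) (t := (zpowers y : Set G))
    rwa [← h1, SetLike.coe_sort_coe, SetLike.coe_sort_coe, SetLike.coe_sort_coe, Nat.card_zpowers,
      Nat.card_zpowers, hy, hd, mul_comm] at h2
  · exact hy ▸ Nat.card_zpowers y ▸ card_dvd_of_le le_sup_right
  · exact hd ▸ Nat.card_zpowers d ▸ card_dvd_of_le le_sup_left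

theorem decomp {a b q1 q2 q3 : ℕ} (h : Par a b q1 q2 q3) {G : Type} [Group G]
    (hc : Nat.card G = a ^ 2 * b ^ 3 * (q1 * q2 * q3) * 11) :
    ∃ A B : Act, Nat.card A.G = a ^ 2 ∧ Nat.card B.G = b ^ 3 ∧
      ((A.x ^ (q1 * q2 * q3) = 1 ∧ B.x ^ (q1 * q2 * q3) = 1 ∧
        Nonempty (G ≃* Md (q1 * q2 * q3) (Multiplicative (ZMod 11)) (A.prod B))) ∨
      (A.x ^ (q1 * q2) = 1 ∧ B.x ^ (q1 * q2) = 1 ∧ ∃ (E : Type) (_ : Group E),
        Nat.card E = 11 * q3 ∧ ¬ Com E ∧ Nonempty (G ≃* Md (q1 * q2) E (A.prod B)))) := by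
  obtain ⟨A, B, K, hA, hB, cA, cB, cK⟩ := hall_exists h hc
  obtain ⟨⟨pq, pa, a1, a2, a3, -⟩, ⟨-, pb, b1, b2, b3, -⟩, lt, -, a11, b11⟩ := h
  obtain ⟨⟨c, hcK⟩, ⟨y, hyK⟩, t, oc, oy, h1, h2⟩ := kgen pq cK
  rw [orderOf_mk] at oc oy
  replace h1 : Commute y (c ^ q3) := congrArg Subtype.val h1
  replace h2 : y * c ^ (q1 * q2) * y⁻¹ = (c ^ (q1 * q2)) ^ t := congrArg Subtype.val h2
  have p11 : Nat.Prime 11 := by norm_num
  have cp : ∀ {p q : ℕ}, p.Prime → q.Prime → p ≠ q → p.Coprime q := fun hp hq =>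
    (Nat.coprime_primes hp hq).2
  have n1 := pq.p1.ne_zero
  have n2 := pq.p2.ne_zero
  have n3 := pq.p3.ne_zero
  have na := pa.ne_zero
  have nb := pb.ne_zero
  have : Finite G := Nat.finite_of_card_ne_zero (by rw [hc]; positivity)
  have hab : a < b := by nlinarith [pa.one_lt]
  have cab : (a ^ 2).Coprime (b ^ 3) := (cp pa pb hab.ne).pow _ _
  have c0 : ∀ {q : ℕ}, q.Prime → q < a → q < b → (a ^ 2 * b ^ 3).Coprime q := fun hq h1 h2 =>
    Nat.Coprime.mul_left ((cp pa hq h1.ne').pow_left _) ((cp pb hq h2.ne').pow_left _)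
  have c12 := (c0 pq.p1 a1 b1).mul_right (c0 pq.p2 a2 b2)
  have c3 := c0 pq.p3 a3 b3
  have c11 := c0 p11 (pq.l1.trans a1) (pq.l1.trans b1)
  have d3 := (cp pq.p1 pq.p3 pq.n13).mul_left (cp pq.p2 pq.p3 pq.n23)
  have d11 := (cp pq.p1 p11 pq.l1.ne').mul_left (cp pq.p2 p11 pq.l2.ne')
  have yA := gdecomp_cent pa a11 oy A cA (by norm_num)
  have yB := gdecomp_cent pb b11 oy B cB le_rfl
  have hAB : ∀ (g : A) (h : B), Commute (g : G) (h : G) := fun g h =>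
    commute_of_normal_of_disjoint A B hA hB
      (disjoint_of_coprime_natCard (by rwa [cA, cB])) _ _ g.2 h.2
  by_cases h3 : Commute y (c ^ (q1 * q2))
  · have y11 : y ^ 11 = 1 := oy ▸ pow_orderOf_eq_one y
    have pw1 := pw_apply (by norm_num) y11
    refine ⟨⟨A, MulAut.conjNormal c⟩, ⟨B, MulAut.conjNormal c⟩, cA, cB, Or.inl
      (internal (A := ⟨A, MulAut.conjNormal c⟩) (B := ⟨B, MulAut.conjNormal c⟩) (r := 11)
        A.subtype B.subtype (pw 11 y) A.subtype_injective B.subtype_injective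
        (fun k l e => ?_) c oc cA cB (by simp) hc cab (c12.mul_right c3)
        (c11.mul_left (d11.mul_left (cp pq.p3 p11 pq.l3.ne'))) (fun _ => rfl) (fun _ => rfl) hAB
        (fun g e => ?_) (fun g e => ?_) fun e => ?_)⟩
    · rw [pw1, pw1] at e
      exact pv_inj (by norm_num) oy e
    · rw [pw1]
      exact Commute.pow_right (yA _ g.2) _
    · rw [pw1]
      exact Commute.pow_right (yB _ g.2) _
    · rw [pw1]
      exact (gdecomp_bez d3 h3 h1).symm.pow_right _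
  · have o3 : orderOf (c ^ (q1 * q2)) = q3 := gdecomp_ord (by positivity) oc
    have cE := gdecomp_card (cp p11 pq.p3 pq.l3.ne) oy o3 h2
    have hE : zpowers (c ^ (q1 * q2)) ⊔ zpowers y ≤ centralizer {c ^ q3} :=
      sup_le (zpowers_le.2 (mem_centralizer_singleton_iff.2 (Commute.pow_pow_self c _ _)))
        (zpowers_le.2 (mem_centralizer_singleton_iff.2 h1))
    obtain ⟨e1, e2, e3⟩ := internal (A := ⟨A, MulAut.conjNormal (c ^ q3)⟩)
      (B := ⟨B, MulAut.conjNormal (c ^ q3)⟩) (m := q1 * q2) A.subtype B.subtype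
      (zpowers (c ^ (q1 * q2)) ⊔ zpowers y).subtype A.subtype_injective B.subtype_injective
      (subtype_injective _) (c ^ q3) (gdecomp_ord n3 (oc.trans (mul_comm _ _))) cA cB cE
      (by rw [hc]; ring) cab c12 ((c11.mul_right c3).mul_left (d11.mul_right d3)) (fun _ => rfl)
      (fun _ => rfl) hAB (fun g e => gdecomp_gen pq.p3 o3 h2 h3 _ inferInstance yA e.2 _ g.2)
      (fun g e => gdecomp_gen pq.p3 o3 h2 h3 _ inferInstance yB e.2 _ g.2)
      fun e => hE e.2 _ rfl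
    exact ⟨_, _, cA, cB, Or.inr ⟨e1, e2, _, inferInstance, cE, fun hE => h3 (congrArg Subtype.val
      (hE ⟨y, mem_sup_right (mem_zpowers y)⟩ ⟨_, mem_sup_left (mem_zpowers _)⟩)), e3⟩⟩

end Pool.Agent.MP_a96b63_al.H5

namespace Pool.Agent.MP_a96b63_al.H5

open Finset

section label

variable {F : Type} [Field F] [DecidableEq F]

/-- labels of pairs up to scaling and roots of unity -/
abbrev Lb (F : Type) [Field F] (w : ℕ) : Type :=
  Bool ⊕ Option (powMonoidHom w : Fˣ →* Fˣ).range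

/-- the label of a pair -/
def lab (w : ℕ) (k l : F) : Lb F w :=
  if hl : l = 0 then .inl (decide (k = 0)) else
    if hk : k = 0 then .inr none else .inr (some ⟨_, Units.mk0 k hk / Units.mk0 l hl, rfl⟩)

/-- the first coordinate vanishes -/
def kz {T : Type} : Bool ⊕ Option T → Bool
  | .inl b => b
  | .inr none => true
  | .inr (some _) => false

/-- the second coordinate vanishes -/
def lz {T : Type} : Bool ⊕ Option T → Bool
  | .inl _ => true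
  | .inr _ => false

theorem kz_lab (w : ℕ) (k l : F) : kz (lab w k l) = true ↔ k = 0 := by
  unfold lab
  split_ifs with h1 h2
  · simp [kz]
  · simp [kz, h2]
  · simp [kz, h2]

theorem lz_lab (w : ℕ) (k l : F) : lz (lab w k l) = true ↔ l = 0 := by
  unfold lab
  split_ifs with h1 h2 <;> simp [lz, h1]

theorem lab_surj (w : ℕ) (x : Lb F w) : ∃ k l : F, lab w k l = x := by
  rcases x with (_ | _) | _ | ⟨_, y, rfl⟩
  · exact ⟨1, 0, by simp [lab]⟩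
  · exact ⟨0, 0, by simp [lab]⟩
  · exact ⟨0, 1, by simp [lab]⟩
  · exact ⟨y, 1, by simp [lab]⟩

theorem lab_eq {w : ℕ} (hw : w ≠ 0) {k l k' l' : F} :
    lab w k l = lab w k' l' ↔ ∃ u : F, u ≠ 0 ∧ k = u * k' ∧ l ^ w = (u * l') ^ w := by
  constructor
  · intro h
    have h1 : k = 0 ↔ k' = 0 := by rw [← kz_lab w k l, h, kz_lab]
    have h2 : l = 0 ↔ l' = 0 := by rw [← lz_lab w k l, h, lz_lab]
    by_cases hk : k' = 0
    · by_cases hl : l' = 0
      · exact ⟨1, one_ne_zero, by simp [h1.2 hk, hk], by simp [h2.2 hl, hl]⟩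
      · exact ⟨l / l', div_ne_zero (mt h2.1 hl) hl, by simp [h1.2 hk, hk],
          by rw [div_mul_cancel₀ _ hl]⟩
    · refine ⟨k / k', div_ne_zero (mt h1.1 hk) hk, (div_mul_cancel₀ _ hk).symm, ?_⟩
      by_cases hl : l' = 0
      · simp [h2.2 hl, hl]
      · simp only [lab, dif_neg hl, dif_neg hk, dif_neg (mt h1.1 hk), dif_neg (mt h2.1 hl),
          Sum.inr.injEq, Option.some.injEq, Subtype.mk.injEq, powMonoidHom_apply] at h
        have e := congrArg Units.val h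
        simp only [Units.val_pow_eq_pow_val, Units.val_div_eq_div_val, Units.val_mk0,
          div_pow] at e
        have a1 := pow_ne_zero w hl
        have a2 := pow_ne_zero w hk
        have a3 := pow_ne_zero w (mt h2.1 hl)
        rw [mul_pow, div_pow]
        field_simp at e ⊢
        linear_combination -e
  · rintro ⟨u, hu, rfl, h⟩
    by_cases hl : l' = 0
    · have : l = 0 := by simpa [hl, hw] using h
      simp [lab, hl, this, hu]
    · have hl' : l ≠ 0 := fun e => by simp [e, hw, hu, hl, eq_comm] at h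
      by_cases hk : k' = 0
      · simp [lab, hl, hl', hk]
      · simp only [lab, dif_neg hl, dif_neg hk, dif_neg (mul_ne_zero hu hk), dif_neg hl',
          Sum.inr.injEq, Option.some.injEq, Subtype.mk.injEq, powMonoidHom_apply]
        ext
        simp only [Units.val_pow_eq_pow_val, Units.val_div_eq_div_val, Units.val_mk0, div_pow, h,
          mul_pow]
        rw [mul_div_mul_left _ _ (pow_ne_zero w hu)]

end label

theorem card_range_pow {q w : ℕ} [Fact q.Prime] (h : w ∣ q - 1) :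
    Fintype.card (powMonoidHom w : (ZMod q)ˣ →* (ZMod q)ˣ).range * w = q - 1 := by
  rw [← Nat.card_eq_fintype_card, IsCyclic.card_powMonoidHom_range, Nat.card_eq_fintype_card,
    ZMod.card_units, Nat.gcd_eq_right h, Nat.div_mul_cancel h]

variable {q1 q2 q3 : ℕ}

/-- coordinates -/
def DA.co : DA q1 q2 q3 → Fin 3 × ZMod q1 × ZMod q1 × ZMod q2 × ZMod q3
  | .cyc e => (0, e, 0, 0, 0)
  | .dia i j => (1, i + j, i - j, 0, 0)
  | .tor k1 k2 k3 => (2, k1, 0, k2, k3)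

/-- coordinates -/
def DB.co : DB q2 q3 → Fin 6 × ZMod q2 × ZMod q3
  | .triv i => (⟨i, by omega⟩, 0, 0)
  | .hei l => (3, l, 0)
  | .el2 l => (4, l, 0)
  | .el3 l => (5, 0, l)

theorem DA.rel_iff [Fact q1.Prime] (h2 : (2 : ZMod q1) ≠ 0) (u : ℕ) (d d' : DA q1 q2 q3) :
    DA.rel u d d' ↔ d.co.1 = d'.co.1 ∧ d.co.2.1 = u * d'.co.2.1 ∧
      d.co.2.2.1 ^ 2 = (u * d'.co.2.2.1) ^ 2 ∧
      ((d.co.2.2.2.1 = u * d'.co.2.2.2.1 ∧ d.co.2.2.2.2 = u * d'.co.2.2.2.2) ∨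
        (d.co.2.2.2.1 = -(u * d'.co.2.2.2.1) ∧ d.co.2.2.2.2 = -(u * d'.co.2.2.2.2))) := by
  rcases d with e | ⟨i, j⟩ | ⟨k1, k2, k3⟩ <;> rcases d' with e' | ⟨i', j'⟩ | ⟨k1', k2', k3'⟩ <;>
    simp [DA.rel, DA.co, -mul_eq_mul_left_iff]
  rw [sq_eq_sq_iff_eq_or_eq_neg]
  constructor
  · rintro (⟨rfl, rfl⟩ | ⟨rfl, rfl⟩)
    · exact ⟨by ring, .inl (by ring)⟩
    · exact ⟨by ring, .inr (by ring)⟩
  · rintro ⟨a, b | b⟩
    · exact .inl ⟨mul_left_cancel₀ h2 (by linear_combination a + b),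
        mul_left_cancel₀ h2 (by linear_combination a - b)⟩
    · exact .inr ⟨mul_left_cancel₀ h2 (by linear_combination a + b),
        mul_left_cancel₀ h2 (by linear_combination a - b)⟩

theorem DB.rel_iff (u : ℕ) (d d' : DB q2 q3) :
    DB.rel u d d' ↔ d.co.1 = d'.co.1 ∧ d.co.2.1 ^ 2 = (u * d'.co.2.1) ^ 2 ∧
      d.co.2.2 ^ 3 = (u * d'.co.2.2) ^ 3 := by
  rcases d with i | l | l | l <;> rcases d' with i' | l' | l' | l' <;>
    simp [DB.rel, DB.co, Fin.ext_iff] <;> omega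

theorem DA.co_facts (d : DA q1 q2 q3) : (d.co.1 ≠ 1 → d.co.2.2.1 = 0) ∧
    (d.co.1 ≠ 2 → d.co.2.2.2.1 = 0 ∧ d.co.2.2.2.2 = 0) ∧
    (d.ok ↔ (d.co.1 = 2 → ¬ (d.co.2.2.2.1 = 0 ∧ d.co.2.2.2.2 = 0))) ∧
    (d.no3 ↔ d.co.2.2.2.2 = 0) := by
  rcases d with e | ⟨i, j⟩ | ⟨k1, k2, k3⟩ <;> simp [DA.co, DA.ok, DA.no3]
  tauto

theorem DB.co_facts (d : DB q2 q3) : (d.co.1 ≠ 3 → d.co.1 ≠ 4 → d.co.2.1 = 0) ∧
    (d.co.1 ≠ 5 → d.co.2.2 = 0) ∧ (d.ok ↔ (d.co.1 = 5 → ¬ d.co.2.2 = 0)) ∧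
    (d.no3 ↔ d.co.1 ≠ 5) := by
  rcases d with i | l | l | l <;> simp [DB.co, DB.ok, DB.no3, Fin.ext_iff]
  omega

theorem DA.co_surj [Fact q1.Prime] (h2 : (2 : ZMod q1) ≠ 0) (s : Fin 3) (k1 l1 : ZMod q1)
    (k2 : ZMod q2) (k3 : ZMod q3) (a : s ≠ 1 → l1 = 0) (b : s ≠ 2 → k2 = 0 ∧ k3 = 0) :
    ∃ d : DA q1 q2 q3, d.co = (s, k1, l1, k2, k3) := by
  fin_cases s
  · exact ⟨.cyc k1, by simp [DA.co, a (by decide), b (by decide)]⟩
  · refine ⟨.dia ((k1 + l1) / 2) ((k1 - l1) / 2), ?_⟩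
    simp only [DA.co, b (by decide), Prod.mk.injEq, and_true]
    exact ⟨rfl, by field_simp; ring, by field_simp; ring⟩
  · exact ⟨.tor k1 k2 k3, by simp [DA.co, a (by decide)]⟩

theorem DB.co_surj (t : Fin 6) (l2 : ZMod q2) (l3 : ZMod q3) (a : t ≠ 3 → t ≠ 4 → l2 = 0)
    (b : t ≠ 5 → l3 = 0) : ∃ d : DB q2 q3, d.co = (t, l2, l3) := by
  fin_cases t
  · exact ⟨.triv 0, by simp [DB.co, a (by decide) (by decide), b (by decide)]⟩
  · exact ⟨.triv 1, by simp [DB.co, a (by decide) (by decide), b (by decide)]⟩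
  · exact ⟨.triv 2, by simp [DB.co, a (by decide) (by decide), b (by decide)]⟩
  · exact ⟨.hei l2, by simp [DB.co, b (by decide)]⟩
  · exact ⟨.el2 l2, by simp [DB.co, b (by decide)]⟩
  · exact ⟨.el3 l3, by simp [DB.co, a (by decide) (by decide)]⟩

/-- the possible invariants -/
def Al {T1 T2 T3 : Type}
    (j : Fin 3 × Fin 6 × (Bool ⊕ Option T1) × (Bool ⊕ Option T2) × (Bool ⊕ Option T3)) : Prop :=
  (j.1 ≠ 1 → lz j.2.2.1 = true) ∧ (j.1 ≠ 2 ↔ kz j.2.2.2.1 = true ∧ kz j.2.2.2.2 = true) ∧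
    (j.2.1 ≠ 3 → j.2.1 ≠ 4 → lz j.2.2.2.1 = true) ∧ (j.2.1 ≠ 5 ↔ lz j.2.2.2.2 = true)

instance {T1 T2 T3 : Type} : DecidablePred (Al (T1 := T1) (T2 := T2) (T3 := T3)) := fun j => by
  unfold Al
  infer_instance

theorem card_Al (T1 T2 T3 : Type) [Fintype T1] [Fintype T2] [Fintype T3] :
    #(univ.filter (Al (T1 := T1) (T2 := T2) (T3 := T3))) +
      #(univ.filter fun j => Al (T1 := T1) (T2 := T2) (T3 := T3) j ∧
        kz j.2.2.2.2 = true ∧ j.2.1 ≠ 5) =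
      15 * Fintype.card T1 + 12 * Fintype.card T2 + 4 * Fintype.card T3 + 121 := by
  rw [card_filter, card_filter]
  simp only [Fintype.sum_prod_type, Fin.sum_univ_three, Fin.sum_univ_six,
    Fintype.sum_sum_type, Fintype.sum_bool, Fintype.sum_option, Al, kz, lz]
  simp
  ring

theorem gcount_crt (h : PQ q1 q2 q3) (u1 : ZMod q1) (u2 : ZMod q2) (u3 : ZMod q3) (h1 : u1 ≠ 0)
    (h2 : u2 ≠ 0) (h3 : u3 ≠ 0) :
    ∃ u : ℕ, u.Coprime (q1 * q2 * q3) ∧ (u : ZMod q1) = u1 ∧ (u : ZMod q2) = u2 ∧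
      (u : ZMod q3) = u3 := by
  have := Fact.mk h.p1
  have := Fact.mk h.p2
  have := Fact.mk h.p3
  have c12 := (Nat.coprime_primes h.p1 h.p2).2 h.n12
  have c3 : (q1 * q2).Coprime q3 := Nat.Coprime.mul_left ((Nat.coprime_primes h.p1 h.p3).2 h.n13)
    ((Nat.coprime_primes h.p2 h.p3).2 h.n23)
  obtain ⟨v, a1, a2⟩ := Nat.chineseRemainder c12 u1.val u2.val
  obtain ⟨u, a3, a4⟩ := Nat.chineseRemainder c3 v u3.val
  have e1 : (u : ZMod q1) = u1 := by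
    rw [(ZMod.natCast_eq_natCast_iff _ _ _).2 ((a3.of_mul_right q2).trans a1),
      ZMod.natCast_zmod_val]
  have e2 : (u : ZMod q2) = u2 := by
    rw [(ZMod.natCast_eq_natCast_iff _ _ _).2 ((a3.of_mul_left q1).trans a2),
      ZMod.natCast_zmod_val]
  have e3 : (u : ZMod q3) = u3 := by
    rw [(ZMod.natCast_eq_natCast_iff _ _ _).2 a4, ZMod.natCast_zmod_val]
  have key : ∀ q : ℕ, q.Prime → (u : ZMod q) ≠ 0 → u.Coprime q := fun q hq e =>
    ((Nat.Prime.coprime_iff_not_dvd hq).2 (mt (ZMod.natCast_eq_zero_iff _ _).2 e)).symm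
  exact ⟨u, ((key _ h.p1 (e1 ▸ h1)).mul_right (key _ h.p2 (e2 ▸ h2))).mul_right
    (key _ h.p3 (e3 ▸ h3)), e1, e2, e3⟩

theorem gcount_ne {q u : ℕ} (hq : q.Prime) (h : u.Coprime q) : (u : ZMod q) ≠ 0 := fun e =>
  (Nat.Prime.coprime_iff_not_dvd hq).1 h.symm ((ZMod.natCast_eq_zero_iff _ _).1 e)

/-- a complete invariant -/
def inv [Fact q1.Prime] [Fact q2.Prime] [Fact q3.Prime] (d : DA q1 q2 q3 × DB q2 q3) :
    Fin 3 × Fin 6 × Lb (ZMod q1) 2 × Lb (ZMod q2) 2 × Lb (ZMod q3) 6 :=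
  (d.1.co.1, d.2.co.1, lab 2 d.1.co.2.1 d.1.co.2.2.1, lab 2 d.1.co.2.2.2.1 d.2.co.2.1,
    lab 6 d.1.co.2.2.2.2 d.2.co.2.2)

theorem inv_eq [Fact q1.Prime] [Fact q2.Prime] [Fact q3.Prime] (h : PQ q1 q2 q3)
    (h2 : (2 : ZMod q1) ≠ 0) (d d' : DA q1 q2 q3 × DB q2 q3) : relD d d' ↔ inv d = inv d' := by
  simp only [relD, DA.rel_iff h2, DB.rel_iff, inv, Prod.mk.injEq, lab_eq two_ne_zero,
    lab_eq (by norm_num : 6 ≠ 0)]
  constructor
  · rintro ⟨u, hu, ⟨a1, a2, a3, a4⟩, b1, b2, b3⟩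
    have n1 := gcount_ne h.p1 (hu.coprime_mul_right_right.coprime_mul_right_right)
    have n2 := gcount_ne h.p2 (hu.coprime_mul_right_right.coprime_mul_left_right)
    have n3 := gcount_ne h.p3 hu.coprime_mul_left_right
    have b4 : d.2.co.2.2 ^ 6 = (u * d'.2.co.2.2) ^ 6 := by
      linear_combination (d.2.co.2.2 ^ 3 + (u * d'.2.co.2.2) ^ 3) * b3
    refine ⟨a1, b1, ⟨u, n1, a2, a3⟩, ?_⟩
    rcases a4 with ⟨a4, a5⟩ | ⟨a4, a5⟩
    · exact ⟨⟨u, n2, a4, b2⟩, u, n3, a5, b4⟩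
    · exact ⟨⟨-u, neg_ne_zero.2 n2, by rw [a4]; ring, by rw [b2]; ring⟩, -u, neg_ne_zero.2 n3,
        by rw [a5]; ring, by rw [b4]; ring⟩
  · rintro ⟨a1, b1, ⟨u1, n1, a2, a3⟩, ⟨u2, n2, a4, b2⟩, u3, n3, a5, b3⟩
    have b4 : (d.2.co.2.2 ^ 3) ^ 2 = ((u3 * d'.2.co.2.2) ^ 3) ^ 2 := by
      rw [← pow_mul, ← pow_mul, b3]
    rcases sq_eq_sq_iff_eq_or_eq_neg.1 b4 with b4 | b4
    · obtain ⟨u, hu, rfl, rfl, rfl⟩ := gcount_crt h u1 u2 u3 n1 n2 n3
      exact ⟨u, hu, ⟨a1, a2, a3, .inl ⟨a4, a5⟩⟩, b1, b2, b4⟩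
    · obtain ⟨u, hu, rfl, e2, e3⟩ :=
        gcount_crt h u1 (-u2) (-u3) n1 (neg_ne_zero.2 n2) (neg_ne_zero.2 n3)
      refine ⟨u, hu, ⟨a1, a2, a3, .inr ⟨?_, ?_⟩⟩, b1, ?_, ?_⟩
      · rw [e2, a4]; ring
      · rw [e3, a5]; ring
      · rw [e2, b2]; ring
      · rw [e3, b4]; ring

theorem inv_facts [Fact q1.Prime] [Fact q2.Prime] [Fact q3.Prime] (d : DA q1 q2 q3 × DB q2 q3) :
    (okD d ↔ Al (inv d)) ∧ (no3D d ↔ kz (inv d).2.2.2.2 = true ∧ (inv d).2.1 ≠ 5) := by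
  obtain ⟨a1, a2, a3, a4⟩ := d.1.co_facts
  obtain ⟨b1, b2, b3, b4⟩ := d.2.co_facts
  simp only [okD, no3D, Al, inv, kz_lab, lz_lab, a3, a4, b3, b4, and_true]
  exact ⟨fun ⟨c1, c2⟩ => ⟨a1, ⟨a2, fun c e => c1 e c⟩, b1, b2, fun c e => c2 e c⟩,
    fun ⟨_, c1, _, c2⟩ => ⟨fun e c => c1.2 c e, fun e c => c2.2 c e⟩⟩

theorem count (h : PQ q1 q2 q3) :
    ∃ (I : Type) (_ : Finite I) (rep : I → DA q1 q2 q3 × DB q2 q3), (∀ i, okD (rep i)) ∧
      (∀ d, okD d → ∃ i, relD d (rep i)) ∧ (∀ i j, relD (rep i) (rep j) → i = j) ∧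
      6 * (Nat.card I + Nat.card {i // no3D (rep i)}) = 45 * q1 + 36 * q2 + 4 * q3 + 641 := by
  have := Fact.mk h.p1
  have := Fact.mk h.p2
  have := Fact.mk h.p3
  have h2 : (2 : ZMod q1) ≠ 0 := by
    have := gcount_ne (u := 2) h.p1 ((Nat.coprime_primes Nat.prime_two h.p1).2 (by
      have := h.l1
      omega))
    exact_mod_cast this
  have hs : ∀ j : {j : Fin 3 × Fin 6 × Lb (ZMod q1) 2 × Lb (ZMod q2) 2 × Lb (ZMod q3) 6 // Al j},
      ∃ d : DA q1 q2 q3 × DB q2 q3, inv d = j.1 := by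
    rintro ⟨⟨s, t, x1, x2, x3⟩, c1, c2, c3, c4⟩
    obtain ⟨k1, l1, rfl⟩ := lab_surj 2 x1
    obtain ⟨k2, l2, rfl⟩ := lab_surj 2 x2
    obtain ⟨k3, l3, rfl⟩ := lab_surj 6 x3
    simp only [kz_lab, lz_lab] at c1 c2 c3 c4
    obtain ⟨dA, eA⟩ := DA.co_surj h2 s k1 l1 k2 k3 c1 c2.1
    obtain ⟨dB, eB⟩ := DB.co_surj t l2 l3 c3 c4.1
    exact ⟨(dA, dB), by simp only [inv, eA, eB]⟩
  choose rep hrep using hs
  refine ⟨_, inferInstance, rep, fun i => (inv_facts _).1.2 (hrep i ▸ i.2),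
    fun d hd => ⟨⟨inv d, (inv_facts d).1.1 hd⟩, (inv_eq h h2 _ _).2 (by rw [hrep])⟩,
    fun i j e => Subtype.ext (by rw [← hrep i, ← hrep j, (inv_eq h h2 _ _).1 e]), ?_⟩
  have e : Nat.card {i // no3D (rep i)} = Nat.card {j : Fin 3 × Fin 6 × Lb (ZMod q1) 2 ×
      Lb (ZMod q2) 2 × Lb (ZMod q3) 6 // Al j ∧ kz j.2.2.2.2 = true ∧ j.2.1 ≠ 5} :=
    Nat.card_congr ((Equiv.subtypeEquivRight fun i => by rw [(inv_facts _).2, hrep]).trans
      (Equiv.subtypeSubtypeEquivSubtypeInter _ _))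
  have o1 := h.p1.eq_two_or_odd
  have o2 := h.p2.eq_two_or_odd
  have := h.l1
  have := h.l2
  have := h.m3
  have n1 := card_range_pow (q := q1) (w := 2) (by omega)
  have n2 := card_range_pow (q := q2) (w := 2) (by omega)
  have n3 := card_range_pow (q := q3) (w := 6) (by omega)
  rw [e, Nat.card_eq_fintype_card, Nat.card_eq_fintype_card, Fintype.card_subtype,
    Fintype.card_subtype, card_Al]
  omega

end Pool.Agent.MP_a96b63_al.H5

namespace Pool.Agent.MP_a96b63_al.H5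

/-- the list of all groups -/
def gmain_F {I : Type} (p : I → Prop) (m m1 : ℕ) (E : Type) (P : I → Act) :
    I ⊕ {i // p i} → Type
  | .inl i => Md m (Multiplicative (ZMod 11)) (P i)
  | .inr i => Md m1 E (P i.1)

noncomputable instance gmain_grp {I : Type} (p : I → Prop) (m m1 : ℕ) (E : Type) [Group E]
    (P : I → Act) : ∀ k, Group (gmain_F p m m1 E P k)
  | .inl i => inferInstanceAs (Group (Md m (Multiplicative (ZMod 11)) (P i)))
  | .inr i => inferInstanceAs (Group (Md m1 E (P i.1)))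

theorem gmain_cop {a b q1 q2 q3 : ℕ} (h : Par a b q1 q2 q3) :
    (a ^ 2).Coprime (b ^ 3) ∧ (a ^ 2 * b ^ 3).Coprime (q1 * q2 * q3) ∧
      (a ^ 2 * b ^ 3).Coprime 11 ∧ (q1 * q2).Coprime q3 ∧ (q1 * q2 * q3).Coprime 11 := by
  have p11 : Nat.Prime 11 := by norm_num
  obtain ⟨⟨pq, pa, a1, a2, a3, -⟩, ⟨-, pb, b1, b2, b3, -⟩, lt, -⟩ := h
  obtain ⟨p1, p2, p3, l1, l2, l3, n12, n13, n23, -⟩ := pq
  have c : ∀ {p q : ℕ}, p.Prime → q.Prime → p ≠ q → p.Coprime q := fun h1 h2 h3 =>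
    (Nat.coprime_primes h1 h2).2 h3
  have hab : a ≠ b := by rintro rfl; nlinarith
  have d : ∀ {q : ℕ}, q.Prime → q < a → q < b → (a ^ 2 * b ^ 3).Coprime q := fun hq h1 h2 =>
    Nat.Coprime.mul_left ((c pa hq h1.ne').pow_left 2) ((c pb hq h2.ne').pow_left 3)
  exact ⟨(c pa pb hab).pow 2 3, ((d p1 a1 b1).mul_right (d p2 a2 b2)).mul_right (d p3 a3 b3),
    d p11 (l1.trans a1) (l1.trans b1), (c p1 p3 n13).mul_left (c p2 p3 n23),
    ((c p1 p11 l1.ne').mul_left (c p2 p11 l2.ne')).mul_left (c p3 p11 l3.ne')⟩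

theorem gmain_lift {m q u : ℕ} (hq : q.Prime) (hm : m.Coprime q) (hu : u.Coprime m) {P Q : Act}
    (hQ : Q.x ^ m = 1) (h : P.RI u Q) : ∃ v : ℕ, v.Coprime (m * q) ∧ P.RI v Q := by
  by_cases hd : q ∣ u
  · refine ⟨u + m, Nat.Coprime.mul_right (by simpa using hu) ?_, ?_⟩
    · refine ((Nat.Prime.coprime_iff_not_dvd hq).2 fun h1 => ?_).symm
      exact (Nat.Prime.coprime_iff_not_dvd hq).1 hm.symm ((Nat.dvd_add_right hd).1 h1)
    · unfold Act.RI at h ⊢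
      rwa [pow_add, hQ, mul_one]
  · exact ⟨u, hu.mul_right ((Nat.Prime.coprime_iff_not_dvd hq).2 hd).symm, h⟩

theorem gnu_formula {a b q1 q2 q3 : ℕ} (h : Par a b q1 q2 q3) :
    ∃ N : ℕ, 6 * N = 45 * q1 + 36 * q2 + 4 * q3 + 641 ∧
      IsGnu (a ^ 2 * b ^ 3 * (q1 * q2 * q3) * 11) N := by
  obtain ⟨MA, sA⟩ := sideA h.ha
  obtain ⟨MB, sB⟩ := sideB h.hb
  have pq := h.ha.pq
  obtain ⟨I, _, rep, hok, hex, hinj, hN⟩ := count pq
  obtain ⟨E, _, cE, nE, uE⟩ := nonab pq.p3 pq.l3 (by have := pq.m3; omega)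
  obtain ⟨c1, c2, c3, c4, c5⟩ := gmain_cop h
  have ha0 : a ^ 2 ≠ 0 := pow_ne_zero _ h.ha.pa.ne_zero
  have hb0 : b ^ 3 ≠ 0 := pow_ne_zero _ h.hb.pb.ne_zero
  have hm1 : q1 * q2 ≠ 0 := mul_ne_zero pq.p1.ne_zero pq.p2.ne_zero
  have hm : q1 * q2 * q3 ≠ 0 := mul_ne_zero hm1 pq.p3.ne_zero
  have : Finite E :=
    Nat.finite_of_card_ne_zero (cE ▸ mul_ne_zero (by norm_num) pq.p3.ne_zero)
  let P : I → Act := fun i => (MA (rep i).1).prod (MB (rep i).2)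
  have cP : ∀ i, Nat.card (P i).G = a ^ 2 * b ^ 3 := fun i => by
    rw [← sA.card (rep i).1, ← sB.card (rep i).2, ← Nat.card_prod]
    rfl
  have pP : ∀ i, (P i).x ^ (q1 * q2 * q3) = 1 := fun i =>
    (prod_pow _ _ _).2 ⟨sA.pow _, sB.pow _⟩
  have sP : ∀ i, (P i).x ^ (q1 * q2) = 1 ↔ no3D (rep i) := fun i =>
    (prod_pow _ _ _).trans (and_congr (sA.sub _ (hok i).1) (sB.sub _ (hok i).2))
  have hRI : ∀ u i j, u.Coprime (q1 * q2 * q3) → (P i).RI u (P j) → i = j := fun u i j hu hr => by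
    obtain ⟨r1, r2⟩ := prod_RI ha0 hb0 c1 (sA.card _) (sA.card _) (sB.card _) (sB.card _) hr
    exact hinj i j ⟨u, hu, sA.inv u _ _ hu (hok i).1 (hok j).1 r1,
      sB.inv u _ _ hu (hok i).2 (hok j).2 r2⟩
  have hR : ∀ A B : Act, Nat.card A.G = a ^ 2 → Nat.card B.G = b ^ 3 →
      A.x ^ (q1 * q2 * q3) = 1 → B.x ^ (q1 * q2 * q3) = 1 →
      ∃ i u, u.Coprime (q1 * q2 * q3) ∧ (A.prod B).R u (P i) := fun A B cA cB xA xB => by
    obtain ⟨d, o1, r1⟩ := sA.exh A cA xA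
    obtain ⟨d', o2, r2⟩ := sB.exh B cB xB
    obtain ⟨i, u, hu, t1, t2⟩ := hex (d, d') ⟨o1, o2⟩
    have e1 := R_trans r1 (sA.cnv u _ _ t1)
    have e2 := R_trans r2 (sB.cnv u _ _ t2)
    rw [one_mul] at e1 e2
    exact ⟨i, u, hu, prod_R e1 e2⟩
  have hZ : Com (Multiplicative (ZMod 11)) := fun g g' => mul_comm g g'
  have c6 : (a ^ 2 * b ^ 3).Coprime (Nat.card E) := by
    rw [cE]
    exact c3.mul_right c2.coprime_mul_left_right
  refine ⟨_, hN, ?_⟩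
  rw [← Nat.card_sum]
  refine isGnu_of_family (gmain_F (fun i => no3D (rep i)) (q1 * q2 * q3) (q1 * q2) E P) ?_ ?_ ?_
  · rintro (i | i)
    · exact (md_card _ _).trans (by rw [cP, gsemi_card])
    · exact (md_card _ _).trans (by rw [cP, cE]; ring)
  · rintro (i | i) (j | j) ⟨f⟩
    · obtain ⟨u, hu, hr⟩ := md_inv hm (mul_ne_zero ha0 hb0) (pP i) (pP j) (cP i) (cP j) c2
        (by rwa [gsemi_card]) (by rwa [gsemi_card]) f
      rw [hRI u i j hu hr]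
    · exact absurd (md_com (by rwa [cP]) hZ f) nE
    · exact absurd (md_com (by rwa [cP]) hZ f.symm) nE
    · obtain ⟨u, hu, hr⟩ := md_inv hm1 (mul_ne_zero ha0 hb0) ((sP _).2 i.2) ((sP _).2 j.2) (cP i)
        (cP j) c2.coprime_mul_right_right c6
        (by rw [cE]; exact c5.coprime_mul_right.mul_right c4) f
      obtain ⟨v, hv, hr'⟩ := gmain_lift pq.p3 c4 hu ((sP _).2 j.2) hr
      rw [Subtype.ext (hRI v _ _ hv hr')]
  · intro G _ hG
    obtain ⟨A, B, cA, cB, ⟨xA, xB, ⟨f⟩⟩ | ⟨xA, xB, E', _, cE', nE', ⟨f⟩⟩⟩ := decomp h hG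
    · obtain ⟨i, u, hu, hr⟩ := hR A B cA cB xA xB
      obtain ⟨g⟩ := md_iso hm ((prod_pow _ _ _).2 ⟨xA, xB⟩) (pP i) hu hr
        (MulEquiv.refl (Multiplicative (ZMod 11)))
      exact ⟨.inl i, ⟨f.trans g⟩⟩
    · obtain ⟨i, u, hu, hr⟩ := hR A B cA cB (by rw [pow_mul, xA, one_pow])
        (by rw [pow_mul, xB, one_pow])
      have x1 := (prod_pow _ _ _).2 ⟨xA, xB⟩
      have x2 : (P i).x ^ (q1 * q2) = 1 := gsemi_one hu
        (by rw [← pow_mul, mul_comm]; exact (R_pow hr _).1 x1)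
        (by rw [← pow_mul, mul_comm, pow_mul, pP, one_pow])
      obtain ⟨e⟩ := uE E' cE' nE'
      obtain ⟨g⟩ := md_iso hm1 x1 x2 hu.coprime_mul_right_right hr e
      exact ⟨.inr ⟨i, (sP i).1 x2⟩, ⟨f.trans g⟩⟩

end Pool.Agent.MP_a96b63_al.H5

namespace Pool.Agent.MP_a96b63_al.H5

theorem gpar_crt {m n r s : ℕ} (h : m.Coprime n) (hr : r.Coprime m) (hs : s.Coprime n) :
    ∃ t, t ≡ r [MOD m] ∧ t ≡ s [MOD n] ∧ t.Coprime (m * n) := by
  obtain ⟨t, h1, h2⟩ := Nat.chineseRemainder h r s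
  refine ⟨t, h1, h2, Nat.Coprime.mul_right ?_ ?_⟩
  · rw [Nat.Coprime, h1.gcd_eq]; exact hr
  · rw [Nat.Coprime, h2.gcd_eq]; exact hs

theorem gpar_prime {m1 m2 m3 r1 r2 r3 : ℕ} (n0 : m1 * m2 * m3 ≠ 0) (h12 : m1.Coprime m2)
    (h13 : m1.Coprime m3) (h23 : m2.Coprime m3) (c1 : r1.Coprime m1) (c2 : r2.Coprime m2)
    (c3 : r3.Coprime m3) (N : ℕ) :
    ∃ p > N, p.Prime ∧ p ≡ r1 [MOD m1] ∧ p ≡ r2 [MOD m2] ∧ p ≡ r3 [MOD m3] := by
  obtain ⟨t, a1, a2, a3⟩ := gpar_crt h12 c1 c2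
  obtain ⟨s, b1, b2, b3⟩ := gpar_crt (h13.mul_left h23) a3 c3
  obtain ⟨p, hN, hp, e⟩ := Nat.forall_exists_prime_gt_and_modEq N n0 b3
  have e1 := (e.of_mul_right m3).trans b1
  exact ⟨p, hN, hp, (e1.of_mul_right m2).trans a1, (e1.of_mul_left m1).trans a2,
    (e.of_mul_left _).trans b2⟩

theorem gpar_exact {q x : ℕ} (hq : 1 < q) (h : x ≡ q [MOD q ^ 2]) : q ∣ x ∧ ¬ q ^ 2 ∣ x := by
  refine ⟨(Nat.modEq_zero_iff_dvd).1 ((h.of_dvd (dvd_pow_self q two_ne_zero)).trans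
    (Nat.modEq_zero_iff_dvd.2 dvd_rfl)), fun e => ?_⟩
  have h1 : q ^ 2 ∣ q := Nat.modEq_zero_iff_dvd.1 (h.symm.trans (Nat.modEq_zero_iff_dvd.2 e))
  have := Nat.le_of_dvd (by omega) h1
  nlinarith

theorem gpar_plus {q x : ℕ} (hq : 1 < q) (h : x ≡ q - 1 [MOD q ^ 2]) :
    q ∣ x + 1 ∧ ¬ q ^ 2 ∣ x + 1 := by
  refine gpar_exact hq ?_
  have := h.add_right 1
  rwa [Nat.sub_add_cancel hq.le] at this

theorem gpar_beta {q : ℕ} (hq : q.Prime) (l : 3 < q) (h3 : 3 ∣ q - 1) :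
    ∃ β : ℕ, q ∣ β ^ 2 + β + 1 ∧ ¬ q ^ 2 ∣ β ^ 2 + β + 1 := by
  have : Fact q.Prime := ⟨hq⟩
  have : Fact (Nat.Prime 3) := ⟨Nat.prime_three⟩
  obtain ⟨g, hg⟩ := exists_prime_orderOf_dvd_card' (G := (ZMod q)ˣ) 3 (by
    rw [Nat.card_eq_fintype_card, ZMod.card_units]; exact h3)
  have g3 : (g : ZMod q) ^ 3 = 1 := by
    rw [← Units.val_pow_eq_pow_val, ← hg, pow_orderOf_eq_one, Units.val_one]
  have g1 : (g : ZMod q) - 1 ≠ 0 := fun e => by
    rw [Units.val_eq_one.1 (sub_eq_zero.1 e), orderOf_one] at hg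
    omega
  have e : (g : ZMod q) ^ 2 + g + 1 = 0 :=
    (mul_eq_zero.1 (by linear_combination g3 : ((g : ZMod q) - 1) * (g ^ 2 + g + 1) = 0)).resolve_left g1
  obtain ⟨n, hn⟩ : ∃ n : ℕ, (n : ZMod q) = g := ⟨_, ZMod.natCast_zmod_val _⟩
  have d1 : q ∣ n ^ 2 + n + 1 := (ZMod.natCast_eq_zero_iff _ _).1 (by push_cast; rw [hn, e])
  by_cases d2 : q ^ 2 ∣ n ^ 2 + n + 1
  · refine ⟨n + q, ?_, fun d3 => ?_⟩
    · rw [show (n + q) ^ 2 + (n + q) + 1 = n ^ 2 + n + 1 + q * (2 * n + 1 + q) by ring]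
      exact dvd_add d1 (dvd_mul_right _ _)
    · rw [show (n + q) ^ 2 + (n + q) + 1 = n ^ 2 + n + 1 + q ^ 2 + q * (2 * n + 1) by ring] at d3
      have d4 := (Nat.dvd_add_right (dvd_add d2 dvd_rfl)).1 d3
      rw [pow_two, Nat.mul_dvd_mul_iff_left hq.pos] at d4
      have d5 : q ∣ (2 * n + 1) * (2 * n + 1) + 3 := by
        rw [show (2 * n + 1) * (2 * n + 1) + 3 = 4 * (n ^ 2 + n + 1) by ring]
        exact d1.mul_left 4
      have := Nat.le_of_dvd (by omega) ((Nat.dvd_add_right (d4.mul_right _)).1 d5)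
      omega
  · exact ⟨n, d1, d2⟩

theorem gpar_cop {p q : ℕ} (hp : p.Prime) (hq : q.Prime) (h : p ≠ q) (i j : ℕ) :
    (p ^ i).Coprime (q ^ j) := Nat.coprime_pow_primes i j hp hq h

theorem exists_par {q1 q2 q3 : ℕ} (h : PQ q1 q2 q3) : ∃ a b, Par a b q1 q2 q3 := by
  have l1 := h.l1
  have l2 := h.l2
  have l3 := h.l3
  have p11 : Nat.Prime 11 := by norm_num
  have c11 : ∀ {q : ℕ}, q.Prime → 11 < q → q.Coprime 11 := fun hq l =>
    (Nat.coprime_primes hq p11).2 (by omega)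
  have cm : ∀ {q : ℕ}, 1 < q → (q - 1).Coprime (q ^ 2) := fun {q} l => by
    obtain ⟨r, rfl⟩ : ∃ r, q = r + 1 := ⟨q - 1, by omega⟩
    exact Nat.Coprime.pow_right 2 (by simp)
  have c2 : ∀ {q : ℕ}, q.Prime → 11 < q → Nat.Coprime 2 q := fun hq l =>
    (Nat.coprime_primes Nat.prime_two hq).2 (by omega)
  have n1 := h.p1.ne_zero
  have n2 := h.p2.ne_zero
  have n3 := h.p3.ne_zero
  obtain ⟨t, t1, t2, t3⟩ := gpar_crt (m := q1 ^ 2) (n := 11) (r := q1 + 1) (s := 2)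
    ((c11 h.p1 l1).pow_left 2) (Nat.Coprime.pow_right 2 (by simp)) (by norm_num)
  obtain ⟨a, aN, pa, a1, a2, a3⟩ := gpar_prime (m1 := q1 ^ 2 * 11) (m2 := q2 ^ 2) (m3 := q3 ^ 2)
    (by positivity) ((gpar_cop h.p1 h.p2 h.n12 2 2).mul_left ((c11 h.p2 l2).symm.pow_right 2))
    ((gpar_cop h.p1 h.p3 h.n13 2 2).mul_left ((c11 h.p3 l3).symm.pow_right 2))
    (gpar_cop h.p2 h.p3 h.n23 2 2) t3 (cm (by omega)) (cm (by omega)) (q1 + q2 + q3)
  have a0 : a - 1 ≡ q1 [MOD q1 ^ 2] := by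
    have := (a1.of_mul_right 11).trans t1
    rw [← Nat.sub_add_cancel (show 1 ≤ a by omega)] at this
    exact Nat.ModEq.add_right_cancel' 1 this
  obtain ⟨β, b1, b2⟩ := gpar_beta h.p3 (by omega) (by have := h.m3; omega)
  have cβ : β.Coprime (q3 ^ 2) := Nat.Coprime.pow_right 2 ((Nat.Prime.coprime_iff_not_dvd h.p3).2
    fun e => h.p3.not_dvd_one ((Nat.dvd_add_right (dvd_add (e.pow two_ne_zero) e)).1 b1)).symm
  have ca : ∀ {q : ℕ}, q.Prime → q < a → a.Coprime (q ^ 2) := fun hq l =>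
    ((Nat.coprime_primes pa hq).2 (by omega)).pow_right 2
  obtain ⟨b, bN, pb, e1, e2, e3⟩ := gpar_prime (m1 := a * q1 * 11) (m2 := q2 ^ 2) (m3 := q3 ^ 2)
    (r1 := 2) (by have := pa.ne_zero; positivity)
    (((ca h.p2 (by omega)).mul_left (((Nat.coprime_primes h.p1 h.p2).2 h.n12).pow_right 2)).mul_left
      ((c11 h.p2 l2).symm.pow_right 2))
    (((ca h.p3 (by omega)).mul_left (((Nat.coprime_primes h.p1 h.p3).2 h.n13).pow_right 2)).mul_left
      ((c11 h.p3 l3).symm.pow_right 2))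
    (gpar_cop h.p2 h.p3 h.n23 2 2) (((c2 pa (by omega)).mul_right (c2 h.p1 l1)).mul_right
      (by norm_num)) (cm (by omega)) cβ (a ^ 2)
  have aa : a ≤ a ^ 2 := Nat.le_self_pow two_ne_zero a
  have f3 : b ^ 2 + b + 1 ≡ β ^ 2 + β + 1 [MOD q3 ^ 2] := ((e3.pow 2).add e3).add_right 1
  have md : ∀ {x m : ℕ}, 2 < m → x ≡ 2 [MOD m] → x % m = 2 := fun l e =>
    Eq.trans e (Nat.mod_eq_of_lt l)
  exact ⟨a, b, ⟨h, pa, by omega, by omega, by omega, (gpar_exact (by omega) a0).1,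
    (gpar_exact (by omega) a0).2, (gpar_plus (by omega) a2).1, (gpar_plus (by omega) a2).2,
    (gpar_plus (by omega) a3).1, (gpar_plus (by omega) a3).2⟩,
    ⟨h, pb, by omega, by omega, by omega, md (by omega) ((e1.of_mul_right 11).of_mul_left a),
    (gpar_plus (by omega) e2).1, (gpar_plus (by omega) e2).2,
    ((f3.of_dvd (dvd_pow_self q3 two_ne_zero)).dvd_iff dvd_rfl).2 b1,
    fun e => b2 ((f3.dvd_iff dvd_rfl).1 e)⟩, bN,
    md (by omega) ((e1.of_mul_right 11).of_mul_right q1),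
    md (by omega) ((a1.of_mul_left _).trans t2), md (by omega) (e1.of_mul_left _)⟩

theorem par_free {a b q1 q2 q3 : ℕ} (h : Par a b q1 q2 q3) :
    Odd (a ^ 2 * b ^ 3 * (q1 * q2 * q3) * 11) ∧
      ∀ p : ℕ, p.Prime → ¬ p ^ 4 ∣ a ^ 2 * b ^ 3 * (q1 * q2 * q3) * 11 := by
  have hq := h.ha.pq
  have pa := h.ha.pa
  have pb := h.hb.pb
  have l1 := hq.l1
  have l2 := hq.l2
  have l3 := hq.l3
  have a1 := h.ha.l1
  have a2 := h.ha.l2
  have a3 := h.ha.l3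
  have ab : a < b := (Nat.le_self_pow two_ne_zero a).trans_lt h.lt
  have n12 := hq.n12
  have n13 := hq.n13
  have n23 := hq.n23
  have od : ∀ {q : ℕ}, q.Prime → 11 < q → Odd q := fun p l => p.odd_of_ne_two (by omega)
  refine ⟨(((od pa (by omega)).pow.mul (od pb (by omega)).pow).mul
    (((od hq.p1 l1).mul (od hq.p2 l2)).mul (od hq.p3 l3))).mul (by decide), fun p pp e => ?_⟩
  have p11 : Nat.Prime 11 := by norm_num
  have := hq.p1.pos; have := hq.p2.pos; have := hq.p3.pos; have := pa.pos; have := pb.pos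
  have := (pp.pow_dvd_iff_le_factorization (by positivity)).1 e
  rw [Nat.factorization_mul, Nat.factorization_mul, Nat.factorization_mul, Nat.factorization_mul,
    Nat.factorization_mul, pa.factorization_pow, pb.factorization_pow, hq.p1.factorization,
    hq.p2.factorization, hq.p3.factorization, p11.factorization] at this
  · simp only [Finsupp.add_apply, Finsupp.single_apply] at this
    split_ifs at this <;> omega
  all_goals positivity

end Pool.Agent.MP_a96b63_al.H5
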