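import Pool.Agent.MP_a96b63_al.V.SW
import Pool.Agent.MP_e3ece1_pr.Vaughan
import Pool.Agent.MP_a96b63_al.V.GA

/-! Type I and type II sums at a point with a good rational approximation. -/

namespace Pool.Agent.MP_a96b63_al.H5

open Finset MP_e3ece1_pr

theorem far_small {θ : ℝ} {q d : ℕ} (h : Dio θ q) (hd : 0 < d) (hdq : 2 * d ≤ q) :
    2 ≤ q * ‖ee θ ^ d - 1‖ := by
  obtain ⟨hq, a, hc, hb⟩ := h
  have q0 : (0 : ℝ) < q := by exact_mod_cast hq
  have h1 := nn_le_ee (d * θ)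
  rw [ee_nat_mul, nn] at h1
  set j := round (d * θ)
  have h2 : (d : ℤ) * a - j * q ≠ 0 := by
    intro e
    have h3 : (q : ℤ) ∣ d := hc.symm.dvd_of_dvd_mul_right ⟨j, by linarith⟩
    have := Int.le_of_dvd (by exact_mod_cast hd) h3
    omega
  have h3 : (1 : ℝ) ≤ |(d : ℝ) * a - j * q| := by exact_mod_cast Int.one_le_abs h2
  have h4 : (d : ℝ) * a - j * q = q * (d * θ - j) - d * q * (θ - a / q) := by
    field_simp
    ring
  have h5 : (2 : ℝ) * d ≤ q := by exact_mod_cast hdq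
  have h6 : |d * q * (θ - a / q)| ≤ 1 / 2 := by
    rw [abs_mul, abs_of_nonneg (by positivity)]
    refine (mul_le_mul_of_nonneg_left hb (by positivity)).trans ?_
    rw [mul_one_div, div_le_iff₀ (by positivity)]
    nlinarith
  have h7 := abs_sub (q * (d * θ - j)) (d * q * (θ - a / q))
  rw [← h4, abs_mul (q : ℝ), abs_of_pos q0] at h7
  nlinarith

theorem near_block {θ : ℝ} {q : ℕ} (h : Dio θ q) (φ : ℝ) {ρ : ℝ} (hρ : 0 ≤ ρ) (e0 : ℕ) :
    (#((Ico e0 (e0 + q)).filter fun e : ℕ => nn (φ - e * θ) ≤ ρ) : ℝ) ≤ 2 * ρ * q + 3 := by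
  obtain ⟨hq, a, hc, hb⟩ := h
  have q0 : (0 : ℝ) < q := by exact_mod_cast hq
  set c : ℝ := q * (φ - e0 * θ) with hcd
  have h1 : #((Ico e0 (e0 + q)).filter fun e : ℕ => nn (φ - e * θ) ≤ ρ) ≤
      #(Icc ⌈c - (q * ρ + 1)⌉ ⌊c + (q * ρ + 1)⌋) := by
    refine card_le_card_of_injOn (fun e => ((e : ℤ) - e0) * a + q * round (φ - e * θ)) ?_ ?_
    · intro e he
      obtain ⟨h2, h3⟩ := mem_filter.mp he
      rw [mem_Ico] at h2
      have h4 : (e0 : ℝ) ≤ e := by exact_mod_cast h2.1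
      have h5 : (e : ℝ) ≤ e0 + q := by exact_mod_cast h2.2.le
      rw [nn] at h3
      set j := round (φ - e * θ)
      have h6 : |((e : ℝ) - e0) * q * (θ - a / q)| ≤ 1 := by
        rw [abs_mul, abs_of_nonneg (mul_nonneg (by linarith) q0.le)]
        refine (mul_le_mul_of_nonneg_left hb (mul_nonneg (by linarith) q0.le)).trans ?_
        rw [mul_one_div, div_le_iff₀ (by positivity)]
        nlinarith
      have h7 : c - ((e - e0) * a + q * j) =
          q * (φ - e * θ - j) + ((e : ℝ) - e0) * q * (θ - a / q) := by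
        rw [hcd]
        field_simp
        ring
      have h8 := abs_add_le (q * (φ - e * θ - j)) (((e : ℝ) - e0) * q * (θ - a / q))
      rw [← h7, abs_mul (q : ℝ), abs_of_pos q0] at h8
      have h9 := abs_le.mp (h8.trans (add_le_add (mul_le_mul_of_nonneg_left h3 q0.le) h6))
      simp only [coe_Icc, Set.mem_Icc, Int.ceil_le, Int.le_floor]
      push_cast
      constructor <;> linarith [h9.1, h9.2]
    · intro e he e' he' hee
      have h2 := mem_Ico.mp (mem_filter.mp he).1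
      have h3 := mem_Ico.mp (mem_filter.mp he').1
      have h4 : (q : ℤ) ∣ (e : ℤ) - e' := hc.symm.dvd_of_dvd_mul_right
        ⟨round (φ - e' * θ) - round (φ - e * θ), by simp only at hee; linarith⟩
      have h5 := Int.eq_zero_of_abs_lt_dvd h4 (by rw [abs_lt]; omega)
      omega
  refine (Nat.cast_le.mpr h1).trans ?_
  rw [Int.card_Icc]
  have h2 := Int.floor_le (c + (q * ρ + 1))
  have h3 := Int.le_ceil (c - (q * ρ + 1))
  rcases le_total (⌊c + (q * ρ + 1)⌋ + 1 - ⌈c - (q * ρ + 1)⌉) 0 with h4 | h4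
  · rw [Int.toNat_of_nonpos h4]
    push_cast
    positivity
  · rw [← Int.cast_natCast, Int.toNat_of_nonneg h4]
    push_cast
    linarith

theorem near_count {θ : ℝ} {q : ℕ} (h : Dio θ q) (φ : ℝ) {ρ : ℝ} (hρ : 0 ≤ ρ) (D : ℕ)
    {I : Finset ℕ} (hI : I ⊆ Ico D (2 * D)) :
    (#(I.filter fun e : ℕ => nn (φ - e * θ) ≤ ρ) : ℝ) ≤ (D / q + 1) * (2 * ρ * q + 3) := by
  have hq := h.1
  have h1 : (I.filter fun e : ℕ => nn (φ - e * θ) ≤ ρ) ⊆ (range (D / q + 1)).biUnion fun i =>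
      (Ico (D + i * q) (D + i * q + q)).filter fun e : ℕ => nn (φ - e * θ) ≤ ρ := by
    intro e he
    obtain ⟨h2, h3⟩ := mem_filter.mp he
    have h4 := mem_Ico.mp (hI h2)
    have h5 := Nat.div_mul_le_self (e - D) q
    have h6 := Nat.lt_div_mul_add (a := e - D) hq
    exact mem_biUnion.mpr ⟨(e - D) / q,
      mem_range.mpr (Nat.lt_succ_of_le (Nat.div_le_div_right (by omega))),
      mem_filter.mpr ⟨mem_Ico.mpr ⟨by omega, by omega⟩, h3⟩⟩
  refine (Nat.cast_le.mpr ((card_le_card h1).trans card_biUnion_le)).trans ?_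
  push_cast
  refine (sum_le_sum fun i _ => near_block h φ hρ _).trans ?_
  rw [sum_const, card_range, nsmul_eq_mul]
  refine mul_le_mul_of_nonneg_right ?_ (by positivity)
  push_cast
  linarith [Nat.cast_div_le (α := ℝ) (m := D) (n := q)]

theorem typeI' {θ : ℝ} {q : ℕ} (h : Dio θ q) (N Y : ℕ) (hY : 2 * Y ≤ q)
    {f : ℕ → ℝ} {A : ℝ} (hA : 0 ≤ A) (hf : ∀ d, d ≤ Y → |f d| ≤ A) (hf0 : ∀ d, Y < d → f d = 0)
    {c : ℕ → ℝ} (hc : Monotone c) (h0 : 0 ≤ c 0) :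
    ‖∑ d ∈ Ioc 0 N, (f d : ℂ) * ∑ k ∈ Ioc 0 (N / d), (c k : ℂ) * (ee θ ^ d) ^ k‖ ≤
      Y * (A * (q * c N)) := by
  have hN : 0 ≤ c N := h0.trans (hc (Nat.zero_le N))
  refine (norm_sum_le _ _).trans ?_
  calc _ ≤ ∑ d ∈ Ioc 0 N, (if d ∈ Ioc 0 Y then A * (q * c N) else 0) := by
        refine sum_le_sum fun d hd => ?_
        have hd0 := (mem_Ioc.mp hd).1
        split_ifs with hdY
        · rw [norm_mul, Complex.norm_real, Real.norm_eq_abs]
          have hdY' := (mem_Ioc.mp hdY).2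
          refine mul_le_mul (hf d hdY') ?_ (norm_nonneg _) hA
          refine (abel_bound' (by rw [norm_pow, norm_ee, one_pow])
            (far_small h hd0 (by omega)) hc h0 _).trans ?_
          exact mul_le_mul_of_nonneg_left (hc (Nat.div_le_self _ _)) (Nat.cast_nonneg _)
        · rw [hf0 d (by rw [mem_Ioc] at hdY; omega)]
          simp
    _ ≤ _ := by
        rw [← sum_filter, sum_const, nsmul_eq_mul]
        refine mul_le_mul_of_nonneg_right ?_ (by positivity)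
        have : (filter (fun d => d ∈ Ioc 0 Y) (Ioc 0 N)).card ≤ (Ioc 0 Y).card :=
          card_le_card fun d hd => (mem_filter.mp hd).2
        rw [Nat.card_Ioc, Nat.sub_zero] at this
        exact_mod_cast this

theorem nvina_geom (x : ℝ) {ρ : ℝ} (hρ : 0 < ρ) {m K : ℕ} (hm : m ≤ K) :
    ‖∑ k ∈ Ioc 0 m, ee (k * x)‖ ≤ (if nn x ≤ ρ then (K : ℝ) else 0) + 1 / (2 * ρ) := by
  split_ifs with h
  · refine (norm_sum_le _ _).trans ?_
    simp only [norm_ee, sum_const, Nat.card_Ioc, Nat.sub_zero, nsmul_eq_mul, mul_one]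
    have h1 : (m : ℝ) ≤ K := by exact_mod_cast hm
    have h2 : 0 < 1 / (2 * ρ) := by positivity
    linarith
  · rw [zero_add, le_div_iff₀ (by positivity)]
    nlinarith [geom_ee x 0 m, norm_nonneg (∑ k ∈ Ioc 0 m, ee (k * x)), not_le.mp h]

theorem nvina_num {N D K q T : ℝ} (hN : 0 < N) (hD : 0 < D) (hK : 0 ≤ K) (hq : 0 < q)
    (hT : 0 < T) (h : K * D ≤ N) :
    K * (D * ((D / q + 1) * (2 * (T * D / N) * q + 3) * K + D * (1 / (2 * (T * D / N))))) ≤
      N ^ 2 * (1 / T + 3 / q + 3 / D) + 2 * T * N * (D + q) := by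
  calc _ = (K * D) ^ 2 * (3 / q + 3 / D + 2 * T * (D + q) / N) + (K * D) * (N / (2 * T)) := by
        field_simp
        ring
    _ ≤ N ^ 2 * (3 / q + 3 / D + 2 * T * (D + q) / N) + N * (N / T) := by
        gcongr
        linarith
    _ = _ := by
        field_simp
        ring

theorem block' {θ : ℝ} {q : ℕ} (h : Dio θ q) (N D : ℕ) (hD : 0 < D) {T : ℝ} (hT : 0 < T)
    {I : Finset ℕ} (hI : I ⊆ Ico D (2 * D)) {a b : ℕ → ℝ} {A B : ℝ}
    (ha : ∀ d ∈ I, |a d| ≤ A) (hb : ∀ k, k ≤ N → |b k| ≤ B) (hA : 0 ≤ A) :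
    ‖∑ d ∈ I, (a d : ℂ) * ∑ k ∈ Ioc 0 (N / d), (b k : ℂ) * (ee θ ^ d) ^ k‖ ^ 2 ≤
      (A * B) ^ 2 * ((N : ℝ) ^ 2 * (1 / T + 3 / q + 3 / D) + 2 * T * N * (D + q)) := by
  classical
  rcases Nat.eq_zero_or_pos N with rfl | hN
  · simp
  have hNR : (0 : ℝ) < N := by exact_mod_cast hN
  have hDR : (0 : ℝ) < D := by exact_mod_cast hD
  have hqR : (0 : ℝ) < q := by exact_mod_cast h.1
  set ρ : ℝ := T * D / N with hρ
  have hρ0 : 0 < ρ := by positivity
  set K := N / D with hK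
  have hKd : ∀ d ∈ I, N / d ≤ K := fun d hd =>
    Nat.div_le_div_left (mem_Ico.mp (hI hd)).1 hD
  set z := ee θ with hz
  set V : ℕ → ℂ := fun k => ∑ d ∈ I, if k ≤ N / d then (a d : ℂ) * (z ^ d) ^ k else 0 with hV
  have e1 : ∑ d ∈ I, (a d : ℂ) * ∑ k ∈ Ioc 0 (N / d), (b k : ℂ) * (z ^ d) ^ k =
      ∑ k ∈ Ioc 0 K, (b k : ℂ) * V k := by
    simp only [hV, mul_sum]
    rw [sum_comm]
    refine sum_congr rfl fun d hd => ?_
    have : Ioc 0 (N / d) = (Ioc 0 K).filter fun k => k ≤ N / d := by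
      ext k
      have := hKd d hd
      simp only [mem_Ioc, mem_filter]
      omega
    rw [this, sum_filter]
    refine sum_congr rfl fun k _ => ?_
    split_ifs
    · ring
    · simp
  have hKN : K ≤ N := Nat.div_le_self _ _
  have e2 : ‖∑ k ∈ Ioc 0 K, (b k : ℂ) * V k‖ ≤ B * ∑ k ∈ Ioc 0 K, ‖V k‖ := by
    refine (norm_sum_le _ _).trans ?_
    rw [mul_sum]
    refine sum_le_sum fun k hk => ?_
    rw [norm_mul, Complex.norm_real, Real.norm_eq_abs]
    exact mul_le_mul_of_nonneg_right (hb k ((mem_Ioc.mp hk).2.trans hKN)) (norm_nonneg _)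
  have e3 : (∑ k ∈ Ioc 0 K, ‖V k‖) ^ 2 ≤ K * ∑ k ∈ Ioc 0 K, ‖V k‖ ^ 2 := by
    have := sq_sum_le_card_mul_sum_sq (s := Ioc 0 K) (f := fun k => ‖V k‖)
    rwa [Nat.card_Ioc, Nat.sub_zero] at this
  have e4 : ((∑ k ∈ Ioc 0 K, ‖V k‖ ^ 2 : ℝ) : ℂ) =
      ∑ d ∈ I, ∑ e ∈ I, ((a d * a e : ℝ) : ℂ) *
        ∑ k ∈ Ioc 0 (min (N / d) (N / e)), (z ^ d * (starRingEnd ℂ) (z ^ e)) ^ k := by
    push_cast
    simp only [← Complex.mul_conj', hV, map_sum, sum_mul_sum]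
    rw [sum_comm]
    refine sum_congr rfl fun d hd => ?_
    rw [sum_comm]
    refine sum_congr rfl fun e he => ?_
    have : Ioc 0 (min (N / d) (N / e)) = (Ioc 0 K).filter fun k => k ≤ N / d ∧ k ≤ N / e := by
      ext k
      have := hKd d hd
      simp only [mem_Ioc, mem_filter, le_min_iff]
      omega
    rw [this, sum_filter, mul_sum]
    refine sum_congr rfl fun k _ => ?_
    by_cases h1 : k ≤ N / d <;> by_cases h2 : k ≤ N / e <;> simp [h1, h2, mul_pow]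
    ring
  have hcardI : (I.card : ℝ) ≤ D := by
    have := card_le_card hI
    rw [Nat.card_Ico] at this
    exact_mod_cast (by omega : I.card ≤ D)
  have e5 : ∑ k ∈ Ioc 0 K, ‖V k‖ ^ 2 ≤
      A ^ 2 * (D * ((D / q + 1) * (2 * ρ * q + 3) * K + D * (1 / (2 * ρ)))) := by
    have : ∑ k ∈ Ioc 0 K, ‖V k‖ ^ 2 = ‖((∑ k ∈ Ioc 0 K, ‖V k‖ ^ 2 : ℝ) : ℂ)‖ := by
      rw [Complex.norm_real, Real.norm_eq_abs, abs_of_nonneg (sum_nonneg fun _ _ => sq_nonneg _)]
    rw [this, e4]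
    refine (norm_sum_le _ _).trans ?_
    calc _ ≤ ∑ d ∈ I, A ^ 2 * ((D / q + 1) * (2 * ρ * q + 3) * K + D * (1 / (2 * ρ))) := by
          refine sum_le_sum fun d hd => (norm_sum_le _ _).trans ?_
          calc _ ≤ ∑ e ∈ I, A ^ 2 *
                  ((if nn (d * θ - e * θ) ≤ ρ then (K : ℝ) else 0) + 1 / (2 * ρ)) := by
                refine sum_le_sum fun e he => ?_
                rw [norm_mul, Complex.norm_real, Real.norm_eq_abs, abs_mul, sq]
                refine mul_le_mul (mul_le_mul (ha d hd) (ha e he) (abs_nonneg _) hA) ?_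
                  (norm_nonneg _) (by positivity)
                rw [hz, ← ee_nat_mul, ← ee_nat_mul, ← ee_neg, ← ee_add, ← sub_eq_add_neg]
                simp only [← ee_nat_mul]
                exact nvina_geom _ hρ0 ((min_le_left _ _).trans (hKd d hd))
            _ ≤ _ := by
                rw [← mul_sum, sum_add_distrib, ← sum_filter, sum_const, sum_const, nsmul_eq_mul,
                  nsmul_eq_mul]
                refine mul_le_mul_of_nonneg_left (add_le_add ?_ ?_) (sq_nonneg _)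
                · exact mul_le_mul_of_nonneg_right (near_count h _ hρ0.le D hI) (Nat.cast_nonneg _)
                · exact mul_le_mul_of_nonneg_right hcardI (by positivity)
      _ ≤ _ := by
          rw [sum_const, nsmul_eq_mul, mul_left_comm]
          exact mul_le_mul_of_nonneg_left (mul_le_mul_of_nonneg_right hcardI (by positivity))
            (sq_nonneg _)
  rw [e1]
  have hKD : (K : ℝ) * D ≤ N := by exact_mod_cast Nat.div_mul_le_self N D
  have hK0 : (0 : ℝ) ≤ K := Nat.cast_nonneg _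
  calc _ ≤ (B * ∑ k ∈ Ioc 0 K, ‖V k‖) ^ 2 := pow_le_pow_left₀ (norm_nonneg _) e2 2
    _ = B ^ 2 * (∑ k ∈ Ioc 0 K, ‖V k‖) ^ 2 := by ring
    _ ≤ B ^ 2 * (K * (A ^ 2 *
          (D * ((D / q + 1) * (2 * ρ * q + 3) * K + D * (1 / (2 * ρ)))))) := by
        refine mul_le_mul_of_nonneg_left (e3.trans ?_) (sq_nonneg _)
        exact mul_le_mul_of_nonneg_left e5 hK0
    _ = (A * B) ^ 2 *
          (K * (D * ((D / q + 1) * (2 * ρ * q + 3) * K + D * (1 / (2 * ρ))))) := by ring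
    _ ≤ _ := mul_le_mul_of_nonneg_left (nvina_num hNR hDR hK0 hqR hT hKD) (sq_nonneg _)

theorem typeII' {θ : ℝ} {q : ℕ} (h : Dio θ q) (N U R J : ℕ) (hU : 0 < U) (hJ : R < 2 ^ J)
    {a b : ℕ → ℝ} {A B E T : ℝ} (hT : 0 < T) (ha : ∀ d, d ≤ R → |a d| ≤ A) (hB : 0 ≤ B)
    (hb : ∀ k, k ≤ N → |b k| ≤ B) (hA : 0 ≤ A) (hE0 : 0 ≤ E)
    (hE : (N : ℝ) ^ 2 * (1 / T + 3 / q + 6 / U) + 2 * T * N * (R + q) ≤ E ^ 2) :
    ‖∑ d ∈ Ioc U R, (a d : ℂ) * ∑ k ∈ Ioc 0 (N / d), (b k : ℂ) * (ee θ ^ d) ^ k‖ ≤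
      J * (A * B * E) := by
  rw [← sum_fiberwise_of_maps_to (t := range J) (g := fun d => Nat.log 2 d) (fun d hd => by
    have := mem_Ioc.mp hd
    rw [mem_range]
    exact Nat.log_lt_of_lt_pow (by omega) (by omega))]
  refine (norm_sum_le _ _).trans ?_
  calc _ ≤ ∑ _j ∈ range J, A * B * E := by
        refine sum_le_sum fun j _ => ?_
        rcases ((Ioc U R).filter fun d => Nat.log 2 d = j).eq_empty_or_nonempty with he | ⟨d₀, hd₀⟩
        · rw [he, sum_empty, norm_zero]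
          positivity
        have hsub : ((Ioc U R).filter fun d => Nat.log 2 d = j) ⊆ Ico (2 ^ j) (2 * 2 ^ j) := by
          intro d hd
          obtain ⟨h1, rfl⟩ := mem_filter.mp hd
          have := mem_Ioc.mp h1
          rw [mem_Ico, ← pow_succ']
          exact ⟨Nat.pow_log_le_self 2 (by omega), Nat.lt_pow_succ_log_self (by norm_num) d⟩
        have h1 := mem_Ico.mp (hsub hd₀)
        have h2 := mem_Ioc.mp (mem_filter.mp hd₀).1
        have := block' h N (2 ^ j) (by positivity) hT hsub (a := a) (b := b) (A := A)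
          (fun d hd => ha d (mem_Ioc.mp (mem_filter.mp hd).1).2) hb hA
        refine (sq_le_sq₀ (norm_nonneg _) (by positivity)).mp (this.trans ?_)
        rw [mul_pow (A * B)]
        refine mul_le_mul_of_nonneg_left (le_trans ?_ hE) (sq_nonneg _)
        have h3 : (U : ℝ) ≤ 2 * ((2 ^ j : ℕ) : ℝ) := by exact_mod_cast (by omega : U ≤ 2 * 2 ^ j)
        have h4 : ((2 ^ j : ℕ) : ℝ) ≤ R := by exact_mod_cast (by omega : 2 ^ j ≤ R)
        have hUR : (0 : ℝ) < U := by exact_mod_cast hU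
        have h5 : 3 / ((2 ^ j : ℕ) : ℝ) ≤ 6 / U := by
          rw [div_le_div_iff₀ (by positivity) hUR]
          linarith
        gcongr
    _ = _ := by rw [sum_const, card_range, nsmul_eq_mul]

end Pool.Agent.MP_a96b63_al.H5

/-! The minor arc estimate for the exponential sum over primes. -/

namespace Pool.Agent.MP_a96b63_al.H5

open Finset Filter MP_e3ece1_pr

theorem vino0 {θ : ℝ} {q : ℕ} (h : Dio θ q) {N U R J : ℕ} (hU : 0 < U) (hUq : 2 * (U * U) ≤ q)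
    (hUN : U * U ≤ N) (hJ : R < 2 ^ J) (hRN : R ≤ N) (hNR : N ≤ R * R) {E T : ℝ} (hT : 0 < T)
    (hE0 : 0 ≤ E) (hE : (N : ℝ) ^ 2 * (1 / T + 3 / q + 6 / U) + 2 * T * N * (R + q) ≤ E ^ 2) :
    ‖∑ n ∈ Ioc 0 N, (vm n : ℂ) * ee θ ^ n‖ ≤ (3 * (U * U * q) + 2 * (J * E)) * Real.log N := by
  set L := Real.log N with hL
  set Λ := ArithmeticFunction.vonMangoldt with hΛ
  have hL0 : 0 ≤ L := Real.log_natCast_nonneg N
  have hM : (1 : ℝ) ≤ q := by exact_mod_cast h.1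
  have hUU : U ≤ U * U := Nat.le_mul_self U
  have hUR : (1 : ℝ) ≤ U := by exact_mod_cast hU
  let S : ArithmeticFunction ℝ → ℂ := fun f => ∑ n ∈ Ioc 0 N, (f n : ℂ) * ee θ ^ n
  have Sadd : ∀ f g, S (f + g) = S f + S g := by
    intro f g
    simp only [S, ArithmeticFunction.add_apply, Complex.ofReal_add, add_mul, sum_add_distrib]
  have hid := congrArg S (vaughan U R)
  simp only [Sadd] at hid
  have b1 : ‖S (lo Λ U)‖ ≤ U * U * q * L := by
    refine (norm_sum_le _ _).trans ?_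
    calc _ ≤ ∑ n ∈ Ioc 0 N, (if n ∈ Ioc 0 U then L else 0) := by
          refine sum_le_sum fun n hn => ?_
          rw [norm_mul, norm_pow, norm_ee, one_pow, mul_one, Complex.norm_real, lo_apply]
          have := mem_Ioc.mp hn
          split_ifs with h1 h2 h2
          · rw [Real.norm_eq_abs, abs_of_nonneg ArithmeticFunction.vonMangoldt_nonneg]
            exact ArithmeticFunction.vonMangoldt_le_log.trans (log_mono this.2)
          · exact absurd (mem_Ioc.mpr ⟨this.1, h1⟩) h2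
          · simpa using hL0
          · simp
      _ ≤ U * L := by
          rw [← sum_filter, sum_const, nsmul_eq_mul]
          refine mul_le_mul_of_nonneg_right ?_ hL0
          have : (filter (fun d => d ∈ Ioc 0 U) (Ioc 0 N)).card ≤ (Ioc 0 U).card :=
            card_le_card fun d hd => (mem_filter.mp hd).2
          rw [Nat.card_Ioc, Nat.sub_zero] at this
          exact_mod_cast this
      _ ≤ _ := by
          refine mul_le_mul_of_nonneg_right ?_ hL0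
          nlinarith [mul_le_mul hUR hM zero_le_one (by linarith)]
  have b2 : ‖S (lo mob U * ArithmeticFunction.log)‖ ≤ U * U * q * L := by
    simp only [S]
    rw [sum_mul_twist]
    refine (typeI' h N U (by omega) zero_le_one (f := lo mob U) (fun d hd => ?_)
      (fun d hd => ?_) log_mono (by simp)).trans ?_
    · rw [lo_apply, if_pos hd]
      exact abs_mob_le d
    · rw [lo_apply, if_neg (by omega)]
    · have : 0 ≤ U * (q * L) := by positivity
      nlinarith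
  have b3 : ‖S (lo mob U * lo Λ U * zet)‖ ≤ U * U * q * L := by
    simp only [S]
    rw [sum_mul_twist]
    have e : ∀ d, ∑ k ∈ Ioc 0 (N / d), (zet k : ℂ) * (ee θ ^ d) ^ k =
        ∑ k ∈ Ioc 0 (N / d), (((fun _ => 1 : ℕ → ℝ) k : ℝ) : ℂ) * (ee θ ^ d) ^ k := by
      intro d
      refine sum_congr rfl fun k hk => ?_
      unfold zet
      rw [ArithmeticFunction.natCoe_apply, ArithmeticFunction.zeta_apply_ne (mem_Ioc.mp hk).1.ne',
        Nat.cast_one]
    simp only [e]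
    refine (typeI' h N (U * U) hUq hL0 (f := (lo mob U * lo Λ U : ArithmeticFunction ℝ))
      (fun d hd => (gamma_bound U d).trans (log_mono (hd.trans hUN)))
      (fun d hd => gamma_zero hd) monotone_const zero_le_one).trans (le_of_eq ?_)
    push_cast
    ring
  have b4 : ‖S (lo (hi mob U) R * (hi Λ U * zet))‖ ≤ J * E * L := by
    simp only [S]
    rw [sum_mul_twist, ← sum_subset (Ioc_subset_Ioc (Nat.zero_le U) hRN)]
    · refine (typeII' h N U R J hU hJ (A := 1) (B := L) hT (fun d _ => ?_) hL0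
        (fun k hk => (beta_bound U k).trans (log_mono hk)) zero_le_one hE0 hE).trans (le_of_eq ?_)
      · rw [lo_apply, hi_apply]
        split_ifs
        · exact abs_mob_le d
        all_goals simp
      · ring
    · intro d _ hd
      rw [lo_apply, hi_apply]
      rw [mem_Ioc] at hd
      split_ifs
      · omega
      all_goals simp
  have b5 : ‖S ((hi Λ U * zet) * hi (hi mob U) R)‖ ≤ J * E * L := by
    simp only [S]
    rw [sum_mul_twist, ← sum_subset (Ioc_subset_Ioc (Nat.zero_le U) hRN)]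
    · refine (typeII' h N U R J hU hJ (A := L) (B := 1) hT
        (fun k hk => (beta_bound U k).trans (log_mono (hk.trans hRN))) zero_le_one
        (fun d _ => ?_) hL0 hE0 hE).trans (le_of_eq ?_)
      · rw [hi_apply, hi_apply]
        split_ifs
        · exact abs_mob_le d
        all_goals simp
      · ring
    · intro k _ hk
      rw [mem_Ioc] at hk
      by_cases hkU : k ≤ U
      · rw [beta_zero hkU]
        simp
      · rw [sum_eq_zero, mul_zero]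
        intro d hd
        have hk0 : 0 < k := by omega
        have h1 := (Nat.le_div_iff_mul_le hk0).mp (mem_Ioc.mp hd).2
        rw [hi_apply, if_neg, Complex.ofReal_zero, zero_mul]
        intro hRd
        have : R * R < d * k := Nat.mul_lt_mul'' hRd (by omega)
        omega
  have hfin : S Λ = S (lo Λ U) + S (lo mob U * ArithmeticFunction.log) +
      (S (lo (hi mob U) R * (hi Λ U * zet)) + S ((hi Λ U * zet) * hi (hi mob U) R)) -
        S (lo mob U * lo Λ U * zet) := by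
    rw [← hid]
    ring
  show ‖S Λ‖ ≤ _
  rw [hfin]
  refine (norm_sub_le _ _).trans ?_
  have t1 := norm_add₃_le (a := S (lo Λ U)) (b := S (lo mob U * ArithmeticFunction.log))
    (c := S (lo (hi mob U) R * (hi Λ U * zet)) + S ((hi Λ U * zet) * hi (hi mob U) R))
  have t2 := norm_add_le (S (lo (hi mob U) R * (hi Λ U * zet)))
    (S ((hi Λ U * zet) * hi (hi mob U) R))
  linarith

theorem nvinb_num1 {W Z s q U y R : ℝ} (hW : 1 ≤ W) (hZ : 2 ≤ Z) (h1 : W ^ 2 * Z ≤ q)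
    (h2 : q * (W ^ 2 * Z) ≤ s ^ 2) (h3 : W ^ 2 * Z ≤ s) (hU1 : W ≤ U) (hU2 : U ≤ 2 * W)
    (hy0 : 0 ≤ y) (hy : y ≤ s ^ 2) (hR0 : 0 ≤ R) (hR : R ≤ s + 1) :
    y ^ 2 * (1 / U + 3 / q + 6 / U) + 2 * U * y * (R + q) ≤ 16 * (s ^ 2) ^ 2 / W := by
  have h4 : 2 * W ^ 2 ≤ W ^ 2 * Z := by nlinarith [sq_nonneg W]
  have h5 : W ≤ W ^ 2 := by nlinarith
  have hq : W ≤ q := by linarith
  have hs : 1 ≤ s := by linarith
  have h6 : W ^ 2 * (2 * s + q) ≤ 3 / 2 * s ^ 2 := by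
    nlinarith [mul_le_mul_of_nonneg_left h4 (by linarith : 0 ≤ q),
      mul_le_mul_of_nonneg_left (h4.trans h3) (by linarith : 0 ≤ s)]
  have h7 : 2 * (2 * W) * s ^ 2 * (2 * s + q) ≤ 6 * (s ^ 2) ^ 2 / W := by
    rw [le_div_iff₀ (by linarith)]
    nlinarith [mul_le_mul_of_nonneg_left h6 (sq_nonneg s)]
  have hq0 : 0 ≤ q := by linarith
  have hU0 : 0 < U := by linarith
  calc _ ≤ (s ^ 2) ^ 2 * (1 / W + 3 / W + 6 / W) + 2 * (2 * W) * s ^ 2 * (2 * s + q) := by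
        gcongr
        linarith
    _ ≤ _ := by
        have : (s ^ 2) ^ 2 * (1 / W + 3 / W + 6 / W) + 6 * (s ^ 2) ^ 2 / W =
          16 * (s ^ 2) ^ 2 / W := by ring
        linarith

theorem nvinb_num2 {L X s q U J l t : ℝ} (hL : 40 ≤ L) (hX : 1 ≤ X) (hq : 0 ≤ q)
    (h2 : q * ((X ^ 2 * L ^ 6) ^ 2 * (X * L ^ 2)) ≤ s ^ 2) (h3 : 2 * (X * L ^ 2) ≤ s)
    (hU0 : 0 ≤ U) (hU : U ≤ 2 * (X ^ 2 * L ^ 6)) (hJ : J ≤ 3 * L)
    (hl0 : 0 ≤ l) (hl : l ≤ L) (ht : t ≤ s) :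
    (3 * (U * U * q) + 2 * (J * (4 * s ^ 2 / (X * L ^ 3)))) * l + 2 * t * l ≤ s ^ 2 / X := by
  have hL0 : 0 < L := by linarith
  have hX0 : 0 < X := by linarith
  have hs : 0 ≤ s := le_trans (by positivity) h3
  have h4 : 12 * (X ^ 2 * L ^ 6) ^ 2 * q * L ≤ 12 * (s ^ 2 / (X * L)) := by
    rw [← mul_div_assoc, le_div_iff₀ (by positivity)]
    linarith
  have h5 : 2 * s * L ≤ s ^ 2 / (X * L) := by
    rw [le_div_iff₀ (by positivity)]
    nlinarith [mul_le_mul_of_nonneg_left h3 hs]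
  calc _ ≤ (3 * (2 * (X ^ 2 * L ^ 6) * (2 * (X ^ 2 * L ^ 6)) * q) +
          2 * (3 * L * (4 * s ^ 2 / (X * L ^ 3)))) * L + 2 * s * L := by gcongr
    _ = 12 * (X ^ 2 * L ^ 6) ^ 2 * q * L + 24 * (s ^ 2 / (X * L)) + 2 * s * L := by
        field_simp
        ring
    _ ≤ L * (s ^ 2 / (X * L)) := by
        have : 0 ≤ s ^ 2 / (X * L) := by positivity
        nlinarith
    _ = _ := by field_simp

theorem nvinb_log {N : ℕ} (h : 1 ≤ Real.log N) : ((Nat.log 2 N + 1 : ℕ) : ℝ) ≤ 3 * Real.log N := by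
  have hN : N ≠ 0 := by
    rintro rfl
    norm_num at h
  have h1 : ((2 : ℝ) ^ Nat.log 2 N) ≤ N := by exact_mod_cast Nat.pow_log_le_self 2 hN
  have h2 := Real.log_le_log (by positivity) h1
  rw [Real.log_pow] at h2
  push_cast
  nlinarith [Real.log_two_gt_d9, Nat.cast_nonneg (α := ℝ) (Nat.log 2 N)]

/-- the minor arc estimate of Vinogradov -/
theorem vino (A : ℕ) : ∃ B : ℕ, ∀ᶠ N : ℕ in atTop, ∀ (θ : ℝ) (q y : ℕ), Dio θ q →
    Real.log N ^ B ≤ q → (q : ℝ) ≤ N / Real.log N ^ B → y ≤ N →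
      ‖∑ n ∈ Ioc 0 y, (lam n : ℂ) * ee (n * θ)‖ ≤ N / Real.log N ^ A := by
  refine ⟨5 * A + 14, (ev_log_ge 40).mono fun N hL θ q y h h1 h2 hy => ?_⟩
  set L := Real.log N with hLd
  have hL0 : 0 < L := by linarith
  have hX : 1 ≤ L ^ A := one_le_pow₀ (by linarith)
  have e : L ^ (5 * A + 14) = ((L ^ A) ^ 2 * L ^ 6) ^ 2 * (L ^ A * L ^ 2) := by ring
  rw [e] at h1 h2
  set X := L ^ A
  have hl : Real.log y ≤ L := log_mono hy
  have hl0 := Real.log_natCast_nonneg y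
  rcases le_or_gt (y : ℝ) (N / (X * L)) with hs | hs
  · refine (norm_sum_le _ _).trans ((sum_le_card_nsmul _ _ L fun n hn => ?_).trans ?_)
    · rw [norm_mul, norm_ee, mul_one, Complex.norm_real, Real.norm_of_nonneg (lam_nonneg n)]
      exact (lam_le_log n).trans (log_mono ((mem_Ioc.mp hn).2.trans hy))
    · rw [Nat.card_Ioc, Nat.sub_zero, nsmul_eq_mul, ← le_div_iff₀ hL0, div_div]
      exact hs
  have hW2 : 2 ≤ X ^ 2 * L ^ 6 := le_trans
    (by linarith [le_self_pow₀ (by linarith : 1 ≤ L) (n := 6) (by norm_num)])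
    (le_mul_of_one_le_left (by positivity) (one_le_pow₀ hX))
  have hW : 1 ≤ X ^ 2 * L ^ 6 := by linarith
  have hZ : 8 ≤ X * L ^ 2 := by nlinarith
  have hE : (4 * √(N : ℝ) ^ 2 / (X * L ^ 3)) ^ 2 = 16 * (√(N : ℝ) ^ 2) ^ 2 / (X ^ 2 * L ^ 6) := by
    field_simp
    ring
  have hU1 := Nat.le_ceil (X ^ 2 * L ^ 6)
  have hU2 := Nat.ceil_lt_add_one (a := X ^ 2 * L ^ 6) (by positivity)
  have hN := Real.sq_sqrt (Nat.cast_nonneg (α := ℝ) N)
  have hyN : (y : ℝ) ≤ N := by exact_mod_cast hy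
  have hqy : (q : ℝ) < y := by
    refine lt_of_le_of_lt (h2.trans ?_) hs
    refine div_le_div_of_nonneg_left (Nat.cast_nonneg _) (by positivity) ?_
    have : X * L ≤ X * L ^ 2 := mul_le_mul_of_nonneg_left (by nlinarith) (by positivity)
    exact this.trans (le_mul_of_one_le_left (by positivity) (one_le_pow₀ hW))
  rw [le_div_iff₀ (by positivity), ← hN] at h2
  have n2 := fun U J t =>
    @nvinb_num2 L X (√(N : ℝ)) q U J (Real.log y) t hL hX (Nat.cast_nonneg _) h2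
  set W := X ^ 2 * L ^ 6
  set Z := X * L ^ 2
  set U := ⌈W⌉₊
  have h3 : W ^ 2 * Z ≤ √(N : ℝ) := by
    refine (sq_le_sq₀ (by positivity) (Real.sqrt_nonneg _)).mp (le_trans ?_ h2)
    rw [sq]
    exact mul_le_mul_of_nonneg_right h1 (by positivity)
  have hU : 0 < U := by exact_mod_cast (by linarith : (0 : ℝ) < U)
  have hUq : 2 * (U * U) ≤ q := by
    have : (2 : ℝ) * (U * U) ≤ q := by
      nlinarith [mul_le_mul (by linarith : (U : ℝ) ≤ 2 * W) (by linarith : (U : ℝ) ≤ 2 * W)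
        (Nat.cast_nonneg _) (by linarith), mul_le_mul_of_nonneg_left hZ (sq_nonneg W)]
    exact_mod_cast this
  have hqy' : q < y := by exact_mod_cast hqy
  have hq := h.1
  have hR : Nat.sqrt y + 1 ≤ y := Nat.sqrt_lt_self (by omega)
  have hyt : √(y : ℝ) ≤ √(N : ℝ) := Real.sqrt_le_sqrt hyN
  have v := vino0 h (N := y) (R := Nat.sqrt y + 1) (J := Nat.log 2 N + 1) hU hUq (by omega)
    ((hR.trans hy).trans_lt (Nat.lt_pow_succ_log_self one_lt_two N)) hR (Nat.lt_succ_sqrt y).le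
    (T := U) (E := 4 * √(N : ℝ) ^ 2 / (X * L ^ 3)) (by linarith) (by positivity)
    (hE ▸ nvinb_num1 hW (by linarith) h1 h2 h3 hU1 (by linarith) (Nat.cast_nonneg _)
      (by linarith) (Nat.cast_nonneg _)
      (by push_cast; linarith [Real.nat_sqrt_le_real_sqrt (a := y)]))
  have w : ‖∑ n ∈ Ioc 0 y, ((vm n - lam n : ℝ) : ℂ) * ee θ ^ n‖ ≤ 2 * √(y : ℝ) * Real.log y := by
    refine (norm_sum_le _ _).trans (le_trans (le_of_eq (sum_congr rfl fun n _ => ?_))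
      (sum_vm_sub_lam (by omega)))
    rw [norm_mul, norm_pow, norm_ee, one_pow, mul_one, Complex.norm_real,
      Real.norm_of_nonneg (sub_nonneg.mpr (lam_le_vm n))]
  have e2 : ∑ n ∈ Ioc 0 y, (lam n : ℂ) * ee (n * θ) = ∑ n ∈ Ioc 0 y, (vm n : ℂ) * ee θ ^ n -
      ∑ n ∈ Ioc 0 y, ((vm n - lam n : ℝ) : ℂ) * ee θ ^ n := by
    rw [← sum_sub_distrib]
    refine sum_congr rfl fun n _ => ?_
    rw [ee_nat_mul]
    push_cast
    ring
  rw [e2, ← hN]
  refine (norm_sub_le _ _).trans ((add_le_add v w).trans (n2 _ _ _ ?_ (Nat.cast_nonneg _)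
    (by linarith) (nvinb_log (by linarith)) hl0 hl hyt))
  exact (mul_le_mul_of_nonneg_right (by nlinarith) (by linarith)).trans h3

end Pool.Agent.MP_a96b63_al.H5

namespace Pool.Agent.MP_a96b63_al.H5

open Finset Filter

theorem detect {W : ℕ} (hW : 0 < W) (r y z : ℕ) (θ : ℝ) :
    ∑ t ∈ Ioc y z, (lam (r + W * t) : ℂ) * ee (t * θ) = (1 / W : ℂ) * ∑ b ∈ range W,
      ee (-(r * ((θ + b) / W))) *
        ∑ n ∈ Ioc (r + W * y) (r + W * z), (lam n : ℂ) * ee (n * ((θ + b) / W)) := by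
  have W0 : (W : ℝ) ≠ 0 := by exact_mod_cast hW.ne'
  have W1 : (W : ℂ) ≠ 0 := by exact_mod_cast hW.ne'
  have e : ∀ n : ℕ, ∑ b ∈ range W, (1 / W : ℂ) * (ee (-(r * ((θ + b) / W))) *
      ((lam n : ℂ) * ee (n * ((θ + b) / W)))) =
        if (W : ℤ) ∣ (n : ℤ) - r then (lam n : ℂ) * ee ((n - r) / W * θ) else 0 := by
    intro n
    rw [sum_congr rfl (g := fun b : ℕ => (1 / W : ℂ) * ((lam n : ℂ) * ee ((n - r) / W * θ)) *
      ee (b * ((((n : ℤ) - r : ℤ) : ℝ) / W))) fun b _ => ?_, ← mul_sum, orth hW]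
    · split_ifs
      · field_simp
      · simp
    · rw [mul_left_comm (ee _), ← ee_add, mul_assoc, mul_assoc, ← ee_add]
      congr 3
      push_cast
      ring
  simp only [mul_sum]
  rw [sum_comm]
  simp only [e]
  rw [← sum_filter]
  refine sum_bij (fun t _ => r + W * t) (fun t ht => ?_) (fun t _ u _ h => ?_) (fun n hn => ?_)
    fun t _ => ?_
  · simp only [mem_filter, mem_Ioc] at ht ⊢
    exact ⟨⟨by nlinarith [ht.1], by nlinarith [ht.2]⟩, t, by push_cast; ring⟩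
  · exact Nat.eq_of_mul_eq_mul_left hW (by omega)
  · simp only [mem_filter, mem_Ioc] at hn ⊢
    obtain ⟨t, ht⟩ := (Nat.modEq_iff_dvd' (by omega)).mp (Nat.modEq_iff_dvd.mpr hn.2)
    obtain rfl : n = r + W * t := by omega
    exact ⟨t, ⟨by nlinarith [hn.1.1], Nat.le_of_mul_le_mul_left (by omega) hW⟩, rfl⟩
  · congr 2
    push_cast
    field_simp
    ring

theorem nminor_cop (ρ : ℚ) : IsCoprime ρ.num (ρ.den : ℤ) :=
  Int.isCoprime_iff_gcd_eq_one.mpr ρ.reduced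

theorem minor {W : ℕ} (hW : 0 < W) (r A : ℕ) : ∃ B : ℕ, A ≤ B ∧ ∀ᶠ S : ℕ in atTop,
    ∀ θ : ℝ, ¬ Maj B S θ → ‖FF W r S θ‖ ≤ S / Real.log S ^ A := by
  obtain ⟨B, hB⟩ := vino (A + 1)
  refine ⟨A + B + 1, by omega, ?_⟩
  have ht : Tendsto (fun S : ℕ => r + W * (5 * S)) atTop atTop :=
    tendsto_atTop_mono (fun S => by simp only [id]; nlinarith) tendsto_id
  filter_upwards [ht.eventually hB, ht.eventually (ev_log B (c := 1) one_pos), ev_log_ge (12 * W),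
    ev_log_ge (2 ^ B), eventually_ge_atTop r, eventually_ge_atTop (6 * W)]
    with S h hN hL hL2 hrS hWS θ hθ
  set N := r + W * (5 * S) with hNdef
  have W1 : (1 : ℝ) ≤ W := by exact_mod_cast hW
  have S1 : (1 : ℝ) ≤ S := by exact_mod_cast (by omega)
  have L1 : 1 ≤ Real.log S := by linarith
  have hSN : (W : ℝ) * S ≤ N := by exact_mod_cast (by nlinarith)
  have hNS : (N : ℝ) ≤ 6 * W * S := by exact_mod_cast (by nlinarith)
  have N0 : (0 : ℝ) < N := by nlinarith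
  have hx : Real.log S ≤ Real.log N := Real.log_le_log (by linarith) (by nlinarith)
  have hx2 : Real.log N ≤ 2 * Real.log S := by
    rw [two_mul, ← Real.log_mul (by linarith) (by linarith)]
    exact Real.log_le_log N0 (hNS.trans (by gcongr; exact_mod_cast hWS))
  have hp : 0 < Real.log N ^ B := pow_pos (by linarith) B
  have hpow : Real.log N ^ B ≤ Real.log S ^ (A + B + 1) :=
    calc _ ≤ (2 * Real.log S) ^ B := by gcongr
      _ ≤ Real.log S ^ (B + 1) := by rw [mul_pow, pow_succ']; gcongr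
      _ ≤ _ := pow_le_pow_right₀ L1 (by omega)
  rw [one_mul, Real.rpow_one] at hN
  have key : ∀ b : ℕ, ‖∑ n ∈ Ioc (r + W * (3 * S)) N, (lam n : ℂ) * ee (n * ((θ + b) / W))‖ ≤
      2 * (N / Real.log N ^ (A + 1)) := by
    intro b
    obtain ⟨ρ, h1, h2⟩ := Real.exists_rat_abs_sub_le_and_den_le ((θ + b) / W)
      (n := ⌊N / Real.log N ^ B⌋₊) (Nat.floor_pos.mpr ((one_le_div hp).mpr hN))
    have d1 : (1 : ℝ) ≤ ρ.den := by exact_mod_cast ρ.pos
    have h3 : (ρ.den : ℝ) ≤ ⌊N / Real.log N ^ B⌋₊ := by exact_mod_cast h2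
    have hD : Dio ((θ + b) / W) ρ.den := ⟨ρ.pos, ρ.num, nminor_cop ρ, by
      rw [← Rat.cast_def]
      refine h1.trans (one_div_le_one_div_of_le (by positivity) ?_)
      nlinarith⟩
    have h4 : Real.log N ^ B ≤ ρ.den := by
      by_contra hc
      have hd : ((W : ℚ) * ρ - b).den ≤ ρ.den := Nat.le_of_dvd ρ.pos <| by
        have := (Rat.sub_den_dvd ((W : ℚ) * ρ) b).trans
          (Nat.mul_dvd_mul_right (Rat.mul_den_dvd W ρ) _)
        simpa using this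
      refine hθ ⟨((W : ℚ) * ρ - b).den, ((W : ℚ) * ρ - b).num, Rat.pos _,
        (Nat.cast_le.mpr hd).trans ((not_le.mp hc).le.trans hpow), nminor_cop _, ?_⟩
      rw [← Rat.cast_def, show θ - (((W : ℚ) * ρ - b : ℚ) : ℝ) = W * ((θ + b) / W - ρ) by
        push_cast; field_simp; ring, abs_mul, abs_of_pos (by linarith : (0 : ℝ) < W)]
      have h5 := Nat.lt_floor_add_one (N / Real.log N ^ B)
      have h6 : |(θ + b) / W - ρ| ≤ Real.log N ^ B / N := by
        rw [← one_div_div (N : ℝ)]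
        refine h1.trans (one_div_le_one_div_of_le (by positivity) ?_)
        nlinarith [(Nat.cast_nonneg _ : (0 : ℝ) ≤ ⌊N / Real.log N ^ B⌋₊)]
      calc _ ≤ W * (Real.log S ^ (A + B + 1) / (W * S)) := by
            gcongr
            exact h6.trans (by gcongr)
        _ = _ := by field_simp
    have h5 := h3.trans (Nat.floor_le (by positivity))
    have h6 : r + W * (3 * S) ≤ N := by nlinarith
    rw [eq_sub_of_add_eq' (sum_Ioc_consecutive
      (fun n : ℕ => (lam n : ℂ) * ee (n * ((θ + b) / W))) (Nat.zero_le _) h6), two_mul]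
    exact (norm_sub_le _ _).trans (add_le_add (h _ _ _ hD h4 h5 le_rfl) (h _ _ _ hD h4 h5 h6))
  have e : FF W r S θ = (((W.totient : ℝ) / W : ℝ) : ℂ) *
      ∑ t ∈ Ioc (3 * S) (5 * S), (lam (r + W * t) : ℂ) * ee (t * θ) := by
    simp only [FF, Ft, Wd, ff, mul_sum, Complex.ofReal_mul, mul_assoc]
  have h1 : ‖∑ t ∈ Ioc (3 * S) (5 * S), (lam (r + W * t) : ℂ) * ee (t * θ)‖ ≤
      2 * (N / Real.log N ^ (A + 1)) := by
    rw [detect hW, norm_mul, norm_div, norm_one, Complex.norm_natCast, one_div,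
      inv_mul_le_iff₀ (by linarith)]
    refine (norm_sum_le _ _).trans ((sum_le_card_nsmul _ _ (2 * (N / Real.log N ^ (A + 1)))
      fun b _ => ?_).trans (by simp))
    rw [norm_mul, norm_ee, one_mul]
    exact key b
  rw [e, norm_mul, Complex.norm_real, Real.norm_of_nonneg (by positivity)]
  refine (mul_le_of_le_one_left (norm_nonneg _) (div_le_one_of_le₀
    (by exact_mod_cast W.totient_le) (by positivity))).trans (h1.trans ?_)
  calc _ ≤ 2 * (Real.log S / 2 * S / Real.log S ^ (A + 1)) := by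
        gcongr
        exact hNS.trans (by gcongr; linarith)
    _ = _ := by field_simp; ring

end Pool.Agent.MP_a96b63_al.H5

namespace Pool.Agent.MP_a96b63_al.H5

open Finset

theorem nram_shift (g : ℕ → ℂ) {q : ℕ} (hg : ∀ c, g (c + q) = g c) (d : ℕ) :
    ∑ c ∈ range q, g (c + d) = ∑ c ∈ range q, g c := by
  induction d with
  | zero => simp
  | succ d ih =>
    have h1 := sum_range_succ' (fun k => g (k + d)) q
    have h2 := sum_range_succ (fun k => g (k + d)) q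
    simp only [zero_add] at h1 h2
    rw [add_comm q d, hg, h1, ih, add_left_inj] at h2
    rw [← h2]
    exact sum_congr rfl fun c _ => by rw [show c + (d + 1) = c + 1 + d by ring]

theorem shift_zero {q d : ℕ} (hq : 0 < q) {a : ℤ} (P : ℕ → Prop) [DecidablePred P]
    (h1 : ∀ c, P (c + q) ↔ P c) (h2 : ∀ c, P (c + d) ↔ P c) (h : ¬ (q : ℤ) ∣ a * d) :
    ∑ c ∈ (range q).filter P, ee (a * c / q) = 0 := by
  have q0 : (q : ℝ) ≠ 0 := by exact_mod_cast hq.ne'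
  have hs := nram_shift (fun c => if P c then ee (a * c / q) else 0) (q := q) (fun c => by
    simp only [h1]
    rw [show (a : ℝ) * ((c + q : ℕ) : ℝ) / q = a * c / q + a by push_cast; field_simp,
      ee_add_int]) d
  have h3 : ∀ c, (if P (c + d) then ee (a * ((c + d : ℕ) : ℝ) / q) else 0) =
      ee (((a * d : ℤ) : ℝ) / q) * (if P c then ee (a * c / q) else 0) := by
    intro c
    simp only [h2, mul_ite, mul_zero]
    rw [← ee_add]
    congr 2
    push_cast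
    ring
  simp only [h3] at hs
  rw [← mul_sum, ← sub_eq_zero, ← sub_one_mul, mul_eq_zero, sub_eq_zero] at hs
  rw [sum_filter]
  exact hs.resolve_left (ee_ne_one hq h)

theorem GG_one (W r : ℕ) (a : ℤ) : GG W r 1 a = 1 := by
  simp [GG, ee_zero]

theorem nram_not_dvd {q d : ℕ} {a : ℤ} (ha : IsCoprime a (q : ℤ)) (hd : 0 < d) (h : d < q) :
    ¬ (q : ℤ) ∣ a * d := fun h1 =>
  absurd (Nat.le_of_dvd hd (by exact_mod_cast ha.symm.dvd_of_dvd_mul_left h1)) (by omega)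

theorem GG_zero {W q : ℕ} (r : ℕ) {a : ℤ} (hq : 0 < q) (ha : IsCoprime a (q : ℤ))
    (h : ¬ W.Coprime q) : GG W r q a = 0 := by
  obtain ⟨p, hp, ⟨u, hu⟩, ⟨d, hd⟩⟩ := Nat.Prime.not_coprime_iff_dvd.mp h
  have d0 : 0 < d := Nat.pos_of_ne_zero (by rintro rfl; omega)
  refine shift_zero (d := d) hq _ (fun c => ?_) (fun c => ?_)
    (nram_not_dvd ha d0 (by have := hp.two_le; nlinarith))
  · rw [mul_add, ← add_assoc, Nat.coprime_add_mul_right_left]
  · rw [mul_add, ← add_assoc, show W * d = u * q by rw [hu, hd]; ring,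
      Nat.coprime_add_mul_right_left]

theorem nram_ind {q : ℕ} (hq : 0 < q) (m : ℕ) : (if m.Coprime q then (1 : ℂ) else 0) =
    ∑ d ∈ q.divisors, if d ∣ m then (ArithmeticFunction.moebius d : ℂ) else 0 := by
  have h := congrArg (fun f : ArithmeticFunction ℂ => f (Nat.gcd m q))
    (ArithmeticFunction.coe_moebius_mul_coe_zeta (R := ℂ))
  simp only [ArithmeticFunction.coe_mul_zeta_apply, ArithmeticFunction.one_apply,
    ArithmeticFunction.intCoe_apply] at h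
  rw [← sum_filter]
  refine h.symm.trans (sum_congr ?_ fun _ _ => rfl)
  ext d
  have g0 : Nat.gcd m q ≠ 0 := (Nat.gcd_pos_of_pos_right m hq).ne'
  simp only [Nat.mem_divisors, mem_filter, Nat.dvd_gcd_iff]
  exact ⟨fun h => ⟨⟨h.1.2, hq.ne'⟩, h.1.1⟩, fun h => ⟨⟨h.2, h.1.1⟩, g0⟩⟩

theorem GG_le {W q : ℕ} (r : ℕ) {a : ℤ} (hq : 0 < q) (ha : IsCoprime a (q : ℤ))
    (h : W.Coprime q) : ‖GG W r q a‖ ≤ 1 := by
  have e : GG W r q a = ∑ d ∈ q.divisors, (ArithmeticFunction.moebius d : ℂ) *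
      ∑ c ∈ (range q).filter (fun c => d ∣ r + W * c), ee (a * c / q) := by
    simp only [GG, sum_filter, mul_sum]
    rw [sum_comm]
    refine sum_congr rfl fun c _ => ?_
    have h1 := congrArg (· * ee (a * c / q)) (nram_ind hq (r + W * c))
    simp only [sum_mul, ite_mul, one_mul, zero_mul] at h1
    simp only [mul_ite, mul_zero]
    exact h1
  rw [e, sum_eq_single_of_mem q (Nat.mem_divisors_self q hq.ne') fun d hd hne => ?_]
  · have h1 : #((range q).filter fun c => q ∣ r + W * c) ≤ 1 := by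
      refine card_le_one.mpr fun b hb c hc => ?_
      simp only [mem_filter, mem_range] at hb hc
      have h2 : r + W * b ≡ r + W * c [MOD q] :=
        ((Nat.modEq_zero_iff_dvd).mpr hb.2).trans ((Nat.modEq_zero_iff_dvd).mpr hc.2).symm
      exact Nat.ModEq.eq_of_lt_of_lt
        (Nat.ModEq.cancel_left_of_coprime h.symm (Nat.ModEq.add_left_cancel' r h2)) hb.1 hc.1
    have h2 : ‖∑ c ∈ (range q).filter (fun c => q ∣ r + W * c), ee (a * c / q)‖ ≤ 1 := by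
      refine (norm_sum_le _ _).trans ?_
      simp only [norm_ee, sum_const, nsmul_eq_mul, mul_one]
      exact_mod_cast h1
    have h3 : ‖(ArithmeticFunction.moebius q : ℂ)‖ ≤ 1 := by
      rw [Complex.norm_intCast]
      exact_mod_cast ArithmeticFunction.abs_moebius_le_one
    rw [norm_mul]
    exact mul_le_one₀ h3 (norm_nonneg _) h2
  · have hdq := Nat.dvd_of_mem_divisors hd
    rw [shift_zero (d := d) hq _ (fun c => ?_) (fun c => ?_) (nram_not_dvd ha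
      (Nat.pos_of_mem_divisors hd) (lt_of_le_of_ne (Nat.le_of_dvd hq hdq) hne)), mul_zero]
    · rw [mul_add, ← add_assoc]
      exact (Nat.dvd_add_left (hdq.mul_left W))
    · rw [mul_add, ← add_assoc]
      exact (Nat.dvd_add_left (dvd_mul_left d W))

end Pool.Agent.MP_a96b63_al.H5

namespace Pool.Agent.MP_a96b63_al.H5

open Finset Filter

theorem class_sum {W q c : ℕ} (hW : 0 < W) (hc : c < q) (r y z : ℕ) :
    ∑ t ∈ (Ioc y z).filter (fun t => t % q = c), lam (r + W * t) =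
      ∑ n ∈ Ioc (r + W * y) (r + W * z), apl (W * q) (r + W * c) n := by
  simp only [apl]
  rw [← sum_filter]
  refine sum_bij (fun t _ => r + W * t) (fun t ht => ?_) (fun t _ u _ h => ?_) (fun n hn => ?_)
    fun _ _ => rfl
  · simp only [mem_filter, mem_Ioc] at ht ⊢
    refine ⟨⟨by nlinarith [ht.1.1], by nlinarith [ht.1.2]⟩, Nat.ModEq.add_left r ?_⟩
    exact Nat.ModEq.mul_left' W (ht.2 ▸ (Nat.mod_modEq t q).symm)
  · exact Nat.eq_of_mul_eq_mul_left hW (by omega)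
  · simp only [mem_filter, mem_Ioc] at hn ⊢
    have h1 : r ≡ n [MOD W] := ((Nat.ModEq.of_mul_right q hn.2).trans
      (by simp [Nat.ModEq])).symm
    obtain ⟨t, ht⟩ := (Nat.modEq_iff_dvd' (by omega)).mp h1
    obtain rfl : n = r + W * t := by omega
    refine ⟨t, ⟨⟨by nlinarith [hn.1.1], Nat.le_of_mul_le_mul_left (by omega) hW⟩, ?_⟩, rfl⟩
    have h2 := Nat.ModEq.mul_left_cancel' hW.ne' (Nat.ModEq.add_left_cancel' r hn.2)
    rw [h2, Nat.mod_eq_of_lt hc]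

theorem nmajor_ee {q : ℕ} (hq : 0 < q) (a : ℤ) (t : ℕ) :
    ee (t * ((a : ℝ) / q)) = ee (a * ((t % q : ℕ) : ℝ) / q) := by
  have q0 : (q : ℝ) ≠ 0 := by exact_mod_cast hq.ne'
  have h : (t : ℝ) = ((t % q : ℕ) : ℝ) + q * ((t / q : ℕ) : ℝ) := by
    exact_mod_cast (Nat.mod_add_div t q).symm
  rw [← ee_add_int (a * ((t % q : ℕ) : ℝ) / q) (a * ((t / q : ℕ) : ℤ))]
  congr 1
  rw [Int.cast_mul, Int.cast_natCast]
  conv_lhs => rw [h]
  field_simp

theorem nmajor_tot {W : ℕ} (hW : 0 < W) :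
    0 ≤ (W.totient : ℝ) / W ∧ (W.totient : ℝ) / W ≤ 1 :=
  ⟨by positivity, div_le_one_of_le₀ (by exact_mod_cast W.totient_le) (by positivity)⟩

theorem nmajor_split {W r q y z : ℕ} (hW : 0 < W) (hq : 0 < q) (hqy : q ≤ y) (hyz : y ≤ z)
    (a : ℤ) {E : ℝ} (hE : ∀ c, (r + W * c).Coprime q →
      |∑ n ∈ Ioc (r + W * y) (r + W * z), apl (W * q) (r + W * c) n -
        (((r + W * z : ℕ) : ℝ) - (r + W * y : ℕ)) / (W * q).totient| ≤ E) (hE0 : 0 ≤ E) :
    ‖∑ t ∈ Ioc y z, ((ff W r t : ℂ) * ee (t * ((a : ℝ) / q)) -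
      (W.totient : ℂ) / (W * q).totient * GG W r q a)‖ ≤ q * E := by
  have W0 : (W : ℝ) ≠ 0 := by exact_mod_cast hW.ne'
  have e : ∑ t ∈ Ioc y z, ((ff W r t : ℂ) * ee (t * ((a : ℝ) / q)) -
      (W.totient : ℂ) / (W * q).totient * GG W r q a) = ∑ c ∈ range q,
        if (r + W * c).Coprime q then ((((W.totient : ℝ) / W) *
          (∑ n ∈ Ioc (r + W * y) (r + W * z), apl (W * q) (r + W * c) n -
            (((r + W * z : ℕ) : ℝ) - (r + W * y : ℕ)) / (W * q).totient) : ℝ) : ℂ) *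
              ee (a * c / q) else 0 := by
    rw [sum_sub_distrib, sum_const, Nat.card_Ioc, nsmul_eq_mul, GG, sum_filter, mul_sum, mul_sum,
      ← sum_fiberwise_of_maps_to (t := range q) (g := fun t => t % q)
        (fun t _ => mem_range.mpr (Nat.mod_lt t hq)), ← sum_sub_distrib]
    refine sum_congr rfl fun c hc => ?_
    rw [sum_congr rfl (g := fun t => (ff W r t : ℂ) * ee (a * c / q)) fun t ht => by
      rw [nmajor_ee hq, (mem_filter.mp ht).2], ← sum_mul, ← Complex.ofReal_sum]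
    simp only [ff]
    rw [← mul_sum, class_sum hW (mem_range.mp hc)]
    split_ifs with h
    · have W1 : (W : ℂ) ≠ 0 := by exact_mod_cast hW.ne'
      rw [Nat.cast_sub hyz]
      push_cast
      field_simp
      ring
    · rw [← class_sum hW (mem_range.mp hc), sum_eq_zero fun t ht => ?_]
      · simp
      · simp only [mem_filter, mem_Ioc] at ht
        rw [lam, if_neg fun hp => h ?_]
        have h1 : (r + W * t).Coprime q :=
          Nat.coprime_of_lt_prime hq.ne' (by nlinarith [ht.1.1]) hp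
        have h2 : r + W * t ≡ r + W * c [MOD q] :=
          ((ht.2 ▸ (Nat.mod_modEq t q).symm : t ≡ c [MOD q]).mul_left W).add_left r
        rwa [Nat.Coprime, ← h2.gcd_eq]
  rw [e]
  refine (norm_sum_le _ _).trans ((sum_le_card_nsmul _ _ E fun c _ => ?_).trans (by simp))
  split_ifs with h
  · rw [norm_mul, norm_ee, mul_one, Complex.norm_real, Real.norm_eq_abs, abs_mul,
      abs_of_nonneg (nmajor_tot hW).1]
    exact (mul_le_of_le_one_left (abs_nonneg _) (nmajor_tot hW).2).trans (hE c h)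
  · simpa using hE0

theorem major_sum {W r : ℕ} (hW : 0 < W) (hr : r.Coprime W) (A B : ℕ) :
    ∀ᶠ S : ℕ in atTop, ∀ (q : ℕ) (a : ℤ) (y : ℕ), 0 < q → (q : ℝ) ≤ Real.log S ^ B →
      3 * S ≤ y → y ≤ 5 * S →
        ‖∑ t ∈ Ioc (3 * S) y, ((ff W r t : ℂ) * ee (t * ((a : ℝ) / q)) -
          (W.totient : ℂ) / (W * q).totient * GG W r q a)‖ ≤ S / Real.log S ^ A := by
  have ht : Tendsto (fun S : ℕ => r + W * (3 * S)) atTop atTop :=
    tendsto_atTop_mono (fun S => by simp only [id]; nlinarith) tendsto_id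
  filter_upwards [ht.eventually (sw (A + B + 1) (B + 1)), ev_log_ge (4 * W),
    ev_log B (c := 1) one_pos, eventually_ge_atTop r, eventually_ge_atTop 1]
    with S h hL hS hrS hS1 q a y hq hqB hy1 hy2
  have W1 : (1 : ℝ) ≤ W := by exact_mod_cast hW
  have S1 : (1 : ℝ) ≤ S := by exact_mod_cast hS1
  have L0 : 0 < Real.log S := by linarith
  have hx : Real.log S ≤ Real.log (r + W * (3 * S) : ℕ) :=
    Real.log_le_log (by linarith) (by exact_mod_cast (by nlinarith))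
  have hx4 : ((r + W * (3 * S) : ℕ) : ℝ) ≤ 4 * W * S := by exact_mod_cast (by nlinarith)
  rw [one_mul, Real.rpow_one] at hS
  have hqS : q ≤ S := by exact_mod_cast hqB.trans hS
  refine (nmajor_split hW hq (by omega) hy1 a (fun c hc => h (W * q) (r + W * c) _ _
    (by positivity) ?_ (Nat.Coprime.mul_right (by simpa using hr) hc) le_rfl (by nlinarith)
      (by nlinarith)) (by have := L0.trans_le hx; positivity)).trans ?_
  · push_cast
    rw [pow_succ']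
    push_cast at hx
    exact mul_le_mul (by linarith) (hqB.trans (by gcongr)) (by positivity) (by linarith)
  · calc _ ≤ Real.log S ^ B * (Real.log S * S / Real.log S ^ (A + B + 1)) := by
          gcongr
          exact hx4.trans (by gcongr)
      _ = _ := by field_simp; ring

theorem major {W r : ℕ} (hW : 0 < W) (hr : r.Coprime W) (A B : ℕ) :
    ∀ᶠ S : ℕ in atTop, ∀ (q : ℕ) (a : ℤ) (β : ℝ), 0 < q → (q : ℝ) ≤ Real.log S ^ B →
      |β| ≤ Real.log S ^ B / S →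
        ‖FF W r S (a / q + β) - (W.totient : ℂ) / (W * q).totient * GG W r q a * VV S β‖ ≤
          S / Real.log S ^ A := by
  filter_upwards [major_sum hW hr (A + B + 1) B, ev_log_ge 15, eventually_ge_atTop 1]
    with S h hL hS1 q a β hq hqB hβ
  have S1 : (1 : ℝ) ≤ S := by exact_mod_cast hS1
  have L0 : 0 < Real.log S := by linarith
  have L1 : 1 ≤ Real.log S ^ B := one_le_pow₀ (by linarith)
  have h1 := abel _ (fun t => ee (t * β)) (by omega : 3 * S ≤ 5 * S)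
    fun j h1 h2 => h q a j hq hqB h1 h2
  have h2 : ∑ n ∈ Ico (3 * S) (5 * S), ‖ee ((n + 1 : ℕ) * β) - ee (n * β)‖ ≤
      14 * Real.log S ^ B := by
    refine (sum_le_card_nsmul _ _ (7 * (Real.log S ^ B / S)) fun n _ => ?_).trans (le_of_eq ?_)
    · rw [Nat.cast_succ, add_one_mul, ee_add, ← mul_sub_one, norm_mul, norm_ee, one_mul]
      exact (ee_lip β).trans (by linarith)
    · rw [Nat.card_Ico, show 5 * S - 3 * S = 2 * S by omega, nsmul_eq_mul]
      push_cast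
      field_simp
      norm_num
  rw [norm_ee] at h1
  rw [FF, VV, Ft, Ft, Wd, mul_sum, ← sum_sub_distrib]
  refine (le_of_eq (congrArg _ (sum_congr rfl fun t _ => ?_))).trans (h1.trans ?_)
  · rw [mul_add, ee_add]
    ring
  · calc _ ≤ S / Real.log S ^ (A + B + 1) * (Real.log S * Real.log S ^ B) := by
          gcongr
          nlinarith
      _ = _ := by field_simp; ring

end Pool.Agent.MP_a96b63_al.H5

namespace Pool.Agent.MP_a96b63_al.H5

open Filter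

theorem napprox_nn {q : ℕ} {a : ℤ} (hq : 2 ≤ q) (ha : IsCoprime a (q : ℤ)) {θ : ℝ}
    (h : |θ - a / q| ≤ 1 / (2 * q)) : 1 / (2 * q) ≤ nn θ := by
  have q0 : (0 : ℝ) < q := by exact_mod_cast (by omega)
  have h1 : a - q * round θ ≠ 0 := fun e => by
    have := Int.isUnit_iff.mp (ha.isUnit_of_dvd' ⟨round θ, by linarith⟩ dvd_rfl)
    omega
  have h2 : (1 : ℝ) ≤ |((a - q * round θ : ℤ) : ℝ)| := by exact_mod_cast Int.one_le_abs h1
  have h3 : ((a - q * round θ : ℤ) : ℝ) = q * ((θ - round θ) - (θ - a / q)) := by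
    push_cast
    field_simp
    ring
  rw [h3, abs_mul, abs_of_pos q0, ← div_le_iff₀' q0] at h2
  have h4 : 1 / (q : ℝ) = 1 / (2 * q) + 1 / (2 * q) := by
    field_simp
    norm_num
  have h5 := h2.trans (abs_sub _ _)
  rw [nn]
  linarith

theorem approx {w W r : ℕ} (hW : 0 < W) (hw : ∀ p : ℕ, p.Prime → p ≤ w → p ∣ W)
    (hr : r.Coprime W) (A : ℕ) :
    ∀ᶠ S : ℕ in atTop, Ap w S (S / Real.log S ^ A) (FF W r S) := by
  obtain ⟨B, hAB, hB⟩ := minor hW r (A + 1)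
  filter_upwards [hB, major hW hr (A + 1) B, ev_log (B + B) (c := 2) one_pos, ev_log_ge 2]
    with S hm hM hS hL θ
  rw [Real.rpow_one, pow_add] at hS
  have L1 : 1 ≤ Real.log S ^ B := one_le_pow₀ (by linarith)
  have L2 : Real.log S ^ (A + 1) ≤ Real.log S ^ B := pow_le_pow_right₀ (by linarith) hAB
  have L3 : 0 < Real.log S ^ (A + 1) := pow_pos (by linarith) _
  have S0 : (0 : ℝ) < S := by nlinarith
  have h2 : S / Real.log S ^ (A + 1) + S / Real.log S ^ (A + 1) ≤ S / Real.log S ^ A := by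
    have L0 : 0 < Real.log S := by linarith
    calc _ = 2 * S / Real.log S ^ (A + 1) := by ring
      _ ≤ Real.log S * S / Real.log S ^ (A + 1) := by gcongr
      _ = _ := by field_simp; ring
  have hV := nn_mul_VV S θ
  have hV0 := norm_nonneg (VV S θ)
  by_cases hθ : Maj B S θ
  · obtain ⟨q, a, hq, hqB, ha, hβ⟩ := hθ
    have h3 := hM q a _ hq hqB hβ
    rw [add_sub_cancel] at h3
    have t0 : (W.totient : ℂ) ≠ 0 := by exact_mod_cast (Nat.totient_pos.mpr hW).ne'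
    have q0 : (0 : ℝ) < q := by exact_mod_cast hq
    rcases (Nat.succ_le_of_lt hq).eq_or_lt with rfl | hq2
    · refine ⟨0, ?_, Or.inl rfl⟩
      rw [GG_one, Nat.succ_eq_add_one, zero_add, mul_one, mul_one, div_self t0, one_mul,
        Nat.cast_one, div_one, VV, sub_eq_add_neg θ, ← Int.cast_neg, Ft_add_int] at h3
      rw [sub_zero]
      exact h3.trans (le_trans (le_add_of_nonneg_right (by positivity)) h2)
    have h4 := napprox_nn hq2 ha (hβ.trans (by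
      rw [div_le_div_iff₀ S0 (by positivity)]
      nlinarith))
    have h5 : ‖VV S θ‖ ≤ S / Real.log S ^ (A + 1) := by
      have h6 : ‖VV S θ‖ ≤ q := by
        rw [div_le_iff₀ (by positivity)] at h4
        nlinarith [nn_nonneg θ]
      rw [le_div_iff₀ L3]
      nlinarith
    refine ⟨_, (congrArg _ (sub_right_comm _ _ _)).trans_le
      ((norm_sub_le _ _).trans ((add_le_add h3 h5).trans h2)), ?_⟩
    by_cases hc : W.Coprime q
    · have qz : (q : ℤ) ≠ 0 := by omega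
      have e1 : (((a % q).toNat : ℕ) : ℤ) = a % q := Int.toNat_of_nonneg (Int.emod_nonneg a qz)
      have e2 : (a % q).toNat < q := by
        have := Int.emod_lt_of_pos a (by omega : (0 : ℤ) < q)
        omega
      have qS : q ≤ S := by exact_mod_cast (by nlinarith : (q : ℝ) ≤ S)
      refine Or.inr ⟨(q, (a % q).toNat), ?_, ?_⟩
      · simp only [Fr, Finset.mem_filter, Finset.mem_product, Finset.mem_Ioc, Finset.mem_range]
        refine ⟨⟨⟨lt_of_not_ge fun h => ?_, qS⟩, by omega⟩, e2, ?_⟩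
        · have hp := Nat.minFac_prime (n := q) (by omega)
          exact hp.one_lt.ne' (Nat.eq_one_of_dvd_coprimes hc
            (hw _ hp ((Nat.minFac_le hq).trans h)) (Nat.minFac_dvd q))
        · rw [← Nat.isCoprime_iff_coprime, e1, Int.emod_def]
          simpa [sub_eq_add_neg] using ha.add_mul_left_left (-(a / q))
      · have e3 : θ - (((a % q).toNat : ℕ) : ℝ) / q = θ - a / q + (a / q : ℤ) := by
          rw [← Int.cast_natCast, e1, Int.emod_def]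
          push_cast
          field_simp
          ring
        simp only
        rw [e3, VV, VV, Ft_add_int, Nat.totient_mul hc, Nat.cast_mul, div_mul_cancel_left₀ t0,
          norm_mul, norm_mul, norm_inv, Complex.norm_natCast, div_eq_inv_mul ‖_‖]
        exact mul_le_mul_of_nonneg_right
          (mul_le_of_le_one_right (by positivity) (GG_le r hq ha hc)) (norm_nonneg _)
    · exact Or.inl (by rw [GG_zero r hq ha hc, mul_zero, zero_mul])
  · refine ⟨0, ?_, Or.inl rfl⟩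
    have h4 : Real.log S ^ B / S ≤ nn θ := le_of_not_ge fun h => hθ
      ⟨1, round θ, one_pos, by simpa using L1, isCoprime_one_right, by simpa [nn] using h⟩
    have h5 : ‖VV S θ‖ ≤ S / Real.log S ^ (A + 1) := by
      rw [div_le_iff₀ S0] at h4
      rw [le_div_iff₀ L3]
      nlinarith [mul_le_mul_of_nonneg_left (L2.trans h4) hV0]
    rw [sub_zero]
    exact (norm_sub_le _ _).trans ((add_le_add (hm θ hθ) h5).trans h2)

end Pool.Agent.MP_a96b63_al.H5

namespace Pool.Agent.MP_a96b63_al.H5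

open Finset MP_48b1c3_nt.H54

theorem ncirca_orth {Q : ℕ} (hQ : 0 < Q) {m : ℤ} (hm : |m| < Q) :
    ∑ j ∈ range Q, ee (j * ((m : ℝ) / Q)) = if m = 0 then (Q : ℂ) else 0 := by
  rw [orth hQ]
  refine if_congr ⟨fun h => Int.eq_zero_of_abs_lt_dvd h hm, fun h => h ▸ dvd_zero _⟩ rfl rfl

theorem parseval {S Q c : ℕ} (hc : 0 < c) (hQ0 : 0 < Q) (hQ : c * (2 * S) ≤ Q) (g : ℕ → ℂ)
    (φ : ℝ) : ∑ j ∈ range Q, ‖Ft S g (c * ((j : ℝ) / Q) + φ)‖ ^ 2 =
      Q * ∑ t ∈ Wd S, ‖g t‖ ^ 2 := by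
  have e : ∀ j t u : ℕ, g t * ee (t * (c * ((j : ℝ) / Q) + φ)) *
      ((starRingEnd ℂ) (g u) * (starRingEnd ℂ) (ee (u * (c * ((j : ℝ) / Q) + φ)))) =
      g t * (starRingEnd ℂ) (g u) * ee ((t - u) * φ) *
        ee (j * (((c * (t - u) : ℤ) : ℝ) / Q)) := by
    intro j t u
    rw [mul_mul_mul_comm, mul_assoc (g t * _), ← ee_neg, ← ee_add, ← ee_add]
    congr 2
    push_cast
    ring
  apply Complex.ofReal_injective
  push_cast
  simp only [← Complex.mul_conj', Ft, map_sum, map_mul, sum_mul_sum, e]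
  rw [sum_comm, mul_sum]
  refine sum_congr rfl fun t ht => ?_
  have b : ∀ u ∈ Wd S, |(c * (t - u) : ℤ)| < Q := by
    intro u hu
    simp only [Wd, mem_Ioc] at ht hu
    have h1 : |(t - u : ℤ)| < 2 * S := abs_lt.2 ⟨by omega, by omega⟩
    have h2 : (c : ℤ) * (2 * S) ≤ Q := by exact_mod_cast hQ
    rw [abs_mul, Nat.abs_cast]
    exact (mul_lt_mul_of_pos_left h1 (by exact_mod_cast hc)).trans_le h2
  rw [sum_comm, sum_eq_single_of_mem t ht]
  · rw [← mul_sum, ncirca_orth hQ0 (b t ht)]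
    simp [ee_zero, mul_comm]
  · intro u hu hut
    rw [← mul_sum, ncirca_orth hQ0 (b u hu), if_neg, mul_zero]
    exact mul_ne_zero (by omega) (by omega)

theorem cube_sum {S Q c : ℕ} (hc : 0 < c) (hQ0 : 0 < Q) (hQ : c * (2 * S) ≤ Q) (φ : ℝ) :
    ∑ j ∈ range Q, ‖VV S (c * ((j : ℝ) / Q) + φ)‖ ^ 3 ≤ Q * (4 * (S : ℝ) ^ 2) := by
  have h := parseval hc hQ0 hQ (fun _ => 1) φ
  simp only [norm_one, one_pow, sum_const, card_Wd, nsmul_eq_mul, mul_one] at h
  calc _ ≤ ∑ j ∈ range Q, 2 * S * ‖VV S (c * ((j : ℝ) / Q) + φ)‖ ^ 2 := by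
        refine sum_le_sum fun j _ => ?_
        rw [pow_succ']
        exact mul_le_mul_of_nonneg_right (norm_VV_le _ _) (by positivity)
    _ = _ := by
        rw [← mul_sum]
        simp only [VV]
        rw [h]
        push_cast
        ring

theorem triple {S L Q : ℕ} (hS : 1000 ≤ S) (h1 : 340 * S ≤ L) (h2 : L < 340 * (S + 1))
    (hQ : Q = 100 * S) (g1 g2 g3 : ℕ → ℂ) :
    ∑ j ∈ range Q, Ft S g1 ((45 : ℕ) * ((j : ℝ) / Q)) * Ft S g2 ((36 : ℕ) * ((j : ℝ) / Q)) *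
      Ft S g3 ((4 : ℕ) * ((j : ℝ) / Q)) * ee (-(L * ((j : ℝ) / Q))) =
        Q * ∑ t ∈ Sol S L, g1 t.1 * g2 t.2.1 * g3 t.2.2 := by
  have e : ∀ j : ℕ, Ft S g1 ((45 : ℕ) * ((j : ℝ) / Q)) * Ft S g2 ((36 : ℕ) * ((j : ℝ) / Q)) *
      Ft S g3 ((4 : ℕ) * ((j : ℝ) / Q)) * ee (-(L * ((j : ℝ) / Q))) =
      ∑ t ∈ Wd S ×ˢ Wd S ×ˢ Wd S, g1 t.1 * g2 t.2.1 * g3 t.2.2 *
        ee (j * (((45 * t.1 + 36 * t.2.1 + 4 * t.2.2 - L : ℤ) : ℝ) / Q)) := by
    intro j
    rw [mul_assoc (Ft S g1 _), Ft, Ft, Ft, sum_mul_sum _ _ (fun t => g2 t * _), ← sum_product',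
      sum_mul_sum, ← sum_product', sum_mul]
    refine sum_congr rfl fun t _ => ?_
    rw [show (j : ℝ) * (((45 * t.1 + 36 * t.2.1 + 4 * t.2.2 - L : ℤ) : ℝ) / Q) =
      t.1 * ((45 : ℕ) * ((j : ℝ) / Q)) + t.2.1 * ((36 : ℕ) * ((j : ℝ) / Q)) +
      t.2.2 * ((4 : ℕ) * ((j : ℝ) / Q)) + -(L * ((j : ℝ) / Q)) by push_cast; ring,
      ee_add, ee_add, ee_add]
    ring
  simp only [e]
  rw [sum_comm, Sol, sum_filter, mul_sum]
  refine sum_congr rfl fun t ht => ?_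
  simp only [Wd, mem_product, mem_Ioc] at ht
  rw [← mul_sum, ncirca_orth (by omega) (abs_lt.2 ⟨by omega, by omega⟩)]
  by_cases h : 45 * t.1 + 36 * t.2.1 + 4 * t.2.2 = L
  · rw [if_pos h, if_pos (by omega), mul_comm]
  · rw [if_neg h, if_neg (by omega), mul_zero, mul_zero]

theorem card_Sol {S L : ℕ} (hS : 1000 ≤ S) (h1 : 340 * S ≤ L) (h2 : L < 340 * (S + 1)) :
    (S : ℝ) ^ 2 / 40000 ≤ #(Sol S L) := by
  have h : #(range (S / 100) ×ˢ range (S / 100)) ≤ #(Sol S L) := by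
    refine card_le_card_of_injOn (fun z => (4 * S + L % 4 + 4 * z.1, 4 * S + z.2,
      (L - 324 * S - 45 * (L % 4)) / 4 - 45 * z.1 - 9 * z.2)) (fun z hz => ?_)
      fun z _ y _ h => ?_
    · simp only [coe_product, Set.mem_prod, mem_coe, mem_range] at hz
      simp only [Sol, Wd, mem_coe, mem_filter, mem_product, mem_Ioc]
      omega
    · simp only [Prod.mk.injEq] at h
      exact Prod.ext (by omega) (by omega)
  rw [card_product, card_range] at h
  have h3 : (S : ℝ) ≤ 200 * (S / 100 : ℕ) := by exact_mod_cast (by omega : S ≤ 200 * (S / 100))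
  have h4 : ((S / 100 : ℕ) : ℝ) * (S / 100 : ℕ) ≤ #(Sol S L) := by exact_mod_cast h
  have h5 : (0 : ℝ) ≤ S := by positivity
  nlinarith

theorem ncirca_tot (q : ℕ) (hq : 0 < q) :
    1 / (q.totient : ℝ) ^ 2 ≤ 17 ^ 8 * (1 / (q : ℝ) ^ (3 / 2 : ℝ)) := by
  have h1 := bv_le_two_pow_mul_totient q
  have h2 := bv_pow_omega_le 16 q hq
  have h3 : q ^ 3 * q ≤ 17 ^ 16 * q.totient ^ 4 * q := by
    calc q ^ 3 * q = q ^ 4 := by ring
      _ ≤ (2 ^ #q.primeFactors * q.totient) ^ 4 := Nat.pow_le_pow_left h1 4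
      _ = 16 ^ #q.primeFactors * q.totient ^ 4 := by
        rw [mul_pow, ← pow_mul, mul_comm _ 4, pow_mul]
        norm_num
      _ ≤ (16 + 1) ^ 16 * q * q.totient ^ 4 := Nat.mul_le_mul_right _ h2
      _ = _ := by ring
  have h4 : (q : ℝ) ^ 3 ≤ 17 ^ 16 * (q.totient : ℝ) ^ 4 := by
    exact_mod_cast Nat.le_of_mul_le_mul_right h3 hq
  have h5 : (0 : ℝ) < q.totient := by exact_mod_cast Nat.totient_pos.2 hq
  have h6 : (0 : ℝ) < q := by exact_mod_cast hq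
  rw [mul_one_div, div_le_div_iff₀ (by positivity) (by positivity), one_mul]
  refine le_of_sq_le_sq ?_ (by positivity)
  rw [← Real.rpow_natCast, ← Real.rpow_mul h6.le, show (3 / 2 : ℝ) * (2 : ℕ) = (3 : ℕ) by norm_num,
    Real.rpow_natCast]
  exact h4.trans_eq (by ring)

theorem tail {ε : ℝ} (hε : 0 < ε) :
    ∃ w : ℕ, ∀ P : ℕ, ∑ q ∈ Ioc w P, 1 / (q.totient : ℝ) ^ 2 ≤ ε := by
  have hs : Summable fun q : ℕ => 17 ^ 8 * (1 / (q : ℝ) ^ (3 / 2 : ℝ)) :=
    (Real.summable_one_div_nat_rpow.2 (by norm_num)).mul_left _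
  obtain ⟨s, hs⟩ := summable_iff_vanishing.1 hs _ (Iio_mem_nhds hε)
  refine ⟨s.sup id, fun P => le_trans (sum_le_sum fun q hq => ncirca_tot q ?_) (hs _ ?_).le⟩
  · exact (Nat.zero_le _).trans_lt (mem_Ioc.1 hq).1
  · exact disjoint_left.2 fun q hq h => (mem_Ioc.1 hq).1.not_ge (le_sup (f := id) h)

theorem sum_Fr (w P : ℕ) :
    ∑ z ∈ Fr w P, 1 / (z.1.totient : ℝ) ^ 3 ≤ ∑ q ∈ Ioc w P, 1 / (q.totient : ℝ) ^ 2 := by
  rw [Fr, sum_filter, sum_product]
  refine sum_le_sum fun q hq => ?_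
  have h5 : (0 : ℝ) < q.totient := by
    exact_mod_cast Nat.totient_pos.2 ((Nat.zero_le _).trans_lt (mem_Ioc.1 hq).1)
  have h : #((range P).filter fun a => a < q ∧ Nat.Coprime a q) ≤ q.totient := by
    rw [Nat.totient_eq_card_coprime]
    refine card_le_card fun a ha => ?_
    simp only [mem_filter, mem_range] at ha ⊢
    exact ⟨ha.2.1, ha.2.2.symm⟩
  have h6 : (#((range P).filter fun a => a < q ∧ Nat.Coprime a q) : ℝ) ≤ q.totient := by
    exact_mod_cast h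
  simp only [← sum_filter, sum_const, nsmul_eq_mul]
  refine (mul_le_mul_of_nonneg_right h6 (by positivity)).trans (le_of_eq ?_)
  field_simp

end Pool.Agent.MP_a96b63_al.H5

namespace Pool.Agent.MP_a96b63_al.H5

open Finset

theorem ap_fix {w S : ℕ} {E : ℝ} {F : ℝ → ℂ} (h : Ap w S E F) : ∃ D : ℝ → ℂ, ∀ θ : ℝ,
    ‖F θ - VV S θ - D θ‖ ≤ 3 * E ∧ ‖D θ‖ ≤ 2 * ‖F θ - VV S θ‖ ∧
      ‖D θ‖ ^ 3 ≤ ∑ z ∈ Fr w S, ‖VV S (θ - (z.2 : ℝ) / z.1)‖ ^ 3 / (z.1.totient : ℝ) ^ 3 := by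
  rw [← Classical.skolem (p := fun θ (D : ℂ) => ‖F θ - VV S θ - D‖ ≤ 3 * E ∧
    ‖D‖ ≤ 2 * ‖F θ - VV S θ‖ ∧
      ‖D‖ ^ 3 ≤ ∑ z ∈ Fr w S, ‖VV S (θ - (z.2 : ℝ) / z.1)‖ ^ 3 / (z.1.totient : ℝ) ^ 3)]
  intro θ
  obtain ⟨D, h1, h2⟩ := h θ
  have hE : 0 ≤ E := (norm_nonneg _).trans h1
  have n0 : ∀ z ∈ Fr w S, 0 ≤ ‖VV S (θ - (z.2 : ℝ) / z.1)‖ ^ 3 / (z.1.totient : ℝ) ^ 3 :=
    fun z _ => by positivity
  by_cases hD : ‖D‖ ≤ 2 * E
  · refine ⟨0, ?_, by simp, by simpa using sum_nonneg n0⟩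
    have := norm_add_le (F θ - VV S θ - D) D
    rw [sub_add_cancel] at this
    rw [sub_zero]
    linarith
  · have := norm_sub_le (F θ - VV S θ) (F θ - VV S θ - D)
    rw [sub_sub_cancel] at this
    refine ⟨D, by linarith, by linarith, ?_⟩
    rcases h2 with rfl | ⟨z, hz, h2⟩
    · simpa using sum_nonneg n0
    · refine le_trans ?_ (single_le_sum n0 hz)
      rw [← div_pow]
      exact pow_le_pow_left₀ (norm_nonneg _) h2 3

theorem ncircb_amgm {x y z : ℝ} (hx : 0 ≤ x) (hy : 0 ≤ y) (hz : 0 ≤ z) :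
    x * y * z ≤ 300 ^ 6 / 3 * x ^ 3 + (y ^ 3 + z ^ 3) / (3 * 300 ^ 3) := by
  have h : ∀ a b c : ℝ, 0 ≤ a → 0 ≤ b → 0 ≤ c → 3 * (a * b * c) ≤ a ^ 3 + b ^ 3 + c ^ 3 := by
    intro a b c ha hb hc
    nlinarith [mul_nonneg (add_nonneg (add_nonneg ha hb) hc)
      (add_nonneg (add_nonneg (sq_nonneg (a - b)) (sq_nonneg (b - c))) (sq_nonneg (a - c)))]
  have := h (300 ^ 2 * x) (y / 300) (z / 300) (by positivity) (by positivity) (by positivity)
  nlinarith

theorem ncircb_sq {F V D : ℂ} (d : ‖D‖ ≤ 2 * ‖F - V‖) :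
    ‖V + D‖ ^ 2 ≤ 18 * ‖V‖ ^ 2 + 8 * ‖F‖ ^ 2 := by
  have h1 := norm_add_le V D
  have h2 := norm_sub_le F V
  have h3 : ‖V + D‖ ^ 2 ≤ (3 * ‖V‖ + 2 * ‖F‖) ^ 2 :=
    pow_le_pow_left₀ (norm_nonneg _) (by linarith) 2
  nlinarith [sq_nonneg (3 * ‖V‖ - 2 * ‖F‖)]

theorem ncircb_cube (V D : ℂ) : ‖V + D‖ ^ 3 ≤ 4 * (‖V‖ ^ 3 + ‖D‖ ^ 3) := by
  have h3 := pow_le_pow_left₀ (norm_nonneg _) (norm_add_le V D) 3
  nlinarith [mul_nonneg (add_nonneg (norm_nonneg V) (norm_nonneg D)) (sq_nonneg (‖V‖ - ‖D‖))]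

theorem ncircb_err {e x y E : ℝ} (he : 0 ≤ e) (h : e ≤ 3 * E) (hx : 0 ≤ x) (hy : 0 ≤ y) :
    e * x * y ≤ 3 / 2 * (E * x ^ 2 + E * y ^ 2) := by
  have := mul_le_mul_of_nonneg_right h (mul_nonneg hx hy)
  nlinarith [mul_nonneg (he.trans h) (sq_nonneg (x - y))]

theorem pointwise {F1 F2 F3 V1 V2 V3 D1 D2 D3 : ℂ} {E : ℝ} (e1 : ‖F1 - V1 - D1‖ ≤ 3 * E)
    (e2 : ‖F2 - V2 - D2‖ ≤ 3 * E) (e3 : ‖F3 - V3 - D3‖ ≤ 3 * E) (d1 : ‖D1‖ ≤ 2 * ‖F1 - V1‖)
    (d2 : ‖D2‖ ≤ 2 * ‖F2 - V2‖) :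
    ‖F1 * F2 * F3 - V1 * V2 * V3‖ ≤
      (60 * E * (‖F1‖ ^ 2 + ‖V1‖ ^ 2) + 300 ^ 6 * ‖D1‖ ^ 3 + 3 / 300 ^ 3 * ‖V1‖ ^ 3) +
      (60 * E * (‖F2‖ ^ 2 + ‖V2‖ ^ 2) + 300 ^ 6 * ‖D2‖ ^ 3 + 3 / 300 ^ 3 * ‖V2‖ ^ 3) +
      (60 * E * (‖F3‖ ^ 2 + ‖V3‖ ^ 2) + 300 ^ 6 * ‖D3‖ ^ 3 + 3 / 300 ^ 3 * ‖V3‖ ^ 3) := by
  have hE : 0 ≤ E := by linarith [norm_nonneg (F1 - V1 - D1)]
  have e : F1 * F2 * F3 - V1 * V2 * V3 = (F1 - V1 - D1) * F2 * F3 +
      (F2 - V2 - D2) * (V1 + D1) * F3 + (F3 - V3 - D3) * (V1 + D1) * (V2 + D2) +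
      D1 * (V2 + D2) * (V3 + D3) + D2 * V1 * (V3 + D3) + D3 * V1 * V2 := by ring
  have n := norm_nonneg (E := ℂ)
  have t : ∀ a b c d e f : ℂ, ‖a + b + c + d + e + f‖ ≤ ‖a‖ + ‖b‖ + ‖c‖ + ‖d‖ + ‖e‖ + ‖f‖ :=
    fun a b c d e f => norm_add_le_of_le (norm_add_le_of_le (norm_add_le_of_le (norm_add_le_of_le
      (norm_add_le _ _) le_rfl) le_rfl) le_rfl) le_rfl
  rw [e]
  refine (t _ _ _ _ _ _).trans ?_
  simp only [norm_mul]
  have a1 := ncircb_err (n _) e1 (n F2) (n F3)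
  have a2 := ncircb_err (n _) e2 (n (V1 + D1)) (n F3)
  have a3 := ncircb_err (n _) e3 (n (V1 + D1)) (n (V2 + D2))
  have b1 := mul_le_mul_of_nonneg_left (ncircb_sq d1) hE
  have b2 := mul_le_mul_of_nonneg_left (ncircb_sq d2) hE
  have c1 := ncircb_amgm (n D1) (n (V2 + D2)) (n (V3 + D3))
  have c2 := ncircb_amgm (n D2) (n V1) (n (V3 + D3))
  have c3 := ncircb_amgm (n D3) (n V1) (n V2)
  have p : ∀ z : ℂ, 0 ≤ E * ‖z‖ ^ 2 := fun z => by positivity
  have q : ∀ z : ℂ, 0 ≤ ‖z‖ ^ 3 := fun z => by positivity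
  linarith [ncircb_cube V2 D2, ncircb_cube V3 D3, p F1, p F2, p F3, p V1, p V2, p V3,
    q D1, q D2, q D3, q V1, q V2, q V3]

theorem avg {w S Q c : ℕ} (hc : 0 < c) (hQ0 : 0 < Q) (hQ : c * (2 * S) ≤ Q) {E Λ : ℝ}
    (hE0 : 0 ≤ E) (hΛ : 1 ≤ Λ) (hE : 10 ^ 8 * E * Λ ^ 2 ≤ S)
    (ht : ∑ q ∈ Ioc w S, 1 / (q.totient : ℝ) ^ 2 ≤ 1 / 300 ^ 9) {g : ℕ → ℂ}
    (hg : ∀ t ∈ Wd S, ‖g t‖ ≤ Λ) {D : ℝ → ℂ} (hD : ∀ θ : ℝ, ‖D θ‖ ^ 3 ≤
      ∑ z ∈ Fr w S, ‖VV S (θ - (z.2 : ℝ) / z.1)‖ ^ 3 / (z.1.totient : ℝ) ^ 3) :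
    ∑ j ∈ range Q, (60 * E * (‖Ft S g (c * ((j : ℝ) / Q))‖ ^ 2 + ‖VV S (c * ((j : ℝ) / Q))‖ ^ 2) +
      300 ^ 6 * ‖D (c * ((j : ℝ) / Q))‖ ^ 3 + 3 / 300 ^ 3 * ‖VV S (c * ((j : ℝ) / Q))‖ ^ 3) ≤
        Q * ((S : ℝ) ^ 2 / 200000) := by
  have h1 := parseval hc hQ0 hQ g 0
  have h2 := parseval hc hQ0 hQ (fun _ => 1) 0
  have h3 := cube_sum hc hQ0 hQ 0
  simp only [add_zero, norm_one, one_pow, sum_const, card_Wd, nsmul_eq_mul, mul_one] at h1 h2 h3
  have h4 : ∑ t ∈ Wd S, ‖g t‖ ^ 2 ≤ 2 * S * Λ ^ 2 := by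
    refine (sum_le_card_nsmul _ _ (Λ ^ 2) fun t ht =>
      pow_le_pow_left₀ (norm_nonneg _) (hg t ht) 2).trans_eq ?_
    simp [card_Wd]
  have h5 : ∑ j ∈ range Q, ‖D (c * ((j : ℝ) / Q))‖ ^ 3 ≤ Q * (4 * (S : ℝ) ^ 2) * (1 / 300 ^ 9) := by
    refine (sum_le_sum fun j _ => hD _).trans ?_
    rw [sum_comm]
    refine le_trans ?_ (mul_le_mul_of_nonneg_left ((sum_Fr w S).trans ht) (by positivity))
    rw [mul_sum]
    refine sum_le_sum fun z _ => ?_
    rw [← sum_div, mul_one_div]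
    exact div_le_div_of_nonneg_right
      (by simpa only [← sub_eq_add_neg] using cube_sum hc hQ0 hQ (-((z.2 : ℝ) / z.1)))
      (by positivity)
  have q0 : (0 : ℝ) ≤ Q := by positivity
  have s0 : (0 : ℝ) ≤ S := by positivity
  have h6 : E ≤ E * Λ ^ 2 := le_mul_of_one_le_right hE0 (one_le_pow₀ hΛ)
  have h7 := mul_le_mul_of_nonneg_left h4 (mul_nonneg hE0 q0)
  have h8 := mul_le_mul_of_nonneg_left hE (mul_nonneg q0 s0)
  have h9 := mul_le_mul_of_nonneg_left h6 (mul_nonneg q0 s0)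
  simp only [sum_add_distrib, ← mul_sum]
  rw [h1, show ∑ j ∈ range Q, ‖VV S (c * ((j : ℝ) / Q))‖ ^ 2 = _ from h2]
  push_cast
  nlinarith [mul_nonneg q0 (sq_nonneg (S : ℝ))]

theorem circle {w S L : ℕ} (hS : 1000 ≤ S) (h1 : 340 * S ≤ L) (h2 : L < 340 * (S + 1))
    {E Λ : ℝ} (hΛ : 1 ≤ Λ) (hE : 10 ^ 8 * E * Λ ^ 2 ≤ S)
    (ht : ∑ q ∈ Ioc w S, 1 / (q.totient : ℝ) ^ 2 ≤ 1 / 300 ^ 9) {g1 g2 g3 : ℕ → ℂ}
    (b1 : ∀ t ∈ Wd S, ‖g1 t‖ ≤ Λ) (b2 : ∀ t ∈ Wd S, ‖g2 t‖ ≤ Λ) (b3 : ∀ t ∈ Wd S, ‖g3 t‖ ≤ Λ)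
    (a1 : Ap w S E (Ft S g1)) (a2 : Ap w S E (Ft S g2)) (a3 : Ap w S E (Ft S g3)) :
    ∃ t ∈ Sol S L, g1 t.1 ≠ 0 ∧ g2 t.2.1 ≠ 0 ∧ g3 t.2.2 ≠ 0 := by
  by_contra hn
  have hE0 : 0 ≤ E := (a1 0).elim fun D h => (norm_nonneg _).trans h.1
  obtain ⟨D1, d1⟩ := ap_fix a1
  obtain ⟨D2, d2⟩ := ap_fix a2
  obtain ⟨D3, d3⟩ := ap_fix a3
  obtain ⟨Q, hQ⟩ : ∃ Q, Q = 100 * S := ⟨_, rfl⟩
  have q0 : 0 < Q := by omega
  have t1 := triple hS h1 h2 hQ g1 g2 g3
  have t2 := triple hS h1 h2 hQ (fun _ => 1) (fun _ => 1) fun _ => 1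
  rw [sum_eq_zero (s := Sol S L) fun t ht => by_contra fun h =>
    hn ⟨t, ht, by simpa [not_or, and_assoc] using h⟩, mul_zero] at t1
  have v1 := avg (c := 45) (by norm_num) q0 (by omega) hE0 hΛ hE ht b1 fun θ => (d1 θ).2.2
  have v2 := avg (c := 36) (by norm_num) q0 (by omega) hE0 hΛ hE ht b2 fun θ => (d2 θ).2.2
  have v3 := avg (c := 4) (by norm_num) q0 (by omega) hE0 hΛ hE ht b3 fun θ => (d3 θ).2.2
  have h3 := congrArg₂ (fun x y : ℂ => ‖x - y‖) t1 t2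
  simp only [← sum_sub_distrib, ← sub_mul, mul_one, sum_const, nsmul_eq_mul, zero_sub, norm_neg,
    norm_mul, Complex.norm_natCast] at h3
  have h4 := h3.ge.trans ((norm_sum_le _ _).trans (sum_le_sum fun j _ =>
    ((norm_mul _ _).trans (by rw [norm_ee, mul_one]; rfl)).trans_le
      (pointwise (d1 _).1 (d2 _).1 (d3 _).1 (d1 _).2.1 (d2 _).2.1)))
  rw [sum_add_distrib, sum_add_distrib] at h4
  have h5 := mul_le_mul_of_nonneg_left (card_Sol hS h1 h2) (Nat.cast_nonneg (α := ℝ) Q)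
  have h6 : (0 : ℝ) < Q * (S : ℝ) ^ 2 :=
    mul_pos (by exact_mod_cast q0) (pow_pos (by exact_mod_cast (by omega : 0 < S)) 2)
  linarith

end Pool.Agent.MP_a96b63_al.H5

namespace Pool.Agent.MP_a96b63_al.H5

open Finset Filter

theorem nthree_ff {W r S t : ℕ} (hW : 0 < W) (hS : r + 5 * W ≤ S) (ht : t ∈ Wd S) :
    ‖(ff W r t : ℂ)‖ ≤ 2 * Real.log S := by
  have ht2 := (mem_Ioc.1 ht).2
  have h0 : (0 : ℝ) < W := by exact_mod_cast hW
  have h1 : (W.totient : ℝ) / W ≤ 1 := (div_le_one h0).2 (by exact_mod_cast Nat.totient_le W)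
  have h2 : (0 : ℝ) ≤ (W.totient : ℝ) / W := by positivity
  have h3 : r + W * t ≤ S ^ 2 := by nlinarith [Nat.mul_le_mul_left W ht2]
  have h4 : Real.log ((r + W * t : ℕ) : ℝ) ≤ 2 * Real.log S := by
    rcases Nat.eq_zero_or_pos (r + W * t) with e | e
    · rw [e]
      simpa using Real.log_natCast_nonneg S
    · refine (Real.log_le_log (by exact_mod_cast e) (by exact_mod_cast h3 : _ ≤ (S : ℝ) ^ 2)).trans ?_
      rw [Real.log_pow]
      norm_num
  rw [Complex.norm_real, ff, Real.norm_of_nonneg (mul_nonneg h2 (lam_nonneg _))]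
  exact (mul_le_of_le_one_left (lam_nonneg _) h1).trans ((lam_le_log _).trans h4)

theorem nthree_prime {W r t : ℕ} (h : (ff W r t : ℂ) ≠ 0) : (r + W * t).Prime := by
  by_contra hp
  exact h (by simp [ff, lam, hp])

theorem three_W : ∃ w : ℕ, ∀ W r1 r2 r3 : ℕ, 0 < W → (∀ p : ℕ, p.Prime → p ≤ w → p ∣ W) →
    r1.Coprime W → r2.Coprime W → r3.Coprime W → ∀ᶠ L : ℕ in atTop, ∃ t ∈ Sol (L / 340) L,
      (r1 + W * t.1).Prime ∧ (r2 + W * t.2.1).Prime ∧ (r3 + W * t.2.2).Prime := by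
  obtain ⟨w, hw⟩ := tail (ε := 1 / 300 ^ 9) (by positivity)
  refine ⟨w, fun W r1 r2 r3 hW hp h1 h2 h3 => ?_⟩
  have key : ∀ᶠ S : ℕ in atTop, ∀ L : ℕ, 340 * S ≤ L → L < 340 * (S + 1) → ∃ t ∈ Sol S L,
      (r1 + W * t.1).Prime ∧ (r2 + W * t.2.1).Prime ∧ (r3 + W * t.2.2).Prime := by
    filter_upwards [approx hW hp h1 3, approx hW hp h2 3, approx hW hp h3 3,
      eventually_ge_atTop 1000, eventually_ge_atTop (r1 + r2 + r3 + 5 * W),
      ev_log_ge (4 * 10 ^ 8)] with S a1 a2 a3 s1 s2 s3 L l1 l2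
    have hl : 0 < Real.log S := by linarith
    have hE : 10 ^ 8 * (S / Real.log S ^ 3) * (2 * Real.log S) ^ 2 ≤ (S : ℝ) := by
      have e : 10 ^ 8 * (S / Real.log S ^ 3) * (2 * Real.log S) ^ 2 =
          (S : ℝ) * (4 * 10 ^ 8 / Real.log S) := by
        field_simp
        ring
      rw [e]
      exact mul_le_of_le_one_right (Nat.cast_nonneg _) ((div_le_one hl).2 s3)
    obtain ⟨t, ht, n1, n2, n3⟩ := circle s1 l1 l2 (Λ := 2 * Real.log S) (by linarith) hE (hw S)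
      (fun t ht => nthree_ff hW (by omega) ht) (fun t ht => nthree_ff hW (by omega) ht)
      (fun t ht => nthree_ff hW (by omega) ht) a1 a2 a3
    exact ⟨t, ht, nthree_prime n1, nthree_prime n2, nthree_prime n3⟩
  filter_upwards [(Nat.tendsto_div_const_atTop (n := 340) (by norm_num)).eventually key] with L hL
  exact hL L (by omega) (by omega)

/-- the residues modulo `330` -/
def nthree_tab : List (ℕ × ℕ × ℕ) :=
  [(7, 131, 67), (13, 131, 1), (7, 47, 1), (7, 203, 1), (13, 49, 1), (7, 31, 67), (13, 31, 1),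
   (7, 167, 1), (7, 103, 1), (7, 149, 1), (7, 41, 67), (7, 131, 1), (13, 197, 1), (7, 113, 1),
   (7, 49, 1), (13, 71, 67), (7, 31, 1), (13, 97, 1), (7, 13, 1), (7, 59, 1), (7, 61, 67),
   (7, 41, 1), (7, 197, 1), (13, 43, 1), (7, 179, 1), (7, 71, 67), (13, 71, 1), (7, 97, 1),
   (13, 53, 1), (7, 79, 1), (7, 191, 67), (7, 61, 1), (7, 107, 1), (7, 43, 1), (13, 109, 1),
   (7, 91, 67), (7, 71, 1), (13, 137, 1), (7, 53, 1), (13, 119, 1), (7, 101, 67), (7, 191, 1),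
   (7, 17, 1), (7, 173, 1), (7, 109, 1), (13, 131, 67), (7, 91, 1), (7, 137, 1), (13, 203, 1),
   (7, 119, 1), (13, 31, 67), (7, 101, 1), (7, 37, 1), (7, 83, 1), (7, 19, 1)]

theorem nthree_base0 : ∀ n < 55, ∃ x ∈ nthree_tab, Nat.gcd x.1 330 = 1 ∧ Nat.gcd x.2.1 330 = 1 ∧
    Nat.gcd x.2.2 330 = 1 ∧ x.1 % 11 ≠ 1 ∧ x.2.1 % 11 ≠ 1 ∧ x.1 % 11 ≠ x.2.1 % 11 ∧
      x.2.2 % 66 = 1 ∧ (45 * x.1 + 36 * x.2.1 + 4 * x.2.2 + 641) % 330 = 6 * n % 330 := by
  decide +kernel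

theorem nthree_step {p : ℕ} (hp : p.Prime) (h : ¬ p ∣ 330) (N : ℕ) : ∃ a2 a3 : ℕ,
    a2.Coprime p ∧ a3.Coprime p ∧ 45 * 1 + 36 * a2 + 4 * a3 + 641 ≡ 6 * N [MOD p] := by
  have := Fact.mk hp
  have h2 : ¬ p ∣ 2 := fun e => h (e.trans (by norm_num))
  have h3 : ¬ p ∣ 3 := fun e => h (e.trans (by norm_num))
  have z2 : (2 : ZMod p) ≠ 0 := fun e => h2 ((ZMod.natCast_eq_zero_iff 2 p).1 (by exact_mod_cast e))
  have z3 : (3 : ZMod p) ≠ 0 := fun e => h3 ((ZMod.natCast_eq_zero_iff 3 p).1 (by exact_mod_cast e))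
  have z4 : (4 : ZMod p) ≠ 0 := by
    rw [show (4 : ZMod p) = 2 * 2 by norm_num]
    exact mul_ne_zero z2 z2
  have z36 : (36 : ZMod p) ≠ 0 := by
    rw [show (36 : ZMod p) = 4 * (3 * 3) by norm_num]
    exact mul_ne_zero z4 (mul_ne_zero z3 z3)
  have key : ∀ c : ℕ, c.Coprime p → (6 * N - 686 - 36 * c : ZMod p) ≠ 0 → ∃ a2 a3 : ℕ,
      a2.Coprime p ∧ a3.Coprime p ∧ 45 * 1 + 36 * a2 + 4 * a3 + 641 ≡ 6 * N [MOD p] := by
    intro c hc hx
    refine ⟨c, ((6 * N - 686 - 36 * c : ZMod p) / 4).val, hc, ?_, ?_⟩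
    · refine ((Nat.Prime.coprime_iff_not_dvd hp).2 fun e => ?_).symm
      rw [← ZMod.natCast_eq_zero_iff, ZMod.natCast_zmod_val] at e
      exact div_ne_zero hx z4 e
    · rw [← ZMod.natCast_eq_natCast_iff]
      push_cast
      rw [ZMod.natCast_zmod_val, mul_div_cancel₀ _ z4]
      ring
  by_cases e : (6 * N - 686 - 36 * (1 : ℕ) : ZMod p) = 0
  · refine key 2 ((Nat.Prime.coprime_iff_not_dvd hp).2 h2).symm fun e2 => z36 ?_
    push_cast at e e2
    linear_combination e - e2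
  · exact key 1 (Nat.coprime_one_left p) e

theorem nthree_cop {a b W : ℕ} (h : a ≡ b [MOD W]) (hb : b.Coprime W) : a.Coprime W :=
  h.gcd_eq.trans hb

theorem nthree_ind (N : ℕ) (s : Finset ℕ) : (∀ p ∈ s, p.Prime ∧ ¬ p ∣ 330) → ∀ W : ℕ,
    W = 330 * ∏ p ∈ s, p → ∃ r1 r2 r3 : ℕ, r1.Coprime W ∧ r2.Coprime W ∧ r3.Coprime W ∧
      r1 % 11 ≠ 1 ∧ r2 % 11 ≠ 1 ∧ r1 % 11 ≠ r2 % 11 ∧ r3 % 66 = 1 ∧
        45 * r1 + 36 * r2 + 4 * r3 + 641 ≡ 6 * N [MOD W] := by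
  induction s using Finset.induction_on with
  | empty =>
    rintro - W rfl
    obtain ⟨x, -, c1, c2, c3, m1, m2, m3, m4, m5⟩ := nthree_base0 (N % 55) (Nat.mod_lt _ (by norm_num))
    rw [prod_empty, mul_one]
    refine ⟨x.1, x.2.1, x.2.2, c1, c2, c3, m1, m2, m3, m4, m5.trans ?_⟩
    omega
  | insert p s hps ih =>
    rintro hs W rfl
    obtain ⟨hp, h330⟩ := hs p (mem_insert_self _ _)
    obtain ⟨r1, r2, r3, c1, c2, c3, m1, m2, m3, m4, m5⟩ :=
      ih (fun q hq => hs q (mem_insert_of_mem hq)) _ rfl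
    obtain ⟨a2, a3, d2, d3, d4⟩ := nthree_step hp h330 N
    rw [prod_insert hps, mul_left_comm, mul_comm p]
    have hc : (330 * ∏ p ∈ s, p).Coprime p := by
      refine Nat.Coprime.mul_left ((Nat.Prime.coprime_iff_not_dvd hp).2 h330).symm
        (Nat.Coprime.prod_left fun q hq => ?_)
      exact (Nat.coprime_primes (hs q (mem_insert_of_mem hq)).1 hp).2 fun e => hps (e ▸ hq)
    generalize ∏ p ∈ s, p = M at *
    obtain ⟨x1, u1, v1⟩ := Nat.chineseRemainder hc r1 1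
    obtain ⟨x2, u2, v2⟩ := Nat.chineseRemainder hc r2 a2
    obtain ⟨x3, u3, v3⟩ := Nat.chineseRemainder hc r3 a3
    have e1 : x1 % 11 = r1 % 11 := u1.of_dvd (Dvd.dvd.mul_right (by norm_num) M)
    have e2 : x2 % 11 = r2 % 11 := u2.of_dvd (Dvd.dvd.mul_right (by norm_num) M)
    have e3 : x3 % 66 = r3 % 66 := u3.of_dvd (Dvd.dvd.mul_right (by norm_num) M)
    refine ⟨x1, x2, x3, (nthree_cop u1 c1).mul_right (nthree_cop v1 (Nat.coprime_one_left p)),
      (nthree_cop u2 c2).mul_right (nthree_cop v2 d2),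
      (nthree_cop u3 c3).mul_right (nthree_cop v3 d3), e1 ▸ m1, e2 ▸ m2, e1 ▸ e2 ▸ m3, e3 ▸ m4,
      (Nat.modEq_and_modEq_iff_modEq_mul hc).1 ⟨?_, ?_⟩⟩
    · exact ((((u1.mul_left 45).add (u2.mul_left 36)).add (u3.mul_left 4)).add_right 641).trans m5
    · exact ((((v1.mul_left 45).add (v2.mul_left 36)).add (v3.mul_left 4)).add_right 641).trans d4

theorem resid (s : Finset ℕ) (hs : ∀ p ∈ s, p.Prime ∧ ¬ p ∣ 330) {W : ℕ}
    (hW : W = 330 * ∏ p ∈ s, p) (N : ℕ) :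
    ∃ r1 r2 r3 : ℕ, r1 < W ∧ r2 < W ∧ r3 < W ∧ r1.Coprime W ∧ r2.Coprime W ∧ r3.Coprime W ∧
      r1 % 11 ≠ 1 ∧ r2 % 11 ≠ 1 ∧ r1 % 11 ≠ r2 % 11 ∧ r3 % 66 = 1 ∧
        45 * r1 + 36 * r2 + 4 * r3 + 641 ≡ 6 * N [MOD W] := by
  obtain ⟨r1, r2, r3, c1, c2, c3, m1, m2, m3, m4, m5⟩ := nthree_ind N s hs W hW
  have h0 : 0 < W := hW ▸ Nat.mul_pos (by norm_num) (prod_pos fun p hp => (hs p hp).1.pos)
  have u1 := Nat.mod_modEq r1 W
  have u2 := Nat.mod_modEq r2 W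
  have u3 := Nat.mod_modEq r3 W
  have e1 : r1 % W % 11 = r1 % 11 := u1.of_dvd (hW ▸ Dvd.dvd.mul_right (by norm_num) _)
  have e2 : r2 % W % 11 = r2 % 11 := u2.of_dvd (hW ▸ Dvd.dvd.mul_right (by norm_num) _)
  have e3 : r3 % W % 66 = r3 % 66 := u3.of_dvd (hW ▸ Dvd.dvd.mul_right (by norm_num) _)
  exact ⟨r1 % W, r2 % W, r3 % W, Nat.mod_lt _ h0, Nat.mod_lt _ h0, Nat.mod_lt _ h0,
    nthree_cop u1 c1, nthree_cop u2 c2, nthree_cop u3 c3, e1 ▸ m1, e2 ▸ m2, e1 ▸ e2 ▸ m3, e3 ▸ m4,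
    ((((u1.mul_left 45).add (u2.mul_left 36)).add (u3.mul_left 4)).add_right 641).trans m5⟩

theorem nthree_ge {W r S t : ℕ} (hW : 330 ≤ W) (ht : t ∈ Wd S) : 330 ≤ r + W * t := by
  have := (mem_Ioc.1 ht).1
  nlinarith

theorem nthree_nd {W r r' S t t' : ℕ} (hW : 330 ≤ W) (hr : r' < W) (ht : t ∈ Wd S) (ht' : t' ∈ Wd S)
    (hp : (r + W * t).Prime) (hp' : (r' + W * t').Prime) : ¬ r + W * t ∣ r' + W * t' - 1 := by
  have g1 := nthree_ge (r := r) hW ht
  have g2 := nthree_ge (r := r') hW ht'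
  have l1 : r' + W * t' < 2 * (r + W * t) := by
    have a1 := Nat.mul_le_mul_left W (mem_Ioc.1 ht').2
    have a2 := Nat.mul_le_mul_left W (Nat.succ_le_of_lt (mem_Ioc.1 ht).1)
    nlinarith
  have o1 := hp.eq_two_or_odd
  have o2 := hp'.eq_two_or_odd
  generalize r + W * t = x at *
  generalize r' + W * t' = y at *
  rintro ⟨c, hc⟩
  rcases c with _ | _ | c
  · omega
  · omega
  · have : x * (c + 1 + 1) = x * c + 2 * x := by ring
    omega

theorem three : ∀ᶠ N : ℕ in atTop, ∃ q1 q2 q3 : ℕ, PQ q1 q2 q3 ∧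
    6 * N = 45 * q1 + 36 * q2 + 4 * q3 + 641 := by
  obtain ⟨w, hw⟩ := three_W
  obtain ⟨s, hs⟩ : ∃ s, s = (range (w + 1)).filter fun p => p.Prime ∧ ¬ p ∣ 330 := ⟨_, rfl⟩
  have hs1 : ∀ p ∈ s, p.Prime ∧ ¬ p ∣ 330 := fun p hp => by
    rw [hs] at hp
    exact (mem_filter.1 hp).2
  obtain ⟨W, hW⟩ : ∃ W, W = 330 * ∏ p ∈ s, p := ⟨_, rfl⟩
  have hM : 0 < ∏ p ∈ s, p := prod_pos fun p hp => (hs1 p hp).1.pos
  have h330 : 330 ≤ W := by omega
  have hd : ∀ p : ℕ, p.Prime → p ≤ w → p ∣ W := by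
    intro p hp hpw
    rw [hW]
    by_cases h : p ∣ 330
    · exact h.mul_right _
    · have hm : p ∈ s := by
        rw [hs]
        exact mem_filter.2 ⟨mem_range.2 (by omega), hp, h⟩
      exact (dvd_prod_of_mem _ hm).mul_left _
  have key : ∀ᶠ L : ℕ in atTop, ∀ r ∈ range W ×ˢ range W ×ˢ range W, r.1.Coprime W →
      r.2.1.Coprime W → r.2.2.Coprime W → ∃ t ∈ Sol (L / 340) L,
        (r.1 + W * t.1).Prime ∧ (r.2.1 + W * t.2.1).Prime ∧ (r.2.2 + W * t.2.2).Prime := by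
    refine (Finset.eventually_all _).2 fun r _ => ?_
    by_cases h : r.1.Coprime W ∧ r.2.1.Coprime W ∧ r.2.2.Coprime W
    · exact (hw W _ _ _ (by omega) hd h.1 h.2.1 h.2.2).mono fun L hL _ _ _ => hL
    · exact Eventually.of_forall fun L a b c => absurd ⟨a, b, c⟩ h
  obtain ⟨L0, hL0⟩ := eventually_atTop.1 key
  filter_upwards [eventually_ge_atTop (85 * W + 641 + W * L0)] with N hN
  obtain ⟨r1, r2, r3, b1, b2, b3, c1, c2, c3, m1, m2, m3, m4, m5⟩ := resid s hs1 hW N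
  obtain ⟨L, hL⟩ := (Nat.modEq_iff_dvd' (by omega)).1 m5
  have hLL : L0 ≤ L := by
    have h1 : W * L0 ≤ W * L := by omega
    exact Nat.le_of_mul_le_mul_left h1 (by omega)
  obtain ⟨t, ht, p1, p2, p3⟩ := hL0 L hLL (r1, r2, r3) (by simp [b1, b2, b3]) c1 c2 c3
  dsimp only at p1 p2 p3
  simp only [Sol, mem_filter, mem_product] at ht
  obtain ⟨⟨t1, t2, t3⟩, hsum⟩ := ht
  have e11 : ∀ r x : ℕ, (r + W * x) % 11 = r % 11 := fun r x => by
    rw [hW, mul_assoc]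
    omega
  have e66 : ∀ r x : ℕ, (r + W * x) % 66 = r % 66 := fun r x => by
    rw [hW, mul_assoc]
    omega
  have f1 := e11 r1 t.1
  have f2 := e11 r2 t.2.1
  have f3 := e66 r3 t.2.2
  have g1 := nthree_ge (r := r1) h330 t1
  have g2 := nthree_ge (r := r2) h330 t2
  have g3 := nthree_ge (r := r3) h330 t3
  refine ⟨r1 + W * t.1, r2 + W * t.2.1, r3 + W * t.2.2, ⟨p1, p2, p3, by omega, by omega, by omega, by omega, by omega, by omega,
    by omega, by omega, by omega, nthree_nd h330 b2 t1 t2 p1 p2, nthree_nd h330 b3 t1 t3 p1 p3,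
    nthree_nd h330 b1 t2 t1 p2 p1, nthree_nd h330 b3 t2 t3 p2 p3, nthree_nd h330 b1 t3 t1 p3 p1,
    nthree_nd h330 b2 t3 t2 p3 p2⟩, ?_⟩
  have : W * L = 45 * (W * t.1) + 36 * (W * t.2.1) + 4 * (W * t.2.2) := by
    rw [← hsum]
    ring
  omega

end Pool.Agent.MP_a96b63_al.H5
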